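import Pool.Agent.Helper31.AR.RhoBasic

/-!
# AR-35: the additive character of `L = F[X] / v`

`L` is a finite field with `q ^ (deg v)` elements, `t` a root of the monic irreducible polynomial `v`. Every `z ∈ L` is `g(t)` for
a unique `g ∈ PN F (deg v)` (the evaluation `PN F (deg v) → L` is injective: `v ∣ g - g'` (`minpoly`; `v` irreducible with root
`t`) and the degrees are smaller; same cardinality). Define `e z = ψ (rho v g)`; it is additive (`rho_add`) and for
arbitrary `g`, `g(t) = (g %ₘ v)(t)`, `rho v g = rho v (g %ₘ v)` (`rho_congr`). To define it: `aeval t` induces an isomorphism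
`AdjoinRoot v ≃ L`, or use `Classical.choose` of the preimage. It is nontrivial: take `x ∈ F` with `ψ x ≠ 1` and
`g = C x * X ^ (deg v - 1)`, `rho v g = x`.
-/

set_option autoImplicit false

open Polynomial

namespace Pool.Agent.Helper31.AR

variable {F : Type} [Field F] [Fintype F] {L : Type} [Field L] [Fintype L] [Algebra F L]

theorem exists_addChar (ψ : AddChar F ℂ) (hψ : ψ ≠ 1) {t : L} {v : F[X]} (hv : v.Monic)
    (hirr : Irreducible v) (ht : aeval t v = 0)
    (hL : Fintype.card L = Fintype.card F ^ v.natDegree) :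
    ∃ e : AddChar L ℂ, e ≠ 1 ∧ ∀ g : F[X], e (aeval t g) = ψ (rho v g) := by
  classical
  have hmin : v = minpoly F t := minpoly.eq_of_irreducible_of_monic hirr ht hv
  have hdvd : ∀ g : F[X], aeval t g = 0 → v ∣ g := by
    intro g hg
    rw [hmin]
    exact minpoly.dvd F t hg
  have hdpos : 0 < v.natDegree := hirr.natDegree_pos
  -- every element of `L` is the value of a polynomial
  let f : PN F v.natDegree → L := fun g => aeval t (g : F[X])
  have hinj : Function.Injective f := by
    rintro ⟨g, hg⟩ ⟨g', hg'⟩ h
    apply Subtype.ext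
    change g = g'
    have h1 : aeval t (g - g') = 0 := by
      rw [map_sub, sub_eq_zero]
      exact h
    have h2 := hdvd _ h1
    have h3 := sub_mem_PN hg hg'
    rw [mem_PN, ← degree_eq_natDegree hv.ne_zero] at h3
    exact sub_eq_zero.1 (eq_zero_of_dvd_of_degree_lt h2 h3)
  have hbij : Function.Bijective f := by
    rw [Fintype.bijective_iff_injective_and_card]
    refine ⟨hinj, ?_⟩
    rw [Fintype.card_coe, card_PN, hL]
  choose G hG using fun z : L => hbij.2 z
  have hG' : ∀ z, aeval t ((G z : F[X])) = z := hG
  have hkey : ∀ (g : F[X]) (z : L), aeval t g = z → rho v g = rho v (G z : F[X]) := by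
    intro g z hg
    refine rho_congr hv (hdvd _ ?_)
    rw [map_sub, hg, hG', sub_self]
  let e : AddChar L ℂ :=
    { toFun := fun z => ψ (rho v (G z : F[X]))
      map_zero_eq_one' := by
        rw [← hkey 0 0 (map_zero _), rho_zero, AddChar.map_zero_eq_one]
      map_add_eq_mul' := by
        intro x y
        rw [← hkey ((G x : F[X]) + (G y : F[X])) (x + y) (by rw [map_add, hG', hG']), rho_add,
          AddChar.map_add_eq_mul] }
  have he : ∀ g : F[X], e (aeval t g) = ψ (rho v g) := by
    intro g
    change ψ (rho v (G (aeval t g) : F[X])) = ψ (rho v g)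
    rw [← hkey g _ rfl]
  refine ⟨e, ?_, he⟩
  intro h1
  apply hψ
  ext x
  have h2 := he (C x * X ^ (v.natDegree - 1))
  have h3 : rho v (X ^ (v.natDegree - 1)) = 1 := by
    unfold rho
    rw [(modByMonic_eq_self_iff hv).2, coeff_X_pow_self]
    rw [degree_X_pow, degree_eq_natDegree hv.ne_zero]
    exact_mod_cast Nat.sub_lt hdpos one_pos
  rw [h1, rho_C_mul, h3, mul_one, AddChar.one_apply] at h2
  rw [← h2, AddChar.one_apply]

end Pool.Agent.Helper31.AR
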