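import Pool.Agent.Helper31.AR.Defs

/-!
# AR-01: basic properties of `rho`

`rho M f = (f %ₘ M).coeff (M.natDegree - 1)`.

* additivity, scalars: `add_modByMonic`, `neg_modByMonic`, `smul_modByMonic` (or `sub_modByMonic`).
* `rho_congr`: `(f - g) %ₘ M = 0` since `M ∣ f - g`, hence `f %ₘ M = g %ₘ M`.
* `rho_eq_zero`: if `deg f < deg M - 1` then `f %ₘ M = f` (`modByMonic_eq_self_iff`) and the coefficient
  `deg M - 1` of `f` vanishes.
* `rho_mul_mul`: `(f * N) %ₘ (M * N) = (f %ₘ M) * N` (uniqueness of division: `f = M * q + r` gives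
  `f * N = (M * N) * q + r * N` and `deg (r * N) < deg (M * N)`); if `deg M ≥ 1` the coefficient
  `deg M + deg N - 1 = (deg M - 1) + deg N` of `r * N` with `deg r ≤ deg M - 1` and `N` monic is the coefficient
  `deg M - 1` of `r` (`coeff_mul_degree_add_degree`-like; `Polynomial.coeff_mul_of_natDegree_le` with
  `pm : r.natDegree ≤ deg M - 1`). If `deg M = 0` then `M = 1` and both sides are `0`: `f %ₘ 1 = 0` and
  `(f * N) %ₘ N = 0`.
-/

set_option autoImplicit false

open Polynomial

namespace Pool.Agent.Helper31.AR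

variable {F : Type} [Field F] [Fintype F]

omit [Fintype F] in
theorem rho_zero (M : F[X]) : rho M 0 = 0 := by
  unfold rho
  rw [zero_modByMonic, coeff_zero]

omit [Fintype F] in
theorem rho_add (M f g : F[X]) : rho M (f + g) = rho M f + rho M g := by
  unfold rho
  rw [add_modByMonic, coeff_add]

omit [Fintype F] in
theorem rho_C_mul (M f : F[X]) (c : F) : rho M (C c * f) = c * rho M f := by
  unfold rho
  rw [← smul_eq_C_mul, smul_modByMonic, coeff_smul, smul_eq_mul]

omit [Fintype F] in
theorem rho_neg (M f : F[X]) : rho M (-f) = -rho M f := by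
  have h := rho_C_mul M f (-1)
  rw [C_neg, C_1, neg_one_mul, neg_one_mul] at h
  exact h

omit [Fintype F] in
theorem rho_sub (M f g : F[X]) : rho M (f - g) = rho M f - rho M g := by
  rw [sub_eq_add_neg, rho_add, rho_neg, ← sub_eq_add_neg]

omit [Fintype F] in
theorem rho_congr {M f g : F[X]} (hM : M.Monic) (h : M ∣ f - g) : rho M f = rho M g := by
  have h1 : (f - g) %ₘ M = 0 := (modByMonic_eq_zero_iff_dvd hM).2 h
  have h2 : rho M (f - g) = 0 := by
    unfold rho
    rw [h1, coeff_zero]
  rw [rho_sub] at h2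
  exact sub_eq_zero.1 h2

omit [Fintype F] in
theorem rho_eq_zero {M f : F[X]} (hM : M.Monic)
    (hf : f.degree < ((M.natDegree - 1 : ℕ) : WithBot ℕ)) : rho M f = 0 := by
  have h1 : f %ₘ M = f := by
    rw [modByMonic_eq_self_iff hM, degree_eq_natDegree hM.ne_zero]
    refine lt_of_lt_of_le hf ?_
    exact_mod_cast Nat.sub_le _ _
  unfold rho
  rw [h1]
  exact coeff_eq_zero_of_degree_lt hf

omit [Fintype F] in
theorem rho_mul_mul {M N : F[X]} (hM : M.Monic) (hN : N.Monic) (f : F[X]) :
    rho (M * N) (f * N) = rho M f := by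
  have hMN : (M * N).Monic := hM.mul hN
  have hdeg : (f %ₘ M * N).degree < (M * N).degree := by
    rw [hN.degree_mul, hN.degree_mul]
    have h1 : (f %ₘ M).degree < M.degree := degree_modByMonic_lt f hM
    have h2 : N.degree ≠ ⊥ := by
      rw [Ne, degree_eq_bot]; exact hN.ne_zero
    exact WithBot.add_lt_add_right h2 h1
  have hmod : (f * N) %ₘ (M * N) = (f %ₘ M) * N := by
    have h := div_modByMonic_unique (f := f * N) (f /ₘ M) (f %ₘ M * N) hMN
      ⟨by
        have h3 := modByMonic_add_div f M
        calc f %ₘ M * N + M * N * (f /ₘ M) = (f %ₘ M + M * (f /ₘ M)) * N := by ring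
          _ = f * N := by rw [h3], hdeg⟩
    exact h.2
  unfold rho
  rw [hmod, hM.natDegree_mul hN]
  rcases Nat.eq_zero_or_pos M.natDegree with h0 | h0
  · have hM1 : M = 1 := by
      exact hM.natDegree_eq_zero.1 h0
    subst hM1
    rw [modByMonic_one, zero_mul, coeff_zero, coeff_zero]
  · have h1 : M.natDegree + N.natDegree - 1 = (M.natDegree - 1) + N.natDegree := by omega
    rw [h1]
    have h2 : (f %ₘ M).natDegree ≤ M.natDegree - 1 := by
      by_cases hr : f %ₘ M = 0
      · rw [hr, natDegree_zero]; exact Nat.zero_le _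
      · have h3 : (f %ₘ M).degree < M.degree := degree_modByMonic_lt f hM
        have := natDegree_lt_natDegree hr h3
        omega
    rw [coeff_mul_add_eq_of_natDegree_le h2 le_rfl, hN.coeff_natDegree, mul_one]

end Pool.Agent.Helper31.AR
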