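import Pool.Agent.Helper31.AR.D0Defs
import Pool.Agent.Helper31.AR.RhoBasic

/-!
# AR-15: `Aint` depends only on the leading coefficients of `v`

Let `v' = v + y` (monic of degree `m`, `MN_add` with `PN_mono`). For `z ∈ PN F Z`, `f = h z ^ 3`:
`rho v f = rho (v v') (f v')`, `rho v' f = rho (v' v) (f v)` (`rho_mul_mul`), so
`rho v' f - rho v f = rho (v v') (f (v - v')) = - rho (v v') (f y)` and `deg (f y) ≤ D + 3 (Z - 1) + (τ - 1) < 2 m - 1`
if `z ≠ 0` and `y ≠ 0` (hypothesis `hb`), so this is `0` by `rho_eq_zero`. (`z = 0` or `y = 0`: trivial.)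
-/

set_option autoImplicit false

open Polynomial

namespace Pool.Agent.Helper31.AR

variable {F : Type} [Field F] [Fintype F]

theorem Aint_add (ψ : AddChar F ℂ) {m D Z τ : ℕ} {v h y : F[X]} (hv : v ∈ MN F m) (hh : h ∈ MN F D)
    (hy : y ∈ PN F τ) (hτ : τ ≤ m) (hb : D + 3 * Z + τ ≤ 2 * m + 2) :
    Aint ψ Z (v + y) h = Aint ψ Z v h := by
  unfold Aint
  refine Finset.sum_congr rfl fun z hz => ?_
  congr 1
  have hv' : v + y ∈ MN F m := MN_add hv (PN_mono hτ hy)
  have hvm := monic_of_mem_MN hv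
  have hvm' := monic_of_mem_MN hv'
  have h1 : rho v (h * z ^ 3) = rho (v * (v + y)) (h * z ^ 3 * (v + y)) :=
    (rho_mul_mul hvm hvm' _).symm
  have h2 : rho (v + y) (h * z ^ 3) = rho (v * (v + y)) (h * z ^ 3 * v) := by
    rw [mul_comm v (v + y)]
    exact (rho_mul_mul hvm' hvm _).symm
  have h3 : rho (v * (v + y)) (h * z ^ 3 * (v + y)) =
      rho (v * (v + y)) (h * z ^ 3 * v) + rho (v * (v + y)) (h * z ^ 3 * y) := by
    rw [← rho_add]
    congr 1
    ring
  have h4 : rho (v * (v + y)) (h * z ^ 3 * y) = 0 := by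
    by_cases h0 : h * z ^ 3 * y = 0
    · rw [h0, rho_zero]
    · apply rho_eq_zero (hvm.mul hvm')
      rw [← natDegree_lt_iff_degree_lt h0, hvm.natDegree_mul hvm', natDegree_of_mem_MN hv,
        natDegree_of_mem_MN hv']
      have hz0 : z ≠ 0 := by
        rintro rfl
        apply h0
        ring
      have hy0 : y ≠ 0 := by
        rintro rfl
        apply h0
        ring
      have hh0 : h ≠ 0 := (monic_of_mem_MN hh).ne_zero
      have hz1 : z.natDegree < Z := by
        rw [mem_PN, ← natDegree_lt_iff_degree_lt hz0] at hz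
        exact hz
      have hy1 : y.natDegree < τ := by
        rw [mem_PN, ← natDegree_lt_iff_degree_lt hy0] at hy
        exact hy
      rw [natDegree_mul (mul_ne_zero hh0 (pow_ne_zero 3 hz0)) hy0,
        natDegree_mul hh0 (pow_ne_zero 3 hz0), natDegree_pow, natDegree_of_mem_MN hh]
      omega
  rw [h1, h2, h3, h4, add_zero]

end Pool.Agent.Helper31.AR
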