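import Pool.Agent.Helper31.AR.StepCount

/-!
# AR-26: the bound `|cub L a b| ≤ 20 √(card L)`

`Q = card L`, odd since `2 ≠ 0`. If `Q < 30`: `|cub L a b| ≤ Q ≤ 20 √Q` (`√Q ≤ 20`). Let `Q ≥ 30`. Take `u ∈ L` with
`u ^ 3 + a u + b ≠ 0` (at most `3` roots) and `f = (X + C u) ^ 3 + C a * (X + C u) + C b`, monic of degree `3` with
`f.coeff 0 = f(0) = u ^ 3 + a u + b ≠ 0`. Then `cub L a b = ∑_x chi L (f.eval x)` (substitution `x ↦ x + u`). For `z ∈ L`,
`chi L z = 1, -1, 0` according to `z ^ c = 1, -1, 0` (`quadraticChar_eq_pow_of_char_ne_two'`, or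
`quadraticChar_eq_one_iff...`). With `N_ε` the numbers of `step_count`, `ε = ±1`, `cub = N_1 - N_{-1}` and
`N_1 + N_{-1} = Q - #{roots of f} ≥ Q - 3`. So `N_1 - N_{-1} = 2 N_1 - (N_1 + N_{-1}) ≤ 12 √Q + 3 ≤ 20 √Q`, and similarly
for `- cub`.
-/

set_option autoImplicit false

open Polynomial

namespace Pool.Agent.Helper31.AR

variable {L : Type} [Field L] [Fintype L]

open Classical in
theorem cb_chi (h2 : (2 : L) ≠ 0) (z : L) :
    chi L z = (if z ^ ((Fintype.card L - 1) / 2) = 1 then (1 : ℤ) else 0) -
      (if z ^ ((Fintype.card L - 1) / 2) = -1 then (1 : ℤ) else 0) := by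
  classical
  have hchar : ringChar L ≠ 2 := by
    intro h
    apply h2
    have := ringChar.Nat.cast_ringChar (R := L)
    rw [h] at this
    exact_mod_cast this
  have hodd := FiniteField.odd_card_of_char_ne_two hchar
  have hcard : 1 < Fintype.card L := Fintype.one_lt_card
  have hc : Fintype.card L / 2 = (Fintype.card L - 1) / 2 := by omega
  have hc0 : (Fintype.card L - 1) / 2 ≠ 0 := by omega
  have h11 : (1 : L) ≠ -1 := by
    intro h
    apply h2
    linear_combination h
  have hpow : ((chi L z : ℤ) : L) = z ^ ((Fintype.card L - 1) / 2) := by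
    unfold chi
    rw [← hc]
    convert quadraticChar_eq_pow_of_char_ne_two' hchar z
  by_cases hz : z = 0
  · subst hz
    have h1 : chi L (0 : L) = 0 := by
      unfold chi
      simp
    rw [h1, zero_pow hc0]
    have h3 : ¬ ((0 : L) = -1) := by
      intro h
      have : (1 : L) = 0 := by linear_combination h
      exact one_ne_zero this
    simp [h3]
  · have h1 : chi L z = 1 ∨ chi L z = -1 := by
      unfold chi
      exact quadraticChar_dichotomy hz
    rcases h1 with h1 | h1
    · rw [h1] at hpow ⊢
      rw [← hpow]
      push_cast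
      simp [h11]
    · rw [h1] at hpow ⊢
      rw [← hpow]
      push_cast
      simp [h11.symm]

theorem cb_abs_chi (z : L) : |chi L z| ≤ 1 := by
  classical
  unfold chi
  by_cases hz : z = 0
  · subst hz
    simp
  · rcases quadraticChar_dichotomy hz with h | h
    · convert (by norm_num : |(1 : ℤ)| ≤ 1)
    · convert (by norm_num : |(-1 : ℤ)| ≤ 1)

theorem cub_bound (h2 : (2 : L) ≠ 0) (a b : L) :
    |((cub L a b : ℤ) : ℝ)| ≤ 20 * Real.sqrt (Fintype.card L) := by
  classical
  have hsq0 : 0 ≤ Real.sqrt (Fintype.card L : ℝ) := Real.sqrt_nonneg _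
  have hsqq : Real.sqrt (Fintype.card L : ℝ) * Real.sqrt (Fintype.card L : ℝ) = Fintype.card L :=
    Real.mul_self_sqrt (Nat.cast_nonneg _)
  rcases Nat.lt_or_ge (Fintype.card L) 30 with hQ | hQ
  · have h1 : |cub L a b| ≤ Fintype.card L := by
      unfold cub
      calc |∑ x : L, chi L (x ^ 3 + a * x + b)| ≤ ∑ x : L, |chi L (x ^ 3 + a * x + b)| :=
            Finset.abs_sum_le_sum_abs _ _
        _ ≤ ∑ _x : L, 1 := Finset.sum_le_sum fun x _ => cb_abs_chi _
        _ = Fintype.card L := by simp
    have h3 : |((cub L a b : ℤ) : ℝ)| ≤ Fintype.card L := by exact_mod_cast h1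
    refine h3.trans ?_
    have h4 : Real.sqrt (Fintype.card L : ℝ) ≤ 20 := by
      rw [Real.sqrt_le_left (by norm_num)]
      have : (Fintype.card L : ℝ) < 30 := by exact_mod_cast hQ
      linarith
    nlinarith
  · have hchar : ringChar L ≠ 2 := by
      intro h
      apply h2
      have := ringChar.Nat.cast_ringChar (R := L)
      rw [h] at this
      exact_mod_cast this
    have hodd := FiniteField.odd_card_of_char_ne_two hchar
    have hodd' : Odd (Fintype.card L) := Nat.odd_iff.2 hodd
    -- the polynomial
    set g : L[X] := X ^ 3 + C a * X + C b with hg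
    have hgm : g.Monic := by
      rw [hg]
      monicity!
    have hg3 : g.natDegree = 3 := by
      rw [hg]
      compute_degree!
    have hge : ∀ x, g.eval x = x ^ 3 + a * x + b := by
      intro x
      simp [hg]
    obtain ⟨u, hu⟩ : ∃ u, g.eval u ≠ 0 := by
      by_contra hcon
      push Not at hcon
      have h1 : (Finset.univ : Finset L) ⊆ g.roots.toFinset := by
        intro x _
        rw [Multiset.mem_toFinset, mem_roots hgm.ne_zero]
        exact hcon x
      have h3 := Finset.card_le_card h1
      have h4 := Multiset.toFinset_card_le g.roots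
      have h5 := card_roots' g
      rw [Finset.card_univ] at h3
      omega
    set f : L[X] := g.comp (X + C u) with hf
    have hfm : f.Monic := hgm.comp_X_add_C u
    have hf3 : f.natDegree = 3 := by
      rw [hf, natDegree_comp, hg3, natDegree_X_add_C]
    have hfe : ∀ x, f.eval x = g.eval (x + u) := by
      intro x
      simp [hf]
    have hf0 : f.coeff 0 ≠ 0 := by
      rw [coeff_zero_eq_eval_zero, hfe, zero_add]
      exact hu
    set c := (Fintype.card L - 1) / 2 with hc
    have hcub : cub L a b = ∑ x : L, chi L (f.eval x) := by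
      unfold cub
      rw [← Equiv.sum_comp (Equiv.addRight u)]
      apply Finset.sum_congr rfl
      intro x _
      rw [hfe, hge]
      rfl
    set N1 := (Finset.univ.filter (fun x : L => (f.eval x) ^ c = 1)).card with hN1
    set N2 := (Finset.univ.filter (fun x : L => (f.eval x) ^ c = -1)).card with hN2
    have hdiff : cub L a b = (N1 : ℤ) - N2 := by
      rw [hcub, hN1, hN2, Finset.card_filter, Finset.card_filter]
      push_cast
      rw [← Finset.sum_sub_distrib]
      apply Finset.sum_congr rfl
      intro x _
      convert cb_chi h2 (f.eval x)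
    have hb1 := step_count hodd' hQ hfm hf3 hf0 1 (by ring)
    have hb2 := step_count hodd' hQ hfm hf3 hf0 (-1) (by ring)
    have hb1' : (N1 : ℝ) ≤ (Fintype.card L : ℝ) / 2 + 6 * Real.sqrt (Fintype.card L) := by
      rw [hN1]
      convert hb1
    have hb2' : (N2 : ℝ) ≤ (Fintype.card L : ℝ) / 2 + 6 * Real.sqrt (Fintype.card L) := by
      rw [hN2]
      convert hb2
    have h11 : (1 : L) ≠ -1 := by
      intro h
      apply h2
      linear_combination h
    have hsum : Fintype.card L ≤ N1 + N2 + 3 := by
      have h3 : (Finset.univ : Finset L) ⊆ ((Finset.univ.filter (fun x : L => (f.eval x) ^ c = 1)) ∪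
          (Finset.univ.filter (fun x : L => (f.eval x) ^ c = -1))) ∪ f.roots.toFinset := by
        intro x _
        rw [Finset.mem_union, Finset.mem_union, Finset.mem_filter, Finset.mem_filter, Multiset.mem_toFinset,
          mem_roots hfm.ne_zero]
        by_cases hx : f.eval x = 0
        · exact Or.inr hx
        · left
          have h4 := FiniteField.pow_dichotomy hchar hx
          have h5 : Fintype.card L / 2 = c := by omega
          rw [h5] at h4
          rcases h4 with h4 | h4
          · exact Or.inl ⟨Finset.mem_univ _, h4⟩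
          · exact Or.inr ⟨Finset.mem_univ _, h4⟩
      have h4 := Finset.card_le_card h3
      rw [Finset.card_univ] at h4
      have h5 := Finset.card_union_le ((Finset.univ.filter (fun x : L => (f.eval x) ^ c = 1)) ∪
          (Finset.univ.filter (fun x : L => (f.eval x) ^ c = -1))) f.roots.toFinset
      have h6 := Finset.card_union_le (Finset.univ.filter (fun x : L => (f.eval x) ^ c = 1))
          (Finset.univ.filter (fun x : L => (f.eval x) ^ c = -1))
      have h7 := Multiset.toFinset_card_le f.roots
      have h8 := card_roots' f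
      omega
    have hsumr : (Fintype.card L : ℝ) ≤ N1 + N2 + 3 := by exact_mod_cast hsum
    have hsq1 : 1 ≤ Real.sqrt (Fintype.card L : ℝ) := by
      rw [Real.one_le_sqrt]
      have : (30 : ℝ) ≤ Fintype.card L := by exact_mod_cast hQ
      linarith
    rw [hdiff]
    push_cast
    rw [abs_le]
    constructor <;> linarith

end Pool.Agent.Helper31.AR
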