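import Pool.Agent.Helper31.AR.Residue

/-!
# AR-30: equidistribution of the values `B(t)`

`t ∈ L`, `v` the minimal polynomial of `t` over `F` (monic irreducible), `d = deg v`.

* `sum_aeval`: if `d ≤ N`, the map `B ↦ B(t)` from `PN F N` to `L` depends only on `B` modulo `v`, and by `sum_PN_residue`
  (with `w = 0`) `∑_{B ∈ PN F N} G (B(t)) = q ^ (N - d) • ∑_{g ∈ PN F d} G (g(t))`. The map `g ↦ g(t)` is a bijection of
  `PN F d` onto the image of `IntermediateField.adjoin F {t}` (or `Algebra.adjoin F {t}`, the range of `aeval t`). Here it is stated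
  with an arbitrary field `k` with `q ^ d` elements, an intermediate field in the sense that `k → L` is a ring
  homomorphism over `F` whose range contains `t`: the range of `k → L` has `q ^ d` elements and contains all `g(t)`,
  `g ∈ PN F d`, which are `q ^ d` distinct elements (`v ∤ g - g'`), so it is equal to the set of the `g(t)`.
* `card_aeval_zero_le`: the `A ∈ PN F N` with `A(t) = 0` are the multiples of `v`: `card_PN_residue_le` with `r = 0`.
-/

set_option autoImplicit false

open Polynomial

namespace Pool.Agent.Helper31.AR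

variable {F : Type} [Field F] [Fintype F] {L : Type} [Field L] [Fintype L] [Algebra F L]

theorem dvd_of_aeval_zero {t : L} {v : F[X]} (hv : v.Monic) (hirr : Irreducible v)
    (ht : aeval t v = 0) {f : F[X]} (hf : aeval t f = 0) : v ∣ f := by
  rw [minpoly.eq_of_irreducible_of_monic hirr ht hv]
  exact minpoly.dvd F t hf

theorem sum_aeval {k : Type} [Field k] [Fintype k] [Algebra F k] [Algebra k L]
    [IsScalarTower F k L] {t : L} {v : F[X]} (hv : v.Monic) (hirr : Irreducible v)
    (ht : aeval t v = 0) (hk : Fintype.card k = Fintype.card F ^ v.natDegree)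
    (htk : t ∈ Set.range (algebraMap k L)) {N : ℕ} (hN : v.natDegree ≤ N)
    {E : Type*} [AddCommMonoid E] (G : L → E) :
    ∑ B ∈ PN F N, G (aeval t B) =
      (Fintype.card F ^ (N - v.natDegree)) • ∑ b : k, G (algebraMap k L b) := by
  classical
  obtain ⟨t₀, ht₀⟩ := htk
  have h1 := sum_PN_residue hv hN 0 (fun f => G (aeval t f)) (by
    intro f g hfg
    obtain ⟨c, hc⟩ := hfg
    have h2 : aeval t f = aeval t g := by
      rw [← sub_eq_zero, ← map_sub, hc, map_mul, ht, zero_mul]
    simp only [h2])
  simp only [zero_add] at h1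
  rw [h1]
  congr 1
  have hval : ∀ g : F[X], algebraMap k L (aeval t₀ g) = aeval t g := by
    intro g
    rw [← aeval_algebraMap_apply, ht₀]
  have hinj : Set.InjOn (fun g : F[X] => (aeval t₀ g : k)) (PN F v.natDegree : Set F[X]) := by
    intro g hg g' hg' h
    have h3 : aeval t (g - g') = 0 := by
      rw [map_sub, ← hval, ← hval, sub_eq_zero]
      exact congrArg _ h
    have h4 := dvd_of_aeval_zero hv hirr ht h3
    have h5 : g - g' ∈ PN F v.natDegree := sub_mem_PN hg hg'
    rw [mem_PN, ← degree_eq_natDegree hv.ne_zero] at h5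
    exact sub_eq_zero.1 (eq_zero_of_dvd_of_degree_lt h4 h5)
  have himg : (PN F v.natDegree).image (fun g : F[X] => (aeval t₀ g : k)) = Finset.univ := by
    apply Finset.eq_univ_of_card
    rw [Finset.card_image_of_injOn hinj, card_PN, hk]
  rw [← himg, Finset.sum_image hinj]
  refine Finset.sum_congr rfl (fun g _ => ?_)
  rw [hval]

open Classical in
theorem card_aeval_zero_le {t : L} {v : F[X]} (hv : v.Monic) (hirr : Irreducible v)
    (ht : aeval t v = 0) (N : ℕ) :
    ((PN F N).filter (fun A => aeval t A = 0)).card ≤ Fintype.card F ^ (N - v.natDegree) := by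
  refine le_trans (Finset.card_le_card ?_) (card_PN_residue_le hv N 0)
  intro A hA
  rw [Finset.mem_filter] at hA ⊢
  refine ⟨hA.1, ?_⟩
  rw [sub_zero]
  exact dvd_of_aeval_zero hv hirr ht hA.2

end Pool.Agent.Helper31.AR
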