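import Pool.Agent.Helper31.AR.Defs

/-!
# AR-36: Gauss sums

Let `χ` be the quadratic character of `L` with values in `ℂ` (`(quadraticChar L).ringHomComp (Int.castRingHom ℂ)`), nontrivial since
`2 ≠ 0`, and `G = gaussSum χ e`. `e` is primitive (`AddChar.IsPrimitive.of_ne_one`). `χ(z) G = ∑_h χ(h) e(h z)` for all `z`:
`gaussSum_mulShift` for `z ≠ 0` (`χ(z) = χ(z⁻¹)`), and for `z = 0` both sides vanish (`∑_h χ h = 0`).
`‖G‖ ^ 2 = card L`: `gaussSum_mul_gaussSum_eq_card` (`gaussSum χ ψ * gaussSum χ⁻¹ ψ⁻¹ = card`) and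
`gaussSum χ⁻¹ ψ⁻¹ = conj G` (`χ` real; `e⁻¹ x = e (-x) = conj (e x)`).
-/

set_option autoImplicit false

open Polynomial

namespace Pool.Agent.Helper31.AR

variable {L : Type} [Field L] [Fintype L]

theorem exists_gauss (h2 : (2 : L) ≠ 0) (e : AddChar L ℂ) (he : e ≠ 1) :
    ∃ G : ℂ, ‖G‖ ^ 2 = (Fintype.card L : ℝ) ∧
      ∀ z : L, (chi L z : ℂ) * G = ∑ h : L, (chi L h : ℂ) * e (h * z) := by
  classical
  have hF : ringChar L ≠ 2 := fun h => h2 (by
    have h3 := ringChar.Nat.cast_ringChar (R := L)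
    rw [h] at h3
    exact_mod_cast h3)
  set χ : MulChar L ℂ := (quadraticChar L).ringHomComp (Int.castRingHom ℂ) with hχ
  have hχv : ∀ z, χ z = (chi L z : ℂ) := fun z => rfl
  have hχ1 : χ ≠ 1 := by
    rw [hχ, MulChar.ringHomComp_ne_one_iff (RingHom.injective_int _)]
    exact quadraticChar_ne_one hF
  have hq : χ.IsQuadratic := MulChar.IsQuadratic.comp (quadraticChar_isQuadratic L) _
  have hinv : χ⁻¹ = χ := hq.inv
  have hprim : e.IsPrimitive := AddChar.IsPrimitive.of_ne_one he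
  have hprod := gaussSum_mul_gaussSum_eq_card hχ1 hprim
  have hconj : gaussSum χ⁻¹ e⁻¹ = (starRingEnd ℂ) (gaussSum χ e) := by
    rw [hinv]
    unfold gaussSum
    rw [map_sum]
    refine Finset.sum_congr rfl fun x _ => ?_
    rw [map_mul, AddChar.inv_apply, AddChar.map_neg_eq_conj, hχv]
    congr 1
    exact (map_intCast (starRingEnd ℂ) _).symm
  refine ⟨gaussSum χ e, ?_, ?_⟩
  · rw [hconj, Complex.mul_conj, Complex.normSq_eq_norm_sq] at hprod
    exact_mod_cast hprod
  · intro z
    rw [← hχv]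
    by_cases hz : z = 0
    · subst hz
      rw [MulChar.map_zero, zero_mul]
      have h4 : ∑ h : L, (χ h : ℂ) = 0 := MulChar.sum_eq_zero_of_ne_one hχ1
      rw [← h4]
      refine Finset.sum_congr rfl fun h _ => ?_
      rw [mul_zero, AddChar.map_zero_eq_one, mul_one, hχv]
    · have h5 := gaussSum_mulShift χ e (Units.mk0 z hz)
      rw [Units.val_mk0] at h5
      have h6 : χ z * χ z = 1 := by
        rcases hq z with h7 | h7 | h7
        · exfalso
          have h8 : IsUnit z := IsUnit.mk0 z hz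
          exact (h8.map χ).ne_zero h7
        · rw [h7, mul_one]
        · rw [h7, mul_neg_one, neg_neg]
      rw [← h5, ← mul_assoc, h6, one_mul]
      unfold gaussSum
      refine Finset.sum_congr rfl fun h _ => ?_
      rw [AddChar.mulShift_apply, hχv, mul_comm z h]

end Pool.Agent.Helper31.AR
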