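import Pool.Agent.Helper31.AR.JBasic

/-!
# AR-06: the symbol `J` and the quadratic character of the residue field

Let `v` be monic irreducible, `t` a root of `v` in a finite field `L ⊇ F`, `m = deg v`.

* `resultant_eq_prod_pow`: the roots of `v` in `L` are `t ^ (q ^ i)`, `i < m`, and
  `v = ∏ (X - t ^ (q ^ i))` over `L` (the minimal polynomial over `F` of an element of a finite field; in
  Mathlib search `FiniteField` + `minpoly`/`Frobenius`; or prove: `x ↦ x ^ q` permutes the roots, the smallest
  `d ≥ 1` with `t ^ (q ^ d) = t` satisfies: `∏_{i < d} (X - t ^ (q ^ i))` has coefficients fixed by Frobenius,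
  hence in `F` (`FiniteField.roots_X_pow_card_sub_X`), hence is divisible by `v`; and the `t ^ (q ^ i)`, `i < d`,
  are distinct roots of `v`; so `d = m`). The resultant is `∏_{roots α of v} g(α)` for `v` monic and split
  (`resultant_eq_prod_eval`, after `resultant_map_map`) and `g(t ^ (q ^ i)) = g(t) ^ (q ^ i)`. ALTERNATIVE: the
  resultant of a monic `v` with `g` is the norm of `g(t)`; `FiniteField.algebraMap_norm_eq_pow` or so
  (search `Algebra.norm` in `Mathlib/FieldTheory/Finite`).
* `chi_aeval`: `card L = q ^ m`. If `g(t) = 0` both sides vanish. Otherwise, with `z = g(t)`,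
  `N = ∏_{i<m} z ^ (q ^ i) = z ^ ((q ^ m - 1) / (q - 1))` and Euler's criterion in `L` and in `F`
  (`quadraticChar_eq_pow_of_char_ne_two'`): `chi L z = z ^ ((q ^ m - 1) / 2) = (N) ^ ((q - 1) / 2)` in `L`, and
  this is the image of `(resultant v g) ^ ((q - 1) / 2) = quadraticChar F (resultant v g)`; both are `±1` and
  `1 ≠ -1` in `L`.
* `J_eq_chi`: `resultant h v = (-1) ^ (deg h * deg v) * resultant v h` (`resultant_comm`) and `deg v` is even.
* `chi_algebraMap`: `card L = q ^ m` with `m` even: `c ^ ((q ^ m - 1) / 2) = (c ^ (q - 1)) ^ (...) = 1` since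
  `2 (q - 1) ∣ q ^ m - 1` for `m` even.
-/

set_option autoImplicit false

open Polynomial

namespace Pool.Agent.Helper31.AR

variable {F : Type} [Field F] [Fintype F]

theorem aeval_pow_card {L : Type} [Field L] [Algebra F L] (t : L) (g : F[X]) (i : ℕ) :
    aeval (t ^ (Fintype.card F ^ i)) g = (aeval t g) ^ (Fintype.card F ^ i) := by
  induction i with
  | zero => simp
  | succ i ih =>
    rw [pow_succ, pow_mul, pow_mul, ← ih]
    have h := Polynomial.aeval_algHom_apply (FiniteField.frobeniusAlgHom F L)
      (t ^ (Fintype.card F ^ i)) g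
    simpa [FiniteField.coe_frobeniusAlgHom] using h

theorem pow_card_inj {L : Type} [Field L] [Algebra F L] (i : ℕ) :
    Function.Injective (fun x : L => x ^ (Fintype.card F ^ i)) := by
  induction i with
  | zero => intro x y h; simpa using h
  | succ i ih =>
    intro x y h
    have h1 : (x ^ (Fintype.card F ^ i)) ^ Fintype.card F =
        (y ^ (Fintype.card F ^ i)) ^ Fintype.card F := by
      rw [← pow_mul, ← pow_mul, ← pow_succ]; exact h
    have h2 : Function.Injective (FiniteField.frobeniusAlgHom F L) := RingHom.injective _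
    have h3 := h2 (a₁ := x ^ (Fintype.card F ^ i)) (a₂ := y ^ (Fintype.card F ^ i))
      (by simpa [FiniteField.coe_frobeniusAlgHom] using h1)
    exact ih h3

theorem pow_card_injOn {L : Type} [Field L] [Algebra F L] {t : L} {v : F[X]}
    (hv : v.Monic) (hirr : Irreducible v) (ht : aeval t v = 0) :
    Set.InjOn (fun i : ℕ => t ^ (Fintype.card F ^ i)) (Finset.range v.natDegree : Set ℕ) := by
  have hmin : v = minpoly F t := minpoly.eq_of_irreducible_of_monic hirr ht hv
  have key : ∀ i j : ℕ, i < j → j < v.natDegree →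
      t ^ (Fintype.card F ^ i) ≠ t ^ (Fintype.card F ^ j) := by
    intro i j hij hj h
    have h1 : (t ^ (Fintype.card F ^ (j - i))) ^ (Fintype.card F ^ i) =
        t ^ (Fintype.card F ^ i) := by
      rw [← pow_mul, ← pow_add, Nat.sub_add_cancel hij.le]; exact h.symm
    have h2 := pow_card_inj (F := F) (L := L) i h1
    have h3 : aeval t (X ^ (Nat.card F ^ (j - i)) - X : F[X]) = 0 := by
      rw [map_sub, map_pow, aeval_X, ← Fintype.card_eq_nat_card, h2, sub_self]
    have h4 : v ∣ (X ^ (Nat.card F ^ (j - i)) - X : F[X]) := by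
      rw [hmin]; exact minpoly.dvd F t h3
    have h5 := Irreducible.natDegree_dvd_of_dvd_X_pow_card_pow_sub_X hirr h4
    have h6 := Nat.le_of_dvd (by omega) h5
    omega
  intro i hi j hj h
  rw [Finset.coe_range, Set.mem_Iio] at hi hj
  rcases lt_trichotomy i j with h1 | h1 | h1
  · exact absurd h (key i j h1 hj)
  · exact h1
  · exact absurd h.symm (key j i h1 hi)

theorem resultant_eq_prod_pow {L : Type} [Field L] [Fintype L] [Algebra F L] {t : L} {v : F[X]}
    (hv : v.Monic) (hirr : Irreducible v) (ht : aeval t v = 0) (g : F[X]) :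
    algebraMap F L (resultant v g) =
      ∏ i ∈ Finset.range v.natDegree, (aeval t g) ^ (Fintype.card F ^ i) := by
  classical
  set w : L[X] := v.map (algebraMap F L) with hw
  have hwm : w.Monic := hv.map _
  have hwd : w.natDegree = v.natDegree := natDegree_map _
  set S : Finset L := (Finset.range v.natDegree).image (fun i => t ^ (Fintype.card F ^ i)) with hS
  have hinj := pow_card_injOn hv hirr ht
  have hcard : S.card = v.natDegree := by
    rw [hS, Finset.card_image_of_injOn hinj, Finset.card_range]
  have hle : S.val ≤ w.roots := by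
    rw [Multiset.le_iff_subset S.nodup]
    intro x hx
    rw [mem_roots hwm.ne_zero, IsRoot.def, hw, eval_map_algebraMap]
    have hx' : x ∈ S := hx
    rw [hS, Finset.mem_image] at hx'
    obtain ⟨i, -, rfl⟩ := hx'
    rw [aeval_pow_card, ht, zero_pow]
    exact (pow_pos Fintype.card_pos _).ne'
  have hroots : S.val = w.roots := by
    apply Multiset.eq_of_le_of_card_le hle
    calc Multiset.card w.roots ≤ w.natDegree := card_roots' w
      _ = Multiset.card S.val := by rw [hwd, ← hcard]; rfl
  have hsplit : w.Splits := by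
    rw [splits_iff_card_roots, ← hroots, hwd, ← hcard]; rfl
  have h1 := resultant_eq_prod_eval w (g.map (algebraMap F L)) g.natDegree natDegree_map_le hsplit
  rw [hwm.leadingCoeff, one_pow, one_mul, hwd, hw, resultant_map_map, ← hw, ← hroots] at h1
  rw [h1]
  have h2 : (Multiset.map (fun x => eval x (g.map (algebraMap F L))) S.val).prod =
      ∏ x ∈ S, eval x (g.map (algebraMap F L)) := rfl
  rw [h2, hS, Finset.prod_image hinj]
  apply Finset.prod_congr rfl
  intro i _
  rw [eval_map_algebraMap, aeval_pow_card]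

omit [Fintype F] in
theorem ringChar_ne_two (h2 : (2 : F) ≠ 0) {L : Type} [Field L] [Algebra F L] :
    ringChar L ≠ 2 := by
  intro h
  have h3 : ((2 : ℕ) : L) = 0 := by rw [← h]; exact ringChar.Nat.cast_ringChar
  have h4 : algebraMap F L 2 = 0 := by rw [map_ofNat]; exact_mod_cast h3
  exact h2 ((map_eq_zero _).1 h4)

theorem card_odd (h2 : (2 : F) ≠ 0) : ∃ a : ℕ, Fintype.card F = 2 * a + 1 := by
  have h := FiniteField.odd_card_of_char_ne_two (F := F) (by
    have := ringChar_ne_two (F := F) h2 (L := F)
    exact this)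
  obtain ⟨a, ha⟩ := Nat.odd_iff.2 h
  exact ⟨a, ha⟩

theorem int_eq_of_cast {L : Type} [Field L] (hc : ringChar L ≠ 2) {a b : ℤ}
    (ha : a ∈ ({0, 1, -1} : Set ℤ)) (hb : b ∈ ({0, 1, -1} : Set ℤ)) (h : (a : L) = (b : L)) :
    a = b := Int.cast_injOn_of_ringChar_ne_two hc ha hb h

theorem quadraticChar_mem {K : Type} [Field K] [Fintype K] [DecidableEq K] (a : K) :
    quadraticChar K a ∈ ({0, 1, -1} : Set ℤ) := by
  by_cases h : a = 0
  · left; rw [h]; exact quadraticChar_zero
  · right
    rcases quadraticChar_dichotomy h with h1 | h1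
    · left; exact h1
    · right; exact h1

open Classical in
theorem chi_aeval (h2 : (2 : F) ≠ 0) {L : Type} [Field L] [Fintype L] [Algebra F L] {t : L} {v : F[X]}
    (hv : v.Monic) (hirr : Irreducible v) (ht : aeval t v = 0)
    (hL : Fintype.card L = Fintype.card F ^ v.natDegree) (g : F[X]) :
    chi L (aeval t g) = quadraticChar F (resultant v g) := by
  have hcL : ringChar L ≠ 2 := ringChar_ne_two h2
  have hcF : ringChar F ≠ 2 := ringChar_ne_two h2
  unfold chi
  apply int_eq_of_cast hcL (quadraticChar_mem _) (quadraticChar_mem _)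
  rw [quadraticChar_eq_pow_of_char_ne_two' hcL]
  have h3 : ((quadraticChar F (resultant v g) : ℤ) : L) =
      algebraMap F L ((quadraticChar F (resultant v g) : ℤ) : F) := by simp
  rw [h3, quadraticChar_eq_pow_of_char_ne_two' hcF, map_pow, resultant_eq_prod_pow hv hirr ht g,
    Finset.prod_pow_eq_pow_sum, ← pow_mul, hL]
  obtain ⟨a, ha⟩ := card_odd h2
  congr 1
  have h4 := geom_sum_mul_add (2 * a) v.natDegree
  rw [ha]
  have h5 : (2 * a + 1) / 2 = a := by omega
  rw [h5]
  have h6 : (∑ i ∈ Finset.range v.natDegree, (2 * a + 1) ^ i) * (2 * a) =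
      2 * ((∑ i ∈ Finset.range v.natDegree, (2 * a + 1) ^ i) * a) := by ring
  rw [h6] at h4
  omega

theorem J_eq_chi (h2 : (2 : F) ≠ 0) {L : Type} [Field L] [Fintype L] [Algebra F L] {t : L} {v : F[X]}
    (hv : v.Monic) (hirr : Irreducible v) (ht : aeval t v = 0)
    (hL : Fintype.card L = Fintype.card F ^ v.natDegree) (hm : Even v.natDegree) (h : F[X]) :
    J h v = chi L (aeval t h) := by
  rw [chi_aeval h2 hv hirr ht hL h]
  unfold J
  rw [resultant_comm, Even.neg_one_pow (hm.mul_left _), one_mul]

theorem chi_algebraMap (h2 : (2 : F) ≠ 0) {L : Type} [Field L] [Fintype L] [Algebra F L] {m : ℕ}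
    (hL : Fintype.card L = Fintype.card F ^ m) (hm : Even m) {c : F} (hc : c ≠ 0) :
    chi L (algebraMap F L c) = 1 := by
  classical
  have hcL : ringChar L ≠ 2 := ringChar_ne_two h2
  unfold chi
  apply int_eq_of_cast hcL (quadraticChar_mem _) (by right; left; rfl)
  rw [quadraticChar_eq_pow_of_char_ne_two' hcL, hL, ← map_pow, Int.cast_one]
  obtain ⟨n, rfl⟩ := hm
  obtain ⟨a, ha⟩ := card_odd h2
  have h4 := geom_sum_mul_add (2 * a) n
  rw [← ha] at h4
  set G := ∑ i ∈ Finset.range n, Fintype.card F ^ i with hG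
  have h5 : Fintype.card F ^ (n + n) / 2 = (Fintype.card F - 1) * (G * (G * a + 1)) := by
    rw [pow_add, ← h4]
    have h6 : Fintype.card F - 1 = 2 * a := by omega
    rw [h6]
    have h7 : (G * (2 * a) + 1) * (G * (2 * a) + 1) = 2 * (2 * a * (G * (G * a + 1))) + 1 := by ring
    rw [h7]
    omega
  rw [h5, pow_mul, FiniteField.pow_card_sub_one_eq_one c hc, one_pow, map_one]

end Pool.Agent.Helper31.AR
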