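import Pool.Agent.Helper31.AR.RhoBasic

/-!
# AR-04: the reciprocity identity

Put `a = minv v u` (`v ∣ a u - 1`), `b = minv u v` (`u ∣ b v - 1`). Then `u a + v b ≡ 1` modulo `u v` (both modulo
`u` and modulo `v`; `IsCoprime.mul_dvd`). By `rho_mul_mul` (and commutativity)
`rho v (f a) = rho (v u) (f a u)` and `rho u (f b) = rho (u v) (f b v)`; the sum is
`rho (u v) (f (a u + b v)) = rho (u v) f` by `rho_congr`.

`Phi_eq`: apply it with `u = h ^ 2`, `f = k ^ 3`: `minv v (h ^ 2)` and `(minv v h) ^ 2` are congruent modulo `v`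
(both are inverses of `h ^ 2`), so `rho v (k ^ 3 * minv v h ^ 2) = rho v (k ^ 3 * minv v (h ^ 2)) =
rho (h ^ 2 * v) (k ^ 3) - rho (h ^ 2) (k ^ 3 * minv (h ^ 2) v)`.
-/

set_option autoImplicit false

open Polynomial

namespace Pool.Agent.Helper31.AR

variable {F : Type} [Field F] [Fintype F]

omit [Fintype F] in
theorem minv_congr {M v a : F[X]} (hc : IsCoprime v M) (h : M ∣ a * v - 1) : M ∣ a - minv M v := by
  have h1 : M ∣ minv M v * v - 1 := by
    unfold minv
    rw [dif_pos hc]
    obtain ⟨b, hb⟩ := Classical.choose_spec hc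
    exact ⟨-b, by linear_combination hb⟩
  have h2 : M ∣ (a - minv M v) * v := by
    have h3 := dvd_sub h h1
    have h4 : a * v - 1 - (minv M v * v - 1) = (a - minv M v) * v := by ring
    rwa [h4] at h3
  exact hc.symm.dvd_of_dvd_mul_right h2

omit [Fintype F] in
private theorem recip_spec {M v : F[X]} (h : IsCoprime v M) : M ∣ minv M v * v - 1 := by
  unfold minv
  rw [dif_pos h]
  obtain ⟨b, hb⟩ := Classical.choose_spec h
  exact ⟨-b, by linear_combination hb⟩

omit [Fintype F] in
theorem rho_recip {u v : F[X]} (hu : u.Monic) (hv : v.Monic) (h : IsCoprime u v) (f : F[X]) :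
    rho v (f * minv v u) + rho u (f * minv u v) = rho (u * v) f := by
  have h1 := recip_spec h
  have h2 := recip_spec h.symm
  rw [← rho_mul_mul hv hu (f * minv v u), ← rho_mul_mul hu hv (f * minv u v), mul_comm v u,
    ← rho_add]
  refine rho_congr (hu.mul hv) ?_
  have h3 : f * minv v u * u + f * minv u v * v - f = f * (minv v u * u + minv u v * v - 1) := by
    ring
  rw [h3]
  refine Dvd.dvd.mul_left ?_ f
  refine IsCoprime.mul_dvd h ?_ ?_
  · obtain ⟨c, hc⟩ := h2
    exact ⟨minv v u + c, by linear_combination hc⟩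
  · obtain ⟨c, hc⟩ := h1
    exact ⟨minv u v + c, by linear_combination hc⟩

theorem Phi_eq (ψ : AddChar F ℂ) {v h : F[X]} (hv : v.Monic) (hh : h.Monic) (hc : IsCoprime h v)
    (k : F[X]) : ψ (rho v (k ^ 3 * minv v h ^ 2)) = Phi ψ v h k := by
  have hc2 : IsCoprime (h ^ 2) v := hc.pow_left
  have h1 : rho v (k ^ 3 * minv v h ^ 2) = rho v (k ^ 3 * minv v (h ^ 2)) := by
    refine rho_congr hv ?_
    rw [← mul_sub]
    refine Dvd.dvd.mul_left ?_ _
    refine minv_congr hc2 ?_
    obtain ⟨c, hc'⟩ := recip_spec hc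
    exact ⟨c * (minv v h * h + 1), by linear_combination (minv v h * h + 1) * hc'⟩
  have h2 := rho_recip (hh.pow 2) hv hc2 (k ^ 3)
  unfold Phi
  rw [h1, ← h2, add_sub_cancel_right]

end Pool.Agent.Helper31.AR
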