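import Pool.Agent.Helper31.AR.RhoBasic

/-!
# AR-02: complete sums of `ψ (rho M (f g))`

Proof. Let `d = deg M`, `r = f %ₘ M` (`rho M (f * g) = rho M (r * g)` by `rho_congr`). The map
`g ↦ ψ (rho M (r * g))` restricted to `PN F N` is an additive character of the finite additive group
`PN F N` (work with sums directly: if `g₀ ∈ PN F N` has `ψ (rho M (r * g₀)) ≠ 1` then by `sum_PN_add`
the sum `S` satisfies `S = ψ (rho M (r * g₀)) * S`, hence `S = 0`).

* If `r ∈ PN F (d - N)`: for `g ∈ PN F N`, `r * g` has degree `< d - 1` (if `r = 0` trivial; otherwise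
  `deg r ≤ d - N - 1`, `deg g ≤ N - 1`, sum `≤ d - 2`), so `rho M (r * g) = 0` and the sum is `card = q ^ N`.
* Otherwise `r ≠ 0`, `d - N ≤ e := deg r ≤ d - 1`. Put `g₀ = C c * X ^ (d - 1 - e)` (it is in `PN F N` since
  `d - 1 - e < N`). `r * g₀` has degree `d - 1 < d`, so `rho M (r * g₀) = c * leadingCoeff r`. Choose `c` with
  `ψ (c * leadingCoeff r) ≠ 1` (`ψ ≠ 1`: some `x` with `ψ x ≠ 1`, `c = x / leadingCoeff r`).
  Hence the sum is `0`. (If `d = 0` then `r = 0` is in the first case.)
-/

set_option autoImplicit false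

open Polynomial

namespace Pool.Agent.Helper31.AR

variable {F : Type} [Field F] [Fintype F]

open Classical in
theorem sum_psi_rho (ψ : AddChar F ℂ) (hψ : ψ ≠ 1) {M : F[X]} (hM : M.Monic) (f : F[X]) (N : ℕ) :
    ∑ g ∈ PN F N, ψ (rho M (f * g)) =
      if f %ₘ M ∈ PN F (M.natDegree - N) then ((Fintype.card F : ℂ)) ^ N else 0 := by
  obtain ⟨r, hr⟩ : ∃ r, r = f %ₘ M := ⟨_, rfl⟩
  have hred : ∀ g, rho M (f * g) = rho M (r * g) := by
    intro g
    apply rho_congr hM
    rw [hr, ← sub_mul]
    refine Dvd.dvd.mul_right ?_ g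
    exact ⟨f /ₘ M, by linear_combination -(modByMonic_add_div f M)⟩
  simp only [hred]
  rw [← hr]
  have hrdeg : r.degree < M.degree := by rw [hr]; exact degree_modByMonic_lt f hM
  have hMdeg : M.degree = (M.natDegree : WithBot ℕ) := degree_eq_natDegree hM.ne_zero
  split_ifs with hcase
  · -- all terms are `1`
    have h1 : ∀ g ∈ PN F N, ψ (rho M (r * g)) = 1 := by
      intro g hg
      have h2 : rho M (r * g) = 0 := by
        by_cases hr0 : r = 0
        · rw [hr0, zero_mul, rho_zero]
        by_cases hg0 : g = 0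
        · rw [hg0, mul_zero, rho_zero]
        apply rho_eq_zero hM
        rw [mem_PN, ← natDegree_lt_iff_degree_lt hr0] at hcase
        rw [mem_PN, ← natDegree_lt_iff_degree_lt hg0] at hg
        rw [← natDegree_lt_iff_degree_lt (mul_ne_zero hr0 hg0), natDegree_mul hr0 hg0]
        omega
      rw [h2, AddChar.map_zero_eq_one]
    rw [Finset.sum_congr rfl h1, Finset.sum_const, card_PN, nsmul_eq_mul, mul_one]
    push_cast
    rfl
  · -- a nontrivial character
    have hr0 : r ≠ 0 := by
      intro h0
      rw [h0] at hcase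
      exact hcase (zero_mem_PN _)
    have hrn : r.natDegree < M.natDegree := by
      rw [hMdeg, ← natDegree_lt_iff_degree_lt hr0] at hrdeg
      exact hrdeg
    have hrN : M.natDegree - N ≤ r.natDegree := by
      rw [mem_PN, ← natDegree_lt_iff_degree_lt hr0] at hcase
      omega
    obtain ⟨x, hx⟩ : ∃ x : F, ψ x ≠ 1 := by
      by_contra hcon
      push Not at hcon
      apply hψ
      ext x
      rw [hcon x, AddChar.one_apply]
    set c : F := x / r.leadingCoeff with hc
    have hlc : r.leadingCoeff ≠ 0 := leadingCoeff_ne_zero.2 hr0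
    set g₀ : F[X] := C c * X ^ (M.natDegree - 1 - r.natDegree) with hg₀
    have hg₀mem : g₀ ∈ PN F N := by
      rw [mem_PN, hg₀]
      refine lt_of_le_of_lt (degree_C_mul_X_pow_le _ _) ?_
      have : M.natDegree - 1 - r.natDegree < N := by omega
      exact_mod_cast this
    have hval : rho M (r * g₀) = x := by
      have h1 : (r * g₀) %ₘ M = r * g₀ := by
        rw [modByMonic_eq_self_iff hM, hMdeg]
        by_cases h0 : r * g₀ = 0
        · rw [h0, degree_zero]; exact WithBot.bot_lt_coe _
        rw [← natDegree_lt_iff_degree_lt h0]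
        have h2 : (r * g₀).natDegree ≤ r.natDegree + (M.natDegree - 1 - r.natDegree) :=
          natDegree_mul_le.trans (Nat.add_le_add_left (natDegree_C_mul_X_pow_le _ _) _)
        omega
      unfold rho
      rw [h1]
      have h3 : M.natDegree - 1 = r.natDegree + (M.natDegree - 1 - r.natDegree) := by omega
      have h4 : (r * g₀).coeff (M.natDegree - 1) = c * r.leadingCoeff := by
        rw [hg₀, show r * (C c * X ^ (M.natDegree - 1 - r.natDegree)) =
          C c * (r * X ^ (M.natDegree - 1 - r.natDegree)) by ring, coeff_C_mul]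
        congr 1
        conv_lhs => rw [h3]
        rw [show r.natDegree + (M.natDegree - 1 - r.natDegree) - r.natDegree =
          M.natDegree - 1 - r.natDegree by omega, coeff_mul_X_pow]
        rfl
      rw [h4, hc, div_mul_cancel₀ _ hlc]
    have hshift := sum_PN_add hg₀mem (fun g => ψ (rho M (r * g)))
    have h5 : ∑ g ∈ PN F N, ψ (rho M (r * (g + g₀))) = ψ x * ∑ g ∈ PN F N, ψ (rho M (r * g)) := by
      rw [Finset.mul_sum]
      refine Finset.sum_congr rfl fun g _ => ?_
      rw [mul_add, rho_add, hval, AddChar.map_add_eq_mul, mul_comm]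
    rw [h5] at hshift
    have h6 : (ψ x - 1) * ∑ g ∈ PN F N, ψ (rho M (r * g)) = 0 := by
      rw [sub_mul, one_mul, hshift, sub_self]
    rcases mul_eq_zero.1 h6 with h7 | h7
    · exact absurd (sub_eq_zero.1 h7) hx
    · exact h7

end Pool.Agent.Helper31.AR
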