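import Pool.Agent.Helper31.AR.AddCharL
import Pool.Agent.Helper31.AR.GaussInv
import Pool.Agent.Helper31.AR.RhoSum
import Pool.Agent.Helper31.AR.JChi
import Pool.Agent.Helper31.AR.Recip

/-!
# AR-37: the average over the family for primitive `t`

`v ∈ MN F m` irreducible, `m = 6 n + 1 + a` even, `a ≥ 1`, `t` a root of `v`, `card L = q ^ m`. Let `e`, `G` be as in
`exists_addChar`, `exists_gauss`. Write `χ = chi L`. For all `A`, `B`
`G * cub L (A(t)) (B(t)) = ∑_{x ∈ L} ∑_{h ∈ L} χ(h) e (h x ^ 3) e (h x A(t)) e (h B(t))`.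
Sum over `B ∈ PN F (6 n + 1)`: for `h = g(t)`, `g ∈ PN F m` (every element of `L` is uniquely such, as in AR-35),
`∑_B e (h B(t)) = ∑_B ψ (rho v (g B)) = q ^ (6 n + 1)` if `g ∈ PN F (m - (6 n + 1)) = PN F a` and `0` otherwise (`sum_psi_rho`;
`g %ₘ v = g`). For `h ≠ 0`, replace `x` by `y = h x`, `y = k(t)` with `k ∈ PN F m`: `∑_A e (y A(t)) = q ^ (4 n + 1)` if
`k ∈ PN F (m - (4 n + 1)) = PN F (2 n + a)` and `0` otherwise, and `h x ^ 3 = y ^ 3 / h ^ 2 = (k ^ 3 * minv v g ^ 2)(t)` because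
`(minv v g)(t) = 1 / g(t)`. The terms `h = 0` vanish (`χ 0 = 0`). So
`G * ∑_{A, B} cub L (A(t)) (B(t)) = q ^ (10 n + 2) ∑_{0 ≠ g ∈ PN F a} χ(g(t)) inn ψ (2 n + a) v g`.

Write `g = C c * g₁` with `g₁` monic, `c = leadingCoeff g ∈ F^×` (bijection of `PN F a ∖ 0` with the disjoint union over
`D < a` of `F^× × MN F D`). `χ(g(t)) = χ(c) χ(g₁(t)) = J g₁ v` (`chi_algebraMap`, `J_eq_chi`, `m` even). Modulo `v`:
`minv v g ≡ C c⁻¹ * minv v g₁`, so `inn ψ (2 n + a) v g = ∑_k ψ (c⁻¹ ^ 2 * rho v (k ^ 3 * minv v g₁ ^ 2)) =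
inn (ψ.mulShift (c⁻¹ ^ 2)) (2 n + a) v g₁` (`AddChar.mulShift_apply : mulShift ψ r a = ψ (r * a)`). Hence
`G * ∑_{A, B} cub = q ^ (10 n + 2) ∑_{c ≠ 0} ∑_{D < a} XS (ψ.mulShift (c⁻¹ ^ 2)) (2 n + a) D v`, and
`‖G‖ = √(card L) = q ^ (m / 2)`. Take norms.
-/

set_option autoImplicit false

open Polynomial

namespace Pool.Agent.Helper31.AR

variable {F : Type} [Field F] [Fintype F] {L : Type} [Field L] [Fintype L] [Algebra F L]

omit [Fintype L] in
private theorem aeval_inj {t : L} {v : F[X]} (hv : v.Monic) (hirr : Irreducible v)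
    (ht : aeval t v = 0) {f g : F[X]} (hf : f ∈ PN F v.natDegree) (hg : g ∈ PN F v.natDegree)
    (h : aeval t f = aeval t g) : f = g := by
  have hmin : v = minpoly F t := minpoly.eq_of_irreducible_of_monic hirr ht hv
  have h1 : aeval t (f - g) = 0 := by rw [map_sub, h, sub_self]
  have h2 : v ∣ f - g := by rw [hmin]; exact minpoly.dvd F t h1
  have h3 : (f - g).degree < v.degree := by
    rw [degree_eq_natDegree hv.ne_zero]
    exact (mem_PN _ _).1 (sub_mem_PN hf hg)
  exact sub_eq_zero.1 (Polynomial.eq_zero_of_dvd_of_degree_lt h2 h3)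

private theorem sum_eval {t : L} {v : F[X]} (hv : v.Monic) (hirr : Irreducible v)
    (ht : aeval t v = 0) (hL : Fintype.card L = Fintype.card F ^ v.natDegree) (f : L → ℂ) :
    ∑ z : L, f z = ∑ g ∈ PN F v.natDegree, f (aeval t g) := by
  classical
  have hinj : Set.InjOn (fun g : F[X] => aeval t g) (PN F v.natDegree : Set F[X]) := by
    intro f hf g hg h
    exact aeval_inj hv hirr ht hf hg h
  have h1 : (PN F v.natDegree).image (fun g : F[X] => aeval t g) = Finset.univ := by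
    apply Finset.eq_univ_of_card
    rw [Finset.card_image_of_injOn hinj, card_PN, hL]
  rw [← h1, Finset.sum_image hinj]

omit [Fintype L] in
open Classical in
private theorem sum_e (ψ : AddChar F ℂ) (hψ : ψ ≠ 1) {t : L} {v : F[X]} (hv : v.Monic)
    (e : AddChar L ℂ) (he : ∀ g : F[X], e (aeval t g) = ψ (rho v g)) (N : ℕ) {g : F[X]}
    (hg : g ∈ PN F v.natDegree) :
    ∑ B ∈ PN F N, e (aeval t g * aeval t B) =
      if g ∈ PN F (v.natDegree - N) then ((Fintype.card F : ℂ)) ^ N else 0 := by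
  have h1 := sum_psi_rho ψ hψ hv g N
  have h2 : g %ₘ v = g := by
    rw [modByMonic_eq_self_iff hv, degree_eq_natDegree hv.ne_zero]
    exact (mem_PN _ _).1 hg
  rw [h2] at h1
  rw [← h1]
  apply Finset.sum_congr rfl
  intro B _
  rw [← map_mul, he]

private theorem coprime_of_PN {v : F[X]} (hirr : Irreducible v) {g : F[X]}
    (hg : g ∈ PN F v.natDegree) (h0 : g ≠ 0) : IsCoprime g v := by
  apply IsCoprime.symm
  rw [hirr.coprime_iff_not_dvd]
  intro h
  apply h0
  apply Polynomial.eq_zero_of_dvd_of_degree_lt h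
  rw [degree_eq_natDegree hirr.ne_zero]
  exact (mem_PN _ _).1 hg

omit [Fintype F] [Fintype L] in
private theorem aeval_minv {t : L} {v : F[X]} (ht : aeval t v = 0) {g : F[X]}
    (hc : IsCoprime g v) : aeval t (minv v g) = (aeval t g)⁻¹ := by
  have h1 : v ∣ minv v g * g - 1 := by
    unfold minv
    rw [dif_pos hc]
    obtain ⟨b, hb⟩ := Classical.choose_spec hc
    exact ⟨-b, by linear_combination hb⟩
  obtain ⟨c, hc'⟩ := h1
  have h2 := congrArg (fun f => aeval t f) hc'
  simp only [map_sub, map_mul, map_one, ht, zero_mul] at h2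
  have h3 : aeval t (minv v g) * aeval t g = 1 := sub_eq_zero.1 h2
  exact eq_inv_of_mul_eq_one_left h3

/-- the inner sum over `x` -/
private theorem inner_x (ψ : AddChar F ℂ) (hψ : ψ ≠ 1) {t : L} {v : F[X]} (hv : v.Monic)
    (hirr : Irreducible v) (ht : aeval t v = 0)
    (hL : Fintype.card L = Fintype.card F ^ v.natDegree)
    (e : AddChar L ℂ) (he : ∀ g : F[X], e (aeval t g) = ψ (rho v g)) (N : ℕ) {g : F[X]}
    (hg : g ∈ PN F v.natDegree) (h0 : g ≠ 0) :
    ∑ x : L, e (aeval t g * x ^ 3) * ∑ A ∈ PN F N, e (aeval t g * x * aeval t A) =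
      (Fintype.card F : ℂ) ^ N * inn ψ (v.natDegree - N) v g := by
  classical
  have hc := coprime_of_PN hirr hg h0
  have hmi := aeval_minv ht hc
  have hne : aeval t g ≠ 0 := by
    intro h
    apply h0
    apply aeval_inj hv hirr ht hg (zero_mem_PN _)
    rw [h, map_zero]
  have h1 : ∑ x : L, e (aeval t g * x ^ 3) * ∑ A ∈ PN F N, e (aeval t g * x * aeval t A) =
      ∑ y : L, e (y ^ 3 * (aeval t (minv v g)) ^ 2) * ∑ A ∈ PN F N, e (y * aeval t A) := by
    refine Fintype.sum_equiv (Equiv.mulLeft₀ (aeval t g) hne) _ _ ?_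
    intro x
    rw [Equiv.mulLeft₀_apply, hmi]
    congr 2
    field_simp
  rw [h1, sum_eval hv hirr ht hL]
  have h2 : ∀ k ∈ PN F v.natDegree,
      e ((aeval t k) ^ 3 * (aeval t (minv v g)) ^ 2) * ∑ A ∈ PN F N, e (aeval t k * aeval t A) =
      if k ∈ PN F (v.natDegree - N) then
        (Fintype.card F : ℂ) ^ N * ψ (rho v (k ^ 3 * minv v g ^ 2)) else 0 := by
    intro k hk
    have h3 : (aeval t k) ^ 3 * (aeval t (minv v g)) ^ 2 = aeval t (k ^ 3 * minv v g ^ 2) := by
      rw [map_mul, map_pow, map_pow]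
    rw [sum_e ψ hψ hv e he N hk, h3, he]
    split_ifs
    · ring
    · ring
  rw [Finset.sum_congr rfl h2, ← Finset.sum_filter]
  unfold inn
  rw [Finset.mul_sum]
  apply Finset.sum_congr
  · ext k
    rw [Finset.mem_filter]
    constructor
    · intro h; exact h.2
    · intro h; exact ⟨PN_mono (Nat.sub_le _ _) h, h⟩
  · intro k _
    rfl

/-- the Fourier expansion -/
private theorem expand_cub {t : L} (e : AddChar L ℂ) (G : ℂ)
    (hG : ∀ z : L, (chi L z : ℂ) * G = ∑ h : L, (chi L h : ℂ) * e (h * z)) (N M : ℕ) :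
    ((∑ A ∈ PN F N, ∑ B ∈ PN F M, cub L (aeval t A) (aeval t B) : ℤ) : ℂ) * G =
      ∑ h : L, (chi L h : ℂ) *
        (∑ x : L, e (h * x ^ 3) * ∑ A ∈ PN F N, e (h * x * aeval t A)) *
        ∑ B ∈ PN F M, e (h * aeval t B) := by
  have hL : ((∑ A ∈ PN F N, ∑ B ∈ PN F M, cub L (aeval t A) (aeval t B) : ℤ) : ℂ) * G =
      ∑ A ∈ PN F N, ∑ B ∈ PN F M, ∑ x : L, ∑ h : L,
        (chi L h : ℂ) * e (h * x ^ 3) * e (h * x * aeval t A) * e (h * aeval t B) := by
    rw [Int.cast_sum, Finset.sum_mul]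
    apply Finset.sum_congr rfl
    intro A _
    rw [Int.cast_sum, Finset.sum_mul]
    apply Finset.sum_congr rfl
    intro B _
    unfold cub
    rw [Int.cast_sum, Finset.sum_mul]
    apply Finset.sum_congr rfl
    intro x _
    rw [hG]
    apply Finset.sum_congr rfl
    intro h _
    have h1 : h * (x ^ 3 + aeval t A * x + aeval t B) =
        h * x ^ 3 + h * x * aeval t A + h * aeval t B := by ring
    rw [h1, AddChar.map_add_eq_mul, AddChar.map_add_eq_mul]
    ring
  rw [hL]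
  have hR : ∀ h : L, (chi L h : ℂ) *
        (∑ x : L, e (h * x ^ 3) * ∑ A ∈ PN F N, e (h * x * aeval t A)) *
        ∑ B ∈ PN F M, e (h * aeval t B) = ∑ x : L, ∑ A ∈ PN F N, ∑ B ∈ PN F M,
        (chi L h : ℂ) * e (h * x ^ 3) * e (h * x * aeval t A) * e (h * aeval t B) := by
    intro h
    have hx : (chi L h : ℂ) * (∑ x : L, e (h * x ^ 3) * ∑ A ∈ PN F N, e (h * x * aeval t A)) =
        ∑ x : L, ∑ A ∈ PN F N, (chi L h : ℂ) * e (h * x ^ 3) * e (h * x * aeval t A) := by
      rw [Finset.mul_sum]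
      apply Finset.sum_congr rfl
      intro x _
      rw [← mul_assoc, Finset.mul_sum]
    rw [hx, Finset.sum_mul]
    apply Finset.sum_congr rfl
    intro x _
    rw [Finset.sum_mul_sum]
  rw [Finset.sum_congr rfl (fun h _ => hR h)]
  -- rearrange
  calc ∑ A ∈ PN F N, ∑ B ∈ PN F M, ∑ x : L, ∑ h : L,
        (chi L h : ℂ) * e (h * x ^ 3) * e (h * x * aeval t A) * e (h * aeval t B)
      = ∑ A ∈ PN F N, ∑ B ∈ PN F M, ∑ h : L, ∑ x : L,
        (chi L h : ℂ) * e (h * x ^ 3) * e (h * x * aeval t A) * e (h * aeval t B) :=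
        Finset.sum_congr rfl (fun A _ => Finset.sum_congr rfl (fun B _ => Finset.sum_comm))
    _ = ∑ A ∈ PN F N, ∑ h : L, ∑ B ∈ PN F M, ∑ x : L,
        (chi L h : ℂ) * e (h * x ^ 3) * e (h * x * aeval t A) * e (h * aeval t B) :=
        Finset.sum_congr rfl (fun A _ => Finset.sum_comm)
    _ = ∑ h : L, ∑ A ∈ PN F N, ∑ B ∈ PN F M, ∑ x : L,
        (chi L h : ℂ) * e (h * x ^ 3) * e (h * x * aeval t A) * e (h * aeval t B) :=
        Finset.sum_comm
    _ = ∑ h : L, ∑ A ∈ PN F N, ∑ x : L, ∑ B ∈ PN F M,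
        (chi L h : ℂ) * e (h * x ^ 3) * e (h * x * aeval t A) * e (h * aeval t B) :=
        Finset.sum_congr rfl (fun h _ => Finset.sum_congr rfl (fun A _ => Finset.sum_comm))
    _ = ∑ h : L, ∑ x : L, ∑ A ∈ PN F N, ∑ B ∈ PN F M,
        (chi L h : ℂ) * e (h * x ^ 3) * e (h * x * aeval t A) * e (h * aeval t B) :=
        Finset.sum_congr rfl (fun h _ => Finset.sum_comm)

/-- sum over the nonzero polynomials of degree `< a` -/
private theorem sum_erase_zero (a : ℕ) (f : F[X] → ℂ) [DecidableEq F[X]] [DecidableEq F] :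
    ∑ g ∈ (PN F a).erase 0, f g =
      ∑ c ∈ (Finset.univ : Finset F).erase 0, ∑ D ∈ Finset.range a, ∑ g ∈ MN F D, f (C c * g) := by
  classical
  have h1 : ∀ c ∈ (Finset.univ : Finset F).erase 0,
      ∑ D ∈ Finset.range a, ∑ g ∈ MN F D, f (C c * g) =
      ∑ p ∈ (Finset.range a).sigma (fun D => MN F D), f (C c * p.2) := by
    intro c _
    rw [Finset.sum_sigma]
  rw [Finset.sum_congr rfl h1, ← Finset.sum_product']
  symm
  refine Finset.sum_bij (fun p _ => C p.1 * p.2.2) ?_ ?_ ?_ ?_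
  · rintro ⟨c, D, g⟩ hp
    simp only [Finset.mem_product, Finset.mem_erase, Finset.mem_univ, and_true,
      Finset.mem_sigma, Finset.mem_range] at hp
    obtain ⟨hc, hD, hg⟩ := hp
    rw [Finset.mem_erase]
    refine ⟨mul_ne_zero (C_ne_zero.2 hc) (monic_of_mem_MN hg).ne_zero, ?_⟩
    apply C_mul_mem_PN
    rw [mem_PN, degree_of_mem_MN hg]
    exact_mod_cast hD
  · rintro ⟨c, D, g⟩ hp ⟨c', D', g'⟩ hp' h
    simp only [Finset.mem_product, Finset.mem_erase, Finset.mem_univ, and_true,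
      Finset.mem_sigma, Finset.mem_range] at hp hp'
    obtain ⟨hc, hD, hg⟩ := hp
    obtain ⟨hc', hD', hg'⟩ := hp'
    dsimp only at h
    have hcc : c = c' := by
      have h2 := congrArg leadingCoeff h
      rw [leadingCoeff_mul, leadingCoeff_mul, leadingCoeff_C, leadingCoeff_C,
        (monic_of_mem_MN hg).leadingCoeff, (monic_of_mem_MN hg').leadingCoeff, mul_one,
        mul_one] at h2
      exact h2
    subst hcc
    have hgg : g = g' := mul_left_cancel₀ (C_ne_zero.2 hc) h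
    subst hgg
    have hDD : D = D' := by
      rw [← natDegree_of_mem_MN hg, ← natDegree_of_mem_MN hg']
    subst hDD
    rfl
  · intro g hg
    rw [Finset.mem_erase] at hg
    obtain ⟨h0, hg⟩ := hg
    have hlc : g.leadingCoeff ≠ 0 := leadingCoeff_ne_zero.2 h0
    refine ⟨⟨g.leadingCoeff, g.natDegree, C g.leadingCoeff⁻¹ * g⟩, ?_, ?_⟩
    · simp only [Finset.mem_product, Finset.mem_erase, Finset.mem_univ, and_true,
        Finset.mem_sigma, Finset.mem_range]
      refine ⟨hlc, ?_, ?_⟩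
      · rw [mem_PN, degree_eq_natDegree h0] at hg
        exact_mod_cast hg
      · rw [mem_MN]
        constructor
        · rw [Monic, leadingCoeff_mul, leadingCoeff_C, inv_mul_cancel₀ hlc]
        · rw [natDegree_C_mul (inv_ne_zero hlc)]
    · dsimp only
      rw [← mul_assoc, ← C_mul, mul_inv_cancel₀ hlc, C_1, one_mul]
  · intro p _
    rfl

omit [Fintype F] in
private theorem minv_C_mul {v g : F[X]} {c : F} (hc : c ≠ 0) (hg : IsCoprime g v) :
    v ∣ C c⁻¹ * minv v g - minv v (C c * g) := by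
  have hu : IsUnit (C c) := isUnit_C.2 (isUnit_iff_ne_zero.2 hc)
  have hg' : IsCoprime (C c * g) v := (isCoprime_mul_unit_left_left hu g v).2 hg
  refine minv_congr hg' ?_
  have h1 : v ∣ minv v g * g - 1 := by
    unfold minv
    rw [dif_pos hg]
    obtain ⟨b, hb⟩ := Classical.choose_spec hg
    exact ⟨-b, by linear_combination hb⟩
  have h2 : C c⁻¹ * minv v g * (C c * g) - 1 = minv v g * g - 1 := by
    have h3 : (C c⁻¹ : F[X]) * C c = 1 := by rw [← C_mul, inv_mul_cancel₀ hc, C_1]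
    linear_combination (minv v g * g) * h3
  rw [h2]
  exact h1

private theorem inn_C_mul (ψ : AddChar F ℂ) (K : ℕ) {v g : F[X]} (hv : v.Monic) {c : F}
    (hc : c ≠ 0) (hg : IsCoprime g v) :
    inn ψ K v (C c * g) = inn (AddChar.mulShift ψ (c⁻¹ ^ 2)) K v g := by
  unfold inn
  apply Finset.sum_congr rfl
  intro k _
  rw [AddChar.mulShift_apply, ← rho_C_mul]
  congr 1
  apply rho_congr hv
  obtain ⟨d, hd⟩ := minv_C_mul hc hg
  refine ⟨-(k ^ 3 * (minv v (C c * g) + C c⁻¹ * minv v g) * d), ?_⟩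
  rw [C_pow]
  linear_combination (-(k ^ 3 * (minv v (C c * g) + C c⁻¹ * minv v g))) * hd

open Classical in
theorem prim_avg (ψ : AddChar F ℂ) (hψ : ψ ≠ 1) (h2 : (2 : F) ≠ 0) {n a : ℕ} (ha : 1 ≤ a)
    (heven : Even (6 * n + 1 + a)) {t : L} {v : F[X]} (hv : v ∈ MN F (6 * n + 1 + a))
    (hirr : Irreducible v) (ht : aeval t v = 0)
    (hL : Fintype.card L = Fintype.card F ^ (6 * n + 1 + a)) :
    |((∑ A ∈ PN F (4 * n + 1), ∑ B ∈ PN F (6 * n + 1), cub L (aeval t A) (aeval t B) : ℤ) : ℝ)| ≤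
      (Fintype.card F : ℝ) ^ (10 * n + 2) * (Fintype.card F : ℝ) ^ (-((6 * n + 1 + a : ℝ) / 2)) *
        ∑ c ∈ (Finset.univ : Finset F).erase 0, ∑ D ∈ Finset.range a,
          ‖XS (AddChar.mulShift ψ (c⁻¹ ^ 2)) (2 * n + a) D v‖ := by
  have hvm : v.Monic := monic_of_mem_MN hv
  have hvd : v.natDegree = 6 * n + 1 + a := natDegree_of_mem_MN hv
  have hL' : Fintype.card L = Fintype.card F ^ v.natDegree := by rw [hvd, hL]
  have h2L : (2 : L) ≠ 0 := by
    intro h
    apply h2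
    have h1 : algebraMap F L 2 = 0 := by rw [map_ofNat]; exact h
    exact (map_eq_zero _).1 h1
  obtain ⟨e, he1, he⟩ := exists_addChar ψ hψ hvm hirr ht hL'
  obtain ⟨G, hGn, hG⟩ := exists_gauss h2L e he1
  set S : ℤ := ∑ A ∈ PN F (4 * n + 1), ∑ B ∈ PN F (6 * n + 1), cub L (aeval t A) (aeval t B)
    with hS
  have hq : (0 : ℝ) < (Fintype.card F : ℝ) := by exact_mod_cast Fintype.card_pos
  -- the main identity
  have key : (S : ℂ) * G = (Fintype.card F : ℂ) ^ (10 * n + 2) *
      ∑ c ∈ (Finset.univ : Finset F).erase 0, ∑ D ∈ Finset.range a,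
        XS (AddChar.mulShift ψ (c⁻¹ ^ 2)) (2 * n + a) D v := by
    rw [hS, expand_cub e G hG, sum_eval hvm hirr ht hL']
    have h3 : ∀ g ∈ PN F v.natDegree, (chi L (aeval t g) : ℂ) *
        (∑ x : L, e (aeval t g * x ^ 3) *
          ∑ A ∈ PN F (4 * n + 1), e (aeval t g * x * aeval t A)) *
        ∑ B ∈ PN F (6 * n + 1), e (aeval t g * aeval t B) =
        if g ∈ (PN F a).erase 0 then (Fintype.card F : ℂ) ^ (10 * n + 2) *
          ((chi L (aeval t g) : ℂ) * inn ψ (2 * n + a) v g) else 0 := by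
      intro g hg
      by_cases h0 : g = 0
      · subst h0
        have hz : chi L (aeval t (0 : F[X])) = 0 := by
          rw [map_zero]
          unfold chi
          exact quadraticChar_zero
        rw [hz]
        simp
      · rw [inner_x ψ hψ hvm hirr ht hL' e he (4 * n + 1) hg h0,
          sum_e ψ hψ hvm e he (6 * n + 1) hg]
        have hd1 : v.natDegree - (6 * n + 1) = a := by omega
        have hd2 : v.natDegree - (4 * n + 1) = 2 * n + a := by omega
        rw [hd1, hd2]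
        by_cases hga : g ∈ PN F a
        · rw [if_pos hga, if_pos (Finset.mem_erase.2 ⟨h0, hga⟩)]
          have hp : (10 * n + 2) = (4 * n + 1) + (6 * n + 1) := by ring
          rw [hp, pow_add]
          ring
        · rw [if_neg hga, if_neg (fun h => hga (Finset.mem_of_mem_erase h)), mul_zero]
    rw [Finset.sum_congr rfl h3, ← Finset.sum_filter, ← Finset.mul_sum]
    congr 1
    have h4 : (PN F v.natDegree).filter (fun g => g ∈ (PN F a).erase 0) = (PN F a).erase 0 := by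
      ext g
      rw [Finset.mem_filter]
      constructor
      · intro h; exact h.2
      · intro h
        refine ⟨PN_mono ?_ (Finset.mem_of_mem_erase h), h⟩
        omega
    rw [h4, sum_erase_zero]
    apply Finset.sum_congr rfl
    intro c hc
    have hc0 : c ≠ 0 := (Finset.mem_erase.1 hc).1
    apply Finset.sum_congr rfl
    intro D hD
    rw [Finset.mem_range] at hD
    unfold XS
    apply Finset.sum_congr rfl
    intro g hg
    have hgP : g ∈ PN F v.natDegree := by
      rw [mem_PN, degree_of_mem_MN hg]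
      have : D < v.natDegree := by omega
      exact_mod_cast this
    have hcop : IsCoprime g v := coprime_of_PN hirr hgP (monic_of_mem_MN hg).ne_zero
    rw [inn_C_mul ψ _ hvm hc0 hcop]
    congr 1
    rw [J_eq_chi h2 hvm hirr ht hL' (by rw [hvd]; exact heven)]
    rw [map_mul, aeval_C]
    have h5 : chi L (algebraMap F L c * aeval t g) =
        chi L (algebraMap F L c) * chi L (aeval t g) := by
      unfold chi
      exact map_mul _ _ _
    rw [h5, chi_algebraMap h2 hL heven hc0, one_mul]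
  -- norms
  have hGn' : ‖G‖ = (Fintype.card F : ℝ) ^ ((6 * n + 1 + a : ℝ) / 2) := by
    have h3 : ‖G‖ = Real.sqrt ((Fintype.card L : ℝ)) := by
      rw [← hGn, Real.sqrt_sq (norm_nonneg _)]
    rw [h3, hL, Real.sqrt_eq_rpow]
    push_cast
    rw [← Real.rpow_natCast, ← Real.rpow_mul hq.le]
    congr 1
    push_cast
    ring
  have h6 := congrArg norm key
  rw [norm_mul, norm_mul, norm_pow, Complex.norm_natCast] at h6
  have h7 : ‖(S : ℂ)‖ = |(S : ℝ)| := by
    rw [Complex.norm_intCast]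
  rw [h7, hGn'] at h6
  have h8 : ‖∑ c ∈ (Finset.univ : Finset F).erase 0, ∑ D ∈ Finset.range a,
        XS (AddChar.mulShift ψ (c⁻¹ ^ 2)) (2 * n + a) D v‖ ≤
      ∑ c ∈ (Finset.univ : Finset F).erase 0, ∑ D ∈ Finset.range a,
          ‖XS (AddChar.mulShift ψ (c⁻¹ ^ 2)) (2 * n + a) D v‖ := by
    refine (norm_sum_le _ _).trans ?_
    apply Finset.sum_le_sum
    intro c _
    exact norm_sum_le _ _
  have h9 : |(S : ℝ)| = (Fintype.card F : ℝ) ^ (10 * n + 2) *
      (Fintype.card F : ℝ) ^ (-((6 * n + 1 + a : ℝ) / 2)) *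
      ‖∑ c ∈ (Finset.univ : Finset F).erase 0, ∑ D ∈ Finset.range a,
        XS (AddChar.mulShift ψ (c⁻¹ ^ 2)) (2 * n + a) D v‖ := by
    have h10 : (Fintype.card F : ℝ) ^ ((6 * n + 1 + a : ℝ) / 2) *
        (Fintype.card F : ℝ) ^ (-((6 * n + 1 + a : ℝ) / 2)) = 1 := by
      rw [← Real.rpow_add hq, add_neg_cancel, Real.rpow_zero]
    calc |(S : ℝ)| = (|(S : ℝ)| * (Fintype.card F : ℝ) ^ ((6 * n + 1 + a : ℝ) / 2)) *
        (Fintype.card F : ℝ) ^ (-((6 * n + 1 + a : ℝ) / 2)) := by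
          rw [mul_assoc, h10, mul_one]
      _ = _ := by rw [h6]; ring
  rw [h9]
  exact mul_le_mul_of_nonneg_left h8 (by positivity)

end Pool.Agent.Helper31.AR
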