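import Pool.Agent.Helper31.AR.Defs

/-!
# AR-34: the trivial bound

`|chi L z| ≤ 1`, so `|cub L a b| ≤ Q` (`Q = card L`), and `|TT L n A B| ≤ Q * Q + Q ≤ 2 Q ^ 2`.
-/

set_option autoImplicit false

open Polynomial

namespace Pool.Agent.Helper31.AR

variable {F : Type} [Field F] [Fintype F] {L : Type} [Field L] [Fintype L] [Algebra F L]

private theorem abs_chi_le (z : L) : |chi L z| ≤ 1 := by
  classical
  unfold chi
  by_cases hz : z = 0
  · subst hz
    simp
  · rcases quadraticChar_dichotomy hz with h | h <;> rw [h] <;> norm_num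

theorem abs_cub_le (a b : L) : |cub L a b| ≤ (Fintype.card L : ℤ) := by
  unfold cub
  calc |∑ x : L, chi L (x ^ 3 + a * x + b)| ≤ ∑ x : L, |chi L (x ^ 3 + a * x + b)| :=
        Finset.abs_sum_le_sum_abs _ _
    _ ≤ ∑ _x : L, (1 : ℤ) := Finset.sum_le_sum fun x _ => abs_chi_le _
    _ = (Fintype.card L : ℤ) := by simp

theorem abs_TT_le (n : ℕ) (A B : F[X]) : |TT L n A B| ≤ 2 * (Fintype.card L : ℤ) ^ 2 := by
  have h1 : (1 : ℤ) ≤ (Fintype.card L : ℤ) := by exact_mod_cast Fintype.card_pos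
  unfold TT
  have h2 : |∑ t : L, cub L (aeval t A) (aeval t B)| ≤
      (Fintype.card L : ℤ) * (Fintype.card L : ℤ) := by
    calc |∑ t : L, cub L (aeval t A) (aeval t B)| ≤ ∑ t : L, |cub L (aeval t A) (aeval t B)| :=
          Finset.abs_sum_le_sum_abs _ _
      _ ≤ ∑ _t : L, (Fintype.card L : ℤ) := Finset.sum_le_sum fun t _ => abs_cub_le _ _
      _ = _ := by simp
  have h3 := abs_cub_le (L := L) (algebraMap F L (A.coeff (4 * n)))
    (algebraMap F L (B.coeff (6 * n)))
  refine (abs_add_le _ _).trans ?_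
  nlinarith

end Pool.Agent.Helper31.AR
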