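import Pool.Agent.Helper31.AR.Defs

/-!
# AR-08: the divisor bound

Proof. Let `0 ≠ f`, `deg f ≤ N`. Fix `B ≥ 1`. Call an irreducible monic polynomial small if its degree is `< B`
and large otherwise; there are at most `q ^ B` ... say `c = c(q, B)` small ones (they lie in `PN F B`). A monic divisor
`g` of `f` is determined by the multiset `normalizedFactors g ≤ normalizedFactors f`, i.e. by the
multiplicities of the small irreducible factors (a function from `PN F B` to `{0, ..., N}`: at most
`(N + 1) ^ (q ^ B)` possibilities) and by the submultiset of the large factors of `f` (there are at most `N / B`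
large factors with multiplicity since their degrees add up to at most `N`; a multiset with `k` elements has at
most `2 ^ k` submultisets, `Multiset.card_powerset`). Hence
`(dv f).card ≤ (N + 1) ^ (q ^ B) * 2 ^ (N / B)`.
The same bound holds for `dmax F N` (for `f = 0` the value in the definition is `1`; the elements of
`PN F (N + 1)` have degree `≤ N`). Choose `B` with `2 ≤ q ^ (ε B / 2)`, so `2 ^ (N / B) ≤ q ^ (ε N / 2)`, and
`(N + 1) ^ (q ^ B) ≤ C q ^ (ε N / 2)` because polynomials grow slower than exponentials (e.g.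
`tendsto_pow_const_div_const_pow_of_one_lt` or `isLittleO_pow_const_const_pow_of_one_lt`, eventually bounded
plus finitely many `N`).
Any other proof is fine (e.g. by `UniqueFactorizationMonoid.induction_on_coprime`).
-/

set_option autoImplicit false

open Polynomial

namespace Pool.Agent.Helper31.AR

variable {F : Type} [Field F] [Fintype F]

open UniqueFactorizationMonoid in
theorem sum_natDegree_nf [DecidableEq F] {f : F[X]} (hf : f ≠ 0) :
    ((normalizedFactors f).map natDegree).sum = f.natDegree := by
  have h0 : (0 : F[X]) ∉ normalizedFactors f := zero_notMem_normalizedFactors f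
  rw [← natDegree_multiset_prod _ h0]
  exact natDegree_eq_of_degree_eq (degree_eq_degree_of_associated (prod_normalizedFactors hf))

open UniqueFactorizationMonoid in
theorem card_dv_bound {f : F[X]} (hf : f ≠ 0) {N : ℕ} (hN : f.natDegree ≤ N) {B : ℕ} (hB : 0 < B) :
    (dv f).card ≤ (N + 1) ^ (Fintype.card F ^ B) * 2 ^ (N / B) := by
  classical
  let large : F[X] → Prop := fun p => B ≤ p.natDegree
  let S : Finset (∀ p ∈ PN F B, ℕ) := (PN F B).pi (fun _ => Finset.range (N + 1))
  let L : Multiset F[X] := (normalizedFactors f).filter large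
  let T : Finset (Multiset F[X]) := L.powerset.toFinset
  have hS : S.card = (N + 1) ^ (Fintype.card F ^ B) := by
    simp only [S]
    rw [Finset.card_pi]
    simp [card_PN]
  -- few large factors
  have hLB : L.card * B ≤ N := by
    have h1 : L.card * B ≤ (L.map natDegree).sum := by
      have h2 := Multiset.card_nsmul_le_sum (s := L.map natDegree) (a := B) (by
        intro x hx
        obtain ⟨p, hp, rfl⟩ := Multiset.mem_map.1 hx
        exact (Multiset.mem_filter.1 hp).2)
      rw [Multiset.card_map, smul_eq_mul] at h2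
      exact h2
    have h3 : (L.map natDegree).sum ≤ ((normalizedFactors f).map natDegree).sum := by
      have h4 : L ≤ normalizedFactors f := Multiset.filter_le _ _
      obtain ⟨t, ht⟩ := Multiset.le_iff_exists_add.1 h4
      rw [ht, Multiset.map_add, Multiset.sum_add]
      exact Nat.le_add_right _ _
    rw [sum_natDegree_nf hf] at h3
    exact (h1.trans h3).trans hN
  have hL : L.card ≤ N / B := (Nat.le_div_iff_mul_le hB).2 hLB
  have hT : T.card ≤ 2 ^ (N / B) := by
    refine (Multiset.toFinset_card_le _).trans ?_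
    rw [Multiset.card_powerset]
    exact Nat.pow_le_pow_right (by norm_num) hL
  -- the injection
  have hcard : ∀ g : F[X], g ≠ 0 → g.natDegree ≤ N → ∀ p, (normalizedFactors g).count p ≤ N := by
    intro g hg hgN p
    refine (Multiset.count_le_card _ _).trans ?_
    have h2 := Multiset.card_nsmul_le_sum (s := (normalizedFactors g).map natDegree) (a := 1) (by
      intro x hx
      obtain ⟨p, hp, rfl⟩ := Multiset.mem_map.1 hx
      have h3 := irreducible_of_normalized_factor p hp
      exact Nat.succ_le_of_lt h3.natDegree_pos)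
    rw [Multiset.card_map, smul_eq_mul, mul_one, sum_natDegree_nf hg] at h2
    exact h2.trans hgN
  let φ : F[X] → (∀ p ∈ PN F B, ℕ) × Multiset F[X] := fun g =>
    (fun p _ => (normalizedFactors g).count p, (normalizedFactors g).filter large)
  have hmaps : ∀ g ∈ dv f, φ g ∈ S ×ˢ T := by
    intro g hg
    rw [mem_dv hf] at hg
    obtain ⟨hg1, hg2⟩ := hg
    have hg0 : g ≠ 0 := hg1.ne_zero
    have hgN : g.natDegree ≤ N := (natDegree_le_of_dvd hg2 hf).trans hN
    rw [Finset.mem_product]
    refine ⟨?_, ?_⟩
    · simp only [S, φ, Finset.mem_pi]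
      intro p _
      rw [Finset.mem_range]
      exact Nat.lt_succ_of_le (hcard g hg0 hgN p)
    · simp only [T, φ]
      rw [Multiset.mem_toFinset, Multiset.mem_powerset]
      exact Multiset.filter_le_filter _
        ((dvd_iff_normalizedFactors_le_normalizedFactors hg0 hf).1 hg2)
  have hinj : Set.InjOn φ (dv f : Set F[X]) := by
    intro g hg g' hg' h
    have hg := (mem_dv hf g).1 hg
    have hg' := (mem_dv hf g').1 hg'
    have h1 : (fun (p : F[X]) (_ : p ∈ PN F B) => (normalizedFactors g).count p) =
        (fun (p : F[X]) (_ : p ∈ PN F B) => (normalizedFactors g').count p) := congrArg Prod.fst h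
    have h2 : (normalizedFactors g).filter large = (normalizedFactors g').filter large :=
      congrArg Prod.snd h
    have h3 : normalizedFactors g = normalizedFactors g' := by
      ext p
      by_cases hp : B ≤ p.natDegree
      · have h4 := congrArg (Multiset.count p) h2
        rw [Multiset.count_filter_of_pos (p := large) hp,
          Multiset.count_filter_of_pos (p := large) hp] at h4
        exact h4
      · have h4 : p ∈ PN F B := by
          rw [mem_PN_iff_natDegree hB]; exact not_le.1 hp
        exact congrFun (congrFun h1 p) h4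
    have h5 : Associated g g' := by
      refine (prod_normalizedFactors hg.1.ne_zero).symm.trans ?_
      rw [h3]
      exact prod_normalizedFactors hg'.1.ne_zero
    exact eq_of_monic_of_associated hg.1 hg'.1 h5
  calc (dv f).card ≤ (S ×ˢ T).card := Finset.card_le_card_of_injOn φ hmaps hinj
    _ = S.card * T.card := Finset.card_product _ _
    _ ≤ (N + 1) ^ (Fintype.card F ^ B) * 2 ^ (N / B) := by
        rw [hS]; exact Nat.mul_le_mul_left _ hT

theorem dmax_bound_nat (N : ℕ) {B : ℕ} (hB : 0 < B) :
    dmax F N ≤ (N + 1) ^ (Fintype.card F ^ B) * 2 ^ (N / B) := by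
  classical
  unfold dmax
  refine Finset.sup_le ?_
  intro f hf
  split_ifs with h0
  · exact Nat.one_le_iff_ne_zero.2 (by positivity)
  · refine card_dv_bound h0 ?_ hB
    rw [mem_PN_iff_natDegree (Nat.succ_pos N)] at hf
    exact Nat.le_of_lt_succ hf

theorem pow_bound (k : ℕ) {r : ℝ} (hr : 1 < r) :
    ∃ C : ℝ, 0 < C ∧ ∀ N : ℕ, ((N : ℝ) + 1) ^ k ≤ C * r ^ N := by
  have h := tendsto_pow_const_div_const_pow_of_one_lt k hr
  obtain ⟨M, hM⟩ := h.bddAbove_range
  have hr0 : 0 < r := by linarith
  refine ⟨(|M| + 1) * r, by positivity, ?_⟩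
  intro N
  have h1 := hM ⟨N + 1, rfl⟩
  simp only at h1
  push_cast at h1
  rw [div_le_iff₀ (by positivity)] at h1
  have h2 : M ≤ |M| + 1 := by linarith [le_abs_self M]
  have h3 : (0 : ℝ) < r ^ (N + 1) := by positivity
  calc ((N : ℝ) + 1) ^ k ≤ M * r ^ (N + 1) := h1
    _ ≤ (|M| + 1) * r ^ (N + 1) := mul_le_mul_of_nonneg_right h2 h3.le
    _ = (|M| + 1) * r * r ^ N := by ring

theorem dmax_bound (F : Type) [Field F] [Fintype F] (ε : ℝ) (hε : 0 < ε) :
    ∃ C : ℝ, 0 < C ∧ ∀ N : ℕ, (dmax F N : ℝ) ≤ C * (Fintype.card F : ℝ) ^ (ε * (N : ℝ)) := by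
  have hq1 : 1 < Fintype.card F := Fintype.one_lt_card
  set q : ℝ := (Fintype.card F : ℝ) with hq
  have hq1' : 1 < q := by rw [hq]; exact_mod_cast hq1
  have hq0 : 0 < q := by linarith
  have hlog : 0 < Real.log q := Real.log_pos hq1'
  obtain ⟨B, hB⟩ := exists_nat_gt (2 * Real.log 2 / (ε * Real.log q))
  have hpos : 0 < 2 * Real.log 2 / (ε * Real.log q) := by
    have := Real.log_pos (show (1 : ℝ) < 2 by norm_num)
    positivity
  have hB0 : 0 < B := by
    have : (0 : ℝ) < B := hpos.trans hB
    exact_mod_cast this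
  have hBR : (0 : ℝ) < B := by exact_mod_cast hB0
  have hr : 1 < q ^ (ε / 2) := Real.one_lt_rpow hq1' (by positivity)
  obtain ⟨C, hC, hCN⟩ := pow_bound (Fintype.card F ^ B) hr
  refine ⟨C, hC, ?_⟩
  intro N
  have h1 : (dmax F N : ℝ) ≤ ((N : ℝ) + 1) ^ (Fintype.card F ^ B) * 2 ^ (N / B) := by
    have := dmax_bound_nat (F := F) N hB0
    exact_mod_cast this
  have h2 : (2 : ℝ) ^ (N / B) ≤ q ^ (ε / 2 * N) := by
    have h3 : (2 : ℝ) ^ (N / B) ≤ (2 : ℝ) ^ ((N : ℝ) / B) := by
      rw [← Real.rpow_natCast]
      exact Real.rpow_le_rpow_of_exponent_le (by norm_num) Nat.cast_div_le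
    refine h3.trans ?_
    rw [Real.rpow_def_of_pos (by norm_num), Real.rpow_def_of_pos hq0]
    apply Real.exp_le_exp.2
    have h4 : 2 * Real.log 2 < B * (ε * Real.log q) := by
      rwa [div_lt_iff₀ (by positivity)] at hB
    have hN0 : (0 : ℝ) ≤ N := Nat.cast_nonneg N
    have e1 : Real.log 2 * ((N : ℝ) / B) = (Real.log 2 * N) / B := by ring
    rw [e1, div_le_iff₀ hBR]
    nlinarith [mul_le_mul_of_nonneg_right h4.le hN0]
  have h5 : ((N : ℝ) + 1) ^ (Fintype.card F ^ B) ≤ C * q ^ (ε / 2 * N) := by
    refine (hCN N).trans (le_of_eq ?_)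
    rw [Real.rpow_mul hq0.le, Real.rpow_natCast]
  calc (dmax F N : ℝ) ≤ ((N : ℝ) + 1) ^ (Fintype.card F ^ B) * 2 ^ (N / B) := h1
    _ ≤ (C * q ^ (ε / 2 * N)) * q ^ (ε / 2 * N) := by
        apply mul_le_mul h5 h2 (by positivity)
        positivity
    _ = C * q ^ (ε * N) := by
        rw [mul_assoc, ← Real.rpow_add hq0]
        congr 2
        ring

end Pool.Agent.Helper31.AR
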