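import Pool.Agent.Helper31.AR.D0Defs

/-!
# AR-19: counting the pairs of cubes

Write `s = c2 s'` (`s' ∈ MN F (σ - δ)`; `(c2, s) ↦ (c2, s')` is a bijection of the pairs with `c2 ∣ s`; if `δ > σ` the
left side is empty). `c2 s' ∣ c2 (t ^ 3 - t' ^ 3)` iff `s' ∣ t ^ 3 - t' ^ 3`. So the left side is
`q ^ δ * ∑_{(t, t') ∈ PN F σ × PN F σ} #{s' ∈ MN F (σ - δ) : s' ∣ t ^ 3 - t' ^ 3}`.

* If `t ^ 3 ≠ t' ^ 3`: the number of `s'` is at most `(dv (t ^ 3 - t' ^ 3)).card ≤ dmax F N` (degree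
  `≤ 3 (σ - 1) ≤ N`). At most `q ^ (2 σ)` such pairs.
* Pairs with `t ^ 3 = t' ^ 3`: for every `t'` at most `3` values of `t` (roots of `T ^ 3 - t' ^ 3` in the domain
  `F[X]`: `Polynomial.card_nthRoots` or a direct argument), so at most `3 q ^ σ` pairs, each with at most
  `q ^ (σ - δ)` values of `s'`.

Total: `≤ q ^ δ (q ^ (2 σ) dmax + 3 q ^ σ q ^ (σ - δ)) ≤ q ^ (δ + 2 σ) (dmax + 3)`.
-/

set_option autoImplicit false

open Polynomial

namespace Pool.Agent.Helper31.AR

variable {F : Type} [Field F] [Fintype F]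

open Classical in
private theorem cc_cube_roots (σ : ℕ) (a : F[X]) :
    ((PN F σ).filter (fun t => t ^ 3 = a)).card ≤ 3 := by
  have h1 : (PN F σ).filter (fun t => t ^ 3 = a) ⊆ (nthRoots 3 a).toFinset := by
    intro t ht
    rw [Multiset.mem_toFinset, mem_nthRoots (by norm_num)]
    exact (Finset.mem_filter.1 ht).2
  exact (Finset.card_le_card h1).trans ((Multiset.toFinset_card_le _).trans (card_nthRoots 3 a))

open Classical in
private theorem cc_div (σ δ N : ℕ) (c D : F[X]) (hc : c ∈ MN F δ) (hD : D ≠ 0)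
    (hN : D.natDegree ≤ N) :
    ((MN F σ).filter (fun s => c ∣ s ∧ s ∣ c * D)).card ≤ dmax F N := by
  have hcm := monic_of_mem_MN hc
  refine le_trans ?_ (card_dv_le hD hN)
  refine Finset.card_le_card_of_injOn (fun s => s /ₘ c) ?_ ?_
  · intro s hs
    have hs' := Finset.mem_filter.1 (Finset.mem_coe.1 hs)
    obtain ⟨s', rfl⟩ := hs'.2.1
    have h1 : c * s' /ₘ c = s' := mul_divByMonic_cancel_left s' hcm
    change c * s' /ₘ c ∈ (dv D : Set F[X])
    rw [h1, Finset.mem_coe, mem_dv hD]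
    refine ⟨hcm.of_mul_monic_left (monic_of_mem_MN hs'.1), ?_⟩
    exact (mul_dvd_mul_iff_left hcm.ne_zero).1 hs'.2.2
  · intro s hs s2 hs2 h
    have hs' := Finset.mem_filter.1 (Finset.mem_coe.1 hs)
    have hs2' := Finset.mem_filter.1 (Finset.mem_coe.1 hs2)
    have e1 : s %ₘ c = 0 := (modByMonic_eq_zero_iff_dvd hcm).2 hs'.2.1
    have e2 : s2 %ₘ c = 0 := (modByMonic_eq_zero_iff_dvd hcm).2 hs2'.2.1
    have h1 := modByMonic_add_div s c
    have h2 := modByMonic_add_div s2 c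
    rw [e1, zero_add] at h1
    rw [e2, zero_add] at h2
    have h3 : s /ₘ c = s2 /ₘ c := h
    rw [← h1, ← h2, h3]

private theorem cc_deg (σ N : ℕ) (hN : 3 * σ ≤ N) (t t' : F[X]) (ht : t ∈ PN F σ)
    (ht' : t' ∈ PN F σ) : (t ^ 3 - t' ^ 3).natDegree ≤ N := by
  have h1 : ∀ u : F[X], u ∈ PN F σ → u.natDegree ≤ σ := by
    intro u hu
    rw [mem_PN] at hu
    exact natDegree_le_of_degree_le hu.le
  refine (natDegree_sub_le _ _).trans (max_le ?_ ?_)
  · refine (natDegree_pow_le).trans ?_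
    have := h1 t ht
    omega
  · refine (natDegree_pow_le).trans ?_
    have := h1 t' ht'
    omega

open Classical in
theorem sum_cubePairs_le {σ δ N : ℕ} (hN : 3 * σ ≤ N) :
    ∑ s ∈ MN F σ, ∑ c2 ∈ (MN F δ).filter (fun c2 => c2 ∣ s), ((cubePairs σ c2 s).card : ℝ) ≤
      (Fintype.card F : ℝ) ^ (δ + 2 * σ) * ((dmax F N : ℝ) + 3) := by
  set q := Fintype.card F with hq
  have key : ∑ s ∈ MN F σ, ∑ c2 ∈ (MN F δ).filter (fun c2 => c2 ∣ s), (cubePairs σ c2 s).card ≤
      q ^ (δ + 2 * σ) * (dmax F N + 3) := by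
    have e1 : ∑ s ∈ MN F σ, ∑ c2 ∈ (MN F δ).filter (fun c2 => c2 ∣ s), (cubePairs σ c2 s).card =
        ∑ p ∈ PN F σ ×ˢ PN F σ, ∑ c ∈ MN F δ,
          ((MN F σ).filter (fun s => c ∣ s ∧ s ∣ c * (p.1 ^ 3 - p.2 ^ 3))).card := by
      have e2 : ∀ s c : F[X], (cubePairs σ c s).card =
          ∑ p ∈ PN F σ ×ˢ PN F σ, if s ∣ c * (p.1 ^ 3 - p.2 ^ 3) then 1 else 0 := by
        intro s c
        unfold cubePairs
        rw [Finset.card_filter]
      simp only [e2, Finset.sum_filter, Finset.card_filter]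
      refine (Finset.sum_comm.trans ?_).trans Finset.sum_comm
      refine Finset.sum_congr rfl fun c _ => ?_
      refine Eq.trans ?_ Finset.sum_comm
      refine Finset.sum_congr rfl fun s _ => ?_
      by_cases h : c ∣ s
      · simp [h]
      · simp [h]
    rw [e1]
    have hb : ∀ p ∈ PN F σ ×ˢ PN F σ, ∑ c ∈ MN F δ,
        ((MN F σ).filter (fun s => c ∣ s ∧ s ∣ c * (p.1 ^ 3 - p.2 ^ 3))).card ≤
        q ^ δ * dmax F N + if p.1 ^ 3 = p.2 ^ 3 then q ^ (δ + σ) else 0 := by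
      intro p hp
      rw [Finset.mem_product] at hp
      split_ifs with h
      · refine le_trans ?_ (Nat.le_add_left _ _)
        refine (Finset.sum_le_card_nsmul _ _ (q ^ σ) ?_).trans ?_
        · intro c _
          exact (Finset.card_filter_le _ _).trans (card_MN σ).le
        · rw [card_MN, smul_eq_mul, pow_add]
      · rw [add_zero]
        refine (Finset.sum_le_card_nsmul _ _ (dmax F N) ?_).trans ?_
        · intro c hc
          exact cc_div σ δ N c _ hc (sub_ne_zero.2 h) (cc_deg σ N hN _ _ hp.1 hp.2)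
        · rw [card_MN, smul_eq_mul]
    refine (Finset.sum_le_sum hb).trans ?_
    rw [Finset.sum_add_distrib, Finset.sum_const, Finset.card_product, card_PN, smul_eq_mul]
    have h3 : ∑ p ∈ PN F σ ×ˢ PN F σ, (if p.1 ^ 3 = p.2 ^ 3 then q ^ (δ + σ) else 0) ≤
        3 * q ^ σ * q ^ (δ + σ) := by
      rw [Finset.sum_product_right]
      refine (Finset.sum_le_card_nsmul _ _ (3 * q ^ (δ + σ)) ?_).trans ?_
      · intro t' _
        rw [← Finset.sum_filter, Finset.sum_const, smul_eq_mul]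
        exact Nat.mul_le_mul_right _ (cc_cube_roots σ (t' ^ 3))
      · rw [card_PN, smul_eq_mul]
        apply le_of_eq
        ring
    refine (Nat.add_le_add_left h3 _).trans ?_
    apply le_of_eq
    ring
  have h2 := (Nat.cast_le (α := ℝ)).2 key
  push_cast at h2
  exact h2

end Pool.Agent.Helper31.AR
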