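import Pool.Agent.Helper31.AR.Defs

/-!
# AR-20: splitting a squarefree `c` into `c = c₁ c₂`, `c₂ = gcd (c, s)`

Bijection: `c ↦ (c₂, c₁)` with `c₂` the monic gcd of `c` and `s` and `c₁ = c / c₂`. `c₁`, `c₂` are squarefree (divisors of
a squarefree element), `c₂ ∣ s`, and `c₁` is coprime to `s`: an irreducible `p` dividing `c₁` and `s` divides `c` and
`s`, so `p ∣ c₂`, so `p ^ 2 ∣ c`, contradiction. Conversely for `c₂ ∣ s` squarefree and `c₁` squarefree coprime to `s`
(so coprime to `c₂`), `c₁ c₂` is squarefree (`squarefree_mul_iff` or `Squarefree.mul` with coprimality: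
search `squarefree_mul`) and its monic gcd with `s` is `c₂`.
Use `normalize (gcd c s)` or `EuclideanDomain.gcd`, or argue with a monic polynomial of maximal degree dividing both.
-/

set_option autoImplicit false

open Polynomial

namespace Pool.Agent.Helper31.AR

variable {F : Type} [Field F] [Fintype F]

omit [Fintype F] in
private lemma exists_mgcd (c s : F[X]) (hs : s ≠ 0) :
    ∃ g : F[X], g.Monic ∧ g ∣ c ∧ g ∣ s ∧ ∀ d, d ∣ c → d ∣ s → d ∣ g := by
  classical
  have h0 : EuclideanDomain.gcd c s ≠ 0 := by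
    intro h
    rw [EuclideanDomain.gcd_eq_zero_iff] at h
    exact hs h.2
  have hl : (EuclideanDomain.gcd c s).leadingCoeff ≠ 0 := leadingCoeff_ne_zero.2 h0
  have hu : IsUnit (C ((EuclideanDomain.gcd c s).leadingCoeff)⁻¹) :=
    isUnit_C.2 (isUnit_iff_ne_zero.2 (inv_ne_zero hl))
  refine ⟨EuclideanDomain.gcd c s * C ((EuclideanDomain.gcd c s).leadingCoeff)⁻¹,
    monic_mul_leadingCoeff_inv h0, ?_, ?_, ?_⟩
  · exact (hu.mul_right_dvd).2 (EuclideanDomain.gcd_dvd_left c s)
  · exact (hu.mul_right_dvd).2 (EuclideanDomain.gcd_dvd_right c s)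
  · intro d h1 h2
    exact (EuclideanDomain.dvd_gcd h1 h2).mul_right _

open Classical in
theorem sum_sqfree_gcd {E : Type*} [AddCommMonoid E] {γ σ : ℕ} {s : F[X]} (hs : s ∈ MN F σ)
    (G : F[X] → E) :
    ∑ c ∈ (MN F γ).filter (fun c => Squarefree c), G c =
      ∑ δ ∈ Finset.range (γ + 1),
        ∑ c2 ∈ (MN F δ).filter (fun c2 => c2 ∣ s ∧ Squarefree c2),
          ∑ c ∈ (MN F (γ - δ)).filter (fun c => Squarefree c ∧ IsCoprime c s), G (c * c2) := by
  have hs0 : s ≠ 0 := (monic_of_mem_MN hs).ne_zero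
  rw [Finset.sum_sigma', Finset.sum_sigma']
  choose g hgm hgc hgs hgd using fun c : F[X] => exists_mgcd c s hs0
  have hmul : ∀ c : F[X], (c /ₘ g c) * g c = c := by
    intro c
    have h1 := modByMonic_add_div c (g c)
    rw [(modByMonic_eq_zero_iff_dvd (hgm c)).2 (hgc c), zero_add] at h1
    rw [mul_comm]
    exact h1
  refine Finset.sum_bij' (fun c _ => (⟨⟨(g c).natDegree, g c⟩, c /ₘ g c⟩ :
      Σ (_ : Σ (_ : ℕ), F[X]), F[X])) (fun y _ => y.2 * y.1.2) ?_ ?_ ?_ ?_ ?_
  · intro c hc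
    rw [Finset.mem_filter] at hc
    have hcm := monic_of_mem_MN hc.1
    have hcd := natDegree_of_mem_MN hc.1
    have hc1m : (c /ₘ g c).Monic := by
      have h1 : (c /ₘ g c * g c).Monic := by rw [hmul]; exact hcm
      exact (hgm c).of_mul_monic_right h1
    have hdeg : (c /ₘ g c).natDegree + (g c).natDegree = γ := by
      rw [← hcd]
      conv_rhs => rw [← hmul c]
      rw [hc1m.natDegree_mul (hgm c)]
    rw [Finset.mem_sigma, Finset.mem_sigma, Finset.mem_range, Finset.mem_filter,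
      Finset.mem_filter]
    refine ⟨⟨by simp only; omega, (mem_MN _ _).2 ⟨hgm c, rfl⟩, hgs c,
      hc.2.squarefree_of_dvd (hgc c)⟩, (mem_MN _ _).2 ⟨hc1m, by simp only; omega⟩,
      hc.2.squarefree_of_dvd ⟨g c, (hmul c).symm⟩, ?_⟩
    refine isCoprime_of_irreducible_dvd (fun h => hs0 h.2) ?_
    intro p hp h1 h2
    have h3 : p ∣ c := h1.trans ⟨g c, (hmul c).symm⟩
    have h4 : p ∣ g c := hgd c p h3 h2
    have h5 : p * p ∣ c := by
      rw [← hmul c]
      exact mul_dvd_mul h1 h4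
    exact hp.not_isUnit (hc.2 p h5)
  · rintro ⟨⟨δ, c2⟩, c1⟩ hy
    rw [Finset.mem_sigma, Finset.mem_sigma, Finset.mem_range, Finset.mem_filter,
      Finset.mem_filter] at hy
    obtain ⟨⟨h1, h2, h3, h4⟩, h5, h6, h7⟩ := hy
    simp only at h1 h2 h3 h4 h5 h6 h7 ⊢
    rw [Finset.mem_filter]
    constructor
    · have := MN_mul h5 h2
      rwa [show γ - δ + δ = γ by omega] at this
    · rw [squarefree_mul_iff]
      refine ⟨?_, h6, h4⟩
      obtain ⟨k, hk⟩ := h3
      rw [hk] at h7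
      exact (h7.of_mul_right_left).isRelPrime
  · intro c _
    exact hmul c
  · rintro ⟨⟨δ, c2⟩, c1⟩ hy
    rw [Finset.mem_sigma, Finset.mem_sigma, Finset.mem_range, Finset.mem_filter,
      Finset.mem_filter] at hy
    obtain ⟨⟨h1, h2, h3, h4⟩, h5, h6, h7⟩ := hy
    simp only at h1 h2 h3 h4 h5 h6 h7 ⊢
    have hc2m := monic_of_mem_MN h2
    have hg : g (c1 * c2) = c2 := by
      have e1 : c2 ∣ g (c1 * c2) := hgd _ _ (Dvd.intro_left c1 rfl) h3
      have e2 : g (c1 * c2) ∣ c2 := by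
        have e3 : IsCoprime (g (c1 * c2)) c1 := by
          obtain ⟨k, hk⟩ := hgs (c1 * c2)
          have h8 := h7
          rw [hk] at h8
          exact h8.of_mul_right_left.symm
        exact e3.dvd_of_dvd_mul_left (hgc (c1 * c2))
      exact eq_of_monic_of_associated (hgm _) hc2m (associated_of_dvd_dvd e2 e1)
    have hd : (c1 * c2) /ₘ c2 = c1 := by
      rw [mul_comm]
      exact mul_divByMonic_cancel_left c1 hc2m
    rw [hg, hd, natDegree_of_mem_MN h2]
  · intro c _
    simp only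
    rw [hmul]

end Pool.Agent.Helper31.AR
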