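import Pool.Agent.Helper31.AR.D0Defs
import Pool.Agent.Helper31.AR.RhoSum
import Pool.Agent.Helper31.AR.Recip

/-!
# AR-17: the mean square of the complete cubic sum

`Cs ψ v c s` depends on `v` only through `w = (minv s v) %ₘ s ∈ PN F σ` (`rho_congr`; `deg s = σ`). For `v ∈ PN F σ`
coprime to `s` the map `v ↦ w` is injective: `w v ≡ 1` modulo `s`, so `w` determines the class of `v`. Hence the left
side is at most `∑_{w ∈ PN F σ} ‖∑_{t ∈ PN F σ} ψ (-(rho s (c t ^ 3 w)))‖ ^ 2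
= ∑_{t, t'} ∑_w ψ (rho s (c (t' ^ 3 - t ^ 3) w))` (use `‖x‖ ^ 2 = x * conj x`, `conj (ψ y) = ψ (-y)`,
`AddChar.map_neg_eq_conj` and `AddChar` additivity, `rho_sub`) and by `sum_psi_rho` (with `N = σ = deg s`: the
condition is `(c (t' ^ 3 - t ^ 3)) %ₘ s ∈ PN F 0`, i.e. `= 0`, i.e. `s ∣ c (t' ^ 3 - t ^ 3)`) this is
`q ^ σ * #cubePairs`. (The pairs are exchanged; `cubePairs` is symmetric.)
-/

set_option autoImplicit false

open Polynomial

namespace Pool.Agent.Helper31.AR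

variable {F : Type} [Field F] [Fintype F]

private theorem minv_spec' {M v : F[X]} (h : IsCoprime v M) : M ∣ minv M v * v - 1 :=
  minv_spec h

open Classical in
theorem sum_norm_Cs_sq (ψ : AddChar F ℂ) (hψ : ψ ≠ 1) {σ : ℕ} {c s : F[X]} (hs : s ∈ MN F σ) :
    ∑ v ∈ (PN F σ).filter (fun v => IsCoprime v s), ‖Cs ψ v c s‖ ^ 2 ≤
      (Fintype.card F : ℝ) ^ σ * ((cubePairs σ c s).card : ℝ) := by
  have hsm : s.Monic := monic_of_mem_MN hs
  have hsd : s.natDegree = σ := natDegree_of_mem_MN hs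
  obtain ⟨D, hD⟩ : ∃ D : F[X] → ℂ, ∀ w, D w = ∑ t ∈ PN F σ, ψ (-(rho s (c * t ^ 3 * w))) :=
    ⟨_, fun _ => rfl⟩
  -- reduction to residues
  have h1 : ∀ v ∈ (PN F σ).filter (fun v => IsCoprime v s),
      ‖Cs ψ v c s‖ ^ 2 = ‖D ((minv s v) %ₘ s)‖ ^ 2 := by
    intro v _
    have h2 : Cs ψ v c s = D ((minv s v) %ₘ s) := by
      unfold Cs
      rw [hD, hsd]
      apply Finset.sum_congr rfl
      intro t _
      congr 2
      apply rho_congr hsm
      rw [← mul_sub]
      refine Dvd.dvd.mul_left ?_ _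
      exact ⟨minv s v /ₘ s, by linear_combination -(modByMonic_add_div (minv s v) s)⟩
    rw [h2]
  rw [Finset.sum_congr rfl h1]
  have hinj : Set.InjOn (fun v => (minv s v) %ₘ s)
      ((PN F σ).filter (fun v => IsCoprime v s) : Set F[X]) := by
    intro v hv v' hv' h
    rw [Finset.mem_coe, Finset.mem_filter] at hv hv'
    dsimp only at h
    have h3 : s ∣ minv s v - minv s v' := by
      have h4 : (minv s v - minv s v') %ₘ s = 0 := by
        rw [sub_modByMonic, h, sub_self]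
      exact (modByMonic_eq_zero_iff_dvd hsm).1 h4
    have h5 := minv_spec' hv.2
    have h6 := minv_spec' hv'.2
    have h7 : s ∣ minv s v * (v - v') := by
      have h8 : minv s v * (v - v') = (minv s v * v - 1) - (minv s v' * v' - 1) -
          (minv s v - minv s v') * v' := by ring
      rw [h8]
      exact dvd_sub (dvd_sub h5 h6) (Dvd.dvd.mul_right h3 _)
    have h9 : IsCoprime s (minv s v) := by
      obtain ⟨d, hd⟩ := h5
      exact ⟨-d, v, by linear_combination hd⟩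
    have h10 : s ∣ v - v' := h9.dvd_of_dvd_mul_left h7
    have h11 : (v - v').degree < s.degree := by
      rw [degree_eq_natDegree hsm.ne_zero, hsd]
      exact (mem_PN _ _).1 (sub_mem_PN hv.1 hv'.1)
    exact sub_eq_zero.1 (Polynomial.eq_zero_of_dvd_of_degree_lt h10 h11)
  have h2 : ∑ v ∈ (PN F σ).filter (fun v => IsCoprime v s), ‖D ((minv s v) %ₘ s)‖ ^ 2 ≤
      ∑ w ∈ PN F σ, ‖D w‖ ^ 2 := by
    have h3 : ∑ v ∈ (PN F σ).filter (fun v => IsCoprime v s), ‖D ((minv s v) %ₘ s)‖ ^ 2 =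
        ∑ w ∈ ((PN F σ).filter (fun v => IsCoprime v s)).image (fun v => (minv s v) %ₘ s),
          ‖D w‖ ^ 2 := (Finset.sum_image (f := fun w => ‖D w‖ ^ 2) hinj).symm
    rw [h3]
    apply Finset.sum_le_sum_of_subset_of_nonneg
    · intro w hw
      rw [Finset.mem_image] at hw
      obtain ⟨v, _, rfl⟩ := hw
      rw [mem_PN]
      have := degree_modByMonic_lt (minv s v) hsm
      rwa [degree_eq_natDegree hsm.ne_zero, hsd] at this
    · intro _ _ _
      positivity
  refine h2.trans (le_of_eq ?_)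
  -- the mean square
  have h3 : ∀ w, ((‖D w‖ ^ 2 : ℝ) : ℂ) =
      ∑ p ∈ PN F σ ×ˢ PN F σ, ψ (rho s (c * (p.2 ^ 3 - p.1 ^ 3) * w)) := by
    intro w
    have h4 : ((‖D w‖ ^ 2 : ℝ) : ℂ) = D w * (starRingEnd ℂ) (D w) := by
      rw [Complex.mul_conj, Complex.normSq_eq_norm_sq]
    rw [h4, hD, map_sum, Finset.sum_mul_sum, Finset.sum_product]
    apply Finset.sum_congr rfl
    intro t _
    apply Finset.sum_congr rfl
    intro t' _
    rw [← AddChar.map_neg_eq_conj, neg_neg, ← AddChar.map_add_eq_mul]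
    congr 1
    have h5 : c * (t' ^ 3 - t ^ 3) * w = c * t' ^ 3 * w - c * t ^ 3 * w := by ring
    dsimp only
    rw [h5, rho_sub]
    ring
  have h4 : ((∑ w ∈ PN F σ, ‖D w‖ ^ 2 : ℝ) : ℂ) =
      (Fintype.card F : ℂ) ^ σ * ((cubePairs σ c s).card : ℂ) := by
    rw [Complex.ofReal_sum, Finset.sum_congr rfl (fun w _ => h3 w), Finset.sum_comm]
    have h5 : ∀ p ∈ PN F σ ×ˢ PN F σ, ∑ w ∈ PN F σ, ψ (rho s (c * (p.2 ^ 3 - p.1 ^ 3) * w)) =
        if s ∣ c * (p.1 ^ 3 - p.2 ^ 3) then (Fintype.card F : ℂ) ^ σ else 0 := by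
      intro p _
      rw [sum_psi_rho ψ hψ hsm, hsd, Nat.sub_self]
      have h6 : (c * (p.2 ^ 3 - p.1 ^ 3) %ₘ s ∈ PN F 0) ↔ s ∣ c * (p.1 ^ 3 - p.2 ^ 3) := by
        rw [mem_PN]
        have h7 : ((0 : ℕ) : WithBot ℕ) = 0 := rfl
        rw [h7]
        have h8 : (c * (p.2 ^ 3 - p.1 ^ 3) %ₘ s).degree < 0 ↔
            c * (p.2 ^ 3 - p.1 ^ 3) %ₘ s = 0 := by
          constructor
          · intro h
            by_contra hne
            rw [degree_eq_natDegree hne] at h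
            exact absurd h (by exact_mod_cast Nat.not_lt_zero _)
          · intro h
            rw [h, degree_zero]
            exact WithBot.bot_lt_coe 0
        rw [h8, modByMonic_eq_zero_iff_dvd hsm]
        have h9 : c * (p.2 ^ 3 - p.1 ^ 3) = -(c * (p.1 ^ 3 - p.2 ^ 3)) := by ring
        rw [h9, dvd_neg]
      by_cases h10 : s ∣ c * (p.1 ^ 3 - p.2 ^ 3)
      · rw [if_pos h10, if_pos (h6.2 h10)]
      · rw [if_neg h10, if_neg (fun h => h10 (h6.1 h))]
    rw [Finset.sum_congr rfl h5, ← Finset.sum_filter, Finset.sum_const, nsmul_eq_mul, mul_comm]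
    rfl
  exact_mod_cast h4

end Pool.Agent.Helper31.AR
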