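import Pool.Agent.Helper31.AR.Defs

/-!
# AR-03: residue classes modulo a monic polynomial

Let `d = deg M`. The map `f ↦ (q, r)` with `w + f = M * q + r` is, for `d ≤ N`, a bijection from `PN F N`
onto `{q : M * q + r - w ∈ PN F N for ...}`. Easiest proof of `sum_PN_residue`:

* `PN F N` is in bijection with `PN F (N - d) × PN F d` by `(z, g) ↦ M * z + g` (division with remainder:
  inverse `f ↦ (f /ₘ M, f %ₘ M)`, degrees: `natDegree_divByMonic`). So for `w = 0`:
  `∑_f G f = ∑_z ∑_g G (M z + g) = q ^ (N - d) • ∑_g G g`.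
* For general `w`: `G (w + f)`: apply the case `w = 0` to `G' f = G (w + f)` (again depends only on the class
  modulo `M`), and then `∑_{g ∈ PN F d} G (w + g) = ∑_{g ∈ PN F d} G ((w %ₘ M) + g) = ∑_{g ∈ PN F d} G g` by
  `sum_PN_add` (`w %ₘ M ∈ PN F d`).

`sum_MN_residue` is the case `w = X ^ m` (`MN F m` is the image of `PN F m` under `f ↦ X ^ m + f`, injective).
The cardinalities are the case `E = ℕ`, `G f = if M ∣ f - r then 1 else 0`; for `N < d` two elements of `PN F N`
which are congruent modulo `M` are equal. In `card_MN_residue_le` the same with differences of monic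
polynomials of degree `m`. `card_class_le` is the version for a set `S` whose elements are pairwise congruent
modulo `M` and pairwise differ by elements of `PN F N`: if `S` is empty trivial, otherwise `S` injects into
`{f ∈ PN F N : M ∣ f}` by `k ↦ k - k₀`, which has at most `q ^ (N - d)` elements.
-/

set_option autoImplicit false

open Polynomial

namespace Pool.Agent.Helper31.AR

variable {F : Type} [Field F] [Fintype F]

private lemma div_mem_PN {M : F[X]} (hM : M.Monic) {N : ℕ} {f : F[X]} (hf : f ∈ PN F N) :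
    f /ₘ M ∈ PN F (N - M.natDegree) := by
  by_cases h0 : f /ₘ M = 0
  · rw [h0]
    exact zero_mem_PN _
  · have h1 : ¬ f.degree < M.degree := fun h => h0 ((divByMonic_eq_zero_iff hM).2 h)
    have hf0 : f ≠ 0 := by
      rintro rfl
      rw [zero_divByMonic] at h0
      exact h0 rfl
    have h2 : M.natDegree ≤ f.natDegree := natDegree_le_natDegree (not_lt.1 h1)
    rw [mem_PN, ← natDegree_lt_iff_degree_lt hf0] at hf
    rw [mem_PN, ← natDegree_lt_iff_degree_lt h0, natDegree_divByMonic f hM]
    omega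

private lemma mod_mem_PN {M : F[X]} (hM : M.Monic) (f : F[X]) :
    f %ₘ M ∈ PN F M.natDegree := by
  rw [mem_PN, ← degree_eq_natDegree hM.ne_zero]
  exact degree_modByMonic_lt f hM

private lemma mul_add_mem_PN {M : F[X]} (hM : M.Monic) {N : ℕ} (hN : M.natDegree ≤ N)
    {z g : F[X]} (hz : z ∈ PN F (N - M.natDegree)) (hg : g ∈ PN F M.natDegree) :
    g + M * z ∈ PN F N := by
  refine add_mem_PN (PN_mono hN hg) ?_
  by_cases h0 : z = 0
  · rw [h0, mul_zero]
    exact zero_mem_PN _
  · rw [mem_PN, ← natDegree_lt_iff_degree_lt h0] at hz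
    rw [mem_PN, ← natDegree_lt_iff_degree_lt (mul_ne_zero hM.ne_zero h0), hM.natDegree_mul' h0]
    omega

private lemma sum_PN_residue0 {E : Type*} [AddCommMonoid E] {M : F[X]} (hM : M.Monic) {N : ℕ}
    (hN : M.natDegree ≤ N) (G : F[X] → E) (hG : ∀ f g, M ∣ f - g → G f = G g) :
    ∑ f ∈ PN F N, G f =
      (Fintype.card F ^ (N - M.natDegree)) • ∑ g ∈ PN F M.natDegree, G g := by
  have h1 : ∑ f ∈ PN F N, G f = ∑ p ∈ PN F (N - M.natDegree) ×ˢ PN F M.natDegree, G p.2 := by
    refine Finset.sum_bij' (fun f _ => (f /ₘ M, f %ₘ M)) (fun p _ => p.2 + M * p.1) ?_ ?_ ?_ ?_ ?_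
    · intro f hf
      rw [Finset.mem_product]
      exact ⟨div_mem_PN hM hf, mod_mem_PN hM f⟩
    · intro p hp
      rw [Finset.mem_product] at hp
      exact mul_add_mem_PN hM hN hp.1 hp.2
    · intro f _
      exact modByMonic_add_div f M
    · intro p hp
      rw [Finset.mem_product] at hp
      have h2 := hp.2
      rw [mem_PN, ← degree_eq_natDegree hM.ne_zero] at h2
      obtain ⟨h3, h4⟩ := div_modByMonic_unique p.1 p.2 hM ⟨rfl, h2⟩
      exact Prod.ext h3 h4
    · intro f _
      apply hG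
      refine ⟨f /ₘ M, ?_⟩
      have h3 := modByMonic_add_div f M
      linear_combination -h3
  rw [h1, Finset.sum_product]
  simp only [Finset.sum_const]
  rw [card_PN]

private lemma card_class_le' {M : F[X]} (hM : M.Monic) (N : ℕ) (S : Finset F[X])
    (h1 : ∀ k ∈ S, ∀ k' ∈ S, M ∣ k - k') (h2 : ∀ k ∈ S, ∀ k' ∈ S, k - k' ∈ PN F N) :
    S.card ≤ Fintype.card F ^ (N - M.natDegree) := by
  rcases S.eq_empty_or_nonempty with h0 | ⟨k0, hk0⟩
  · rw [h0, Finset.card_empty]
    exact Nat.zero_le _
  · rw [← card_PN]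
    refine Finset.card_le_card_of_injOn (fun k => (k - k0) /ₘ M) ?_ ?_
    · intro k hk
      exact div_mem_PN hM (h2 k hk k0 hk0)
    · intro k hk k' hk' h
      have h3 : ∀ l ∈ S, M * ((l - k0) /ₘ M) = l - k0 := by
        intro l hl
        have h4 := (modByMonic_eq_zero_iff_dvd hM).2 (h1 l hl k0 hk0)
        have h5 := modByMonic_add_div (l - k0) M
        rw [h4, zero_add] at h5
        exact h5
      have h4 := h3 k hk
      have h5 := h3 k' hk'
      have h6 : (k - k0) /ₘ M = (k' - k0) /ₘ M := h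
      rw [h6, h5] at h4
      linear_combination -h4

theorem sum_PN_residue {E : Type*} [AddCommMonoid E] {M : F[X]} (hM : M.Monic) {N : ℕ}
    (hN : M.natDegree ≤ N) (w : F[X]) (G : F[X] → E) (hG : ∀ f g, M ∣ f - g → G f = G g) :
    ∑ f ∈ PN F N, G (w + f) =
      (Fintype.card F ^ (N - M.natDegree)) • ∑ g ∈ PN F M.natDegree, G g := by
  rw [sum_PN_residue0 hM hN (fun f => G (w + f)) (fun f g h => hG _ _ (by
    have h1 : w + f - (w + g) = f - g := by ring
    rw [h1]
    exact h))]
  congr 1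
  have h2 : ∀ g ∈ PN F M.natDegree, G (w + g) = G (g + w %ₘ M) := by
    intro g _
    apply hG
    refine ⟨w /ₘ M, ?_⟩
    have h3 := modByMonic_add_div w M
    linear_combination -h3
  rw [Finset.sum_congr rfl h2]
  exact sum_PN_add (mod_mem_PN hM w) G

theorem sum_MN_residue {E : Type*} [AddCommMonoid E] {M : F[X]} (hM : M.Monic) {m : ℕ}
    (hm : M.natDegree ≤ m) (G : F[X] → E) (hG : ∀ f g, M ∣ f - g → G f = G g) :
    ∑ v ∈ MN F m, G v = (Fintype.card F ^ (m - M.natDegree)) • ∑ g ∈ PN F M.natDegree, G g := by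
  classical
  rw [← sum_PN_residue hM hm (X ^ m) G hG]
  unfold MN
  rw [Finset.sum_image]
  intro f _ g _ h
  exact add_left_cancel h

open Classical in
theorem card_PN_residue_le {M : F[X]} (hM : M.Monic) (N : ℕ) (r : F[X]) :
    ((PN F N).filter (fun k => M ∣ k - r)).card ≤ Fintype.card F ^ (N - M.natDegree) := by
  refine card_class_le' hM N _ ?_ ?_
  · intro k hk k' hk'
    rw [Finset.mem_filter] at hk hk'
    have h1 : k - k' = (k - r) - (k' - r) := by ring
    rw [h1]
    exact dvd_sub hk.2 hk'.2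
  · intro k hk k' hk'
    rw [Finset.mem_filter] at hk hk'
    exact sub_mem_PN hk.1 hk'.1

open Classical in
theorem card_MN_residue_le {M : F[X]} (hM : M.Monic) (m : ℕ) (r : F[X]) :
    ((MN F m).filter (fun v => M ∣ v - r)).card ≤ Fintype.card F ^ (m - M.natDegree) := by
  refine card_class_le' hM m _ ?_ ?_
  · intro k hk k' hk'
    rw [Finset.mem_filter] at hk hk'
    have h1 : k - k' = (k - r) - (k' - r) := by ring
    rw [h1]
    exact dvd_sub hk.2 hk'.2
  · intro k hk k' hk'
    rw [Finset.mem_filter] at hk hk'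
    have h3 := hk.1
    have h4 := hk'.1
    unfold MN at h3 h4
    rw [Finset.mem_image] at h3 h4
    obtain ⟨f, hf, rfl⟩ := h3
    obtain ⟨f', hf', rfl⟩ := h4
    have h1 : X ^ m + f - (X ^ m + f') = f - f' := by ring
    rw [h1]
    exact sub_mem_PN hf hf'

theorem card_class_le {M : F[X]} (hM : M.Monic) (N : ℕ) (S : Finset F[X])
    (h1 : ∀ k ∈ S, ∀ k' ∈ S, M ∣ k - k') (h2 : ∀ k ∈ S, ∀ k' ∈ S, k - k' ∈ PN F N) :
    S.card ≤ Fintype.card F ^ (N - M.natDegree) :=
  card_class_le' hM N S h1 h2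

end Pool.Agent.Helper31.AR
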