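import Pool.Agent.Helper31.AR.JNonres
import Pool.Agent.Helper31.AR.Residue

/-!
# AR-16: orthogonality of the symbols

Let `M = c c' s`, `d = deg M`. There is a monic irreducible `p` with `p ∣ c`, `p ∤ c'`: otherwise every irreducible
factor of the squarefree `c` divides `c'`, so `c ∣ c'` (`UniqueFactorizationMonoid`/`Squarefree`), and both are
monic of the same degree, so `c = c'`. Write `c = p c₀`. Then `p` is coprime to `c₀` (squarefree), to `c'`
(irreducible and does not divide) and to `s` (`c` is coprime to `s`), hence to `N = c₀ c' s`. Take `u` with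
`J p u = -1` (`exists_J_eq_neg_one`) and by the Chinese remainder theorem `w` with `p ∣ w - u`, `N ∣ w - 1` (from
`x p + y N = 1`: `w = x p + y N u`). `w` is coprime to `p` (`J p w = J p u ≠ 0`, `J_eq_zero_iff`) and to `N`, so to
`M`. Then for every `v`: `J c (w v) = J p (w v) J c₀ (w v) = J p w J p v J c₀ w J c₀ v = - J c v` (`J c₀ w = J c₀ 1 = 1`:
`J_congr`; `J h 1 = 1` since `J h 1 = J h 1 * J h 1` and `J h 1 ≠ 0`), `J c' (w v) = J c' v`,
`G (w v) = G v` (`s ∣ w v - v`).
The map `v ↦ (w v) %ₘ M` is a permutation of `PN F d` (`w` is invertible modulo `M`; injective because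
`M ∣ w (v - v')` implies `M ∣ v - v'` and the degree of `v - v'` is `< d`). The summand depends only on the class
modulo `M` (`J_congr`). Hence the sum `S` satisfies `S = -S`, `S = 0` (in `ℂ`).
-/

set_option autoImplicit false

open Polynomial

namespace Pool.Agent.Helper31.AR

variable {F : Type} [Field F] [Fintype F]

private lemma orth_J_one {h : F[X]} (hh : h.Monic) : J h 1 = 1 := by
  have h1 := J_mul_self hh (v := 1) isCoprime_one_right
  have h2 := J_mul_right hh 1 1
  rw [mul_one] at h2
  rw [h2]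
  exact h1

theorem sum_J_eq_zero (h2 : (2 : F) ≠ 0) {c c' s : F[X]} (hc : c.Monic) (hc' : c'.Monic)
    (hs : s.Monic) (hsq : Squarefree c) (hdeg : c.natDegree = c'.natDegree)
    (hne : c ≠ c') (hcs : IsCoprime c s) (G : F[X] → ℂ)
    (hG : ∀ f g, s ∣ f - g → G f = G g) :
    ∑ v ∈ PN F ((c * c' * s).natDegree), (J c v : ℂ) * (J c' v : ℂ) * G v = 0 := by
  classical
  -- a prime factor of `c` which does not divide `c'`
  obtain ⟨p, hp, hirr, hpc, hpc'⟩ : ∃ p : F[X], p.Monic ∧ Irreducible p ∧ p ∣ c ∧ ¬ p ∣ c' := by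
    obtain ⟨c1, hc1⟩ := EuclideanDomain.gcd_dvd_left c c'
    have hu : ¬ IsUnit c1 := by
      intro hu
      apply hne
      have h1 : c ∣ EuclideanDomain.gcd c c' := by
        obtain ⟨u, rfl⟩ := hu
        refine ⟨((u⁻¹ : F[X]ˣ) : F[X]), ?_⟩
        conv_rhs => rw [hc1]
        rw [mul_assoc, Units.mul_inv, mul_one]
      have h2 : c ∣ c' := h1.trans (EuclideanDomain.gcd_dvd_right c c')
      exact (Polynomial.eq_of_monic_of_dvd_of_natDegree_le hc hc' h2 hdeg.ge).symm
    obtain ⟨p, h1, h2, h3⟩ := Polynomial.exists_monic_irreducible_factor c1 hu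
    refine ⟨p, h1, h2, ?_, ?_⟩
    · rw [hc1]
      exact Dvd.dvd.mul_left h3 _
    · intro h4
      have h5 : p ∣ c := by
        rw [hc1]
        exact Dvd.dvd.mul_left h3 _
      have h6 : p ∣ EuclideanDomain.gcd c c' := EuclideanDomain.dvd_gcd h5 h4
      have h7 : p * p ∣ c := by
        rw [hc1]
        exact mul_dvd_mul h6 h3
      exact h2.not_isUnit (hsq p h7)
  obtain ⟨c0, hc0⟩ := hpc
  have hc0m : c0.Monic := by
    apply hp.of_mul_monic_left
    rw [← hc0]
    exact hc
  have cop1 : IsCoprime p c0 := by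
    rw [hirr.coprime_iff_not_dvd]
    intro h
    apply hirr.not_isUnit
    apply hsq p
    rw [hc0]
    exact mul_dvd_mul_left p h
  have cop2 : IsCoprime p c' := hirr.coprime_iff_not_dvd.mpr hpc'
  have cop3 : IsCoprime p s := by
    rw [hc0] at hcs
    exact hcs.of_mul_left_left
  have copN : IsCoprime p (c0 * c' * s) := (cop1.mul_right cop2).mul_right cop3
  obtain ⟨u, hu⟩ := exists_J_eq_neg_one h2 hp hirr
  obtain ⟨x, y, hxy⟩ := id copN
  set N := c0 * c' * s with hN
  set w : F[X] := x * p + y * N * u with hw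
  have hwu : p ∣ w - u := by
    refine ⟨x * (1 - u), ?_⟩
    rw [hw]
    linear_combination u * hxy
  have hw1 : N ∣ w - 1 := by
    refine ⟨y * (u - 1), ?_⟩
    rw [hw]
    linear_combination hxy
  set M := c * c' * s with hM
  have hMm : M.Monic := (hc.mul hc').mul hs
  have hMN : M = p * N := by rw [hM, hN, hc0]; ring
  have Jpw : J p w = -1 := by rw [J_congr hp hwu, hu]
  have Jc0w : J c0 w = 1 := by
    rw [J_congr hc0m (w := 1) (dvd_trans ⟨c' * s, by rw [hN]; ring⟩ hw1), orth_J_one hc0m]
  have Jc'w : J c' w = 1 := by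
    rw [J_congr hc' (w := 1) (dvd_trans ⟨c0 * s, by rw [hN]; ring⟩ hw1), orth_J_one hc']
  have copw : IsCoprime M w := by
    rw [hMN]
    refine IsCoprime.mul_left ?_ ?_
    · by_contra h
      rw [← J_eq_zero_iff hp, Jpw] at h
      norm_num at h
    · obtain ⟨k, hk⟩ := hw1
      exact ⟨-k, 1, by linear_combination hk⟩
  have Jcw : J c w = -1 := by rw [hc0, J_mul_left hp hc0m, Jpw, Jc0w]; norm_num
  set S : F[X] → ℂ := fun v => (J c v : ℂ) * (J c' v : ℂ) * G v with hS
  have hclass : ∀ f g, M ∣ f - g → S f = S g := by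
    intro f g h
    simp only [hS]
    rw [J_congr hc (dvd_trans ⟨c' * s, by rw [hM]; ring⟩ h),
      J_congr hc' (dvd_trans ⟨c * s, by rw [hM]; ring⟩ h),
      hG f g (dvd_trans ⟨c * c', by rw [hM]; ring⟩ h)]
  have hmul : ∀ v, S (w * v) = - S v := by
    intro v
    simp only [hS]
    have e1 : G (w * v) = G v := by
      apply hG
      obtain ⟨k, hk⟩ := hw1
      refine ⟨c0 * c' * k * v, ?_⟩
      rw [hN] at hk
      linear_combination v * hk
    rw [J_mul_right hc, J_mul_right hc', Jcw, Jc'w, e1]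
    push_cast
    ring
  have hperm : ∑ v ∈ PN F M.natDegree, S ((w * v) %ₘ M) = ∑ v ∈ PN F M.natDegree, S v := by
    have hmem : ∀ f : F[X], f %ₘ M ∈ PN F M.natDegree := by
      intro f
      rw [mem_PN, ← degree_eq_natDegree hMm.ne_zero]
      exact degree_modByMonic_lt f hMm
    have hinj : Set.InjOn (fun v => (w * v) %ₘ M) (PN F M.natDegree : Set F[X]) := by
      intro v hv v' hv' h
      have h3 : M ∣ w * v - w * v' := by
        rw [← modByMonic_eq_zero_iff_dvd hMm, sub_modByMonic]
        exact sub_eq_zero.mpr h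
      have h4 : M ∣ v - v' := by
        apply copw.dvd_of_dvd_mul_left
        rw [mul_sub]
        exact h3
      have h5 : v - v' ∈ PN F M.natDegree := sub_mem_PN hv hv'
      rw [mem_PN, ← degree_eq_natDegree hMm.ne_zero] at h5
      have h6 : v - v' = 0 := by
        by_contra h0
        exact absurd (degree_le_of_dvd h4 h0) (not_le.mpr h5)
      exact sub_eq_zero.mp h6
    refine Finset.sum_nbij (fun v => (w * v) %ₘ M) (fun v _ => hmem _) hinj ?_ (fun v _ => rfl)
    exact Finset.surjOn_of_injOn_of_card_le _ (fun v _ => hmem _) hinj le_rfl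
  have hfin : ∑ v ∈ PN F M.natDegree, S v = - ∑ v ∈ PN F M.natDegree, S v := by
    conv_lhs => rw [← hperm]
    rw [← Finset.sum_neg_distrib]
    apply Finset.sum_congr rfl
    intro v _
    rw [← hmul]
    apply hclass
    rw [← modByMonic_eq_zero_iff_dvd hMm, sub_modByMonic]
    rw [sub_eq_zero]
    exact modByMonic_eq_self_iff hMm |>.mpr (degree_modByMonic_lt _ hMm)
  exact self_eq_neg.mp hfin

end Pool.Agent.Helper31.AR
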