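import Pool.Agent.Helper31.AR.AintShift
import Pool.Agent.Helper31.AR.Orth
import Pool.Agent.Helper31.AR.CubicMean
import Pool.Agent.Helper31.AR.Residue

/-!
# AR-18: the second moment of `Ysum`

Put `m = 6 n + 1 + a`, `D = γ + δ + 2 σ < a`, `Z = (4 n + a - D + 1) / 2`, `τ = 2 γ + σ`. Then `τ ≤ m` and
`D + 3 Z + τ ≤ 2 m + 2`: `2 Z ≤ 4 n + a - D + 1`, so `2 (D + 3 Z + τ) ≤ 2 D + 3 (4 n + a - D + 1) + 4 γ + 2 σ =
12 n + 3 a + 3 - D + 4 γ + 2 σ ≤ 12 n + 3 a + 3 + 3 γ ≤ 12 n + 6 a ≤ 2 (12 n + 2 a + 4)` (use `a ≤ 4 n`).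

Averaging: `MN F m` is stable under adding elements of `PN F τ`, so
`∑_{v ∈ MN F m} ‖Y v‖ ^ 2 = q ^ (-τ) ∑_{v ∈ MN F m} ∑_{y ∈ PN F τ} ‖Y (v + y)‖ ^ 2`
(for each `y`, `v ↦ v + y` is a bijection of `MN F m`). Fix `v`. For `y ∈ PN F τ`, with `h_c = c c2 s ^ 2 ∈ MN F D`,
`Aint ψ Z (v + y) h_c = Aint ψ Z v h_c =: A_c` (`Aint_add`). Expand the square (`c`, `c'` in the filtered set):
`∑_y ‖Y (v + y)‖ ^ 2 = ∑_{c, c'} A_c conj(A_{c'}) ∑_y 1[IsCoprime (v+y) s] J (c c2) (v+y) J (c' c2) (v+y)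
Cs (v+y, c c2) conj (Cs (v+y, c' c2))`.
For `v + y` coprime to `s`: `J (c c2) J (c' c2) = J c J c' (J c2) ^ 2 = J c J c'` (`c2 ∣ s`, so `v + y` is coprime to
`c2`; `J_mul_left`, `J_mul_self`). `G x = if IsCoprime x s then Cs ψ x (c c2) s * conj (Cs ψ x (c' c2) s) else 0` depends
only on `x` modulo `s` (`minv s x` modulo `s` does). If `c ≠ c'`, by `sum_PN_residue` (with `N = τ = deg (c c' s)`,
shift `w = v`) the inner sum is `∑_{g ∈ PN F τ} J c g J c' g G g = 0` (`sum_J_eq_zero`).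
Diagonal: `|J| ≤ 1` and `sum_PN_residue` modulo `s` (`τ ≥ σ`): `≤ ∑_c ‖A_c‖ ^ 2 q ^ (τ - σ)
∑_{g ∈ PN F σ, coprime to s} ‖Cs ψ g (c c2) s‖ ^ 2 ≤ ∑_c q ^ (2 Z) q ^ (τ - σ) q ^ σ #cubePairs σ (c c2) s` by
`sum_norm_Cs_sq` and `‖A_c‖ ≤ card (PN F Z) = q ^ Z`. As `c` is coprime to `s`, `cubePairs σ (c c2) s =
cubePairs σ c2 s` (`IsCoprime.dvd_of_dvd_mul_left`). There are at most `card (MN F γ) = q ^ γ` values of `c`. Sum over
`v ∈ MN F m` (`q ^ m` terms) and multiply by `q ^ (-τ)`.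
-/

set_option autoImplicit false

open Polynomial

namespace Pool.Agent.Helper31.AR

variable {F : Type} [Field F] [Fintype F]

open ComplexConjugate in
/-- Bessel equality for an orthogonal family -/
private lemma sum_sq_orth {ι κ : Type*} (C : Finset ι) (Y : Finset κ) (A : ι → ℂ) (T : ι → κ → ℂ)
    (h : ∀ c ∈ C, ∀ c' ∈ C, c ≠ c' → ∑ y ∈ Y, T c y * conj (T c' y) = 0) :
    ∑ y ∈ Y, ‖∑ c ∈ C, A c * T c y‖ ^ 2 = ∑ c ∈ C, ‖A c‖ ^ 2 * ∑ y ∈ Y, ‖T c y‖ ^ 2 := by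
  classical
  have hz : ∀ z : ℂ, ((‖z‖ ^ 2 : ℝ) : ℂ) = z * conj z := by
    intro z
    rw [Complex.mul_conj, Complex.normSq_eq_norm_sq]
  have h1 : ((∑ y ∈ Y, ‖∑ c ∈ C, A c * T c y‖ ^ 2 : ℝ) : ℂ) =
      ((∑ c ∈ C, ‖A c‖ ^ 2 * ∑ y ∈ Y, ‖T c y‖ ^ 2 : ℝ) : ℂ) := by
    rw [Complex.ofReal_sum, Complex.ofReal_sum]
    calc ∑ y ∈ Y, ((‖∑ c ∈ C, A c * T c y‖ ^ 2 : ℝ) : ℂ)
        = ∑ y ∈ Y, ∑ c ∈ C, ∑ c' ∈ C, (A c * conj (A c')) * (T c y * conj (T c' y)) := by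
          refine Finset.sum_congr rfl (fun y _ => ?_)
          rw [hz, map_sum, Finset.sum_mul_sum]
          refine Finset.sum_congr rfl (fun c _ => Finset.sum_congr rfl (fun c' _ => ?_))
          rw [map_mul]
          ring
      _ = ∑ c ∈ C, ∑ c' ∈ C, (A c * conj (A c')) * ∑ y ∈ Y, (T c y * conj (T c' y)) := by
          rw [Finset.sum_comm]
          refine Finset.sum_congr rfl (fun c _ => ?_)
          rw [Finset.sum_comm]
          refine Finset.sum_congr rfl (fun c' _ => ?_)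
          rw [Finset.mul_sum]
      _ = ∑ c ∈ C, (A c * conj (A c)) * ∑ y ∈ Y, (T c y * conj (T c y)) := by
          refine Finset.sum_congr rfl (fun c hc => ?_)
          rw [Finset.sum_eq_single c]
          · intro c' hc' hne
            rw [h c hc c' hc' (Ne.symm hne), mul_zero]
          · intro hn
            exact absurd hc hn
      _ = ∑ c ∈ C, ((‖A c‖ ^ 2 * ∑ y ∈ Y, ‖T c y‖ ^ 2 : ℝ) : ℂ) := by
          refine Finset.sum_congr rfl (fun c _ => ?_)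
          rw [Complex.ofReal_mul, hz, Complex.ofReal_sum]
          congr 1
          refine Finset.sum_congr rfl (fun y _ => ?_)
          rw [hz]
  exact_mod_cast h1

/-- averaging over shifts -/
private lemma sum_shift {m τ : ℕ} (hτ : τ ≤ m) (f : F[X] → ℝ) :
    ∑ v ∈ MN F m, ∑ y ∈ PN F τ, f (v + y) =
      (Fintype.card F : ℝ) ^ τ * ∑ v ∈ MN F m, f v := by
  rw [Finset.sum_comm]
  have h1 : ∀ y ∈ PN F τ, ∑ v ∈ MN F m, f (v + y) = ∑ v ∈ MN F m, f v := by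
    intro y hy
    have hy' : y ∈ PN F m := PN_mono hτ hy
    refine Finset.sum_bij' (fun v _ => v + y) (fun v _ => v - y) ?_ ?_ ?_ ?_ ?_
    · intro v hv; exact MN_add hv hy'
    · intro v hv
      rw [sub_eq_add_neg]
      exact MN_add hv (neg_mem_PN hy')
    · intro v _; ring
    · intro v _; ring
    · intro v _; rfl
  rw [Finset.sum_congr rfl h1, Finset.sum_const, card_PN, nsmul_eq_mul]
  push_cast
  ring

omit [Fintype F] in
private lemma coprime_congr {s f g : F[X]} (h : s ∣ f - g) (hf : IsCoprime f s) : IsCoprime g s := by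
  obtain ⟨k, hk⟩ := h
  obtain ⟨u, v, huv⟩ := hf
  refine ⟨u, v + u * k, ?_⟩
  have h1 : f = g + s * k := by rw [← hk]; ring
  rw [h1] at huv
  linear_combination huv

private lemma Cs_congr (ψ : AddChar F ℂ) {s f g : F[X]} (hs : s.Monic) (c : F[X]) (h : s ∣ f - g)
    (hf : IsCoprime f s) : Cs ψ f c s = Cs ψ g c s := by
  have hg := coprime_congr h hf
  have h1 := minv_spec hf
  have h2 := minv_spec hg
  have h3 : s ∣ (minv s f - minv s g) * f := by
    have h4 : (minv s f - minv s g) * f =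
        (minv s f * f - 1) - (minv s g * g - 1) - minv s g * (f - g) := by ring
    rw [h4]
    exact dvd_sub (dvd_sub h1 h2) (h.mul_left _)
  have h5 : s ∣ minv s f - minv s g := hf.symm.dvd_of_dvd_mul_right h3
  unfold Cs
  refine Finset.sum_congr rfl (fun t _ => ?_)
  have h6 : rho s (c * t ^ 3 * minv s f) = rho s (c * t ^ 3 * minv s g) := by
    apply rho_congr hs
    have h7 : c * t ^ 3 * minv s f - c * t ^ 3 * minv s g = c * t ^ 3 * (minv s f - minv s g) := by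
      ring
    rw [h7]
    exact h5.mul_left _
  rw [h6]

open Classical in
/-- the summand of `Ysum` without `Aint` -/
private noncomputable def TT' (ψ : AddChar F ℂ) (s c2 c x : F[X]) : ℂ :=
  if IsCoprime x s then ((J (c * c2) x : ℤ) : ℂ) * Cs ψ x (c * c2) s else 0

open Classical in
private noncomputable def Cset (F : Type) [Field F] [Fintype F] (γ : ℕ) (s : F[X]) : Finset F[X] :=
  (MN F γ).filter (fun c => Squarefree c ∧ IsCoprime c s)

private lemma Ysum_eq (ψ : AddChar F ℂ) (Z γ : ℕ) (s c2 v x : F[X])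
    (h : ∀ c ∈ Cset F γ s, Aint ψ Z x (c * c2 * s ^ 2) = Aint ψ Z v (c * c2 * s ^ 2)) :
    Ysum ψ Z γ s c2 x = ∑ c ∈ Cset F γ s, Aint ψ Z v (c * c2 * s ^ 2) * TT' ψ s c2 c x := by
  classical
  unfold Ysum TT'
  split_ifs with hx
  · refine Finset.sum_congr rfl (fun c hc => ?_)
    rw [h c hc]
    ring
  · simp

open ComplexConjugate in
private lemma TT_orth (ψ : AddChar F ℂ) (h2 : (2 : F) ≠ 0) {σ δ γ : ℕ} {s c2 : F[X]}
    (hs : s ∈ MN F σ) (hc2 : c2 ∈ MN F δ) (hdvd : c2 ∣ s) (v : F[X]) {c c' : F[X]}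
    (hc : c ∈ Cset F γ s) (hc' : c' ∈ Cset F γ s) (hne : c ≠ c') :
    ∑ y ∈ PN F (2 * γ + σ), TT' ψ s c2 c (v + y) * conj (TT' ψ s c2 c' (v + y)) = 0 := by
  classical
  unfold Cset at hc hc'
  rw [Finset.mem_filter] at hc hc'
  have hcm := monic_of_mem_MN hc.1
  have hcm' := monic_of_mem_MN hc'.1
  have hsm := monic_of_mem_MN hs
  have hc2m := monic_of_mem_MN hc2
  set G : F[X] → ℂ := fun x =>
    if IsCoprime x s then Cs ψ x (c * c2) s * conj (Cs ψ x (c' * c2) s) else 0 with hG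
  have hGc : ∀ f g, s ∣ f - g → G f = G g := by
    intro f g hfg
    simp only [hG]
    by_cases hf : IsCoprime f s
    · have hg := coprime_congr hfg hf
      rw [if_pos hf, if_pos hg, Cs_congr ψ hsm _ hfg hf, Cs_congr ψ hsm _ hfg hf]
    · have hg : ¬ IsCoprime g s := by
        intro hg
        refine hf (coprime_congr ?_ hg)
        rw [← neg_sub]
        exact hfg.neg_right
      rw [if_neg hf, if_neg hg]
  set H : F[X] → ℂ := fun x => ((J c x : ℤ) : ℂ) * ((J c' x : ℤ) : ℂ) * G x with hH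
  have hpt : ∀ x, TT' ψ s c2 c x * conj (TT' ψ s c2 c' x) = H x := by
    intro x
    simp only [TT', hH, hG]
    by_cases hx : IsCoprime x s
    · rw [if_pos hx, if_pos hx, if_pos hx, map_mul, J_mul_left hcm hc2m, J_mul_left hcm' hc2m]
      have hcop : IsCoprime c2 x := by
        obtain ⟨k, hk⟩ := hdvd
        rw [hk] at hx
        exact hx.symm.of_mul_left_left
      have hJ : ((J c2 x : ℤ) : ℂ) * ((J c2 x : ℤ) : ℂ) = 1 := by
        have := J_mul_self hc2m hcop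
        exact_mod_cast this
      push_cast
      rw [map_mul, map_intCast, map_intCast]
      linear_combination ((J c x : ℤ) : ℂ) * ((J c' x : ℤ) : ℂ) * Cs ψ x (c * c2) s *
        conj (Cs ψ x (c' * c2) s) * hJ
    · rw [if_neg hx, if_neg hx, if_neg hx]
      simp
  rw [Finset.sum_congr rfl (fun y _ => hpt (v + y))]
  have hMm : (c * c' * s).Monic := (hcm.mul hcm').mul hsm
  have hMd : (c * c' * s).natDegree = 2 * γ + σ := by
    rw [(hcm.mul hcm').natDegree_mul hsm, hcm.natDegree_mul hcm', natDegree_of_mem_MN hc.1,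
      natDegree_of_mem_MN hc'.1, natDegree_of_mem_MN hs]
    ring
  have hHc : ∀ f g, c * c' * s ∣ f - g → H f = H g := by
    intro f g hfg
    simp only [hH]
    have e1 : c ∣ f - g := (Dvd.intro (c' * s) (by ring)).trans hfg
    have e2 : c' ∣ f - g := (Dvd.intro (c * s) (by ring)).trans hfg
    have e3 : s ∣ f - g := (Dvd.intro (c * c') (by ring)).trans hfg
    rw [J_congr hcm e1, J_congr hcm' e2, hGc f g e3]
  rw [sum_PN_residue hMm hMd.le v H hHc]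
  have h0 := sum_J_eq_zero h2 hcm hcm' hsm hc.2.1
    (by rw [natDegree_of_mem_MN hc.1, natDegree_of_mem_MN hc'.1]) hne hc.2.2 G hGc
  have h1 : ∑ g ∈ PN F (c * c' * s).natDegree, H g = 0 := h0
  rw [h1, smul_zero]

private lemma cubePairs_le {σ : ℕ} {s c2 c : F[X]} (hcs : IsCoprime c s) :
    (cubePairs σ (c * c2) s).card ≤ (cubePairs σ c2 s).card := by
  classical
  refine Finset.card_le_card ?_
  intro p hp
  unfold cubePairs at hp ⊢
  rw [Finset.mem_filter] at hp ⊢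
  refine ⟨hp.1, ?_⟩
  have h1 := hp.2
  rw [mul_assoc] at h1
  exact hcs.symm.dvd_of_dvd_mul_left h1

private lemma TT_diag (ψ : AddChar F ℂ) (hψ : ψ ≠ 1) {σ γ : ℕ} {s c2 : F[X]}
    (hs : s ∈ MN F σ) (v : F[X]) {c : F[X]} (hc : c ∈ Cset F γ s) :
    ∑ y ∈ PN F (2 * γ + σ), ‖TT' ψ s c2 c (v + y)‖ ^ 2 ≤
      (Fintype.card F : ℝ) ^ (2 * γ + σ) * ((cubePairs σ c2 s).card : ℝ) := by
  classical
  unfold Cset at hc
  rw [Finset.mem_filter] at hc
  have hsm := monic_of_mem_MN hs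
  have hsd := natDegree_of_mem_MN hs
  have hq : (1 : ℝ) ≤ (Fintype.card F : ℝ) := by
    exact_mod_cast Fintype.card_pos
  set G : F[X] → ℝ := fun x =>
    if IsCoprime x s then ‖Cs ψ x (c * c2) s‖ ^ 2 else 0 with hG
  have hGc : ∀ f g, s ∣ f - g → G f = G g := by
    intro f g hfg
    simp only [hG]
    by_cases hf : IsCoprime f s
    · have hg := coprime_congr hfg hf
      rw [if_pos hf, if_pos hg, Cs_congr ψ hsm _ hfg hf]
    · have hg : ¬ IsCoprime g s := by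
        intro hg
        refine hf (coprime_congr ?_ hg)
        rw [← neg_sub]
        exact hfg.neg_right
      rw [if_neg hf, if_neg hg]
  have hpt : ∀ x, ‖TT' ψ s c2 c x‖ ^ 2 ≤ G x := by
    intro x
    simp only [TT', hG]
    by_cases hx : IsCoprime x s
    · rw [if_pos hx, if_pos hx, norm_mul, mul_pow]
      have h1 := norm_J_le (c * c2) x
      have h2 : ‖((J (c * c2) x : ℤ) : ℂ)‖ ^ 2 ≤ 1 := pow_le_one₀ (norm_nonneg _) h1
      calc ‖((J (c * c2) x : ℤ) : ℂ)‖ ^ 2 * ‖Cs ψ x (c * c2) s‖ ^ 2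
          ≤ 1 * ‖Cs ψ x (c * c2) s‖ ^ 2 := mul_le_mul_of_nonneg_right h2 (by positivity)
        _ = ‖Cs ψ x (c * c2) s‖ ^ 2 := one_mul _
    · rw [if_neg hx, if_neg hx]
      simp
  refine (Finset.sum_le_sum (fun y _ => hpt (v + y))).trans ?_
  rw [sum_PN_residue hsm (by rw [hsd]; omega) v G hGc, hsd, nsmul_eq_mul]
  have h3 : ∑ g ∈ PN F σ, G g ≤
      (Fintype.card F : ℝ) ^ σ * ((cubePairs σ (c * c2) s).card : ℝ) := by
    refine le_trans (le_of_eq ?_) (sum_norm_Cs_sq ψ hψ (c := c * c2) hs)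
    rw [Finset.sum_filter]
  have h4 : ((cubePairs σ (c * c2) s).card : ℝ) ≤ ((cubePairs σ c2 s).card : ℝ) := by
    exact_mod_cast cubePairs_le (σ := σ) (c2 := c2) hc.2.2
  have h5 : (2 * γ + σ - σ) + σ = 2 * γ + σ := by omega
  push_cast
  calc (Fintype.card F : ℝ) ^ (2 * γ + σ - σ) * ∑ g ∈ PN F σ, G g
      ≤ (Fintype.card F : ℝ) ^ (2 * γ + σ - σ) *
          ((Fintype.card F : ℝ) ^ σ * ((cubePairs σ c2 s).card : ℝ)) := by
        apply mul_le_mul_of_nonneg_left _ (by positivity)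
        exact h3.trans (mul_le_mul_of_nonneg_left h4 (by positivity))
    _ = (Fintype.card F : ℝ) ^ (2 * γ + σ) * ((cubePairs σ c2 s).card : ℝ) := by
        rw [← mul_assoc, ← pow_add, h5]

private lemma norm_Aint_le (ψ : AddChar F ℂ) (Z : ℕ) (v h : F[X]) :
    ‖Aint ψ Z v h‖ ≤ (Fintype.card F : ℝ) ^ Z := by
  unfold Aint
  refine (norm_sum_le _ _).trans ?_
  have h1 : ∀ z ∈ PN F Z, ‖ψ (rho v (h * z ^ 3))‖ ≤ 1 := by
    intro z _
    rw [AddChar.norm_apply]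
  refine (Finset.sum_le_sum h1).trans ?_
  rw [Finset.sum_const, card_PN, nsmul_eq_mul, mul_one]
  push_cast
  exact le_rfl

theorem sum_norm_Ysum_sq (ψ : AddChar F ℂ) (hψ : ψ ≠ 1) (h2 : (2 : F) ≠ 0) {n a σ δ γ : ℕ}
    (ha : a ≤ 4 * n) (hD : γ + δ + 2 * σ < a) {s c2 : F[X]} (hs : s ∈ MN F σ) (hc2 : c2 ∈ MN F δ)
    (hdvd : c2 ∣ s) :
    ∑ v ∈ MN F (6 * n + 1 + a), ‖Ysum ψ ((4 * n + a - (γ + δ + 2 * σ) + 1) / 2) γ s c2 v‖ ^ 2 ≤
      (Fintype.card F : ℝ) ^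
        (6 * n + 1 + a + 2 * ((4 * n + a - (γ + δ + 2 * σ) + 1) / 2) + γ) *
        ((cubePairs σ c2 s).card : ℝ) := by
  classical
  set Z := (4 * n + a - (γ + δ + 2 * σ) + 1) / 2 with hZ
  set q : ℝ := (Fintype.card F : ℝ) with hq
  have hq0 : 0 < q := by rw [hq]; exact_mod_cast Fintype.card_pos
  have hτ : 2 * γ + σ ≤ 6 * n + 1 + a := by omega
  have hb : (γ + δ + 2 * σ) + 3 * Z + (2 * γ + σ) ≤ 2 * (6 * n + 1 + a) + 2 := by omega
  set K : ℝ := ((cubePairs σ c2 s).card : ℝ) with hK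
  have hK0 : 0 ≤ K := by rw [hK]; positivity
  -- one `v`
  have hone : ∀ v ∈ MN F (6 * n + 1 + a),
      ∑ y ∈ PN F (2 * γ + σ), ‖Ysum ψ Z γ s c2 (v + y)‖ ^ 2 ≤
        q ^ γ * (q ^ (2 * Z) * (q ^ (2 * γ + σ) * K)) := by
    intro v hv
    have h1 : ∀ y ∈ PN F (2 * γ + σ), Ysum ψ Z γ s c2 (v + y) =
        ∑ c ∈ Cset F γ s, Aint ψ Z v (c * c2 * s ^ 2) * TT' ψ s c2 c (v + y) := by
      intro y hy
      apply Ysum_eq
      intro c hc
      unfold Cset at hc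
      rw [Finset.mem_filter] at hc
      have hh : c * c2 * s ^ 2 ∈ MN F (γ + δ + 2 * σ) := by
        have h3 := MN_mul (MN_mul hc.1 hc2) (MN_mul hs hs)
        have e1 : γ + δ + (σ + σ) = γ + δ + 2 * σ := by ring
        have e2 : c * c2 * (s * s) = c * c2 * s ^ 2 := by ring
        rwa [e1, e2] at h3
      exact Aint_add ψ hv hh hy hτ hb
    have h4 : ∑ y ∈ PN F (2 * γ + σ), ‖Ysum ψ Z γ s c2 (v + y)‖ ^ 2 =
        ∑ y ∈ PN F (2 * γ + σ),
          ‖∑ c ∈ Cset F γ s, Aint ψ Z v (c * c2 * s ^ 2) * TT' ψ s c2 c (v + y)‖ ^ 2 :=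
      Finset.sum_congr rfl (fun y hy => by rw [h1 y hy])
    rw [h4, sum_sq_orth (Cset F γ s) (PN F (2 * γ + σ)) (fun c => Aint ψ Z v (c * c2 * s ^ 2))
      (fun c y => TT' ψ s c2 c (v + y))
      (fun c hc c' hc' hne => TT_orth ψ h2 hs hc2 hdvd v hc hc' hne)]
    have h5 : ∀ c ∈ Cset F γ s, ‖Aint ψ Z v (c * c2 * s ^ 2)‖ ^ 2 *
        ∑ y ∈ PN F (2 * γ + σ), ‖TT' ψ s c2 c (v + y)‖ ^ 2 ≤
          q ^ (2 * Z) * (q ^ (2 * γ + σ) * K) := by
      intro c hc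
      have h6 := norm_Aint_le ψ Z v (c * c2 * s ^ 2)
      have h7 : ‖Aint ψ Z v (c * c2 * s ^ 2)‖ ^ 2 ≤ q ^ (2 * Z) := by
        calc ‖Aint ψ Z v (c * c2 * s ^ 2)‖ ^ 2 ≤ (q ^ Z) ^ 2 :=
              pow_le_pow_left₀ (norm_nonneg _) h6 2
          _ = q ^ (2 * Z) := by rw [← pow_mul, mul_comm]
      exact mul_le_mul h7 (TT_diag ψ hψ hs v hc)
        (Finset.sum_nonneg (fun y _ => by positivity)) (by positivity)
    refine (Finset.sum_le_sum h5).trans ?_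
    rw [Finset.sum_const, nsmul_eq_mul]
    apply mul_le_mul_of_nonneg_right _ (by positivity)
    have h8 : (Cset F γ s).card ≤ (MN F γ).card := by
      unfold Cset
      exact Finset.card_filter_le _ _
    rw [card_MN] at h8
    rw [hq]
    exact_mod_cast h8
  have hsum := Finset.sum_le_sum hone
  rw [sum_shift hτ (fun x => ‖Ysum ψ Z γ s c2 x‖ ^ 2), Finset.sum_const, card_MN,
    nsmul_eq_mul] at hsum
  push_cast at hsum
  rw [← hq] at hsum
  have hpow : 0 < q ^ (2 * γ + σ) := by positivity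
  refine le_of_mul_le_mul_left ?_ hpow
  refine hsum.trans (le_of_eq ?_)
  rw [show 6 * n + 1 + a + 2 * Z + γ = (6 * n + 1 + a) + (2 * Z + γ) by ring, pow_add q (6 * n + 1 + a),
    pow_add q (2 * Z) γ]
  ring

end Pool.Agent.Helper31.AR
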