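import Pool.Agent.Helper31.AR.X0Eq
import Pool.Agent.Helper31.AR.Moment0
import Pool.Agent.Helper31.AR.CountCubes
import Pool.Agent.Helper31.AR.GcdSplit

/-!
# AR-21: the bound for `X0` on average over the irreducible `v`

Let `m = 6 n + 1 + a`, `Z = (4 n + a - D + 1) / 2`, `T = dmax F (12 n)`. By `X0_eq` and `sum_sqfree_gcd` (with
`γ = D - 2 σ`), for irreducible `v ∈ MN F m` (coprime to every `s ∈ MN F σ`, `σ ≤ D / 2 < m`)

`‖X0 ψ n a D v‖ ≤ ∑_{σ ≤ D / 2} ∑_{δ ≤ D - 2 σ} ∑_{s ∈ MN F σ} ∑_{c2 ∈ MN F δ, c2 ∣ s, sqfree} ‖Ysum ψ Z (D - 2 σ - δ) s c2 v‖`.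

Fix `σ`, `δ`, `γ₁ = D - 2 σ - δ` (so `γ₁ + δ + 2 σ = D`). The number of pairs `(s, c2)` is at most `q ^ σ T`
(`card_dv_le`, `σ ≤ 12 n`). Cauchy-Schwarz over all triples `(v, s, c2)`, `v ∈ MN F m`:
`∑_{v, s, c2} ‖Ysum‖ ≤ (q ^ m q ^ σ T) ^ (1/2) (∑_{s, c2} ∑_v ‖Ysum‖ ^ 2) ^ (1/2)` and by `sum_norm_Ysum_sq` and
`sum_cubePairs_le` (`3 σ ≤ 12 n`; drop the condition that `c2` is squarefree) the second factor is at most
`(q ^ (m + 2 Z + γ₁) q ^ (δ + 2 σ) (T + 3)) ^ (1/2)`. The product is at most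
`(T + 3) q ^ m q ^ ((σ + 2 Z + γ₁ + δ + 2 σ) / 2)`, and `σ + 2 Z + γ₁ + δ + 2 σ = σ + 2 Z + D ≤ σ + 4 n + a + 1 ≤
4 n + 1 + 3 a / 2` (`2 Z ≤ 4 n + a - D + 1`, `σ ≤ D / 2 ≤ a / 2`). So each pair `(σ, δ)` contributes at most
`(T + 3) q ^ (m + 2 n + 1 / 2 + 3 a / 4)` and there are at most `(a + 1) ^ 2` pairs.
-/

set_option autoImplicit false

open Polynomial

namespace Pool.Agent.Helper31.AR

variable {F : Type} [Field F] [Fintype F]

open Classical in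
/-- The pairs `(s, c2)` with `c2` a squarefree divisor of `s`. -/
private noncomputable def x0bQ (F : Type) [Field F] [Fintype F] (σ δ : ℕ) :
    Finset (F[X] × F[X]) :=
  (MN F σ ×ˢ MN F δ).filter (fun p => p.2 ∣ p.1 ∧ Squarefree p.2)

open Classical in
private theorem x0b_sum_Q {E : Type*} [AddCommMonoid E] (σ δ : ℕ) (f : F[X] → F[X] → E) :
    ∑ s ∈ MN F σ, ∑ c2 ∈ (MN F δ).filter (fun c2 => c2 ∣ s ∧ Squarefree c2), f s c2 =
      ∑ p ∈ x0bQ F σ δ, f p.1 p.2 := by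
  unfold x0bQ
  rw [Finset.sum_filter, Finset.sum_product]
  refine Finset.sum_congr rfl fun s _ => ?_
  rw [Finset.sum_filter]

open Classical in
private theorem x0b_card_Q {σ δ N : ℕ} (hN : σ ≤ N) :
    ((x0bQ F σ δ).card : ℝ) ≤ (Fintype.card F : ℝ) ^ σ * (dmax F N : ℝ) := by
  have h1 : ((x0bQ F σ δ).card : ℝ) = ∑ p ∈ x0bQ F σ δ, (1 : ℝ) := by simp
  rw [h1, ← x0b_sum_Q σ δ (fun _ _ => (1 : ℝ))]
  calc ∑ s ∈ MN F σ, ∑ c2 ∈ (MN F δ).filter (fun c2 => c2 ∣ s ∧ Squarefree c2), (1 : ℝ)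
      ≤ ∑ s ∈ MN F σ, (dmax F N : ℝ) := by
        refine Finset.sum_le_sum fun s hs => ?_
        rw [Finset.sum_const, nsmul_eq_mul, mul_one]
        have hs0 : s ≠ 0 := (monic_of_mem_MN hs).ne_zero
        have h2 := card_dv_le hs0 (N := N) (by rw [natDegree_of_mem_MN hs]; exact hN)
        have h3 : ((MN F δ).filter (fun c2 => c2 ∣ s ∧ Squarefree c2)).card ≤ (dv s).card := by
          refine Finset.card_le_card ?_
          intro c hc
          rw [Finset.mem_filter] at hc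
          exact (mem_dv hs0 c).2 ⟨monic_of_mem_MN hc.1, hc.2.1⟩
        exact_mod_cast h3.trans h2
    _ = (Fintype.card F : ℝ) ^ σ * (dmax F N : ℝ) := by
        rw [Finset.sum_const, card_MN, nsmul_eq_mul]
        push_cast
        ring

open Classical in
private theorem x0b_pair (ψ : AddChar F ℂ) (hψ : ψ ≠ 1) (h2 : (2 : F) ≠ 0) {n a D σ δ : ℕ}
    (ha : a ≤ 4 * n) (hD : D < a) (hσ : 2 * σ ≤ D) (hδ : δ ≤ D - 2 * σ) :
    ∑ v ∈ MN F (6 * n + 1 + a), ∑ s ∈ MN F σ,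
      ∑ c2 ∈ (MN F δ).filter (fun c2 => c2 ∣ s ∧ Squarefree c2),
        ‖Ysum ψ ((4 * n + a - D + 1) / 2) (D - 2 * σ - δ) s c2 v‖ ≤
      ((dmax F (12 * n) : ℝ) + 3) *
        (Fintype.card F : ℝ) ^ ((6 * n + 1 + a : ℝ) + 2 * n + 1 + 3 * a / 4) := by
  have hq1 : (1 : ℝ) ≤ (Fintype.card F : ℝ) := by
    exact_mod_cast (Fintype.one_lt_card (α := F)).le
  have hq0 : (0 : ℝ) < (Fintype.card F : ℝ) := by linarith
  set q : ℝ := (Fintype.card F : ℝ) with hq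
  set T : ℝ := (dmax F (12 * n) : ℝ) with hT
  have hT0 : 0 ≤ T := Nat.cast_nonneg _
  set m : ℕ := 6 * n + 1 + a with hm
  set Z : ℕ := (4 * n + a - D + 1) / 2 with hZ
  set γ : ℕ := D - 2 * σ - δ with hγ
  have hsum : γ + δ + 2 * σ = D := by omega
  -- rewrite as a sum over a product
  have e1 : ∑ v ∈ MN F m, ∑ s ∈ MN F σ,
      ∑ c2 ∈ (MN F δ).filter (fun c2 => c2 ∣ s ∧ Squarefree c2), ‖Ysum ψ Z γ s c2 v‖ =
      ∑ x ∈ MN F m ×ˢ x0bQ F σ δ, ‖Ysum ψ Z γ x.2.1 x.2.2 x.1‖ := by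
    rw [Finset.sum_product]
    refine Finset.sum_congr rfl fun v _ => ?_
    exact x0b_sum_Q σ δ (fun s c2 => ‖Ysum ψ Z γ s c2 v‖)
  rw [e1]
  have hcs := sq_sum_le_card_mul_sum_sq (s := MN F m ×ˢ x0bQ F σ δ)
    (f := fun x => ‖Ysum ψ Z γ x.2.1 x.2.2 x.1‖)
  have hcard : ((MN F m ×ˢ x0bQ F σ δ).card : ℝ) ≤ q ^ m * (q ^ σ * T) := by
    rw [Finset.card_product, card_MN]
    push_cast
    exact mul_le_mul_of_nonneg_left (x0b_card_Q (by omega)) (by positivity)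
  have hsq : ∑ x ∈ MN F m ×ˢ x0bQ F σ δ, ‖Ysum ψ Z γ x.2.1 x.2.2 x.1‖ ^ 2 ≤
      q ^ (m + 2 * Z + γ) * (q ^ (δ + 2 * σ) * (T + 3)) := by
    rw [Finset.sum_product_right]
    calc ∑ p ∈ x0bQ F σ δ, ∑ v ∈ MN F m, ‖Ysum ψ Z γ p.1 p.2 v‖ ^ 2
        ≤ ∑ p ∈ x0bQ F σ δ, q ^ (m + 2 * Z + γ) * ((cubePairs σ p.2 p.1).card : ℝ) := by
          refine Finset.sum_le_sum fun p hp => ?_
          unfold x0bQ at hp
          rw [Finset.mem_filter, Finset.mem_product] at hp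
          have h3 := sum_norm_Ysum_sq ψ hψ h2 (n := n) (a := a) (σ := σ) (δ := δ) (γ := γ) ha
            (by omega) hp.1.1 hp.1.2 hp.2.1
          rw [hsum] at h3
          exact h3
      _ = q ^ (m + 2 * Z + γ) * ∑ p ∈ x0bQ F σ δ, ((cubePairs σ p.2 p.1).card : ℝ) := by
          rw [Finset.mul_sum]
      _ ≤ q ^ (m + 2 * Z + γ) * (q ^ (δ + 2 * σ) * (T + 3)) := by
          refine mul_le_mul_of_nonneg_left ?_ (by positivity)
          rw [← x0b_sum_Q σ δ (fun s c2 => ((cubePairs σ c2 s).card : ℝ))]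
          refine le_trans ?_ (sum_cubePairs_le (F := F) (σ := σ) (δ := δ) (N := 12 * n) (by omega))
          refine Finset.sum_le_sum fun s _ => ?_
          refine Finset.sum_le_sum_of_subset_of_nonneg ?_ (fun _ _ _ => Nat.cast_nonneg _)
          intro c hc
          rw [Finset.mem_filter] at hc ⊢
          exact ⟨hc.1, hc.2.1⟩
  -- combine
  have hS0 : 0 ≤ ∑ x ∈ MN F m ×ˢ x0bQ F σ δ, ‖Ysum ψ Z γ x.2.1 x.2.2 x.1‖ :=
    Finset.sum_nonneg fun _ _ => norm_nonneg _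
  have hfin : (∑ x ∈ MN F m ×ˢ x0bQ F σ δ, ‖Ysum ψ Z γ x.2.1 x.2.2 x.1‖) ^ 2 ≤
      ((T + 3) * q ^ ((6 * n + 1 + a : ℝ) + 2 * n + 1 + 3 * a / 4)) ^ 2 := by
    calc (∑ x ∈ MN F m ×ˢ x0bQ F σ δ, ‖Ysum ψ Z γ x.2.1 x.2.2 x.1‖) ^ 2
        ≤ ((MN F m ×ˢ x0bQ F σ δ).card : ℝ) *
          ∑ x ∈ MN F m ×ˢ x0bQ F σ δ, ‖Ysum ψ Z γ x.2.1 x.2.2 x.1‖ ^ 2 := hcs
      _ ≤ (q ^ m * (q ^ σ * T)) * (q ^ (m + 2 * Z + γ) * (q ^ (δ + 2 * σ) * (T + 3))) :=
          mul_le_mul hcard hsq (Finset.sum_nonneg fun _ _ => sq_nonneg _) (by positivity)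
      _ = (T * (T + 3)) * q ^ (2 * m + (σ + 2 * Z + D)) := by
          rw [← hsum]
          ring
      _ ≤ ((T + 3) * (T + 3)) * q ^ (2 * m + (σ + 2 * Z + D)) := by
          refine mul_le_mul_of_nonneg_right ?_ (by positivity)
          nlinarith
      _ ≤ ((T + 3) * (T + 3)) *
          q ^ (2 * ((6 * n + 1 + a : ℝ) + 2 * n + 1 + 3 * a / 4)) := by
          refine mul_le_mul_of_nonneg_left ?_ (by positivity)
          rw [← Real.rpow_natCast]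
          refine Real.rpow_le_rpow_of_exponent_le hq1 ?_
          have h4 : 2 * (2 * m + (σ + 2 * Z + D)) ≤
              2 * (2 * (6 * n + 1 + a)) + 2 * (4 * n + a + 1) + a := by omega
          have h5 : ((2 * (2 * m + (σ + 2 * Z + D)) : ℕ) : ℝ) ≤
              ((2 * (2 * (6 * n + 1 + a)) + 2 * (4 * n + a + 1) + a : ℕ) : ℝ) := by
            exact_mod_cast h4
          push_cast at h5
          push_cast
          linarith
      _ = ((T + 3) * q ^ ((6 * n + 1 + a : ℝ) + 2 * n + 1 + 3 * a / 4)) ^ 2 := by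
          rw [two_mul ((6 * n + 1 + a : ℝ) + 2 * n + 1 + 3 * a / 4), Real.rpow_add hq0]
          ring
  exact le_of_sq_le_sq hfin (by positivity)

open Classical in
private theorem x0b_point (ψ : AddChar F ℂ) {n a D : ℕ} (hD : D < a) {v : F[X]}
    (hv : v ∈ MN F (6 * n + 1 + a)) (hirr : Irreducible v) :
    ‖X0 ψ n a D v‖ ≤ ∑ σ ∈ Finset.range (D / 2 + 1), ∑ δ ∈ Finset.range (D - 2 * σ + 1),
      ∑ s ∈ MN F σ, ∑ c2 ∈ (MN F δ).filter (fun c2 => c2 ∣ s ∧ Squarefree c2),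
        ‖Ysum ψ ((4 * n + a - D + 1) / 2) (D - 2 * σ - δ) s c2 v‖ := by
  rw [X0_eq ψ hD hv hirr]
  refine (norm_sum_le _ _).trans (Finset.sum_le_sum fun σ hσ => ?_)
  rw [Finset.mem_range] at hσ
  rw [Finset.sum_comm (s := Finset.range (D - 2 * σ + 1)) (t := MN F σ)]
  refine (norm_sum_le _ _).trans (Finset.sum_le_sum fun s hs => ?_)
  rw [sum_sqfree_gcd hs]
  refine (norm_sum_le _ _).trans (Finset.sum_le_sum fun δ _ => ?_)
  refine (norm_sum_le _ _).trans (Finset.sum_le_sum fun c2 _ => ?_)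
  have hcop : IsCoprime v s := by
    refine (Irreducible.coprime_iff_not_dvd hirr).2 ?_
    intro hdvd
    have h1 := degree_le_of_dvd hdvd (monic_of_mem_MN hs).ne_zero
    rw [degree_of_mem_MN hv, degree_of_mem_MN hs] at h1
    have h2 : 6 * n + 1 + a ≤ σ := by exact_mod_cast h1
    omega
  unfold Ysum
  rw [if_pos hcop]

open Classical in
theorem X0_bound (ψ : AddChar F ℂ) (hψ : ψ ≠ 1) (h2 : (2 : F) ≠ 0) {n a D : ℕ} (ha : a ≤ 4 * n)
    (hD : D < a) :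
    ∑ v ∈ (MN F (6 * n + 1 + a)).filter (fun v => Irreducible v), ‖X0 ψ n a D v‖ ≤
      ((a : ℝ) + 1) ^ 3 * ((dmax F (12 * n) : ℝ) + 3) *
        (Fintype.card F : ℝ) ^ ((6 * n + 1 + a : ℝ) + 2 * n + 1 + 3 * a / 4) := by
  set B : ℝ := ((dmax F (12 * n) : ℝ) + 3) *
    (Fintype.card F : ℝ) ^ ((6 * n + 1 + a : ℝ) + 2 * n + 1 + 3 * a / 4) with hB
  have hB0 : 0 ≤ B := by rw [hB]; positivity
  calc ∑ v ∈ (MN F (6 * n + 1 + a)).filter (fun v => Irreducible v), ‖X0 ψ n a D v‖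
      ≤ ∑ v ∈ (MN F (6 * n + 1 + a)).filter (fun v => Irreducible v),
        ∑ σ ∈ Finset.range (D / 2 + 1), ∑ δ ∈ Finset.range (D - 2 * σ + 1),
        ∑ s ∈ MN F σ, ∑ c2 ∈ (MN F δ).filter (fun c2 => c2 ∣ s ∧ Squarefree c2),
        ‖Ysum ψ ((4 * n + a - D + 1) / 2) (D - 2 * σ - δ) s c2 v‖ := by
        refine Finset.sum_le_sum fun v hv => ?_
        rw [Finset.mem_filter] at hv
        exact x0b_point ψ hD hv.1 hv.2
    _ ≤ ∑ v ∈ MN F (6 * n + 1 + a),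
        ∑ σ ∈ Finset.range (D / 2 + 1), ∑ δ ∈ Finset.range (D - 2 * σ + 1),
        ∑ s ∈ MN F σ, ∑ c2 ∈ (MN F δ).filter (fun c2 => c2 ∣ s ∧ Squarefree c2),
        ‖Ysum ψ ((4 * n + a - D + 1) / 2) (D - 2 * σ - δ) s c2 v‖ := by
        refine Finset.sum_le_sum_of_subset_of_nonneg (Finset.filter_subset _ _) ?_
        intro v _ _
        exact Finset.sum_nonneg fun _ _ => Finset.sum_nonneg fun _ _ =>
          Finset.sum_nonneg fun _ _ => Finset.sum_nonneg fun _ _ => norm_nonneg _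
    _ = ∑ σ ∈ Finset.range (D / 2 + 1), ∑ δ ∈ Finset.range (D - 2 * σ + 1),
        ∑ v ∈ MN F (6 * n + 1 + a),
        ∑ s ∈ MN F σ, ∑ c2 ∈ (MN F δ).filter (fun c2 => c2 ∣ s ∧ Squarefree c2),
        ‖Ysum ψ ((4 * n + a - D + 1) / 2) (D - 2 * σ - δ) s c2 v‖ := by
        rw [Finset.sum_comm]
        refine Finset.sum_congr rfl fun σ _ => ?_
        rw [Finset.sum_comm]
    _ ≤ ∑ σ ∈ Finset.range (D / 2 + 1), ∑ δ ∈ Finset.range (D - 2 * σ + 1), B := by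
        refine Finset.sum_le_sum fun σ hσ => Finset.sum_le_sum fun δ hδ => ?_
        rw [Finset.mem_range] at hσ hδ
        exact x0b_pair ψ hψ h2 ha hD (by omega) (by omega)
    _ ≤ ∑ σ ∈ Finset.range (a + 1), ∑ δ ∈ Finset.range (a + 1), B := by
        refine (Finset.sum_le_sum (g := fun _ => ∑ δ ∈ Finset.range (a + 1), B)
          fun σ _ => ?_).trans ?_
        · refine Finset.sum_le_sum_of_subset_of_nonneg ?_ (fun _ _ _ => hB0)
          exact Finset.range_subset_range.2 (by omega)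
        · refine Finset.sum_le_sum_of_subset_of_nonneg ?_
            (fun _ _ _ => Finset.sum_nonneg fun _ _ => hB0)
          exact Finset.range_subset_range.2 (by omega)
    _ = ((a : ℝ) + 1) ^ 2 * B := by
        simp only [Finset.sum_const, Finset.card_range, nsmul_eq_mul]
        push_cast
        ring
    _ ≤ ((a : ℝ) + 1) ^ 3 * B := by
        refine mul_le_mul_of_nonneg_right ?_ hB0
        have ha0 : (0 : ℝ) ≤ a := Nat.cast_nonneg _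
        nlinarith [sq_nonneg ((a : ℝ) + 1)]
    _ = ((a : ℝ) + 1) ^ 3 * ((dmax F (12 * n) : ℝ) + 3) *
        (Fintype.card F : ℝ) ^ ((6 * n + 1 + a : ℝ) + 2 * n + 1 + 3 * a / 4) := by
        rw [hB]
        ring

end Pool.Agent.Helper31.AR
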