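import Pool.Agent.Helper31.AR.D1Defs
import Pool.Agent.Helper31.AR.Residue

/-!
# AR-44: the sum of `Sq e / q ^ (deg e)`

`∑_{0 ≠ e, deg e < E} Sq(e) q ^ (- deg e) = ∑_{g monic, 2 deg g < E} q ^ (deg g) ∑_{e = g ^ 2 e₁} q ^ (- 2 deg g - deg e₁)
= ∑_g q ^ (- deg g) ∑_{0 ≠ e₁, deg e₁ < E - 2 deg g} q ^ (- deg e₁)`. There are `(q - 1) q ^ i` polynomials `e₁` of degree `i`, so the inner sum
is at most `(q - 1) E`; and there are `q ^ i` monic `g` of degree `i < E`, so `∑_g q ^ (- deg g) ≤ E`. Total `≤ (q - 1) E ^ 2 ≤ q (E + 1) ^ 2`.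
(For `e ∈ (PN F E).erase 0` the `g` with `g ^ 2 ∣ e` have degree `< E`. Any upper bound argument is fine: e.g. bound the number of
`e` of degree `i` divisible by `g ^ 2`.)
-/

set_option autoImplicit false

open Polynomial

namespace Pool.Agent.Helper31.AR

variable {F : Type} [Field F] [Fintype F]

private lemma q_pos : (0 : ℝ) < Fintype.card F := by
  exact_mod_cast Fintype.card_pos

open Classical in
private lemma sum_inv_le (E : ℕ) :
    ∑ e ∈ (PN F E).erase 0, 1 / (Fintype.card F : ℝ) ^ e.natDegree ≤ (Fintype.card F : ℝ) * E := by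
  have hq : (0 : ℝ) < Fintype.card F := q_pos
  induction E with
  | zero =>
    have h : (PN F 0).erase 0 = ∅ := by
      ext e
      rw [Finset.mem_erase, mem_PN]
      constructor
      · rintro ⟨h1, h2⟩
        exfalso
        apply h1
        rw [← degree_eq_bot]
        rcases h : e.degree with _ | d
        · rfl
        · rw [h] at h2
          have h3 : ((d : ℕ) : WithBot ℕ) < ((0 : ℕ) : WithBot ℕ) := h2
          have h4 : d < 0 := by exact_mod_cast h3
          omega
      · intro h
        simp at h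
    rw [h]
    simp
  | succ E ih =>
    rw [← Finset.sum_filter_add_sum_filter_not _ (fun e => e.natDegree < E)]
    have h1 : ∑ e ∈ ((PN F (E + 1)).erase 0).filter (fun e => e.natDegree < E),
        1 / (Fintype.card F : ℝ) ^ e.natDegree ≤
        ∑ e ∈ (PN F E).erase 0, 1 / (Fintype.card F : ℝ) ^ e.natDegree := by
      refine Finset.sum_le_sum_of_subset_of_nonneg ?_ (fun _ _ _ => by positivity)
      intro e he
      rw [Finset.mem_filter, Finset.mem_erase] at he
      rw [Finset.mem_erase, mem_PN, ← natDegree_lt_iff_degree_lt he.1.1]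
      exact ⟨he.1.1, he.2⟩
    have h2 : ∑ e ∈ ((PN F (E + 1)).erase 0).filter (fun e => ¬ e.natDegree < E),
        1 / (Fintype.card F : ℝ) ^ e.natDegree ≤ Fintype.card F := by
      have h3 : ∀ e ∈ ((PN F (E + 1)).erase 0).filter (fun e => ¬ e.natDegree < E),
          1 / (Fintype.card F : ℝ) ^ e.natDegree = 1 / (Fintype.card F : ℝ) ^ E := by
        intro e he
        rw [Finset.mem_filter, Finset.mem_erase, mem_PN,
          ] at he
        obtain ⟨⟨h4, h5⟩, h6⟩ := he
        rw [← natDegree_lt_iff_degree_lt h4] at h5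
        have h7 : e.natDegree = E := by omega
        rw [h7]
      rw [Finset.sum_congr rfl h3, Finset.sum_const, nsmul_eq_mul]
      have h4 : (((PN F (E + 1)).erase 0).filter (fun e => ¬ e.natDegree < E)).card ≤
          Fintype.card F ^ (E + 1) := by
        rw [← card_PN (F := F) (E + 1)]
        refine Finset.card_le_card ?_
        intro e he
        exact Finset.mem_of_mem_erase (Finset.mem_of_mem_filter _ he)
      have h5 : ((((PN F (E + 1)).erase 0).filter (fun e => ¬ e.natDegree < E)).card : ℝ) ≤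
          (Fintype.card F : ℝ) ^ (E + 1) := by exact_mod_cast h4
      rw [mul_one_div, div_le_iff₀ (by positivity)]
      rw [pow_succ] at h5
      linarith
    push_cast
    linarith

open Classical in
private lemma sum_mult_le (E i : ℕ) {g : F[X]} (hg : g ∈ MN F i) :
    ∑ e ∈ ((PN F E).erase 0).filter (fun e => g ^ 2 ∣ e),
      (Fintype.card F : ℝ) ^ i / (Fintype.card F : ℝ) ^ e.natDegree ≤
      1 / (Fintype.card F : ℝ) ^ i * ((Fintype.card F : ℝ) * E) := by
  have hq : (0 : ℝ) < Fintype.card F := q_pos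
  set S := ((PN F E).erase 0).filter (fun e => g ^ 2 ∣ e) with hS
  have hc : ∀ e ∈ S, ∃ c : F[X], e = g ^ 2 * c := by
    intro e he
    exact (Finset.mem_filter.1 he).2
  choose! c hc using hc
  have hg2 : g ^ 2 ≠ 0 := pow_ne_zero 2 (monic_of_mem_MN hg).ne_zero
  have hne : ∀ e ∈ S, e ≠ 0 := by
    intro e he
    exact (Finset.mem_erase.1 (Finset.mem_filter.1 he).1).1
  have hc0 : ∀ e ∈ S, c e ≠ 0 := by
    intro e he h
    apply hne e he
    rw [hc e he, h, mul_zero]
  have hdeg : ∀ e ∈ S, e.natDegree = 2 * i + (c e).natDegree := by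
    intro e he
    conv_lhs => rw [hc e he]
    rw [natDegree_mul hg2 (hc0 e he), natDegree_pow, natDegree_of_mem_MN hg]
  have h1 : ∀ e ∈ S, (Fintype.card F : ℝ) ^ i / (Fintype.card F : ℝ) ^ e.natDegree =
      1 / (Fintype.card F : ℝ) ^ i * (1 / (Fintype.card F : ℝ) ^ (c e).natDegree) := by
    intro e he
    rw [hdeg e he, two_mul, pow_add, pow_add]
    field_simp
  rw [Finset.sum_congr rfl h1, ← Finset.mul_sum]
  refine mul_le_mul_of_nonneg_left ?_ (by positivity)
  refine le_trans ?_ (sum_inv_le E)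
  have hinj : Set.InjOn c (S : Set F[X]) := by
    intro e he e' he' h
    rw [hc e he, hc e' he', h]
  rw [← Finset.sum_image (f := fun x : F[X] => 1 / (Fintype.card F : ℝ) ^ x.natDegree) hinj]
  refine Finset.sum_le_sum_of_subset_of_nonneg ?_ (fun _ _ _ => by positivity)
  intro x hx
  rw [Finset.mem_image] at hx
  obtain ⟨e, he, rfl⟩ := hx
  rw [Finset.mem_erase, mem_PN, ← natDegree_lt_iff_degree_lt (hc0 e he)]
  refine ⟨hc0 e he, ?_⟩
  have h2 := (Finset.mem_erase.1 (Finset.mem_filter.1 he).1).2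
  rw [mem_PN, ← natDegree_lt_iff_degree_lt (hne e he), hdeg e he] at h2
  omega

open Classical in
theorem sum_Sq_le (E : ℕ) :
    ∑ e ∈ (PN F E).erase 0, (Sq e : ℝ) / (Fintype.card F : ℝ) ^ e.natDegree ≤
      (Fintype.card F : ℝ) * ((E : ℝ) + 1) ^ 2 := by
  have hq : (0 : ℝ) < Fintype.card F := q_pos
  have h1 : ∀ e ∈ (PN F E).erase 0, (Sq e : ℝ) / (Fintype.card F : ℝ) ^ e.natDegree ≤
      ∑ i ∈ Finset.range E, ∑ g ∈ MN F i,
        (if g ^ 2 ∣ e then (Fintype.card F : ℝ) ^ i / (Fintype.card F : ℝ) ^ e.natDegree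
          else 0) := by
    intro e he
    rw [Finset.mem_erase, mem_PN] at he
    obtain ⟨he0, he1⟩ := he
    rw [← natDegree_lt_iff_degree_lt he0] at he1
    have h2 : ((dv e).filter (fun g => g ^ 2 ∣ e)) ⊆
        (Finset.range E).biUnion (fun i => (MN F i).filter (fun g => g ^ 2 ∣ e)) := by
      intro g hg
      rw [Finset.mem_filter, mem_dv he0] at hg
      rw [Finset.mem_biUnion]
      refine ⟨g.natDegree, ?_, ?_⟩
      · rw [Finset.mem_range]
        exact lt_of_le_of_lt (natDegree_le_of_dvd hg.1.2 he0) he1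
      · rw [Finset.mem_filter, mem_MN]
        exact ⟨⟨hg.1.1, rfl⟩, hg.2⟩
    have h3 : (Sq e : ℝ) ≤ ∑ i ∈ Finset.range E, ∑ g ∈ (MN F i).filter (fun g => g ^ 2 ∣ e),
        (Fintype.card F : ℝ) ^ i := by
      unfold Sq
      push_cast
      refine le_trans (Finset.sum_le_sum_of_subset_of_nonneg h2 (fun _ _ _ => by positivity)) ?_
      rw [Finset.sum_biUnion]
      · refine Finset.sum_le_sum (fun i _ => Finset.sum_le_sum (fun g hg => ?_))
        rw [natDegree_of_mem_MN (Finset.mem_filter.1 hg).1]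
      · intro i _ j _ hij
        rw [Function.onFun, Finset.disjoint_left]
        intro g hg hg'
        apply hij
        rw [← natDegree_of_mem_MN (Finset.mem_filter.1 hg).1,
          ← natDegree_of_mem_MN (Finset.mem_filter.1 hg').1]
    refine le_trans (div_le_div_of_nonneg_right h3 (by positivity)) (le_of_eq ?_)
    rw [Finset.sum_div]
    refine Finset.sum_congr rfl (fun i _ => ?_)
    rw [Finset.sum_div, Finset.sum_filter]
  refine le_trans (Finset.sum_le_sum h1) ?_
  rw [Finset.sum_comm]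
  have h2 : ∀ i ∈ Finset.range E, ∑ e ∈ (PN F E).erase 0, ∑ g ∈ MN F i,
        (if g ^ 2 ∣ e then (Fintype.card F : ℝ) ^ i / (Fintype.card F : ℝ) ^ e.natDegree
          else 0) ≤ (Fintype.card F : ℝ) * E := by
    intro i _
    rw [Finset.sum_comm]
    have h3 : ∀ g ∈ MN F i, ∑ e ∈ (PN F E).erase 0,
        (if g ^ 2 ∣ e then (Fintype.card F : ℝ) ^ i / (Fintype.card F : ℝ) ^ e.natDegree
          else 0) ≤ 1 / (Fintype.card F : ℝ) ^ i * ((Fintype.card F : ℝ) * E) := by
      intro g hg
      rw [← Finset.sum_filter]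
      exact sum_mult_le E i hg
    refine le_trans (Finset.sum_le_sum h3) (le_of_eq ?_)
    rw [Finset.sum_const, card_MN, nsmul_eq_mul]
    push_cast
    field_simp
  refine le_trans (Finset.sum_le_sum h2) ?_
  rw [Finset.sum_const, Finset.card_range, nsmul_eq_mul]
  have hE : (0 : ℝ) ≤ E := Nat.cast_nonneg E
  nlinarith [mul_nonneg hq.le hE]

end Pool.Agent.Helper31.AR
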