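import Pool.Agent.Helper31.AR.KsetBound
import Pool.Agent.Helper31.AR.SumSq

/-!
# AR-45: the tuples with `R = 0`

Let `m = 6 n + 1 + a`, `K = 2 n + a`, `E = a - 2 n - 2`, `T = dmax F (12 n)`. If `E = 0` the left side is empty. Let `v` be counted by
`cntR .. 0`, `h = d η`, `h' = d η'`, `IsCoprime η η'`: `d η η' ∣ k ^ 3 η' ^ 2 - k' ^ 3 η ^ 2`. Modulo `η`: `η ∣ k ^ 3 η' ^ 2`, so `η ∣ k ^ 3`; and
`k ^ 2 ≡ v e` modulo `η`, so `v ^ 2 e ^ 2 ≡ k ^ 4 ≡ 0`, hence `η ∣ e ^ 2` (`v` coprime to `η`). Similarly `η' ∣ e' ^ 2`. So the left side is at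
most the number of tuples `(v, h, e, k, d, e', η', k')` with `v ∈ MN F m`, `h ∈ MN F D` coprime to `v`, `e ∈ (PN F E).erase 0`,
`k ∈ kset n a D v h e`, `d ∈ dv h`, `e' ∈ (PN F E).erase 0`, `η' ∈ dv (e' ^ 2)`, `d η' ∈ MN F D` coprime to `v`, `k' ∈ kset n a D v (d η') e'`
(the tuple `(j, d, η, η', ...)` is mapped to `h = d η`; given `h` and `d`, `η` is determined).
With `κ(e) = 2 T Sq(e) q ^ (a - 2) / q ^ (deg e)` (`card_kset_le`) and `U = ∑_{e} κ(e) ≤ 2 T q ^ (a - 2) q (E + 1) ^ 2` (`sum_Sq_le`), the number of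
tuples is at most `q ^ m q ^ D U T T U` (`(dv h).card ≤ T`, `(dv (e' ^ 2)).card ≤ T` since `deg (e' ^ 2) ≤ 2 (a - 2 n - 3) ≤ 4 n`). This is
`4 T ^ 4 (E + 1) ^ 4 q ^ (m + D + 2 (a - 2) + 2) ≤ 4 (a + 1) ^ 4 T ^ 4 q ^ (6 n + 4 a)` since
`m + D + 2 a - 2 ≤ 6 n + 1 + a + (a - 1) + 2 a - 2 = 6 n + 4 a - 2`.
-/

set_option autoImplicit false
set_option linter.unusedVariables false
set_option linter.unusedSectionVars false
open Polynomial

namespace Pool.Agent.Helper31.AR

variable {F : Type} [Field F] [Fintype F]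

open Classical in
/-- The size of `kset` if `v` and `h` are coprime. -/
private noncomputable def KK (n a D : ℕ) (v h e : F[X]) : ℝ :=
  if IsCoprime v h then ((kset n a D v h e).card : ℝ) else 0

private theorem KK_nonneg (n a D : ℕ) (v h e : F[X]) : 0 ≤ KK n a D v h e := by
  unfold KK
  split_ifs <;> positivity

/-- The bound for the size of `kset`. -/
private noncomputable def kap (n a : ℕ) (e : F[X]) : ℝ :=
  2 * (dmax F (12 * n) : ℝ) * (Fintype.card F : ℝ) ^ (a - 2) *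
    ((Sq e : ℝ) / (Fintype.card F : ℝ) ^ e.natDegree)

private theorem kap_nonneg (n a : ℕ) (e : F[X]) : 0 ≤ kap n a e := by
  unfold kap
  positivity

private theorem KK_le (h2 : (2 : F) ≠ 0) {n a D : ℕ} (ha : a ≤ 4 * n) (hD : D < a) {v h e : F[X]}
    (hv : v ∈ MN F (6 * n + 1 + a)) (hh : h ∈ MN F D) (he : e ≠ 0)
    (heE : e ∈ PN F (a - 2 * n - 2)) : KK n a D v h e ≤ kap n a e := by
  unfold KK
  split_ifs with hc
  · have h1 := card_kset_le h2 ha hD hv hh hc he heE
    have hq : (0 : ℝ) < (Fintype.card F : ℝ) ^ e.natDegree := by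
      have : 0 < Fintype.card F := Fintype.card_pos
      positivity
    unfold kap
    rw [← mul_div_assoc, le_div_iff₀ hq]
    calc _ ≤ _ := h1
      _ = _ := by ring
  · exact kap_nonneg n a e

open Classical in
private theorem sum_kap (n a : ℕ) : ∑ e ∈ (PN F (a - 2 * n - 2)).erase 0, kap n a e ≤
    2 * (dmax F (12 * n) : ℝ) * (Fintype.card F : ℝ) ^ (a - 2) *
      ((Fintype.card F : ℝ) * (((a - 2 * n - 2 : ℕ) : ℝ) + 1) ^ 2) := by
  unfold kap
  rw [← Finset.mul_sum]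
  exact mul_le_mul_of_nonneg_left (sum_Sq_le _) (by positivity)

private theorem dvd_sq_of {d η η' v e' k k' : F[X]} (hcop : IsCoprime η η')
    (hv : IsCoprime v (d * η')) (hk' : d * η' ∣ k' ^ 2 - v * e')
    (hR : d * η * η' ∣ v ^ 2 * 0 - (k ^ 3 * η' ^ 2 - k' ^ 3 * η ^ 2)) : η' ∣ e' ^ 2 := by
  have h1 : η' ∣ k' ^ 3 * η ^ 2 := by
    have h2 : η' ∣ v ^ 2 * 0 - (k ^ 3 * η' ^ 2 - k' ^ 3 * η ^ 2) := (Dvd.intro_left _ rfl).trans hR
    have h3 : η' ∣ k ^ 3 * η' ^ 2 := ⟨k ^ 3 * η', by ring⟩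
    have h4 : k' ^ 3 * η ^ 2 = (v ^ 2 * 0 - (k ^ 3 * η' ^ 2 - k' ^ 3 * η ^ 2)) + k ^ 3 * η' ^ 2 := by ring
    rw [h4]
    exact dvd_add h2 h3
  have h5 : η' ∣ k' ^ 3 := (hcop.symm.pow_right (n := 2)).dvd_of_dvd_mul_right h1
  have h6 : η' ∣ k' ^ 2 - v * e' := (Dvd.intro_left _ rfl).trans hk'
  have h7 : η' ∣ v ^ 2 * e' ^ 2 := by
    have h8 : v ^ 2 * e' ^ 2 = k' ^ 3 * k' - (k' ^ 2 - v * e') * (k' ^ 2 + v * e') := by ring
    rw [h8]
    exact dvd_sub (h5.mul_right _) (h6.mul_right _)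
  have h9 : IsCoprime η' (v ^ 2) := (hv.of_mul_right_right.symm).pow_right
  exact h9.dvd_of_dvd_mul_left h7

open Classical in
private theorem sum_cntR {n a D : ℕ} {d η η' e e' : F[X]} (hcop : IsCoprime η η') :
    ∑ k ∈ PN F (2 * n + a), ∑ k' ∈ PN F (2 * n + a),
      ((cntR n a D d η η' k e k' e' 0 : ℕ) : ℝ) ≤
    ∑ v ∈ MN F (6 * n + 1 + a), KK n a D v (d * η) e *
      (KK n a D v (d * η') e' * (if η' ∣ e' ^ 2 then 1 else 0)) := by
  have h1 : ∀ k k' : F[X], ((cntR n a D d η η' k e k' e' 0 : ℕ) : ℝ) ≤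
      ∑ v ∈ MN F (6 * n + 1 + a),
        (if IsCoprime v (d * η) ∧ k ∈ kset n a D v (d * η) e then (1 : ℝ) else 0) *
        ((if IsCoprime v (d * η') ∧ k' ∈ kset n a D v (d * η') e' then (1 : ℝ) else 0) *
          (if η' ∣ e' ^ 2 then 1 else 0)) := by
    intro k k'
    unfold cntR vset
    rw [Finset.filter_filter, Finset.card_filter]
    push_cast
    refine Finset.sum_le_sum fun v hv => ?_
    split_ifs with c1 c2 c3 c4 <;> try norm_num
    · exact c4 (dvd_sq_of hcop c1.1.2.1 (by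
        have := c1.1.2.2.2
        unfold kset at this
        rw [Finset.mem_filter] at this
        exact this.2.1) c1.2)
    · exact c3 ⟨c1.1.2.1, c1.1.2.2.2⟩
    · exact c3 ⟨c1.1.2.1, c1.1.2.2.2⟩
    · exact c2 ⟨c1.1.1, c1.1.2.2.1⟩
    · exact c2 ⟨c1.1.1, c1.1.2.2.1⟩
    · exact c2 ⟨c1.1.1, c1.1.2.2.1⟩
    · exact c2 ⟨c1.1.1, c1.1.2.2.1⟩
  have h2 : ∀ v h e : F[X], ∑ k ∈ PN F (2 * n + a),
      (if IsCoprime v h ∧ k ∈ kset n a D v h e then (1 : ℝ) else 0) = KK n a D v h e := by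
    intro v h e
    unfold KK
    split_ifs with hc
    · simp only [hc, true_and]
      rw [Finset.sum_ite_mem, Finset.sum_const, nsmul_eq_mul, mul_one]
      congr 2
      rw [Finset.inter_eq_right]
      unfold kset
      exact Finset.filter_subset _ _
    · simp [hc]
  calc _ ≤ ∑ k ∈ PN F (2 * n + a), ∑ k' ∈ PN F (2 * n + a), ∑ v ∈ MN F (6 * n + 1 + a),
        (if IsCoprime v (d * η) ∧ k ∈ kset n a D v (d * η) e then (1 : ℝ) else 0) *
        ((if IsCoprime v (d * η') ∧ k' ∈ kset n a D v (d * η') e' then (1 : ℝ) else 0) *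
          (if η' ∣ e' ^ 2 then 1 else 0)) :=
        Finset.sum_le_sum fun k _ => Finset.sum_le_sum fun k' _ => h1 k k'
    _ = ∑ v ∈ MN F (6 * n + 1 + a), ∑ k ∈ PN F (2 * n + a), ∑ k' ∈ PN F (2 * n + a),
        (if IsCoprime v (d * η) ∧ k ∈ kset n a D v (d * η) e then (1 : ℝ) else 0) *
        ((if IsCoprime v (d * η') ∧ k' ∈ kset n a D v (d * η') e' then (1 : ℝ) else 0) *
          (if η' ∣ e' ^ 2 then 1 else 0)) := by
        rw [Finset.sum_congr rfl fun k _ => Finset.sum_comm]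
        exact Finset.sum_comm
    _ = _ := by
        refine Finset.sum_congr rfl fun v _ => ?_
        rw [← h2 v (d * η) e, Finset.sum_mul]
        refine Finset.sum_congr rfl fun k _ => ?_
        rw [← h2 v (d * η') e', Finset.sum_mul, Finset.mul_sum]


open Classical in
private theorem sum_second (h2 : (2 : F) ≠ 0) {n a D j : ℕ} (ha : a ≤ 4 * n) (hD : D < a) (hj : j ≤ D)
    {d v : F[X]} (hd : d ∈ MN F j) (hv : v ∈ MN F (6 * n + 1 + a)) (p : F[X] → Prop) :
    ∑ η' ∈ (MN F (D - j)).filter p, ∑ e' ∈ (PN F (a - 2 * n - 2)).erase 0,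
      KK n a D v (d * η') e' * (if η' ∣ e' ^ 2 then 1 else 0) ≤
    (dmax F (12 * n) : ℝ) * ∑ e ∈ (PN F (a - 2 * n - 2)).erase 0, kap n a e := by
  rw [Finset.sum_comm, Finset.mul_sum]
  refine Finset.sum_le_sum fun e' he' => ?_
  rw [Finset.mem_erase] at he'
  have hdh : ∀ η' ∈ (MN F (D - j)).filter p, d * η' ∈ MN F D := by
    intro η' hη'
    rw [Finset.mem_filter] at hη'
    have := MN_mul hd hη'.1
    rwa [Nat.add_sub_cancel' hj] at this
  calc ∑ η' ∈ (MN F (D - j)).filter p, KK n a D v (d * η') e' * (if η' ∣ e' ^ 2 then 1 else 0)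
      ≤ ∑ η' ∈ (MN F (D - j)).filter p, kap n a e' * (if η' ∣ e' ^ 2 then 1 else 0) := by
        refine Finset.sum_le_sum fun η' hη' => ?_
        refine mul_le_mul_of_nonneg_right (KK_le h2 ha hD hv (hdh η' hη') he'.1 he'.2) ?_
        split_ifs <;> norm_num
    _ = kap n a e' * ∑ η' ∈ (MN F (D - j)).filter p, (if η' ∣ e' ^ 2 then (1 : ℝ) else 0) := by
        rw [Finset.mul_sum]
    _ ≤ kap n a e' * (dmax F (12 * n) : ℝ) := by
        refine mul_le_mul_of_nonneg_left ?_ (kap_nonneg n a e')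
        rw [← Finset.sum_filter, Finset.sum_const, nsmul_eq_mul, mul_one]
        have he2 : e' ^ 2 ≠ 0 := pow_ne_zero 2 he'.1
        have hdeg : (e' ^ 2).natDegree ≤ 12 * n := by
          rw [natDegree_pow]
          have h3 := he'.2
          rw [mem_PN, ← natDegree_lt_iff_degree_lt he'.1] at h3
          omega
        have h1 : (((MN F (D - j)).filter p).filter (fun η' => η' ∣ e' ^ 2)).card ≤ dmax F (12 * n) := by
          refine le_trans (Finset.card_le_card ?_) (card_dv_le he2 hdeg)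
          intro η' hη'
          rw [Finset.mem_filter, Finset.mem_filter] at hη'
          rw [mem_dv he2]
          exact ⟨monic_of_mem_MN hη'.1.1, hη'.2⟩
        exact_mod_cast h1
    _ = _ := mul_comm _ _

private theorem succ_le_dmax {D N : ℕ} (hD : D ≤ N) : D + 1 ≤ dmax F N := by
  classical
  have hX : (X ^ D : F[X]) ≠ 0 := pow_ne_zero _ X_ne_zero
  refine le_trans ?_ (card_dv_le (F := F) hX (N := N) (by simpa using hD))
  rw [← Finset.card_range (D + 1)]
  refine Finset.card_le_card_of_injOn (fun i => (X : F[X]) ^ i) ?_ ?_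
  · intro i hi
    rw [Finset.mem_coe, Finset.mem_range] at hi
    rw [Finset.mem_coe, mem_dv hX]
    exact ⟨monic_X_pow i, pow_dvd_pow _ (by omega)⟩
  · intro i _ i' _ h
    have h1 := congrArg natDegree h
    simpa using h1

open Classical in
theorem count_R0 (h2 : (2 : F) ≠ 0) {n a D : ℕ} (ha : a ≤ 4 * n) (hD : D < a) :
    ∑ j ∈ Finset.range (D + 1), ∑ d ∈ MN F j, ∑ η ∈ MN F (D - j),
        ∑ η' ∈ (MN F (D - j)).filter (fun η' => IsCoprime η η'),
          ∑ e ∈ (PN F (a - 2 * n - 2)).erase 0, ∑ e' ∈ (PN F (a - 2 * n - 2)).erase 0,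
            ∑ k ∈ PN F (2 * n + a), ∑ k' ∈ PN F (2 * n + a),
              ((cntR n a D d η η' k e k' e' 0 : ℕ) : ℝ) ≤
      4 * ((a : ℝ) + 1) ^ 4 * (dmax F (12 * n) : ℝ) ^ 4 *
        (Fintype.card F : ℝ) ^ (6 * n + 4 * a) := by
  set T : ℝ := (dmax F (12 * n) : ℝ) with hT
  set q : ℝ := (Fintype.card F : ℝ) with hq
  set S := (PN F (a - 2 * n - 2)).erase 0 with hS
  set U : ℝ := ∑ e ∈ S, kap n a e with hU
  have hq1 : 1 ≤ q := by
    rw [hq]
    exact_mod_cast Nat.one_le_iff_ne_zero.mpr (Fintype.card_ne_zero)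
  have hT0 : 0 ≤ T := by rw [hT]; positivity
  have hU0 : 0 ≤ U := Finset.sum_nonneg fun e _ => kap_nonneg n a e
  have step : ∀ j ∈ Finset.range (D + 1), ∀ d ∈ MN F j, ∀ η ∈ MN F (D - j),
      ∑ η' ∈ (MN F (D - j)).filter (fun η' => IsCoprime η η'),
          ∑ e ∈ S, ∑ e' ∈ S, ∑ k ∈ PN F (2 * n + a), ∑ k' ∈ PN F (2 * n + a),
              ((cntR n a D d η η' k e k' e' 0 : ℕ) : ℝ) ≤
      q ^ (6 * n + 1 + a) * (U * (T * U)) := by
    intro j hj d hd η hη
    rw [Finset.mem_range] at hj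
    have hjD : j ≤ D := by omega
    have hdη : d * η ∈ MN F D := by
      have := MN_mul hd hη
      rwa [Nat.add_sub_cancel' hjD] at this
    calc _ ≤ ∑ η' ∈ (MN F (D - j)).filter (fun η' => IsCoprime η η'),
          ∑ e ∈ S, ∑ e' ∈ S, ∑ v ∈ MN F (6 * n + 1 + a), KK n a D v (d * η) e *
            (KK n a D v (d * η') e' * (if η' ∣ e' ^ 2 then 1 else 0)) := by
          refine Finset.sum_le_sum fun η' hη' => Finset.sum_le_sum fun e _ =>
            Finset.sum_le_sum fun e' _ => ?_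
          rw [Finset.mem_filter] at hη'
          exact sum_cntR hη'.2
      _ = ∑ v ∈ MN F (6 * n + 1 + a), (∑ e ∈ S, KK n a D v (d * η) e) *
            ∑ η' ∈ (MN F (D - j)).filter (fun η' => IsCoprime η η'), ∑ e' ∈ S,
              KK n a D v (d * η') e' * (if η' ∣ e' ^ 2 then 1 else 0) := by
          have e1 : ∀ η' : F[X], ∑ e ∈ S, ∑ e' ∈ S, ∑ v ∈ MN F (6 * n + 1 + a), KK n a D v (d * η) e *
              (KK n a D v (d * η') e' * (if η' ∣ e' ^ 2 then 1 else 0)) =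
              ∑ v ∈ MN F (6 * n + 1 + a), (∑ e ∈ S, KK n a D v (d * η) e) * ∑ e' ∈ S,
                KK n a D v (d * η') e' * (if η' ∣ e' ^ 2 then 1 else 0) := by
            intro η'
            rw [Finset.sum_congr rfl fun e _ => Finset.sum_comm, Finset.sum_comm]
            refine Finset.sum_congr rfl fun v _ => ?_
            rw [Finset.sum_mul_sum]
          rw [Finset.sum_congr rfl fun η' _ => e1 η', Finset.sum_comm]
          refine Finset.sum_congr rfl fun v _ => ?_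
          rw [Finset.mul_sum]
      _ ≤ ∑ v ∈ MN F (6 * n + 1 + a), U * (T * U) := by
          refine Finset.sum_le_sum fun v hv => ?_
          refine mul_le_mul ?_ (sum_second h2 ha hD hjD hd hv _) ?_ hU0
          · refine Finset.sum_le_sum fun e he => ?_
            rw [hS, Finset.mem_erase] at he
            exact KK_le h2 ha hD hv hdη he.1 he.2
          · refine Finset.sum_nonneg fun η' _ => Finset.sum_nonneg fun e' _ => ?_
            refine mul_nonneg (KK_nonneg _ _ _ _ _ _) ?_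
            split_ifs <;> norm_num
      _ = _ := by
          rw [Finset.sum_const, nsmul_eq_mul, card_MN]
          push_cast
          rfl
  calc _ ≤ ∑ j ∈ Finset.range (D + 1), ∑ d ∈ MN F j, ∑ η ∈ MN F (D - j),
        q ^ (6 * n + 1 + a) * (U * (T * U)) :=
        Finset.sum_le_sum fun j hj => Finset.sum_le_sum fun d hd => Finset.sum_le_sum fun η hη =>
          step j hj d hd η hη
    _ = ((D : ℝ) + 1) * q ^ D * (q ^ (6 * n + 1 + a) * (U * (T * U))) := by
        have e1 : ∀ j ∈ Finset.range (D + 1), ∑ d ∈ MN F j, ∑ η ∈ MN F (D - j),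
            q ^ (6 * n + 1 + a) * (U * (T * U)) = q ^ D * (q ^ (6 * n + 1 + a) * (U * (T * U))) := by
          intro j hj
          rw [Finset.mem_range] at hj
          simp only [Finset.sum_const, nsmul_eq_mul, card_MN]
          push_cast
          rw [← hq, ← mul_assoc, ← pow_add, Nat.add_sub_cancel' (by omega : j ≤ D)]
        rw [Finset.sum_congr rfl e1, Finset.sum_const, nsmul_eq_mul, Finset.card_range]
        push_cast
        ring
    _ ≤ T * q ^ D * (q ^ (6 * n + 1 + a) * (U * (T * U))) := by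
        have h1 : (D : ℝ) + 1 ≤ T := by
          have := succ_le_dmax (F := F) (D := D) (N := 12 * n) (by omega)
          rw [hT]
          exact_mod_cast this
        have h2 : 0 ≤ q ^ D * (q ^ (6 * n + 1 + a) * (U * (T * U))) := by positivity
        calc _ = ((D : ℝ) + 1) * (q ^ D * (q ^ (6 * n + 1 + a) * (U * (T * U)))) := by ring
          _ ≤ T * (q ^ D * (q ^ (6 * n + 1 + a) * (U * (T * U)))) := mul_le_mul_of_nonneg_right h1 h2
          _ = _ := by ring
    _ ≤ _ := by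
        have hUle : U ≤ 2 * T * q ^ (a - 2) * (q * ((a : ℝ) + 1) ^ 2) := by
          refine le_trans (sum_kap n a) ?_
          rw [← hT, ← hq]
          have h3 : (((a - 2 * n - 2 : ℕ) : ℝ) + 1) ^ 2 ≤ ((a : ℝ) + 1) ^ 2 := by
            have h4 : ((a - 2 * n - 2 : ℕ) : ℝ) ≤ (a : ℝ) := by
              exact_mod_cast (by omega : a - 2 * n - 2 ≤ a)
            have h5 : (0 : ℝ) ≤ ((a - 2 * n - 2 : ℕ) : ℝ) := Nat.cast_nonneg _
            nlinarith
          gcongr
        have hU2 : U * U ≤ (2 * T * q ^ (a - 2) * (q * ((a : ℝ) + 1) ^ 2)) *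
            (2 * T * q ^ (a - 2) * (q * ((a : ℝ) + 1) ^ 2)) :=
          mul_le_mul hUle hUle hU0 (by positivity)
        calc T * q ^ D * (q ^ (6 * n + 1 + a) * (U * (T * U)))
            = (T ^ 2 * q ^ D * q ^ (6 * n + 1 + a)) * (U * U) := by ring
          _ ≤ (T ^ 2 * q ^ D * q ^ (6 * n + 1 + a)) * ((2 * T * q ^ (a - 2) * (q * ((a : ℝ) + 1) ^ 2)) *
            (2 * T * q ^ (a - 2) * (q * ((a : ℝ) + 1) ^ 2))) :=
              mul_le_mul_of_nonneg_left hU2 (by positivity)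
          _ = 4 * ((a : ℝ) + 1) ^ 4 * T ^ 4 * q ^ (D + (6 * n + 1 + a) + 2 * (a - 2) + 2) := by
              rw [pow_add, pow_add, pow_add, pow_mul']
              ring
          _ ≤ 4 * ((a : ℝ) + 1) ^ 4 * T ^ 4 * q ^ (6 * n + 4 * a) := by
              refine mul_le_mul_of_nonneg_left ?_ (by positivity)
              exact pow_le_pow_right₀ hq1 (by omega)

end Pool.Agent.Helper31.AR
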