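import Pool.Agent.Helper31.AR.DegPart
import Pool.Agent.Helper31.AR.XSBound
import Pool.Agent.Helper31.AR.PrimAvg
import Pool.Agent.Helper31.AR.PrimZero
import Pool.Agent.Helper31.AR.HalfAvg
import Pool.Agent.Helper31.AR.CubBound
import Pool.Agent.Helper31.AR.TTBound

/-!
# AR-49: the average of `TT` over the family, `m` even

Put `G t = ∑_{A, B} cub L (A(t)) (B(t))`, `N = q ^ (10 n + 2)` (the number of pairs). `∑_{A, B} TT L n A B = ∑_t G t + ∑_{A, B} cub L (..) (..)`, and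
`√(card L) = q ^ (m / 2)`. By `cub_bound` the last term is `≤ 20 N q ^ (m / 2)`. Apply `sum_by_degree` to `G`:

* `S = 20 N q ^ (m / 2)` (`cub_bound`), contributing `20 m q ^ (m / 3) N q ^ (m / 2) ≤ 20 m N q ^ (5 m / 6)` (natural division `m / 3`).
* `H`: for `2 d = m`, `d = m / 2 ≤ 6 n + 1`: `half_avg`. `H = N (q ^ d + 1) + 2 q ^ (6 n + 1) q ^ d q ^ (4 n + 1 - d)`, and
  `q ^ (4 n + 1 - d) ≤ q ^ (4 n + 1) q ^ (- m / 6)` (if `d ≤ 4 n + 1` since `d ≥ m / 6`, otherwise since `m / 6 ≤ 4 n + 1`). So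
  `q ^ (m / 2) H ≤ N (q ^ m + q ^ (m / 2) + 2 q ^ (5 m / 6))`.
* `P`: if `m ≤ 6 n + 1` take `P = 0` (`prim_zero`). Otherwise `m = 6 n + 1 + a`, `a ≥ 1`, `100 a + 100 ≤ 296 n` (from `100 m ≤ 896 n`); let
  `ψ : AddChar F ℂ` be nontrivial (`AddChar.exists_apply_ne_zero`, or `AddChar.FiniteField.primitiveChar...`; all `AddChar.mulShift ψ c`, `c ≠ 0`,
  are nontrivial), and `P v = N q ^ (- m / 2) ∑_c ∑_{D < a} ‖XS (mulShift ψ (c⁻¹ ^ 2)) (2 n + a) D v‖` (`prim_avg`). By `XS_bound`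
  `∑_v P v ≤ N q ^ (- m / 2) q a C q ^ (3 m / 2 - n / 50)`, so the contribution is `≤ m a q C N q ^ (m - n / 50)`, `a ≤ m`.

Collect: `N q ^ m (1 + C' m q ^ (- m / 6) + C' m ^ 2 q ^ (- n / 50))`. (`minpoly F t` is monic and irreducible with root `t`.)
-/

set_option autoImplicit false

open Polynomial

namespace Pool.Agent.Helper31.AR

theorem TT_sum_split (F : Type) [Field F] [Fintype F] (L : Type) [Field L] [Fintype L] [Algebra F L]
    (n : ℕ) : ∑ A ∈ PN F (4 * n + 1), ∑ B ∈ PN F (6 * n + 1), TT L n A B =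
      (∑ t : L, ∑ A ∈ PN F (4 * n + 1), ∑ B ∈ PN F (6 * n + 1), cub L (aeval t A) (aeval t B)) +
      ∑ A ∈ PN F (4 * n + 1), ∑ B ∈ PN F (6 * n + 1),
        cub L (algebraMap F L (A.coeff (4 * n))) (algebraMap F L (B.coeff (6 * n))) := by
  simp only [TT, Finset.sum_add_distrib]
  congr 1
  rw [Finset.sum_comm]
  rw [Finset.sum_comm]
  rw [Finset.sum_comm (s := (Finset.univ : Finset L))]
  refine Finset.sum_congr rfl fun A _ => ?_
  rw [Finset.sum_comm]

/-- A double sum of terms `≤ K` over the two finsets. -/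
theorem double_sum_le (F : Type) [Field F] [Fintype F] (n : ℕ) (g : F[X] → F[X] → ℤ) (K : ℝ)
    (hg : ∀ A B, (g A B : ℝ) ≤ K) :
    ((∑ A ∈ PN F (4 * n + 1), ∑ B ∈ PN F (6 * n + 1), g A B : ℤ) : ℝ) ≤
      (Fintype.card F : ℝ) ^ (10 * n + 2) * K := by
  push_cast
  calc ∑ A ∈ PN F (4 * n + 1), ∑ B ∈ PN F (6 * n + 1), (g A B : ℝ)
      ≤ ∑ A ∈ PN F (4 * n + 1), ∑ B ∈ PN F (6 * n + 1), K :=
        Finset.sum_le_sum fun A _ => Finset.sum_le_sum fun B _ => hg A B
    _ = (Fintype.card F : ℝ) ^ (10 * n + 2) * K := by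
        simp only [Finset.sum_const, card_PN, nsmul_eq_mul]
        push_cast
        rw [show 10 * n + 2 = (4 * n + 1) + (6 * n + 1) by ring, pow_add]
        ring

theorem rpow_aux {q : ℝ} (hq : 1 ≤ q) {m : ℕ} (hm : Even m) :
    q ^ (m / 2) ≤ q ^ m * q ^ (-(m : ℝ) / 6) := by
  obtain ⟨r, hr⟩ := hm
  have hq0 : 0 < q := by linarith
  have e1 : m / 2 = r := by omega
  rw [e1, ← Real.rpow_natCast, ← Real.rpow_natCast, ← Real.rpow_add hq0]
  refine Real.rpow_le_rpow_of_exponent_le hq ?_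
  have : (m : ℝ) = r + r := by rw [hr]; push_cast; ring
  rw [this]
  have : (0 : ℝ) ≤ r := Nat.cast_nonneg r
  linarith

theorem rpow_aux2 {q : ℝ} (hq : 1 ≤ q) {m : ℕ} (hm : Even m) :
    q ^ (m / 3) * q ^ (m / 2) ≤ q ^ m * q ^ (-(m : ℝ) / 6) := by
  obtain ⟨r, hr⟩ := hm
  have hq0 : 0 < q := by linarith
  have e1 : m / 2 = r := by omega
  rw [e1, ← Real.rpow_natCast, ← Real.rpow_natCast, ← Real.rpow_natCast, ← Real.rpow_add hq0,
    ← Real.rpow_add hq0]
  refine Real.rpow_le_rpow_of_exponent_le hq ?_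
  have h1 : (m : ℝ) = r + r := by rw [hr]; push_cast; ring
  have h2 : ((m / 3 : ℕ) : ℝ) ≤ (m : ℝ) / 3 := Nat.cast_div_le
  linarith

theorem rpow_aux3 {q : ℝ} (hq : 1 ≤ q) {n m : ℕ} (hm : Even m) (h : 100 * m ≤ 896 * n) :
    q ^ (m / 2) * (q ^ (m / 2) * q ^ (4 * n + 1 - m / 2)) ≤ q ^ (4 * n + 1) * (q ^ m * q ^ (-(m : ℝ) / 6)) := by
  obtain ⟨r, hr⟩ := hm
  have hq0 : 0 < q := by linarith
  have e1 : m / 2 = r := by omega
  have h1 : (m : ℝ) = r + r := by rw [hr]; push_cast; ring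
  rw [e1]
  simp only [← Real.rpow_natCast, ← Real.rpow_add hq0]
  refine Real.rpow_le_rpow_of_exponent_le hq ?_
  have hr0 : (0 : ℝ) ≤ r := Nat.cast_nonneg r
  rcases le_or_gt r (4 * n + 1) with h2 | h2
  · rw [Nat.cast_sub h2]
    push_cast
    linarith
  · rw [Nat.sub_eq_zero_of_le h2.le]
    have h3 : (100 : ℝ) * m ≤ 896 * n := by exact_mod_cast h
    have h4 : (0 : ℝ) ≤ n := Nat.cast_nonneg n
    push_cast
    linarith

theorem half_part {q : ℝ} (hq : 1 ≤ q) {n m : ℕ} (hm : Even m) (h : 100 * m ≤ 896 * n) :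
    q ^ (m / 2) * (q ^ (10 * n + 2) * (q ^ (m / 2) + 1) +
        2 * q ^ (6 * n + 1) * q ^ (m / 2) * q ^ (4 * n + 1 - m / 2)) ≤
      q ^ (10 * n + 2) * q ^ m * (1 + 3 * q ^ (-(m : ℝ) / 6)) := by
  have hq0 : 0 < q := by linarith
  have a1 := rpow_aux hq hm
  have a3 := rpow_aux3 hq hm h
  have e2 : q ^ (m / 2) * q ^ (m / 2) = q ^ m := by
    rw [← pow_add]
    congr 1
    obtain ⟨r, hr⟩ := hm
    omega
  have e3 : q ^ (10 * n + 2) = q ^ (6 * n + 1) * q ^ (4 * n + 1) := by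
    rw [← pow_add]; congr 1; ring
  have b1 : q ^ (10 * n + 2) * q ^ (m / 2) ≤ q ^ (10 * n + 2) * (q ^ m * q ^ (-(m : ℝ) / 6)) :=
    mul_le_mul_of_nonneg_left a1 (by positivity)
  have b3 : q ^ (6 * n + 1) * (q ^ (m / 2) * (q ^ (m / 2) * q ^ (4 * n + 1 - m / 2))) ≤
      q ^ (6 * n + 1) * (q ^ (4 * n + 1) * (q ^ m * q ^ (-(m : ℝ) / 6))) :=
    mul_le_mul_of_nonneg_left a3 (by positivity)
  calc q ^ (m / 2) * (q ^ (10 * n + 2) * (q ^ (m / 2) + 1) +
        2 * q ^ (6 * n + 1) * q ^ (m / 2) * q ^ (4 * n + 1 - m / 2))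
      = q ^ (10 * n + 2) * (q ^ (m / 2) * q ^ (m / 2)) + q ^ (10 * n + 2) * q ^ (m / 2) +
        2 * (q ^ (6 * n + 1) * (q ^ (m / 2) * (q ^ (m / 2) * q ^ (4 * n + 1 - m / 2)))) := by ring
    _ ≤ q ^ (10 * n + 2) * q ^ m + q ^ (10 * n + 2) * (q ^ m * q ^ (-(m : ℝ) / 6)) +
        2 * (q ^ (6 * n + 1) * (q ^ (4 * n + 1) * (q ^ m * q ^ (-(m : ℝ) / 6)))) := by
        rw [e2]; linarith
    _ = q ^ (10 * n + 2) * q ^ m * (1 + 3 * q ^ (-(m : ℝ) / 6)) := by
        rw [e3]; ring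

theorem mulShift_ne_one {F : Type} [Field F] {ψ : AddChar F ℂ} (hψ : ψ 1 ≠ 1) {c : F} (hc : c ≠ 0) :
    AddChar.mulShift ψ c ≠ 1 := by
  intro h
  apply hψ
  have h1 : AddChar.mulShift ψ c c⁻¹ = 1 := by rw [h]; simp
  rwa [AddChar.mulShift_apply, mul_inv_cancel₀ hc] at h1

/-- The final collection. -/
theorem collect {N X M n' C1 T1 T2 T3 T4 TT' : ℝ} (hM : 1 ≤ M) (hN : 0 ≤ N * X) (hn : 0 ≤ n')
    {E : ℝ} (hE : 0 ≤ E) (hC1 : 0 ≤ C1)
    (h0 : TT' ≤ T1 + T2 + T3 + T4) (h1 : T1 ≤ N * X * (C1 * M ^ 2 * n')) (h2 : T2 ≤ N * X * (1 + 3 * E))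
    (h3 : T3 ≤ N * X * (20 * M * E)) (h4 : T4 ≤ N * X * (20 * E)) :
    TT' ≤ N * X * (1 + (43 + C1) * M * E + (43 + C1) * M ^ 2 * n') := by
  have e1 : N * X * E ≤ N * X * (M * E) := by
    refine mul_le_mul_of_nonneg_left ?_ hN
    nlinarith
  have e2 : 0 ≤ N * X * (M ^ 2 * n') := by positivity
  have e3 : 0 ≤ N * X * (C1 * M * E) := by
    have : 0 ≤ M := by linarith
    positivity
  nlinarith

theorem avg_even (F : Type) [Field F] [Fintype F] (h2 : (2 : F) ≠ 0) (h3 : (3 : F) ≠ 0) :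
    ∃ C : ℝ, 0 < C ∧ ∀ n m : ℕ, 1 ≤ n → Even m → 2 ≤ m → 100 * m ≤ 896 * n →
      ∀ (L : Type) [Field L] [Fintype L] [Algebra F L], Fintype.card L = Fintype.card F ^ m →
      ((∑ A ∈ PN F (4 * n + 1), ∑ B ∈ PN F (6 * n + 1), TT L n A B : ℤ) : ℝ) ≤
        (Fintype.card F : ℝ) ^ (10 * n + 2) * (Fintype.card F : ℝ) ^ m *
          (1 + C * m * (Fintype.card F : ℝ) ^ (-(m : ℝ) / 6) +
            C * (m : ℝ) ^ 2 * (Fintype.card F : ℝ) ^ (-(n : ℝ) / 50)) := by
  classical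
  obtain ⟨C1, hC1, hXS⟩ := XS_bound F h2 h3
  obtain ⟨ψ, hψ⟩ : ∃ ψ : AddChar F ℂ, ψ 1 ≠ 1 := by
    exact AddChar.exists_apply_ne_zero.2 one_ne_zero
  have hψ1 : ψ ≠ 1 := by
    intro h
    exact hψ (by rw [h]; simp)
  set q : ℝ := (Fintype.card F : ℝ) with hqdef
  have hq1 : 1 ≤ q := by
    rw [hqdef]
    exact_mod_cast Fintype.card_pos
  have hq0 : 0 < q := by linarith
  refine ⟨43 + q * C1, by positivity, ?_⟩
  intro n m hn hm hm2 hmn L _ _ _ hL
  have h2L : (2 : L) ≠ 0 := by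
    have h : (algebraMap F L) 2 ≠ 0 := (map_ne_zero (algebraMap F L)).2 h2
    rwa [map_ofNat] at h
  have hsq : Real.sqrt (Fintype.card L) = q ^ (m / 2) := by
    rw [hL]
    push_cast
    rw [← hqdef, Real.sqrt_eq_iff_mul_self_eq (by positivity) (by positivity), ← pow_add]
    congr 1
    obtain ⟨r, hr⟩ := hm
    omega
  have hcub : ∀ a b : L, ((cub L a b : ℤ) : ℝ) ≤ 20 * q ^ (m / 2) := by
    intro a b
    have := cub_bound h2L a b
    rw [hsq] at this
    exact le_trans (le_abs_self _) this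
  set N : ℝ := q ^ (10 * n + 2) with hN
  have hN0 : 0 < N := by positivity
  set G : L → ℝ := fun t => ((∑ A ∈ PN F (4 * n + 1), ∑ B ∈ PN F (6 * n + 1),
    cub L (aeval t A) (aeval t B) : ℤ) : ℝ) with hG
  set H : ℝ := N * (q ^ (m / 2) + 1) + 2 * q ^ (6 * n + 1) * q ^ (m / 2) * q ^ (4 * n + 1 - m / 2) with hH
  have hfin : ∀ t : L, IsIntegral F t := fun t => Algebra.IsIntegral.isIntegral t
  have hHt : ∀ t : L, 2 * (minpoly F t).natDegree = m → G t ≤ H := by
    intro t ht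
    have e : (minpoly F t).natDegree = m / 2 := by omega
    have := half_avg (F := F) (L := L) h2 h3 (n := n) (minpoly.monic (hfin t))
      (minpoly.irreducible (hfin t)) (minpoly.aeval F t) (by rw [ht]; exact hL) (by omega)
    rw [e] at this
    exact this
  have hSt : ∀ t : L, 3 * (minpoly F t).natDegree ≤ m → G t ≤ N * (20 * q ^ (m / 2)) := by
    intro t _
    exact double_sum_le F n _ _ (fun A B => hcub _ _)
  have hH0 : 0 ≤ H := by positivity
  have hS0 : 0 ≤ N * (20 * q ^ (m / 2)) := by positivity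
  have hlast : ((∑ A ∈ PN F (4 * n + 1), ∑ B ∈ PN F (6 * n + 1),
        cub L (algebraMap F L (A.coeff (4 * n))) (algebraMap F L (B.coeff (6 * n))) : ℤ) : ℝ) ≤
        N * (20 * q ^ (m / 2)) := double_sum_le F n _ _ (fun A B => hcub _ _)
  have hM1 : (1 : ℝ) ≤ m := by exact_mod_cast (by omega : 1 ≤ m)
  have key : ∃ P : F[X] → ℝ, (∀ v, 0 ≤ P v) ∧
      (∀ t : L, (minpoly F t).natDegree = m → G t ≤ P (minpoly F t)) ∧
      (m : ℝ) * ∑ v ∈ (MN F m).filter (fun v => Irreducible v), P v ≤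
        N * q ^ m * (q * C1 * (m : ℝ) ^ 2 * q ^ (-(n : ℝ) / 50)) := by
    rcases le_or_gt m (6 * n + 1) with hc | hc
    · refine ⟨fun _ => 0, fun _ => le_rfl, ?_, ?_⟩
      · intro t ht
        have := prim_zero (F := F) (L := L) h2 (n := n) (minpoly.monic (hfin t))
          (minpoly.irreducible (hfin t)) (minpoly.aeval F t) (by rw [ht]; exact hL) (by omega)
        simp only [hG]
        rw [this]
        simp
      · simp only [Finset.sum_const_zero, mul_zero]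
        positivity
    · obtain ⟨a, ha⟩ : ∃ a, m = 6 * n + 1 + a := ⟨m - (6 * n + 1), by omega⟩
      have ha1 : 1 ≤ a := by omega
      have ha2 : 100 * a + 100 ≤ 296 * n := by omega
      refine ⟨fun v => N * q ^ (-((6 * n + 1 + a : ℝ) / 2)) *
        ∑ c ∈ (Finset.univ : Finset F).erase 0, ∑ D ∈ Finset.range a,
          ‖XS (AddChar.mulShift ψ (c⁻¹ ^ 2)) (2 * n + a) D v‖, ?_, ?_, ?_⟩
      · intro v
        positivity
      · intro t ht
        have hmem : minpoly F t ∈ MN F (6 * n + 1 + a) := by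
          rw [mem_MN]
          exact ⟨minpoly.monic (hfin t), by rw [ht, ha]⟩
        have := prim_avg (L := L) ψ hψ1 h2 ha1 (by rw [← ha]; exact hm) hmem
          (minpoly.irreducible (hfin t)) (minpoly.aeval F t) (by rw [← ha]; exact hL)
        exact le_trans (le_abs_self _) this
      · rw [← Finset.mul_sum]
        have hswap : ∑ v ∈ (MN F m).filter (fun v => Irreducible v),
            ∑ c ∈ (Finset.univ : Finset F).erase 0, ∑ D ∈ Finset.range a,
              ‖XS (AddChar.mulShift ψ (c⁻¹ ^ 2)) (2 * n + a) D v‖ =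
            ∑ c ∈ (Finset.univ : Finset F).erase 0, ∑ D ∈ Finset.range a,
            ∑ v ∈ (MN F m).filter (fun v => Irreducible v),
              ‖XS (AddChar.mulShift ψ (c⁻¹ ^ 2)) (2 * n + a) D v‖ := by
          rw [Finset.sum_comm]
          refine Finset.sum_congr rfl fun c _ => ?_
          rw [Finset.sum_comm]
        set K : ℝ := C1 * q ^ (3 * (6 * n + 1 + a : ℝ) / 2 - n / 50) with hK
        have hbd : ∑ c ∈ (Finset.univ : Finset F).erase 0, ∑ D ∈ Finset.range a,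
            ∑ v ∈ (MN F m).filter (fun v => Irreducible v),
              ‖XS (AddChar.mulShift ψ (c⁻¹ ^ 2)) (2 * n + a) D v‖ ≤ q * (a * K) := by
          calc ∑ c ∈ (Finset.univ : Finset F).erase 0, ∑ D ∈ Finset.range a,
            ∑ v ∈ (MN F m).filter (fun v => Irreducible v),
              ‖XS (AddChar.mulShift ψ (c⁻¹ ^ 2)) (2 * n + a) D v‖
              ≤ ∑ c ∈ (Finset.univ : Finset F).erase 0, ∑ D ∈ Finset.range a, K := by
                refine Finset.sum_le_sum fun c hc => Finset.sum_le_sum fun D hD => ?_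
                have hc0 : c⁻¹ ^ 2 ≠ 0 := pow_ne_zero _ (inv_ne_zero (Finset.ne_of_mem_erase hc))
                have := hXS (AddChar.mulShift ψ (c⁻¹ ^ 2)) (mulShift_ne_one hψ hc0) n a D
                  (Finset.mem_range.1 hD) ha2
                rw [ha]
                exact this
            _ = ((Finset.univ : Finset F).erase 0).card * (a * K) := by
                simp only [Finset.sum_const, nsmul_eq_mul, Finset.card_range]
            _ ≤ q * (a * K) := by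
                have hK0 : 0 ≤ K := by positivity
                refine mul_le_mul_of_nonneg_right ?_ (by positivity)
                rw [hqdef]
                exact_mod_cast (Finset.card_erase_le).trans (le_of_eq (Finset.card_univ))
        rw [hswap]
        have hmr : (m : ℝ) = 6 * n + 1 + a := by rw [ha]; push_cast; ring
        have ham : (a : ℝ) ≤ m := by exact_mod_cast (by omega : a ≤ m)
        have e4 : q ^ (-((6 * n + 1 + a : ℝ) / 2)) * q ^ (3 * (6 * n + 1 + a : ℝ) / 2 - n / 50) =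
            q ^ m * q ^ (-(n : ℝ) / 50) := by
          rw [← Real.rpow_natCast q m, ← Real.rpow_add hq0, ← Real.rpow_add hq0]
          congr 1
          rw [hmr]
          ring
        have e5 : (0 : ℝ) ≤ N * q ^ (-((6 * n + 1 + a : ℝ) / 2)) := by positivity
        calc (m : ℝ) * (N * q ^ (-((6 * n + 1 + a : ℝ) / 2)) *
              ∑ c ∈ (Finset.univ : Finset F).erase 0, ∑ D ∈ Finset.range a,
            ∑ v ∈ (MN F m).filter (fun v => Irreducible v),
              ‖XS (AddChar.mulShift ψ (c⁻¹ ^ 2)) (2 * n + a) D v‖)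
            ≤ (m : ℝ) * (N * q ^ (-((6 * n + 1 + a : ℝ) / 2)) * (q * (a * K))) := by
              refine mul_le_mul_of_nonneg_left ?_ (by linarith)
              exact mul_le_mul_of_nonneg_left hbd e5
          _ = N * (q ^ (-((6 * n + 1 + a : ℝ) / 2)) * q ^ (3 * (6 * n + 1 + a : ℝ) / 2 - n / 50)) *
              (q * C1 * (m * a)) := by rw [hK]; ring
          _ = N * (q ^ m * q ^ (-(n : ℝ) / 50)) * (q * C1 * (m * a)) := by rw [e4]
          _ ≤ N * (q ^ m * q ^ (-(n : ℝ) / 50)) * (q * C1 * (m * m)) := by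
              refine mul_le_mul_of_nonneg_left ?_ (by positivity)
              refine mul_le_mul_of_nonneg_left ?_ (by positivity)
              exact mul_le_mul_of_nonneg_left ham (by linarith)
          _ = N * q ^ m * (q * C1 * (m : ℝ) ^ 2 * q ^ (-(n : ℝ) / 50)) := by ring
  obtain ⟨P, hP0, hPt, hPs⟩ := key
  have hdeg := sum_by_degree (F := F) (L := L) hL hm hm2 G P H (N * (20 * q ^ (m / 2))) hPt hP0
    hHt hH0 hSt hS0
  rw [← hqdef] at hdeg
  have hsplit : ((∑ A ∈ PN F (4 * n + 1), ∑ B ∈ PN F (6 * n + 1), TT L n A B : ℤ) : ℝ) =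
      ∑ t : L, G t + ((∑ A ∈ PN F (4 * n + 1), ∑ B ∈ PN F (6 * n + 1),
        cub L (algebraMap F L (A.coeff (4 * n))) (algebraMap F L (B.coeff (6 * n))) : ℤ) : ℝ) := by
    rw [TT_sum_split]
    simp only [hG]
    push_cast
    ring
  rw [hsplit]
  have hT2 := half_part (q := q) hq1 hm hmn
  have hT3 : (m : ℝ) * q ^ (m / 3) * (N * (20 * q ^ (m / 2))) ≤ N * q ^ m * (20 * m * q ^ (-(m : ℝ) / 6)) := by
    have := rpow_aux2 (q := q) hq1 hm
    calc (m : ℝ) * q ^ (m / 3) * (N * (20 * q ^ (m / 2))) = (20 * m * N) * (q ^ (m / 3) * q ^ (m / 2)) := by ring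
      _ ≤ (20 * m * N) * (q ^ m * q ^ (-(m : ℝ) / 6)) :=
          mul_le_mul_of_nonneg_left this (by positivity)
      _ = _ := by ring
  have hT4 : N * (20 * q ^ (m / 2)) ≤ N * q ^ m * (20 * q ^ (-(m : ℝ) / 6)) := by
    have := rpow_aux (q := q) hq1 hm
    calc N * (20 * q ^ (m / 2)) = (20 * N) * q ^ (m / 2) := by ring
      _ ≤ (20 * N) * (q ^ m * q ^ (-(m : ℝ) / 6)) := mul_le_mul_of_nonneg_left this (by positivity)
      _ = _ := by ring
  have hfinal := collect (N := N) (X := q ^ m) (M := (m : ℝ)) (n' := q ^ (-(n : ℝ) / 50))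
    (C1 := q * C1) (E := q ^ (-(m : ℝ) / 6))
    (T1 := (m : ℝ) * ∑ v ∈ (MN F m).filter (fun v => Irreducible v), P v)
    (T2 := q ^ (m / 2) * H) (T3 := (m : ℝ) * q ^ (m / 3) * (N * (20 * q ^ (m / 2))))
    (T4 := ((∑ A ∈ PN F (4 * n + 1), ∑ B ∈ PN F (6 * n + 1),
        cub L (algebraMap F L (A.coeff (4 * n))) (algebraMap F L (B.coeff (6 * n))) : ℤ) : ℝ))
    (TT' := ∑ t : L, G t + ((∑ A ∈ PN F (4 * n + 1), ∑ B ∈ PN F (6 * n + 1),
        cub L (algebraMap F L (A.coeff (4 * n))) (algebraMap F L (B.coeff (6 * n))) : ℤ) : ℝ))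
    hM1 (by positivity) (by positivity) (by positivity) (by positivity) (by linarith) hPs hT2 hT3
    (hlast.trans hT4)
  exact hfinal

end Pool.Agent.Helper31.AR
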