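import Pool.Agent.Helper31.AR.Split
import Pool.Agent.Helper31.AR.X0Bound
import Pool.Agent.Helper31.AR.X1Bound
import Pool.Agent.Helper31.AR.DivisorBound

/-!
# AR-57: the bound for `XS` on average over the irreducible `v` of degree `m ≤ (9 - ε) n` (general version of AR-47)

Same proof as AR-47 (`XSBound.lean`) with `ε` instead of `0.04`. Let `m = 6 n + 1 + a`, `0 < ε ≤ 1 / 10`, `a + 1 ≤ (3 - ε) n` (so `a ≤ 4 n`, `n ≥ 1`).
`∑_v ‖XS‖ ≤ (a + 1) ^ 3 (T + 3) q ^ (m + 2 n + 1 + 3 a / 4) + 2 (a + 1) ^ 2 T ^ 2 q ^ (m / 2) (q ^ (3 a) + q ^ (3 n + 2 a))`, `T = dmax F (12 n)`.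
Exponents compared with `3 m / 2`: `3 m / 2 - (m + 2 n + 1 + 3 a / 4) = n - 1 / 2 - a / 4 ≥ n / 4 - 1 / 4`;
`3 m / 2 - (m / 2 + 3 a) = 6 n + 1 - 2 a ≥ 2 ε n`; `3 m / 2 - (m / 2 + 3 n + 2 a) = 3 n + 1 - a ≥ ε n`. So everything is at most
`C' (a + 1) ^ 3 (T + 3) ^ 2 q ^ (3 m / 2 - ε n)`, and with `dmax_bound` (exponent so small that `T ^ 2 ≤ C q ^ (ε n / 4)`) and
`(a + 1) ^ 3 ≤ (3 n) ^ 3 ≤ C q ^ (ε n / 4)` the claim follows.
-/

set_option autoImplicit false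

open Polynomial

namespace Pool.Agent.Helper31.AR

variable {F : Type} [Field F] [Fintype F]

open Classical in
private theorem xsbe_X1 (ψ : AddChar F ℂ) (hψ : ψ ≠ 1) (h2 : (2 : F) ≠ 0) {n a D : ℕ}
    (hD : D < a) {ε : ℝ} (hε : 0 < ε) (hε1 : ε ≤ 1 / 10) (hna : (a : ℝ) + 1 ≤ (3 - ε) * n) :
    ∑ v ∈ (MN F (6 * n + 1 + a)).filter (fun v => Irreducible v), ‖X1 ψ n a D v‖ ≤
      3 * ((a : ℝ) + 1) ^ 2 * (dmax F (12 * n) : ℝ) ^ 2 *
        (Fintype.card F : ℝ) ^ (3 * (6 * n + 1 + a : ℝ) / 2 - ε * n) := by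
  have hq1 : (1 : ℝ) ≤ (Fintype.card F : ℝ) := by
    exact_mod_cast (Fintype.one_lt_card (α := F)).le
  have hq0 : (0 : ℝ) < (Fintype.card F : ℝ) := by linarith
  have ha0 : (0 : ℝ) ≤ (a : ℝ) := Nat.cast_nonneg _
  have hn0 : (0 : ℝ) ≤ (n : ℝ) := Nat.cast_nonneg _
  have hp0 : 0 ≤ ε * n := mul_nonneg hε.le hn0
  have hp1 : ε * n ≤ n / 10 := by
    have := mul_le_mul_of_nonneg_right hε1 hn0
    linarith
  have hna' : (a : ℝ) + 1 ≤ 3 * n - ε * n := by linarith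
  have hnat : a + 1 ≤ 3 * n := by
    have : ((a + 1 : ℕ) : ℝ) ≤ ((3 * n : ℕ) : ℝ) := by
      push_cast
      linarith
    exact_mod_cast this
  have hX := X1_bound ψ hψ h2 (n := n) (a := a) (D := D) (by omega) hD
  set q : ℝ := (Fintype.card F : ℝ) with hq
  set T : ℝ := (dmax F (12 * n) : ℝ) with hT
  have hT0 : 0 ≤ T := Nat.cast_nonneg _
  set E : ℝ := 3 * (6 * n + 1 + a : ℝ) / 2 - ε * n with hE
  have hle : ∑ v ∈ (MN F (6 * n + 1 + a)).filter (fun v => Irreducible v), ‖X1 ψ n a D v‖ ≤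
      ∑ v ∈ MN F (6 * n + 1 + a), ‖X1 ψ n a D v‖ :=
    Finset.sum_le_sum_of_subset_of_nonneg (Finset.filter_subset _ _) (fun _ _ _ => norm_nonneg _)
  refine hle.trans ?_
  have hcs := sq_sum_le_card_mul_sum_sq (s := MN F (6 * n + 1 + a))
    (f := fun v => ‖X1 ψ n a D v‖)
  rw [card_MN] at hcs
  push_cast at hcs
  have e1 : q ^ (6 * a) ≤ q ^ (2 * (6 * n + 1 + a : ℝ) - 2 * (ε * n)) := by
    rw [← Real.rpow_natCast]
    refine Real.rpow_le_rpow_of_exponent_le hq1 ?_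
    push_cast
    linarith
  have e2 : q ^ (6 * n + 4 * a) ≤ q ^ (2 * (6 * n + 1 + a : ℝ) - 2 * (ε * n)) := by
    rw [← Real.rpow_natCast]
    refine Real.rpow_le_rpow_of_exponent_le hq1 ?_
    push_cast
    linarith
  have e3 : q ^ (6 * n + 1 + a) = q ^ (6 * n + 1 + a : ℝ) := by
    rw [← Real.rpow_natCast]
    push_cast
    ring_nf
  have hfin : (∑ v ∈ MN F (6 * n + 1 + a), ‖X1 ψ n a D v‖) ^ 2 ≤
      (3 * ((a : ℝ) + 1) ^ 2 * T ^ 2 * q ^ E) ^ 2 := by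
    calc (∑ v ∈ MN F (6 * n + 1 + a), ‖X1 ψ n a D v‖) ^ 2
        ≤ q ^ (6 * n + 1 + a) * ∑ v ∈ MN F (6 * n + 1 + a), ‖X1 ψ n a D v‖ ^ 2 := hcs
      _ ≤ q ^ (6 * n + 1 + a) * (4 * ((a : ℝ) + 1) ^ 4 * T ^ 4 *
          (q ^ (6 * a) + q ^ (6 * n + 4 * a))) :=
          mul_le_mul_of_nonneg_left hX (by positivity)
      _ ≤ q ^ (6 * n + 1 + a : ℝ) * (4 * ((a : ℝ) + 1) ^ 4 * T ^ 4 *
          (2 * q ^ (2 * (6 * n + 1 + a : ℝ) - 2 * (ε * n)))) := by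
          rw [e3]
          refine mul_le_mul_of_nonneg_left ?_ (by positivity)
          refine mul_le_mul_of_nonneg_left ?_ (by positivity)
          linarith
      _ = 8 * (((a : ℝ) + 1) ^ 4 * T ^ 4) * (q ^ (6 * n + 1 + a : ℝ) *
          q ^ (2 * (6 * n + 1 + a : ℝ) - 2 * (ε * n))) := by ring
      _ = 8 * (((a : ℝ) + 1) ^ 4 * T ^ 4) * (q ^ E * q ^ E) := by
          rw [← Real.rpow_add hq0, ← Real.rpow_add hq0]
          congr 2
          rw [hE]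
          ring
      _ ≤ 9 * (((a : ℝ) + 1) ^ 4 * T ^ 4) * (q ^ E * q ^ E) := by
          refine mul_le_mul_of_nonneg_right ?_ (by positivity)
          refine mul_le_mul_of_nonneg_right (by norm_num) (by positivity)
      _ = (3 * ((a : ℝ) + 1) ^ 2 * T ^ 2 * q ^ E) ^ 2 := by ring
  exact le_of_sq_le_sq hfin (by positivity)

open Classical in
theorem XS_bound_eps (F : Type) [Field F] [Fintype F] (h2 : (2 : F) ≠ 0) (h3 : (3 : F) ≠ 0)
    (ε : ℝ) (hε : 0 < ε) (hε1 : ε ≤ 1 / 10) :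
    ∃ C : ℝ, 0 < C ∧ ∀ ψ : AddChar F ℂ, ψ ≠ 1 → ∀ n a D : ℕ, D < a →
      (a : ℝ) + 1 ≤ (3 - ε) * n →
      ∑ v ∈ (MN F (6 * n + 1 + a)).filter (fun v => Irreducible v), ‖XS ψ (2 * n + a) D v‖ ≤
        C * (Fintype.card F : ℝ) ^ (3 * (6 * n + 1 + a : ℝ) / 2 - ε * n / 2) := by
  have hq1' : 1 < (Fintype.card F : ℝ) := by exact_mod_cast (Fintype.one_lt_card (α := F))
  have hq1 : (1 : ℝ) ≤ (Fintype.card F : ℝ) := hq1'.le
  have hq0 : (0 : ℝ) < (Fintype.card F : ℝ) := by linarith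
  obtain ⟨C1, hC1, hT⟩ := dmax_bound F (ε / 96) (by positivity)
  obtain ⟨C2, hC2, hP⟩ := pow_bound 3
    (Real.one_lt_rpow hq1' (show (0 : ℝ) < ε / 4 by positivity))
  refine ⟨108 * C2 * (C1 + 3) ^ 2, by positivity, ?_⟩
  intro ψ hψ n a D hD hna
  have ha0 : (0 : ℝ) ≤ (a : ℝ) := Nat.cast_nonneg _
  have hn0 : (0 : ℝ) ≤ (n : ℝ) := Nat.cast_nonneg _
  have hp0 : 0 ≤ ε * n := mul_nonneg hε.le hn0
  have hp1 : ε * n ≤ n / 10 := by
    have := mul_le_mul_of_nonneg_right hε1 hn0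
    linarith
  have hna' : (a : ℝ) + 1 ≤ 3 * n - ε * n := by linarith
  have hnat : a + 1 ≤ 3 * n := by
    have : ((a + 1 : ℕ) : ℝ) ≤ ((3 * n : ℕ) : ℝ) := by
      push_cast
      linarith
    exact_mod_cast this
  have hna2R : 1 / 2 + (a : ℝ) / 4 + ε * n ≤ n := by
    rcases Nat.lt_or_ge n 2 with h | h
    · have hn1 : n = 1 := by omega
      subst hn1
      have ha1 : a ≤ 1 := by
        by_contra hcon
        have h9 : (2 : ℝ) ≤ (a : ℝ) := by exact_mod_cast (by omega : 2 ≤ a)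
        push_cast at hna'
        linarith
      have ha1R : (a : ℝ) ≤ 1 := by exact_mod_cast ha1
      push_cast at hp1 ⊢
      linarith
    · have h9 : (2 : ℝ) ≤ (n : ℝ) := by exact_mod_cast h
      linarith
  have hX0 := X0_bound ψ hψ h2 (n := n) (a := a) (D := D) (by omega) hD
  have hX1 := xsbe_X1 ψ hψ h2 hD hε hε1 hna
  have hTn := hT (12 * n)
  have hPn := hP n
  have hsum : ∑ v ∈ (MN F (6 * n + 1 + a)).filter (fun v => Irreducible v),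
      ‖XS ψ (2 * n + a) D v‖ ≤
      ∑ v ∈ (MN F (6 * n + 1 + a)).filter (fun v => Irreducible v), ‖X0 ψ n a D v‖ +
      ∑ v ∈ (MN F (6 * n + 1 + a)).filter (fun v => Irreducible v), ‖X1 ψ n a D v‖ := by
    rw [← Finset.sum_add_distrib]
    refine Finset.sum_le_sum fun v hv => ?_
    rw [Finset.mem_filter] at hv
    rw [XS_eq_X0_add_X1 ψ hψ h3 hD hv.1 hv.2]
    exact norm_add_le _ _
  refine hsum.trans ?_
  set q : ℝ := (Fintype.card F : ℝ) with hq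
  set T : ℝ := (dmax F (12 * n) : ℝ) with hTdef
  have hT0 : 0 ≤ T := Nat.cast_nonneg _
  set E : ℝ := 3 * (6 * n + 1 + a : ℝ) / 2 - ε * n with hE
  have hqE : 0 < q ^ E := Real.rpow_pos_of_pos hq0 _
  -- the first part
  have h0 : q ^ ((6 * n + 1 + a : ℝ) + 2 * n + 1 + 3 * a / 4) ≤ q ^ E := by
    refine Real.rpow_le_rpow_of_exponent_le hq1 ?_
    rw [hE]
    linarith
  have hA : 1 ≤ (a : ℝ) + 1 := by linarith
  have hA2 : ((a : ℝ) + 1) ^ 2 ≤ ((a : ℝ) + 1) ^ 3 := pow_le_pow_right₀ hA (by norm_num)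
  have hboth : ((a : ℝ) + 1) ^ 3 * (T + 3) * q ^ ((6 * n + 1 + a : ℝ) + 2 * n + 1 + 3 * a / 4) +
      3 * ((a : ℝ) + 1) ^ 2 * T ^ 2 * q ^ E ≤
      4 * ((a : ℝ) + 1) ^ 3 * (T + 3) ^ 2 * q ^ E := by
    have k1 : ((a : ℝ) + 1) ^ 3 * (T + 3) * q ^ ((6 * n + 1 + a : ℝ) + 2 * n + 1 + 3 * a / 4) ≤
        ((a : ℝ) + 1) ^ 3 * (T + 3) ^ 2 * q ^ E := by
      refine mul_le_mul ?_ h0 (by positivity) (by positivity)
      refine mul_le_mul_of_nonneg_left ?_ (by positivity)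
      nlinarith
    have k2 : 3 * ((a : ℝ) + 1) ^ 2 * T ^ 2 * q ^ E ≤
        3 * ((a : ℝ) + 1) ^ 3 * (T + 3) ^ 2 * q ^ E := by
      refine mul_le_mul_of_nonneg_right ?_ hqE.le
      refine mul_le_mul ?_ ?_ (by positivity) (by positivity)
      · linarith
      · nlinarith
    linarith
  refine (add_le_add hX0 hX1).trans (hboth.trans ?_)
  -- the divisor bound and the polynomial bound
  have hqn : 1 ≤ q ^ (ε * (n : ℝ) / 8) := Real.one_le_rpow hq1 (by positivity)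
  have hT3 : T + 3 ≤ (C1 + 3) * q ^ (ε * (n : ℝ) / 8) := by
    have h5 : q ^ (ε / 96 * ((12 * n : ℕ) : ℝ)) = q ^ (ε * (n : ℝ) / 8) := by
      congr 1
      push_cast
      ring
    rw [h5] at hTn
    nlinarith
  have hT4 : (T + 3) ^ 2 ≤ (C1 + 3) ^ 2 * q ^ (ε * (n : ℝ) / 4) := by
    calc (T + 3) ^ 2 ≤ ((C1 + 3) * q ^ (ε * (n : ℝ) / 8)) ^ 2 :=
          pow_le_pow_left₀ (by linarith) hT3 2
      _ = (C1 + 3) ^ 2 * (q ^ (ε * (n : ℝ) / 8) * q ^ (ε * (n : ℝ) / 8)) := by ring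
      _ = (C1 + 3) ^ 2 * q ^ (ε * (n : ℝ) / 4) := by
          rw [← Real.rpow_add hq0]
          congr 2
          ring
  have hA3 : ((a : ℝ) + 1) ^ 3 ≤ 27 * (C2 * q ^ (ε * (n : ℝ) / 4)) := by
    have h6 : (a : ℝ) + 1 ≤ 3 * ((n : ℝ) + 1) := by linarith
    have h7 : (q ^ (ε / 4)) ^ n = q ^ (ε * (n : ℝ) / 4) := by
      rw [← Real.rpow_natCast, ← Real.rpow_mul hq0.le]
      congr 1
      ring
    rw [h7] at hPn
    calc ((a : ℝ) + 1) ^ 3 ≤ (3 * ((n : ℝ) + 1)) ^ 3 := pow_le_pow_left₀ (by linarith) h6 3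
      _ = 27 * ((n : ℝ) + 1) ^ 3 := by ring
      _ ≤ 27 * (C2 * q ^ (ε * (n : ℝ) / 4)) := by linarith
  calc 4 * ((a : ℝ) + 1) ^ 3 * (T + 3) ^ 2 * q ^ E
      ≤ 4 * (27 * (C2 * q ^ (ε * (n : ℝ) / 4))) * ((C1 + 3) ^ 2 * q ^ (ε * (n : ℝ) / 4)) * q ^ E := by
        refine mul_le_mul_of_nonneg_right ?_ hqE.le
        refine mul_le_mul ?_ hT4 (by positivity) (by positivity)
        linarith
    _ = 108 * C2 * (C1 + 3) ^ 2 * (q ^ (ε * (n : ℝ) / 4) * q ^ (ε * (n : ℝ) / 4) * q ^ E) := by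
        ring
    _ = 108 * C2 * (C1 + 3) ^ 2 * q ^ (3 * (6 * n + 1 + a : ℝ) / 2 - ε * n / 2) := by
        rw [← Real.rpow_add hq0, ← Real.rpow_add hq0]
        congr 2
        rw [hE]
        ring

end Pool.Agent.Helper31.AR
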