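import Pool.Agent.Helper31.AR.FrobDefs

/-!
# AR-53: the number of the pairs `(a d ^ 4, b d ^ 6)`

If `A = a d ^ 4`, `B = b d ^ 6` with `deg A ≤ 4 n`, `deg B ≤ 6 n`: if `(A, B) = (0, 0)` take `a = b = 0`, `d = 0`; otherwise `a ≠ 0` or `b ≠ 0` (and `d ≠ 0`) and
`4 deg d ≤ 4 n` or `6 deg d ≤ 6 n`, so `d ∈ PN F (n + 1)`. So these pairs are in the image of `F × F × PN F (n + 1)`, of cardinality `q ^ (n + 3)`.
-/

set_option autoImplicit false

open Polynomial

namespace Pool.Agent.Helper31.AR

open Classical in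
theorem card_const_le {F : Type} [Field F] [Fintype F] (n : ℕ) :
    ((PN F (4 * n + 1) ×ˢ PN F (6 * n + 1)).filter (fun p => Const p.1 p.2)).card ≤
      Fintype.card F ^ (n + 3) := by
  have hsub : ((PN F (4 * n + 1) ×ˢ PN F (6 * n + 1)).filter (fun p => Const p.1 p.2)) ⊆
      ((Finset.univ : Finset F) ×ˢ (Finset.univ : Finset F) ×ˢ PN F (n + 1)).image
        (fun x : F × F × F[X] => (C x.1 * x.2.2 ^ 4, C x.2.1 * x.2.2 ^ 6)) := by
    rintro ⟨A, B⟩ hp
    rw [Finset.mem_filter, Finset.mem_product] at hp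
    obtain ⟨⟨hA, hB⟩, a, b, d, h1, h2⟩ := hp
    simp only at hA hB h1 h2
    rw [Finset.mem_image]
    by_cases hd : d ∈ PN F (n + 1)
    · exact ⟨(a, b, d), by simp [hd], by rw [h1, h2]⟩
    · rw [mem_PN_iff_natDegree (Nat.succ_pos n), not_lt] at hd
      rw [mem_PN_iff_natDegree (by omega)] at hA hB
      have ha : a = 0 := by
        by_contra ha
        rw [h1, natDegree_C_mul ha, natDegree_pow] at hA
        omega
      have hb : b = 0 := by
        by_contra hb
        rw [h2, natDegree_C_mul hb, natDegree_pow] at hB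
        omega
      refine ⟨(0, 0, 0), by simp [zero_mem_PN], ?_⟩
      rw [h1, h2, ha, hb]
      simp
  refine (Finset.card_le_card hsub).trans (Finset.card_image_le.trans ?_)
  rw [Finset.card_product, Finset.card_product, card_PN, Finset.card_univ]
  apply le_of_eq
  ring

end Pool.Agent.Helper31.AR
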