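import Pool.Agent.Helper31.AR.FrobDefs

/-!
# AR-52: the number of points and the character sums

`exists_field`: the extension of degree `m ≥ 1` of `F` (e.g. the subfield `{c : c ^ (q ^ m) = c}` of `AlgebraicClosure F`, which has `q ^ m`
elements: `X ^ (q ^ m) - X` is separable and splits; or `GaloisField`-like constructions; or `FiniteField.Extension` in Mathlib).

`card_points`: `L` with `card L = q ^ m` embeds over `F` into `AlgebraicClosure F` (`IsAlgClosed.lift`), with image `{c : RatOver F m c}`
(the image is contained in this set, `FiniteField.pow_card`, and both have `q ^ m` elements: the set consists of the roots of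
`X ^ (q ^ m) - X`). So `surf A B m` is in bijection with `{((t, x), y) ∈ L ^ 3 : y ^ 2 = x ^ 3 + A(t) x + B(t)}`, and for `z ∈ L` the number of `y ∈ L` with
`y ^ 2 = z` is `1 + chi L z` (`quadraticChar_card_sqrts`, characteristic `≠ 2`). So `(surf A B m).ncard = card L ^ 2 + ∑_t cub L (A(t)) (B(t))`;
similarly `(fibre a b m).ncard = card L + cub L a b`.
-/

set_option autoImplicit false

open Polynomial

namespace Pool.Agent.Helper31.AR

theorem exists_field (F : Type) [Field F] [Fintype F] (m : ℕ) (hm : 1 ≤ m) :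
    ∃ (L : Type) (_ : Field L) (_ : Fintype L) (_ : Algebra F L),
      Fintype.card L = Fintype.card F ^ m := by
  haveI : Fact (ringChar F).Prime := ⟨CharP.char_is_prime F (ringChar F)⟩
  haveI : NeZero m := ⟨by omega⟩
  haveI : Finite F := inferInstance
  letI : Fintype (FiniteField.Extension F (ringChar F) m) := Fintype.ofFinite _
  refine ⟨FiniteField.Extension F (ringChar F) m, inferInstance, inferInstance,
    inferInstance, ?_⟩
  have h := FiniteField.natCard_extension F (ringChar F) m
  rw [Nat.card_eq_fintype_card, Nat.card_eq_fintype_card] at h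
  exact h

private lemma ncard_sq {L : Type} [Field L] [Fintype L] (h2 : ringChar L ≠ 2) {ι : Type}
    [Fintype ι] (z : ι → L) :
    (({P : ι × L | P.2 ^ 2 = z P.1} : Set (ι × L)).ncard : ℤ) =
      (Fintype.card ι : ℤ) + ∑ i : ι, chi L (z i) := by
  classical
  have h1 : ({P : ι × L | P.2 ^ 2 = z P.1} : Set (ι × L)).ncard =
      ∑ i : ι, Nat.card {y : L // y ^ 2 = z i} := by
    rw [← Nat.card_sigma, ← Nat.card_coe_set_eq]
    exact Nat.card_congr (Equiv.subtypeProdEquivSigmaSubtype (fun i (y : L) => y ^ 2 = z i))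
  have h3 : ∀ i : ι, ((Nat.card {y : L // y ^ 2 = z i} : ℕ) : ℤ) = 1 + chi L (z i) := by
    intro i
    have h4 := quadraticChar_card_sqrts h2 (z i)
    have h5 : Nat.card {y : L // y ^ 2 = z i} = ({x : L | x ^ 2 = z i} : Set L).toFinset.card := by
      rw [Nat.card_eq_fintype_card, Set.toFinset_card]
      rfl
    rw [h5, h4, add_comm]
    unfold chi
    congr 2
  rw [h1]
  push_cast
  rw [Finset.sum_congr rfl fun i _ => h3 i, Finset.sum_add_distrib, Finset.sum_const,
    Finset.card_univ, nsmul_eq_mul, mul_one]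

theorem card_points {F : Type} [Field F] [Fintype F] (h2 : (2 : F) ≠ 0) {L : Type} [Field L]
    [Fintype L] [Algebra F L] {m : ℕ} (hm : 1 ≤ m) (hL : Fintype.card L = Fintype.card F ^ m)
    (n : ℕ) (A B : F[X]) :
    ((surf A B m).ncard : ℤ) + ((fibre (A.coeff (4 * n)) (B.coeff (6 * n)) m).ncard : ℤ) =
      (Fintype.card F : ℤ) ^ (2 * m) + (Fintype.card F : ℤ) ^ m + TT L n A B := by
  classical
  have hchar : ringChar L ≠ 2 := by
    intro h
    have h3 : (2 : L) = 0 := by
      have := ringChar.Nat.cast_ringChar (R := L)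
      rw [h] at this
      exact_mod_cast this
    apply h2
    apply (algebraMap F L).injective
    rw [map_ofNat, map_zero]
    exact h3
  haveI : Module.Finite F L := Module.Finite.of_finite
  haveI : Algebra.IsAlgebraic F L := inferInstance
  let j : L →ₐ[F] AlgebraicClosure F := IsAlgClosed.lift
  have hj : Function.Injective j := j.toRingHom.injective
  -- the image
  have hq : 1 < Fintype.card F ^ m := Nat.one_lt_pow (by omega) Fintype.one_lt_card
  have hrange : ∀ c : AlgebraicClosure F, RatOver F m c ↔ ∃ x : L, j x = c := by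
    have hsub : (Finset.univ.image j) ⊆
        (X ^ (Fintype.card F ^ m) - X : (AlgebraicClosure F)[X]).roots.toFinset := by
      intro c hc
      obtain ⟨x, -, rfl⟩ := Finset.mem_image.1 hc
      rw [Multiset.mem_toFinset, mem_roots (FiniteField.X_pow_card_sub_X_ne_zero _ hq)]
      rw [IsRoot.def, eval_sub, eval_pow, eval_X, ← map_pow, ← hL, FiniteField.pow_card, sub_self]
    have hcard : (X ^ (Fintype.card F ^ m) - X : (AlgebraicClosure F)[X]).roots.toFinset.card ≤
        (Finset.univ.image j).card := by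
      rw [Finset.card_image_of_injective _ hj, Finset.card_univ, hL]
      refine (Multiset.toFinset_card_le _).trans ((card_roots' _).trans ?_)
      rw [FiniteField.X_pow_card_sub_X_natDegree_eq _ hq]
    have heq := Finset.eq_of_subset_of_card_le hsub hcard
    intro c
    constructor
    · intro hc
      have h3 : c ∈ (X ^ (Fintype.card F ^ m) - X : (AlgebraicClosure F)[X]).roots.toFinset := by
        rw [Multiset.mem_toFinset, mem_roots (FiniteField.X_pow_card_sub_X_ne_zero _ hq),
          IsRoot.def, eval_sub, eval_pow, eval_X, sub_eq_zero]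
        exact hc
      rw [← heq] at h3
      obtain ⟨x, -, hx⟩ := Finset.mem_image.1 h3
      exact ⟨x, hx⟩
    · rintro ⟨x, rfl⟩
      change (j x) ^ (Fintype.card F ^ m) = j x
      rw [← map_pow, ← hL, FiniteField.pow_card]
  -- the surface
  have hsurf : surf A B m = (fun P : (L × L) × L => ((j P.1.1, j P.1.2), j P.2)) ''
      {P : (L × L) × L | P.2 ^ 2 = P.1.2 ^ 3 + aeval P.1.1 A * P.1.2 + aeval P.1.1 B} := by
    ext ⟨⟨t, x⟩, y⟩
    constructor
    · rintro ⟨ht, hx, hy, he⟩
      obtain ⟨t', rfl⟩ := (hrange t).1 ht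
      obtain ⟨x', rfl⟩ := (hrange x).1 hx
      obtain ⟨y', rfl⟩ := (hrange y).1 hy
      refine ⟨((t', x'), y'), ?_, rfl⟩
      apply hj
      have he' : (j y') ^ 2 = (j x') ^ 3 + aeval (j t') A * j x' + aeval (j t') B := he
      rw [aeval_algHom_apply, aeval_algHom_apply] at he'
      simp only [map_pow, map_add, map_mul]
      exact he'
    · rintro ⟨⟨⟨t', x'⟩, y'⟩, he, h⟩
      have h3 : j t' = t := congrArg (fun P => P.1.1) h
      have h4 : j x' = x := congrArg (fun P => P.1.2) h
      have h5 : j y' = y := congrArg (fun P => P.2) h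
      subst h3 h4 h5
      refine ⟨(hrange _).2 ⟨_, rfl⟩, (hrange _).2 ⟨_, rfl⟩, (hrange _).2 ⟨_, rfl⟩, ?_⟩
      have he' : y' ^ 2 = x' ^ 3 + aeval t' A * x' + aeval t' B := he
      change (j y') ^ 2 = (j x') ^ 3 + aeval (j t') A * j x' + aeval (j t') B
      rw [aeval_algHom_apply, aeval_algHom_apply, ← map_pow, he']
      simp only [map_pow, map_add, map_mul]
  have hsn : ((surf A B m).ncard : ℤ) = (Fintype.card L : ℤ) ^ 2 +
      ∑ t : L, cub L (aeval t A) (aeval t B) := by
    rw [hsurf, Set.ncard_image_of_injective]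
    · have h3 := ncard_sq hchar (fun P : L × L => P.2 ^ 3 + aeval P.1 A * P.2 + aeval P.1 B)
      rw [h3, Fintype.card_prod, Fintype.sum_prod_type]
      push_cast
      rw [sq]
      rfl
    · rintro ⟨⟨t, x⟩, y⟩ ⟨⟨t', x'⟩, y'⟩ h
      have h3 : j t = j t' := congrArg (fun P => P.1.1) h
      have h4 : j x = j x' := congrArg (fun P => P.1.2) h
      have h5 : j y = j y' := congrArg (fun P => P.2) h
      rw [hj h3, hj h4, hj h5]
  -- the fibre
  obtain ⟨a, ha⟩ : ∃ a, a = A.coeff (4 * n) := ⟨_, rfl⟩
  obtain ⟨b, hb⟩ : ∃ b, b = B.coeff (6 * n) := ⟨_, rfl⟩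
  have hfib : fibre a b m = (fun P : L × L => (j P.1, j P.2)) ''
      {P : L × L | P.2 ^ 2 = P.1 ^ 3 + algebraMap F L a * P.1 + algebraMap F L b} := by
    ext ⟨x, y⟩
    constructor
    · rintro ⟨hx, hy, he⟩
      obtain ⟨x', rfl⟩ := (hrange x).1 hx
      obtain ⟨y', rfl⟩ := (hrange y).1 hy
      refine ⟨(x', y'), ?_, rfl⟩
      apply hj
      have he' : (j y') ^ 2 = (j x') ^ 3 + algebraMap F (AlgebraicClosure F) a * j x' +
        algebraMap F (AlgebraicClosure F) b := he
      simp only [map_pow, map_add, map_mul, AlgHom.commutes]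
      exact he'
    · rintro ⟨⟨x', y'⟩, he, h⟩
      have h4 : j x' = x := congrArg (fun P => P.1) h
      have h5 : j y' = y := congrArg (fun P => P.2) h
      subst h4 h5
      refine ⟨(hrange _).2 ⟨_, rfl⟩, (hrange _).2 ⟨_, rfl⟩, ?_⟩
      have he' : y' ^ 2 = x' ^ 3 + algebraMap F L a * x' + algebraMap F L b := he
      change (j y') ^ 2 = (j x') ^ 3 + algebraMap F (AlgebraicClosure F) a * j x' +
        algebraMap F (AlgebraicClosure F) b
      rw [← map_pow, he']
      simp only [map_pow, map_add, map_mul, AlgHom.commutes]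
  have hfn : ((fibre a b m).ncard : ℤ) = (Fintype.card L : ℤ) +
      cub L (algebraMap F L a) (algebraMap F L b) := by
    rw [hfib, Set.ncard_image_of_injective]
    · have h3 := ncard_sq hchar
        (fun x : L => x ^ 3 + algebraMap F L a * x + algebraMap F L b)
      rw [h3]
      rfl
    · rintro ⟨x, y⟩ ⟨x', y'⟩ h
      have h4 : j x = j x' := congrArg (fun P => P.1) h
      have h5 : j y = j y' := congrArg (fun P => P.2) h
      rw [hj h4, hj h5]
  rw [← ha, ← hb, hsn, hfn, hL]
  unfold TT
  rw [← ha, ← hb]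
  push_cast
  ring

end Pool.Agent.Helper31.AR
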