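import Pool.Agent.Helper31.AR.Defs

/-!
# AR-33: the average vanishes for odd degrees

Let `ε ∈ F` be a nonsquare (`2 ≠ 0`). As `card L = q ^ m` with `m` odd, `ε` is a nonsquare in `L`: `ε ^ ((q ^ m - 1) / 2) =
(ε ^ ((q - 1) / 2)) ^ (1 + q + ... + q ^ (m - 1)) = (-1) ^ (odd number) = -1` (`q` odd, `m` odd). So `chi L ε = -1`.
For all `a, b ∈ L`: `cub L (ε ^ 2 a) (ε ^ 3 b) = ∑_x chi L (x ^ 3 + ε ^ 2 a x + ε ^ 3 b) = ∑_x chi L (ε ^ 3 (x ^ 3 + a x + b))`
(substitute `x = ε x'`) `= chi L (ε) ^ 3 cub L a b = - cub L a b`. The map `(A, B) ↦ (C (ε ^ 2) A, C (ε ^ 3) B)` is a permutation of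
`PN F (4 n + 1) × PN F (6 n + 1)` and `TT L n (C (ε ^ 2) A) (C (ε ^ 3) B) = - TT L n A B`. Hence the sum is `0`.
-/

set_option autoImplicit false

open Polynomial

namespace Pool.Agent.Helper31.AR

variable {F : Type} [Field F] [Fintype F] {L : Type} [Field L] [Fintype L] [Algebra F L]

private theorem sum_PN_mul (N : ℕ) {c : F} (hc : c ≠ 0) (f : F[X] → ℤ) :
    ∑ A ∈ PN F N, f (C c * A) = ∑ A ∈ PN F N, f A := by
  refine Finset.sum_nbij' (fun A => C c * A) (fun A => C c⁻¹ * A) ?_ ?_ ?_ ?_ ?_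
  · intro A hA
    rw [mem_PN] at hA ⊢
    rwa [degree_C_mul hc]
  · intro A hA
    rw [mem_PN] at hA ⊢
    rwa [degree_C_mul (inv_ne_zero hc)]
  · intro A _
    rw [← mul_assoc, ← C_mul, inv_mul_cancel₀ hc, C_1, one_mul]
  · intro A _
    rw [← mul_assoc, ← C_mul, mul_inv_cancel₀ hc, C_1, one_mul]
  · intro A _
    rfl

private theorem cub_twist {e : L} (he : e ≠ 0) (hchi : chi L e = -1) (a b : L) :
    cub L (e ^ 2 * a) (e ^ 3 * b) = - cub L a b := by
  unfold cub
  rw [← Equiv.sum_comp (Equiv.mulLeft₀ e he), ← Finset.sum_neg_distrib]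
  apply Finset.sum_congr rfl
  intro x _
  have h1 : (Equiv.mulLeft₀ e he) x ^ 3 + e ^ 2 * a * (Equiv.mulLeft₀ e he) x + e ^ 3 * b =
      e ^ 3 * (x ^ 3 + a * x + b) := by
    show (e * x) ^ 3 + e ^ 2 * a * (e * x) + e ^ 3 * b = _
    ring
  rw [h1]
  unfold chi at hchi ⊢
  rw [map_mul, map_pow, hchi]
  ring

theorem odd_zero (h2 : (2 : F) ≠ 0) {n m : ℕ} (hm : Odd m)
    (hL : Fintype.card L = Fintype.card F ^ m) :
    ∑ A ∈ PN F (4 * n + 1), ∑ B ∈ PN F (6 * n + 1), TT L n A B = 0 := by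
  have hchar : ringChar F ≠ 2 := by
    intro h
    apply h2
    have h1 := ringChar.spec F 2
    rw [h] at h1
    have h3 : ((2 : ℕ) : F) = 0 := h1.2 dvd_rfl
    exact_mod_cast h3
  obtain ⟨ε, hε⟩ := FiniteField.exists_nonsquare hchar
  have hε0 : ε ≠ 0 := by
    rintro rfl
    exact hε ⟨0, by ring⟩
  have hfr : Module.finrank F L = m := by
    have h1 : Fintype.card L = Fintype.card F ^ Module.finrank F L :=
      Module.card_eq_pow_finrank
    rw [hL] at h1
    exact (Nat.pow_right_injective (Fintype.one_lt_card (α := F)) h1).symm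
  have hns : ¬ IsSquare (algebraMap F L ε) := by
    rintro ⟨y, hy⟩
    obtain ⟨k, hk⟩ := hm
    have h1 := congrArg (Algebra.norm F) hy
    rw [Algebra.norm_algebraMap, hfr, map_mul, hk] at h1
    apply hε
    refine ⟨Algebra.norm F y * (ε ^ k)⁻¹, ?_⟩
    field_simp
    rw [← pow_mul]
    linear_combination h1
  have he0 : algebraMap F L ε ≠ 0 := by
    rw [Ne, map_eq_zero]
    exact hε0
  have hchi : chi L (algebraMap F L ε) = -1 := by
    classical
    unfold chi
    exact quadraticChar_neg_one_iff_not_isSquare.2 hns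
  have hTT : ∀ A B : F[X], TT L n (C (ε ^ 2) * A) (C (ε ^ 3) * B) = - TT L n A B := by
    intro A B
    unfold TT
    rw [neg_add, ← Finset.sum_neg_distrib]
    congr 1
    · apply Finset.sum_congr rfl
      intro t _
      rw [map_mul, map_mul, aeval_C, aeval_C, map_pow, map_pow]
      exact cub_twist he0 hchi _ _
    · rw [coeff_C_mul, coeff_C_mul, map_mul, map_mul, map_pow, map_pow]
      exact cub_twist he0 hchi _ _
  have hS : ∑ A ∈ PN F (4 * n + 1), ∑ B ∈ PN F (6 * n + 1), TT L n A B =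
      - ∑ A ∈ PN F (4 * n + 1), ∑ B ∈ PN F (6 * n + 1), TT L n A B := by
    nth_rewrite 1 [← sum_PN_mul (4 * n + 1) (pow_ne_zero 2 hε0)]
    rw [← Finset.sum_neg_distrib]
    apply Finset.sum_congr rfl
    intro A _
    rw [← sum_PN_mul (6 * n + 1) (pow_ne_zero 3 hε0), ← Finset.sum_neg_distrib]
    apply Finset.sum_congr rfl
    intro B _
    exact hTT A B
  omega

end Pool.Agent.Helper31.AR
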