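import Pool.Agent.Helper31.AR.Defs

/-!
# Definitions of the final statement (no sorry)

`F` is a finite field with `q` elements. For polynomials `A`, `B` over `F`:

* `surf A B m` is the set of the points with coordinates in the extension of degree `m` of `F` of the affine surface
  `y ^ 2 = x ^ 3 + A(t) x + B(t)`; `fibre a b m` is the set of the points of `y ^ 2 = x ^ 3 + a x + b`.
* `IsFrob n A B Q`: `Q` is monic and integral of degree at most `12 n - 4`, its complex roots have absolute value at most `q`, and for all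
  `m ≥ 1` the affine surface together with the affine part of the fibre at infinity has `q ^ (2 m) + q ^ m + (sum of the m-th powers of the roots of Q)`
  points over the extension of degree `m`.
* `ord F Q` is the multiplicity of `q` as a root of `Q`.
* `Const A B`: `A = a d ^ 4`, `B = b d ^ 6` with constants `a`, `b` and a polynomial `d`. `adm F n` is the finset of the pairs `(A, B)` with
  `deg A ≤ 4 n`, `deg B ≤ 6 n` which are not of this form.
* `Min n A B`: the Weierstrass equation is minimal at all places (no nonunit `d` with `d ^ 4 ∣ A`, `d ^ 6 ∣ B`, and not both `deg A ≤ 4 n - 4`,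
  `deg B ≤ 6 n - 6`).
-/

set_option autoImplicit false

open Polynomial

namespace Pool.Agent.Helper31.AR

/-- The sum of the `m`-th powers of the complex roots of an integral polynomial. -/
noncomputable def powerSum (Q : ℤ[X]) (m : ℕ) : ℂ :=
  ((Q.map (Int.castRingHom ℂ)).roots.map (fun b => b ^ m)).sum

section

variable (F : Type) [Field F] [Fintype F]

/-- The element `c` of the algebraic closure of `F` lies in the extension of degree `m` of `F`. -/
def RatOver (m : ℕ) (c : AlgebraicClosure F) : Prop := c ^ (Fintype.card F ^ m) = c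

variable {F}

/-- The points `((t, x), y)` over the extension of degree `m` of `F` of the affine surface
`y ^ 2 = x ^ 3 + A(t) x + B(t)`. -/
def surf (A B : F[X]) (m : ℕ) :
    Set ((AlgebraicClosure F × AlgebraicClosure F) × AlgebraicClosure F) :=
  {P | RatOver F m P.1.1 ∧ RatOver F m P.1.2 ∧ RatOver F m P.2 ∧
    P.2 ^ 2 = P.1.2 ^ 3 + aeval P.1.1 A * P.1.2 + aeval P.1.1 B}

/-- The points `(x, y)` over the extension of degree `m` of `F` of the curve
`y ^ 2 = x ^ 3 + a x + b`. -/
def fibre (a b : F) (m : ℕ) : Set (AlgebraicClosure F × AlgebraicClosure F) :=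
  {P | RatOver F m P.1 ∧ RatOver F m P.2 ∧
    P.2 ^ 2 = P.1 ^ 3 + algebraMap F (AlgebraicClosure F) a * P.1 +
      algebraMap F (AlgebraicClosure F) b}

/-- `Q` is the Frobenius polynomial of `y ^ 2 = x ^ 3 + A(t) x + B(t)`, `deg A ≤ 4 n`,
`deg B ≤ 6 n`: monic, of degree at most `12 n - 4`, with roots of absolute value at most `q`, and
the affine surface and the affine fibre `y ^ 2 = x ^ 3 + a x + b` at infinity (`a`, `b` the
coefficients of degree `4 n`, `6 n` of `A`, `B`) have together
`q ^ (2 m) + q ^ m + (sum of the m-th powers of the roots of Q)` points over the extension of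
degree `m`. -/
structure IsFrob (n : ℕ) (A B : F[X]) (Q : ℤ[X]) : Prop where
  monic : Q.Monic
  natDegree_le : Q.natDegree + 4 ≤ 12 * n
  norm_le : ∀ b : ℂ, aeval b Q = 0 → ‖b‖ ≤ Fintype.card F
  card : ∀ m : ℕ, 1 ≤ m →
    ((surf A B m).ncard : ℂ) + ((fibre (A.coeff (4 * n)) (B.coeff (6 * n)) m).ncard : ℂ) =
      (Fintype.card F : ℂ) ^ (2 * m) + (Fintype.card F : ℂ) ^ m + powerSum Q m

variable (F) in
/-- The multiplicity of `q` as a root of `Q`. -/
noncomputable def ord (Q : ℤ[X]) : ℕ := Q.rootMultiplicity (Fintype.card F : ℤ)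

/-- The pair `(A, B)` is `(a d ^ 4, b d ^ 6)` with constants `a`, `b`. -/
def Const (A B : F[X]) : Prop := ∃ a b : F, ∃ d : F[X], A = C a * d ^ 4 ∧ B = C b * d ^ 6

variable (F) in
open Classical in
/-- The pairs `(A, B)` with `deg A ≤ 4 n`, `deg B ≤ 6 n` which are not of the form
`(a d ^ 4, b d ^ 6)`. -/
noncomputable def adm (n : ℕ) : Finset (F[X] × F[X]) :=
  (PN F (4 * n + 1) ×ˢ PN F (6 * n + 1)).filter (fun p => ¬ Const p.1 p.2)

/-- The Weierstrass equation with `deg A ≤ 4 n`, `deg B ≤ 6 n` is minimal at all places of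
`F(t)`. -/
def Min (n : ℕ) (A B : F[X]) : Prop :=
  (∀ d : F[X], ¬ IsUnit d → ¬ (d ^ 4 ∣ A ∧ d ^ 6 ∣ B)) ∧
    ¬ (A.natDegree + 4 ≤ 4 * n ∧ B.natDegree + 6 ≤ 6 * n)

end

end Pool.Agent.Helper31.AR
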