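import Pool.Agent.Helper31.AR.Fejer
import Pool.Agent.Helper31.AR.FrobDefs

/-!
# AR-51: the multiplicity of `q` by the explicit formula

Let `R` be the multiset of the complex roots of `Q` (`card R = natDegree Q`: `IsAlgClosed.card_roots_eq_natDegree`-like, `splits`;
`Monic.natDegree_map`). For `b ∈ R`, `w = b / q` has `‖w‖ ≤ 1`. Sum `fejer_nonneg` over `b ∈ R`; the roots equal to `q` (`w = 1`) contribute
`M` each (`fejer_one`): `M * count q R ≤ ∑_{b ∈ R} (1 + 2 ∑_m (1 - m / M) Re ((b / q) ^ m)) = natDegree Q + 2 ∑_m (1 - m / M) Re (powerSum Q m) / q ^ m`.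
And `count (q : ℂ) R = rootMultiplicity q (Q.map ..) = rootMultiplicity (q : ℤ) Q` (`rootMultiplicity` is preserved by an injective ring
homomorphism: `Polynomial.eq_rootMultiplicity_map` or so).
-/

set_option autoImplicit false

open Polynomial

namespace Pool.Agent.Helper31.AR

private noncomputable def gfj (M q : ℕ) (b : ℂ) : ℝ :=
  1 + 2 * ∑ m ∈ Finset.Ico 1 M, (1 - (m : ℝ) / M) * ((b / q) ^ m).re

private theorem re_div_pow (b : ℂ) (q m : ℕ) : ((b / q) ^ m).re = (b ^ m).re / (q : ℝ) ^ m := by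
  rw [div_pow]
  have h : ((q : ℂ) ^ m) = ((q ^ m : ℕ) : ℂ) := by push_cast; rfl
  rw [h, Complex.div_natCast_re]
  push_cast
  rfl

private theorem sum_gfj (M q : ℕ) (S : Multiset ℂ) :
    (S.map (gfj M q)).sum = (Multiset.card S : ℝ) +
      2 * ∑ m ∈ Finset.Ico 1 M, (1 - (m : ℝ) / M) *
        (((S.map (fun b => b ^ m)).sum).re / (q : ℝ) ^ m) := by
  induction S using Multiset.induction_on with
  | empty => simp
  | cons b S ih =>
    rw [Multiset.map_cons, Multiset.sum_cons, ih, Multiset.card_cons]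
    have h1 : ∀ m, (((b ::ₘ S).map (fun b => b ^ m)).sum).re / (q : ℝ) ^ m =
        (b ^ m).re / (q : ℝ) ^ m + ((S.map (fun b => b ^ m)).sum).re / (q : ℝ) ^ m := by
      intro m
      rw [Multiset.map_cons, Multiset.sum_cons, Complex.add_re, add_div]
    simp only [h1, mul_add, Finset.sum_add_distrib]
    unfold gfj
    simp only [re_div_pow]
    push_cast
    ring

private theorem count_le_sum_gfj {M q : ℕ} (hM : 1 ≤ M) (hq : 0 < q) (S : Multiset ℂ)
    (hS : ∀ b ∈ S, ‖b‖ ≤ q) :
    (M : ℝ) * (S.count (q : ℂ) : ℝ) ≤ (S.map (gfj M q)).sum := by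
  have hq' : (0 : ℝ) < q := by exact_mod_cast hq
  have hqq : gfj M q (q : ℂ) = M := by
    unfold gfj
    have h1 : ((q : ℂ) / q) = 1 := div_self (by exact_mod_cast hq.ne')
    simp only [h1, one_pow, Complex.one_re, mul_one]
    exact fejer_one M hM
  induction S using Multiset.induction_on with
  | empty => simp
  | cons b S ih =>
    rw [Multiset.map_cons, Multiset.sum_cons]
    have ih' := ih (fun c hc => hS c (Multiset.mem_cons_of_mem hc))
    by_cases hb : b = (q : ℂ)
    · subst hb
      rw [Multiset.count_cons_self, hqq]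
      push_cast
      linarith
    · rw [Multiset.count_cons_of_ne (Ne.symm hb)]
      have h2 : 0 ≤ gfj M q b := by
        unfold gfj
        apply fejer_nonneg M hM
        rw [norm_div, Complex.norm_natCast, div_le_one hq']
        exact hS b (Multiset.mem_cons_self b S)
      linarith

theorem rank_le {Q : ℤ[X]} (hQ : Q.Monic) {q : ℕ} (hq : 0 < q)
    (hroots : ∀ b : ℂ, aeval b Q = 0 → ‖b‖ ≤ q) {M : ℕ} (hM : 1 ≤ M) :
    (M : ℝ) * (Q.rootMultiplicity (q : ℤ) : ℝ) ≤ (Q.natDegree : ℝ) +
      2 * ∑ m ∈ Finset.Ico 1 M, (1 - (m : ℝ) / M) * ((powerSum Q m).re / (q : ℝ) ^ m) := by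
  set R := (Q.map (Int.castRingHom ℂ)).roots with hR
  have hQ' : (Q.map (Int.castRingHom ℂ)).Monic := hQ.map _
  have hcard : Multiset.card R = Q.natDegree := by
    have h1 : (Q.map (Int.castRingHom ℂ)).Splits := IsAlgClosed.splits _
    rw [hR, ← h1.natDegree_eq_card_roots, hQ.natDegree_map]
  have hcount : R.count (q : ℂ) = Q.rootMultiplicity (q : ℤ) := by
    classical
    have h1 := eq_rootMultiplicity_map (p := Q) (f := Int.castRingHom ℂ)
      (RingHom.injective_int _) (q : ℤ)
    rw [h1, hR]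
    have h2 : (Int.castRingHom ℂ) (q : ℤ) = (q : ℂ) := by simp
    rw [h2]
    convert count_roots (Q.map (Int.castRingHom ℂ))
  have hmem : ∀ b ∈ R, ‖b‖ ≤ q := by
    intro b hb
    apply hroots
    rw [hR, mem_roots hQ'.ne_zero, IsRoot.def, eval_map] at hb
    rw [aeval_def]
    exact hb
  have h1 := count_le_sum_gfj hM hq R hmem
  rw [sum_gfj, hcard, hcount] at h1
  exact h1

end Pool.Agent.Helper31.AR
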