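import Pool.Agent.Helper31.AR.AvgEvenE
import Pool.Agent.Helper31.AR.OddZero
import Pool.Agent.Helper31.AR.RankBound
import Pool.Agent.Helper31.AR.Link
import Pool.Agent.Helper31.AR.ConstCount

/-!
# AR-59: the average rank is at most `11 / 6 + δ` (general version of AR-54)

Same proof as AR-54 (`AvgRank.lean`). Given `δ > 0` choose `0 < ε ≤ 1 / 10` with `12 / (9 - ε) + 1 / 2 < 11 / 6 + δ / 2`, and
`M = ⌊(9 - ε) n⌋` (`Nat.floor`; all `m < M` satisfy `m ≤ (9 - ε) n`). With `avg_even_eps`: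
`∑ ord / N ≤ 12 n / M + 1 / 2 + C' / M + C' n ^ 2 q ^ (- ε n / 2) + 4 q ^ (n + 3 + M) / N`, and `n + 3 + M ≤ (10 - ε) n + 3`, so the last term is
`≤ 4 q ^ (1 - ε n)`. The right side tends to `12 / (9 - ε) + 1 / 2`.
-/

set_option autoImplicit false

open Polynomial

namespace Pool.Agent.Helper31.AR

private theorem sum_even_le (M : ℕ) (hM : 1 ≤ M) :
    ∑ m ∈ Finset.Ico 1 M, (if Even m then (1 - (m : ℝ) / M) else 0) ≤ (M : ℝ) / 4 := by
  have hM0 : (0 : ℝ) < (M : ℝ) := by exact_mod_cast hM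
  have key : ∀ k : ℕ, 1 ≤ k → ∑ m ∈ Finset.Ico 1 k, (if Even m then (1 - (m : ℝ) / M) else 0) =
      (((k - 1) / 2 : ℕ) : ℝ) - (((k - 1) / 2 : ℕ) : ℝ) * ((((k - 1) / 2 : ℕ) : ℝ) + 1) / M := by
    intro k hk
    induction k, hk using Nat.le_induction with
    | base => simp
    | succ k hk ih =>
      rw [Finset.sum_Ico_succ_top hk, ih]
      rcases Nat.even_or_odd k with he | ho
      · rw [if_pos he]
        obtain ⟨j, hj⟩ := he
        have h1 : (k - 1) / 2 = j - 1 := by omega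
        have h2 : (k + 1 - 1) / 2 = j := by omega
        have h3 : ((j - 1 : ℕ) : ℝ) = (j : ℝ) - 1 := by
          rw [Nat.cast_sub (by omega)]; simp
        have h4 : (k : ℝ) = 2 * (j : ℝ) := by rw [hj]; push_cast; ring
        rw [h1, h2, h3, h4]
        field_simp
        ring
      · rw [if_neg (Nat.not_even_iff_odd.2 ho)]
        obtain ⟨j, hj⟩ := ho
        have h1 : (k - 1) / 2 = j := by omega
        have h2 : (k + 1 - 1) / 2 = j := by omega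
        rw [h1, h2, add_zero]
  rw [key M hM]
  set J : ℝ := (((M - 1) / 2 : ℕ) : ℝ) with hJ
  have hJ0 : 0 ≤ J := Nat.cast_nonneg _
  have h5 : J - J * (J + 1) / M = (J * M - J * (J + 1)) / M := by
    field_simp
  rw [h5, div_le_iff₀ hM0]
  nlinarith [sq_nonneg ((M : ℝ) / 2 - J)]

private theorem rpow_neg_div (q : ℝ) (hq : 0 < q) (k : ℕ) (c : ℝ) :
    q ^ (-(k : ℝ) / c) = (q ^ (-1 / c)) ^ k := by
  rw [← Real.rpow_natCast, ← Real.rpow_mul hq.le]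
  congr 1
  ring

private theorem base_lt_one {q : ℝ} (hq : 1 < q) {c : ℝ} (hc : 0 < c) :
    0 < q ^ (-1 / c) ∧ q ^ (-1 / c) < 1 := by
  refine ⟨Real.rpow_pos_of_pos (by linarith) _, ?_⟩
  apply Real.rpow_lt_one_of_one_lt_of_neg hq
  apply div_neg_of_neg_of_pos (by norm_num) hc

/-- The sums of the power sums over the family. -/
private theorem sum_power_le (F : Type) [Field F] [Fintype F] (h2 : (2 : F) ≠ 0)
    (h3 : (3 : F) ≠ 0) (ε : ℝ) (hε : 0 < ε) (hε1 : ε ≤ 1 / 10) :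
    ∃ C : ℝ, 0 < C ∧ ∀ n m : ℕ, 1 ≤ n → 1 ≤ m → (m : ℝ) ≤ (9 - ε) * n →
      ∀ Q : F[X] → F[X] → ℤ[X], (∀ p ∈ adm F n, IsFrob n p.1 p.2 (Q p.1 p.2)) →
      ∑ p ∈ adm F n, (powerSum (Q p.1 p.2) m).re ≤
        (if Even m then (Fintype.card F : ℝ) ^ (10 * n + 2) * (Fintype.card F : ℝ) ^ m *
          (1 + C * m * (Fintype.card F : ℝ) ^ (-(m : ℝ) / 6) +
            C * (m : ℝ) ^ 2 * (Fintype.card F : ℝ) ^ (-(ε * n) / 2)) else 0) +
        (Fintype.card F : ℝ) ^ (n + 3) * (2 * (Fintype.card F : ℝ) ^ (2 * m)) := by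
  classical
  obtain ⟨C, hC, hav⟩ := avg_even_eps F h2 h3 ε hε hε1
  refine ⟨C, hC, fun n m hn hm hmn Q hQ => ?_⟩
  obtain ⟨L, hLf, hLft, hLa, hL⟩ := exists_field F m hm
  have hT : ∀ p ∈ adm F n, (powerSum (Q p.1 p.2) m).re = ((TT L n p.1 p.2 : ℤ) : ℝ) := by
    intro p hp
    have e1 := (hQ p hp).card m hm
    have e2 := card_points (F := F) h2 (L := L) hm hL n p.1 p.2
    have e3 : ((surf p.1 p.2 m).ncard : ℂ) +
        ((fibre (p.1.coeff (4 * n)) (p.2.coeff (6 * n)) m).ncard : ℂ) =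
      (Fintype.card F : ℂ) ^ (2 * m) + (Fintype.card F : ℂ) ^ m + ((TT L n p.1 p.2 : ℤ) : ℂ) := by
      exact_mod_cast e2
    have e4 : powerSum (Q p.1 p.2) m = ((TT L n p.1 p.2 : ℤ) : ℂ) := by
      rw [e1] at e3
      exact add_left_cancel e3
    rw [e4]
    simp
  rw [Finset.sum_congr rfl hT]
  set S := PN F (4 * n + 1) ×ˢ PN F (6 * n + 1) with hS
  have hadm : adm F n = S.filter (fun p => ¬ Const p.1 p.2) := by
    unfold adm
    congr
  have hsplit : ∑ p ∈ S.filter (fun p => Const p.1 p.2), ((TT L n p.1 p.2 : ℤ) : ℝ) +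
      ∑ p ∈ adm F n, ((TT L n p.1 p.2 : ℤ) : ℝ) = ∑ p ∈ S, ((TT L n p.1 p.2 : ℤ) : ℝ) := by
    rw [hadm]
    exact Finset.sum_filter_add_sum_filter_not _ _ _
  have hbig : ∑ p ∈ S, ((TT L n p.1 p.2 : ℤ) : ℝ) ≤
      (if Even m then (Fintype.card F : ℝ) ^ (10 * n + 2) * (Fintype.card F : ℝ) ^ m *
          (1 + C * m * (Fintype.card F : ℝ) ^ (-(m : ℝ) / 6) +
            C * (m : ℝ) ^ 2 * (Fintype.card F : ℝ) ^ (-(ε * n) / 2)) else 0) := by
    have e1 : ∑ p ∈ S, ((TT L n p.1 p.2 : ℤ) : ℝ) =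
        ((∑ A ∈ PN F (4 * n + 1), ∑ B ∈ PN F (6 * n + 1), TT L n A B : ℤ) : ℝ) := by
      rw [hS, Finset.sum_product]
      push_cast
      rfl
    rw [e1]
    rcases Nat.even_or_odd m with he | ho
    · rw [if_pos he]
      have hm2 : 2 ≤ m := by
        obtain ⟨j, hj⟩ := he
        omega
      exact hav n m hn he hm2 hmn L hL
    · rw [if_neg (Nat.not_even_iff_odd.2 ho), odd_zero h2 ho hL]
      simp
  have hconst : -(∑ p ∈ S.filter (fun p => Const p.1 p.2), ((TT L n p.1 p.2 : ℤ) : ℝ)) ≤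
      (Fintype.card F : ℝ) ^ (n + 3) * (2 * (Fintype.card F : ℝ) ^ (2 * m)) := by
    have e1 : ∀ p ∈ S.filter (fun p => Const p.1 p.2),
        -((TT L n p.1 p.2 : ℤ) : ℝ) ≤ 2 * (Fintype.card F : ℝ) ^ (2 * m) := by
      intro p _
      have e2 := abs_TT_le (F := F) (L := L) n p.1 p.2
      rw [hL] at e2
      have e3 := (neg_le_abs _).trans e2
      have e4 : ((-(TT L n p.1 p.2) : ℤ) : ℝ) ≤
          ((2 * ((Fintype.card F ^ m : ℕ) : ℤ) ^ 2 : ℤ) : ℝ) := by exact_mod_cast e3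
      push_cast at e4
      rw [← pow_mul, mul_comm m 2] at e4
      exact e4
    rw [← Finset.sum_neg_distrib]
    refine (Finset.sum_le_sum e1).trans ?_
    rw [Finset.sum_const, nsmul_eq_mul]
    apply mul_le_mul_of_nonneg_right _ (by positivity)
    have e5 := card_const_le (F := F) n
    have e6 : (((S.filter (fun p => Const p.1 p.2)).card : ℕ) : ℝ) ≤
        ((Fintype.card F ^ (n + 3) : ℕ) : ℝ) := by
      rw [Nat.cast_le, hS]
      convert e5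
    push_cast at e6
    exact e6
  linarith

theorem avg_rank_eps (F : Type) [Field F] [Fintype F] (h2 : (2 : F) ≠ 0) (h3 : (3 : F) ≠ 0)
    (δ : ℝ) (hδ : 0 < δ) :
    ∃ n₀ : ℕ, ∀ n : ℕ, n₀ ≤ n → ∀ Q : F[X] → F[X] → ℤ[X],
      (∀ p ∈ adm F n, IsFrob n p.1 p.2 (Q p.1 p.2)) →
      ∑ p ∈ adm F n, ((ord F (Q p.1 p.2) : ℕ) : ℝ) ≤
        (11 / 6 + δ) * (Fintype.card F : ℝ) ^ (10 * n + 2) := by
  classical
  obtain ⟨ε, hε, hε1, hεδ⟩ : ∃ ε : ℝ, 0 < ε ∧ ε ≤ 1 / 10 ∧ ε ≤ δ :=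
    ⟨min (1 / 10) δ, lt_min (by norm_num) hδ, min_le_left _ _, min_le_right _ _⟩
  obtain ⟨C, hC, hpow⟩ := sum_power_le F h2 h3 ε hε hε1
  have hq1 : 1 < Fintype.card F := Fintype.one_lt_card
  set q : ℕ := Fintype.card F with hqdef
  have hq2 : (2 : ℝ) ≤ (q : ℝ) := by exact_mod_cast hq1
  have hqpos : (0 : ℝ) < (q : ℝ) := by linarith
  -- the constants
  obtain ⟨hr0, hr1⟩ := base_lt_one (q := (q : ℝ)) (by linarith) (c := 6) (by norm_num)
  obtain ⟨hs0, hs1⟩ := base_lt_one (q := (q : ℝ)) (by linarith) (c := 2 / ε) (by positivity)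
  set r : ℝ := (q : ℝ) ^ (-1 / (6 : ℝ)) with hr
  set s : ℝ := (q : ℝ) ^ (-1 / (2 / ε : ℝ)) with hs
  have hsum : Summable (fun m : ℕ => (m : ℝ) * r ^ m) := by
    have h := summable_pow_mul_geometric_of_norm_lt_one (R := ℝ) 1 (r := r)
      (by rw [Real.norm_eq_abs, abs_of_pos hr0]; exact hr1)
    simpa using h
  set K : ℝ := ∑' m : ℕ, (m : ℝ) * r ^ m with hK
  have hev1 : ∀ᶠ n : ℕ in Filter.atTop, 2 * C * K / (δ / 10) ≤ (n : ℝ) :=
    (tendsto_natCast_atTop_atTop (R := ℝ)).eventually_ge_atTop _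
  have hev2 : ∀ᶠ n : ℕ in Filter.atTop, (n : ℝ) ^ 2 * s ^ n < (δ / 10) / (162 * C) := by
    have h := tendsto_pow_const_mul_const_pow_of_abs_lt_one 2 (r := s)
      (by rw [abs_of_pos hs0]; exact hs1)
    exact h.eventually_lt_const (by positivity)
  have hev3 : ∀ᶠ n : ℕ in Filter.atTop, 4 / ε ≤ (n : ℝ) :=
    (tendsto_natCast_atTop_atTop (R := ℝ)).eventually_ge_atTop _
  obtain ⟨u, hu1, hu2⟩ : ∃ u : ℝ, 1 < u ∧ u = (q : ℝ) ^ ε :=
    ⟨_, Real.one_lt_rpow (by linarith) hε, rfl⟩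
  have hev4 : ∀ᶠ n : ℕ in Filter.atTop, 40 * (q : ℝ) / δ ≤ u ^ n :=
    (tendsto_pow_atTop_atTop_of_one_lt hu1).eventually_ge_atTop _
  obtain ⟨n₀, hn₀⟩ := Filter.eventually_atTop.1 (hev1.and (hev2.and (hev3.and (hev4.and
    (Filter.eventually_ge_atTop 2000)))))
  refine ⟨n₀, fun n hn Q hQ => ?_⟩
  obtain ⟨hA, hB, hn3, hn4, hn2⟩ := hn₀ n hn
  have hnR : (2000 : ℝ) ≤ (n : ℝ) := by exact_mod_cast hn2
  have hMn0 : 0 ≤ (9 - ε) * (n : ℝ) := by
    apply mul_nonneg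
    · linarith
    · linarith
  set M : ℕ := ⌊(9 - ε) * (n : ℝ)⌋₊ with hM
  have hM1R : (M : ℝ) ≤ (9 - ε) * (n : ℝ) := Nat.floor_le hMn0
  have hM2R : (9 - ε) * (n : ℝ) < (M : ℝ) + 1 := Nat.lt_floor_add_one _
  have hεn : ε * (n : ℝ) ≤ (n : ℝ) / 10 := by nlinarith
  have hεn0 : 0 ≤ ε * (n : ℝ) := by positivity
  have hM3R : 8 * (n : ℝ) ≤ (M : ℝ) := by nlinarith
  have hM4R : (M : ℝ) ≤ 9 * (n : ℝ) := by nlinarith
  have hMR : (1 : ℝ) ≤ (M : ℝ) := by linarith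
  have hMpos : 1 ≤ M := by exact_mod_cast hMR
  have hM0 : (0 : ℝ) < (M : ℝ) := by linarith
  set N : ℝ := (q : ℝ) ^ (10 * n + 2) with hN
  have hNpos : 0 < N := by positivity
  -- the explicit formula, summed
  have hrank : ∀ p ∈ adm F n, (M : ℝ) * ((ord F (Q p.1 p.2) : ℕ) : ℝ) ≤ 12 * (n : ℝ) +
      2 * ∑ m ∈ Finset.Ico 1 M, (1 - (m : ℝ) / M) *
        ((powerSum (Q p.1 p.2) m).re / (q : ℝ) ^ m) := by
    intro p hp
    have hf := hQ p hp
    have e1 := rank_le hf.monic (q := q) (by omega) hf.norm_le hMpos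
    have e2 : ((Q p.1 p.2).natDegree : ℝ) ≤ 12 * (n : ℝ) := by
      have := hf.natDegree_le
      have e3 : (Q p.1 p.2).natDegree ≤ 12 * n := by omega
      exact_mod_cast e3
    unfold ord
    rw [← hqdef]
    linarith
  have hcardadm : ((adm F n).card : ℝ) ≤ N := by
    have e1 : (adm F n).card ≤ (PN F (4 * n + 1) ×ˢ PN F (6 * n + 1)).card := by
      unfold adm
      exact Finset.card_filter_le _ _
    rw [Finset.card_product, card_PN, card_PN, ← hqdef, ← pow_add] at e1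
    have e2 : ((adm F n).card : ℝ) ≤ ((q ^ (4 * n + 1 + (6 * n + 1)) : ℕ) : ℝ) := by
      exact_mod_cast e1
    refine e2.trans (le_of_eq ?_)
    push_cast
    rw [hN]
    congr 1
    ring
  have hsumrank : (M : ℝ) * ∑ p ∈ adm F n, ((ord F (Q p.1 p.2) : ℕ) : ℝ) ≤
      N * (12 * (n : ℝ)) + 2 * ∑ m ∈ Finset.Ico 1 M, (1 - (m : ℝ) / M) *
        ((∑ p ∈ adm F n, (powerSum (Q p.1 p.2) m).re) / (q : ℝ) ^ m) := by
    rw [Finset.mul_sum]
    refine (Finset.sum_le_sum hrank).trans ?_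
    rw [Finset.sum_add_distrib, Finset.sum_const, nsmul_eq_mul, ← Finset.mul_sum,
      Finset.sum_comm]
    have e1 : ∀ m ∈ Finset.Ico 1 M, ∑ p ∈ adm F n, (1 - (m : ℝ) / M) *
        ((powerSum (Q p.1 p.2) m).re / (q : ℝ) ^ m) = (1 - (m : ℝ) / M) *
        ((∑ p ∈ adm F n, (powerSum (Q p.1 p.2) m).re) / (q : ℝ) ^ m) := by
      intro m _
      rw [← Finset.mul_sum, Finset.sum_div]
    rw [Finset.sum_congr rfl e1]
    have e2 : ((adm F n).card : ℝ) * (12 * (n : ℝ)) ≤ N * (12 * (n : ℝ)) :=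
      mul_le_mul_of_nonneg_right hcardadm (by positivity)
    linarith
  have hsn' : (q : ℝ) ^ (-(ε * n) / 2) = s ^ n := by
    rw [hs, ← Real.rpow_natCast, ← Real.rpow_mul hqpos.le]
    congr 1
    field_simp
  -- the bound for each `m`
  have hterm : ∀ m ∈ Finset.Ico 1 M, (1 - (m : ℝ) / M) *
      ((∑ p ∈ adm F n, (powerSum (Q p.1 p.2) m).re) / (q : ℝ) ^ m) ≤
      N * ((if Even m then (1 - (m : ℝ) / M) else 0) + C * ((m : ℝ) * r ^ m) +
        C * ((M : ℝ) ^ 2 * s ^ n)) + 2 * (q : ℝ) ^ (n + 3 + M) := by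
    intro m hm
    rw [Finset.mem_Ico] at hm
    have hmM : (m : ℝ) ≤ (M : ℝ) := by exact_mod_cast hm.2.le
    have hm0 : (0 : ℝ) ≤ (m : ℝ) := Nat.cast_nonneg _
    have hw0 : 0 ≤ 1 - (m : ℝ) / M := by
      rw [sub_nonneg, div_le_one hM0]; exact hmM
    have hw1 : 1 - (m : ℝ) / M ≤ 1 := by
      have : 0 ≤ (m : ℝ) / M := by positivity
      linarith
    have hqm : (0 : ℝ) < (q : ℝ) ^ m := by positivity
    have e1 := hpow n m (by omega) hm.1 (hmM.trans hM1R) Q hQ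
    have e2 : (∑ p ∈ adm F n, (powerSum (Q p.1 p.2) m).re) / (q : ℝ) ^ m ≤
        (if Even m then N * (1 + C * ((m : ℝ) * r ^ m) + C * ((m : ℝ) ^ 2 * s ^ n)) else 0) +
          2 * (q : ℝ) ^ (n + 3 + m) := by
      rw [div_le_iff₀ hqm]
      refine e1.trans (le_of_eq ?_)
      rw [rpow_neg_div _ hqpos, ← hr, hsn']
      split_ifs
      · rw [two_mul m, pow_add, pow_add, pow_add, pow_add]
        ring
      · rw [two_mul m, pow_add, pow_add, pow_add, pow_add]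
        ring
    have e3 : 2 * (q : ℝ) ^ (n + 3 + m) ≤ 2 * (q : ℝ) ^ (n + 3 + M) := by
      have : (q : ℝ) ^ (n + 3 + m) ≤ (q : ℝ) ^ (n + 3 + M) :=
        pow_le_pow_right₀ (by linarith) (by omega)
      linarith
    have e4 : (0 : ℝ) ≤ (q : ℝ) ^ (n + 3 + M) := by positivity
    have e5 : 0 ≤ C * ((m : ℝ) * r ^ m) := by positivity
    have e6 : 0 ≤ C * ((m : ℝ) ^ 2 * s ^ n) := by positivity
    have e7 : C * ((m : ℝ) ^ 2 * s ^ n) ≤ C * ((M : ℝ) ^ 2 * s ^ n) := by gcongr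
    have e8 : (1 - (m : ℝ) / M) * (C * ((m : ℝ) * r ^ m)) ≤ C * ((m : ℝ) * r ^ m) := by
      nlinarith
    have e9 : (1 - (m : ℝ) / M) * (C * ((m : ℝ) ^ 2 * s ^ n)) ≤ C * ((m : ℝ) ^ 2 * s ^ n) := by
      nlinarith
    refine (mul_le_mul_of_nonneg_left e2 hw0).trans ?_
    rw [mul_add]
    have e10 : (1 - (m : ℝ) / M) * (2 * (q : ℝ) ^ (n + 3 + m)) ≤ 2 * (q : ℝ) ^ (n + 3 + M) := by
      have : 0 ≤ 2 * (q : ℝ) ^ (n + 3 + m) := by positivity
      nlinarith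
    have e11 : (1 - (m : ℝ) / M) * (if Even m then N * (1 + C * ((m : ℝ) * r ^ m) +
        C * ((m : ℝ) ^ 2 * s ^ n)) else 0) ≤
        N * ((if Even m then (1 - (m : ℝ) / M) else 0) + C * ((m : ℝ) * r ^ m) +
        C * ((M : ℝ) ^ 2 * s ^ n)) := by
      split_ifs
      · have e12 : (1 - (m : ℝ) / M) * (N * (1 + C * ((m : ℝ) * r ^ m) +
            C * ((m : ℝ) ^ 2 * s ^ n))) = N * ((1 - (m : ℝ) / M) +
            (1 - (m : ℝ) / M) * (C * ((m : ℝ) * r ^ m)) +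
            (1 - (m : ℝ) / M) * (C * ((m : ℝ) ^ 2 * s ^ n))) := by ring
        rw [e12]
        apply mul_le_mul_of_nonneg_left _ hNpos.le
        linarith
      · rw [mul_zero]
        apply mul_nonneg hNpos.le
        have := e6.trans e7
        linarith
    linarith
  have hsumterm := Finset.sum_le_sum hterm
  rw [Finset.sum_add_distrib, ← Finset.mul_sum, Finset.sum_add_distrib, Finset.sum_add_distrib,
    Finset.sum_const, Finset.sum_const, Nat.card_Ico, nsmul_eq_mul, nsmul_eq_mul,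
    ← Finset.mul_sum] at hsumterm
  have hE := sum_even_le M hMpos
  have hKs : ∑ m ∈ Finset.Ico 1 M, (m : ℝ) * r ^ m ≤ K := by
    rw [hK]
    exact hsum.sum_le_tsum _ (fun m _ => by positivity)
  have hM1' : ((M - 1 : ℕ) : ℝ) ≤ (M : ℝ) := by
    exact_mod_cast Nat.sub_le M 1
  have hsn : 0 ≤ C * ((M : ℝ) ^ 2 * s ^ n) := by positivity
  -- `n ^ 2 s ^ n` small
  have hB' : C * ((M : ℝ) ^ 2 * s ^ n) ≤ (δ / 20) := by
    have e1 : (M : ℝ) ≤ 9 * (n : ℝ) := hM4R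
    have e2 : (M : ℝ) ^ 2 ≤ 81 * (n : ℝ) ^ 2 := by nlinarith
    have e3 : (0 : ℝ) < s ^ n := by positivity
    rw [lt_div_iff₀ (by positivity)] at hB
    calc C * ((M : ℝ) ^ 2 * s ^ n) ≤ C * ((81 * (n : ℝ) ^ 2) * s ^ n) := by gcongr
      _ = ((n : ℝ) ^ 2 * s ^ n * (162 * C)) / 2 := by ring
      _ ≤ (δ / 20) := by linarith
  -- the constant pairs
  have hconst : 4 * (q : ℝ) ^ (n + 3 + M) ≤ (δ / 10) * N := by
    have e0 : (q : ℝ) ^ (n + 3 + M) = (q : ℝ) ^ ((n : ℝ) + 3 + M) := by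
      rw [← Real.rpow_natCast]
      push_cast
      rfl
    have e1 : N = (q : ℝ) ^ (10 * (n : ℝ) + 2) := by
      rw [hN, ← Real.rpow_natCast]
      push_cast
      rfl
    have e2 : (q : ℝ) ^ ((n : ℝ) + 3 + M) ≤ (q : ℝ) ^ ((10 * (n : ℝ) + 2) + (1 - ε * n)) := by
      apply Real.rpow_le_rpow_of_exponent_le (by linarith)
      linarith
    have e3 : (q : ℝ) ^ ((10 * (n : ℝ) + 2) + (1 - ε * n)) = N * ((q : ℝ) / u ^ n) := by
      rw [Real.rpow_add hqpos, ← e1, Real.rpow_sub hqpos, Real.rpow_one, hu2,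
        Real.rpow_mul hqpos.le, Real.rpow_natCast]
    have hun : 0 < u ^ n := by positivity
    have e4 : (q : ℝ) / u ^ n ≤ δ / 40 := by
      rw [div_le_iff₀ hun]
      rw [div_le_iff₀ hδ] at hn4
      linarith
    have e5 : N * ((q : ℝ) / u ^ n) ≤ N * (δ / 40) := mul_le_mul_of_nonneg_left e4 hNpos.le
    rw [e0]
    linarith
  have hA' : 2 * C * K ≤ (δ / 10) * (M : ℝ) := by
    have e1 : (n : ℝ) ≤ (M : ℝ) := by linarith
    rw [div_le_iff₀ (by positivity)] at hA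
    nlinarith
  -- assembly
  have hCK : C * ∑ m ∈ Finset.Ico 1 M, (m : ℝ) * r ^ m ≤ C * K :=
    mul_le_mul_of_nonneg_left hKs hC.le
  have hfin : ∑ m ∈ Finset.Ico 1 M, (1 - (m : ℝ) / M) *
        ((∑ p ∈ adm F n, (powerSum (Q p.1 p.2) m).re) / (q : ℝ) ^ m) ≤
      N * ((M : ℝ) / 4 + (δ / 20) * (M : ℝ) + (δ / 20) * (M : ℝ)) + (δ / 20) * N * (M : ℝ) := by
    refine hsumterm.trans ?_
    apply add_le_add
    · apply mul_le_mul_of_nonneg_left _ hNpos.le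
      apply add_le_add
      · apply add_le_add hE
        linarith
      · calc ((M - 1 : ℕ) : ℝ) * (C * ((M : ℝ) ^ 2 * s ^ n)) ≤ (M : ℝ) * (δ / 20) := by
              apply mul_le_mul hM1' hB' hsn hM0.le
          _ = (δ / 20) * (M : ℝ) := by ring
    · calc ((M - 1 : ℕ) : ℝ) * (2 * (q : ℝ) ^ (n + 3 + M)) ≤ (M : ℝ) * ((δ / 20) * N) := by
            apply mul_le_mul hM1' (by linarith) (by positivity) hM0.le
        _ = (δ / 20) * N * (M : ℝ) := by ring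
  have hlast : (M : ℝ) * ∑ p ∈ adm F n, ((ord F (Q p.1 p.2) : ℕ) : ℝ) ≤
      (M : ℝ) * ((11 / 6 + δ) * N) := by
    refine hsumrank.trans ?_
    have e1 : 12 * (n : ℝ) ≤ (4 / 3 + ε / 5) * (M : ℝ) := by
      have e4 : 4 ≤ (n : ℝ) * ε := by
        rw [div_le_iff₀ hε] at hn3
        exact hn3
      have e5 : (4 / 3 + ε / 5) * ((9 - ε) * (n : ℝ) - 1) ≤ (4 / 3 + ε / 5) * (M : ℝ) :=
        mul_le_mul_of_nonneg_left (by linarith) (by positivity)
      have e6 : ε * (ε * (n : ℝ)) ≤ (1 / 10) * (ε * (n : ℝ)) :=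
        mul_le_mul_of_nonneg_right hε1 hεn0
      nlinarith
    have e2 : N * (12 * (n : ℝ)) ≤ N * ((4 / 3 + ε / 5) * (M : ℝ)) :=
      mul_le_mul_of_nonneg_left e1 hNpos.le
    have e7 : (4 / 3 + ε / 5) * (M : ℝ) ≤ (4 / 3 + δ / 5) * (M : ℝ) :=
      mul_le_mul_of_nonneg_right (by linarith) hM0.le
    have e8 : N * ((4 / 3 + ε / 5) * (M : ℝ)) ≤ N * ((4 / 3 + δ / 5) * (M : ℝ)) :=
      mul_le_mul_of_nonneg_left e7 hNpos.le
    have e3 : 0 ≤ N * (M : ℝ) := by positivity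
    have e9 : 0 ≤ δ * (N * (M : ℝ)) := by positivity
    nlinarith
  exact le_of_mul_le_mul_left hlast hM0

end Pool.Agent.Helper31.AR
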