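import Pool.Agent.Helper31.AR.QuadExt

/-!
# AR-28: the number of `x ∈ L ∖ k` with `x ^ 3 + a x ∈ k`

Let `Z(a)` be this set. `x ∈ L ∖ k` has minimal polynomial `X ^ 2 - u X + w` over `k` (`u = x + x̄`, `w = x x̄`,
`x̄ = x ^ |k|`). If `x ^ 3 + a x = y ∈ k`, then `X ^ 2 - u X + w` divides `X ^ 3 + a X - y` in `k[X]`, the quotient is `X + u`
(no `X ^ 2` term), and comparing the coefficients of `X`: `w - u ^ 2 = a`. Conversely, if `w = a + u ^ 2` then
`x ^ 3 + a x = (x ^ 2 - u x + w)(x + u) - u w = - u w ∈ k`. Elementary proof without division: `x ^ 2 = u x - w` gives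
`x ^ 3 = u x ^ 2 - w x = (u ^ 2 - w) x - u w`, so `x ^ 3 + a x = (u ^ 2 - w + a) x - u w`, which is in `k` iff
`u ^ 2 - w + a = 0` as `x ∉ k`.
So `x ∈ Z(a)` gives `u ∈ k` with `x ^ 2 - u x + (a + u ^ 2) = 0`, i.e. `(2 x - u) ^ 2 = - 3 u ^ 2 - 4 a =: δ(u)`, where
`δ(u)` is a nonsquare of `k` (if `δ(u) = e ^ 2` with `e ∈ k` then `2 x - u = ± e`, `x ∈ k`). For every `u` there are at most
two such `x`, so `|Z(a)| ≤ ∑_{u : quadraticChar k (δ u) = -1} 2 ≤ ∑_u (1 - quadraticChar k (δ u))
= |k| - ∑_u quadraticChar k (- 3 u ^ 2 - 4 a)`. In particular `|Z(a)| ≤ 2 |k|` always.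
For `a ≠ 0` and `3 ≠ 0`: `∑_u quadraticChar k (α u ^ 2 + β) = - quadraticChar k α` for `α β ≠ 0` (`α = -3`, `β = - 4 a`): so
`|Z(a)| ≤ |k| + 1`. Proof of this formula: `∑_u (1 + quadraticChar k (α u ^ 2 + β))` is the number of solutions of
`y ^ 2 = α u ^ 2 + β`; if `α = e ^ 2` then `(y - e u)(y + e u) = β` has `|k| - 1` solutions (bijection with `k^×`). If `α` is a
nonsquare: use the sum over all `β`: let `N(β)` be the number of solutions of `y ^ 2 - α u ^ 2 = β`. `N(0) = 1`, and `N(β)` is the
same for all `β ≠ 0` (the norm form of the quadratic extension: multiplicativity, or: `N(c ^ 2 β) = N(β)`, and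
`N(- α β) = N(β)`-type substitutions `(y, u) ↦ (α u, y)` change `β` into `- α β`; if `-1` is a square this joins the two
classes; in general use that the norm `x ↦ x ^ (|k| + 1)` from `L^×` onto `k^×` has fibres of `|k| + 1` elements), and
`∑_β N(β) = |k| ^ 2`, so `N(β) = (|k| ^ 2 - 1) / (|k| - 1) = |k| + 1`. Search Mathlib for an existing formula:
`quadraticChar`, `ZMod`, `FiniteField` sums (`jacobiSum` of quadratic characters: `jacobiSum_mul_jacobiSum_inv`,
`jacobiSum_nontrivial_inv : χ ≠ 1 → jacobiSum χ χ⁻¹ = -χ (-1)` gives it at once: with `t = u ^ 2`,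
`∑_u χ(α u ^ 2 + β) = ∑_t (1 + χ t) χ(α t + β) = ∑_t χ(t) χ(α t + β) = χ(α) χ(...) J(χ, χ)`).
-/

set_option autoImplicit false

open Polynomial

namespace Pool.Agent.Helper31.AR

variable {k : Type} [Field k] [Fintype k] {L : Type} [Field L] [Fintype L] [Algebra k L]

theorem ringChar_ne_two_of (h2 : (2 : k) ≠ 0) : ringChar k ≠ 2 := by
  intro h
  apply h2
  have := ringChar.Nat.cast_ringChar (R := k)
  rw [h] at this
  exact_mod_cast this

/-- The sum of the quadratic character over a linear polynomial vanishes. -/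
theorem sum_quadraticChar_linear [DecidableEq k] (h2 : (2 : k) ≠ 0) {α : k} (hα : α ≠ 0) (β : k) :
    ∑ t : k, quadraticChar k (α * t + β) = 0 := by
  rw [← quadraticChar_sum_zero (F := k) (ringChar_ne_two_of h2)]
  refine Fintype.sum_equiv ((Equiv.mulLeft₀ α hα).trans (Equiv.addRight β)) _ _ (fun t => ?_)
  simp

/-- The sum of the quadratic character over the values of a quadratic polynomial. -/
theorem sum_quadraticChar_conic [DecidableEq k] (h2 : (2 : k) ≠ 0) {α β : k} (hα : α ≠ 0)
    (hβ : β ≠ 0) :
    ∑ u : k, quadraticChar k (α * u ^ 2 + β) = -quadraticChar k α := by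
  have h1 : ∑ u : k, quadraticChar k (α * u ^ 2 + β) =
      ∑ t : k, (quadraticChar k t + 1) * quadraticChar k (α * t + β) := by
    rw [← Finset.sum_fiberwise' (Finset.univ : Finset k) (fun u => u ^ 2)
      (fun t => quadraticChar k (α * t + β))]
    refine Finset.sum_congr rfl (fun t _ => ?_)
    rw [Finset.sum_const, nsmul_eq_mul, ← quadraticChar_card_sqrts (ringChar_ne_two_of h2) t]
    congr 2
    congr 1
    ext x
    simp
  have h3 : ∑ t : k, quadraticChar k t * quadraticChar k (α * t + β) = -quadraticChar k α := by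
    rw [← Finset.add_sum_erase Finset.univ _ (Finset.mem_univ (0 : k))]
    rw [quadraticChar_zero, zero_mul, zero_add]
    have h4 : ∀ t ∈ Finset.univ.erase (0 : k),
        quadraticChar k t * quadraticChar k (α * t + β) = quadraticChar k (α + β * t⁻¹) := by
      intro t ht
      have ht0 : t ≠ 0 := Finset.ne_of_mem_erase ht
      have h5 : α * t + β = t * (α + β * t⁻¹) := by field_simp
      rw [h5, map_mul, ← mul_assoc, ← sq, quadraticChar_sq_one ht0, one_mul]
    rw [Finset.sum_congr rfl h4]
    have h6 : ∑ t ∈ Finset.univ.erase (0 : k), quadraticChar k (α + β * t⁻¹) =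
        ∑ s ∈ Finset.univ.erase (0 : k), quadraticChar k (α + s) := by
      refine Finset.sum_bij' (fun t _ => β * t⁻¹) (fun s _ => β * s⁻¹) ?_ ?_ ?_ ?_ ?_
      · intro t ht
        exact Finset.mem_erase.2 ⟨mul_ne_zero hβ (inv_ne_zero (Finset.ne_of_mem_erase ht)),
          Finset.mem_univ _⟩
      · intro t ht
        exact Finset.mem_erase.2 ⟨mul_ne_zero hβ (inv_ne_zero (Finset.ne_of_mem_erase ht)),
          Finset.mem_univ _⟩
      · intro t ht
        have := Finset.ne_of_mem_erase ht
        field_simp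
      · intro t ht
        have := Finset.ne_of_mem_erase ht
        field_simp
      · intro t ht
        rfl
    rw [h6]
    have h7 : ∑ s : k, quadraticChar k (α + s) = 0 := by
      have := sum_quadraticChar_linear h2 (one_ne_zero (α := k)) α
      rw [← this]
      refine Finset.sum_congr rfl (fun s _ => ?_)
      rw [one_mul, add_comm]
    rw [← Finset.add_sum_erase Finset.univ _ (Finset.mem_univ (0 : k)), add_zero] at h7
    linarith
  rw [h1]
  simp only [add_mul, one_mul, Finset.sum_add_distrib]
  rw [h3, sum_quadraticChar_linear h2 hα β, add_zero]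

/-- For `x` outside `k` the elements `1`, `x` span `L`. -/
theorem exists_lin (hL : Fintype.card L = Fintype.card k ^ 2) {x : L}
    (hx : x ∉ Set.range (algebraMap k L)) (y : L) :
    ∃ u w : k, y = algebraMap k L u * x - algebraMap k L w := by
  classical
  have hinj := (algebraMap k L).injective
  let φ : k × k → L := fun p => algebraMap k L p.1 * x - algebraMap k L p.2
  have hφ : Function.Injective φ := by
    rintro ⟨c, d⟩ ⟨c', d'⟩ h
    simp only [φ] at h
    by_cases h1 : c = c'
    · subst h1
      have h3 := sub_right_injective h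
      rw [hinj h3]
    · exfalso
      apply hx
      have h3 : algebraMap k L (c - c') ≠ 0 := by
        rw [Ne, map_eq_zero_iff _ hinj]; exact sub_ne_zero.2 h1
      refine ⟨(d - d') / (c - c'), ?_⟩
      rw [map_div₀, div_eq_iff h3]
      simp only [map_sub]
      linear_combination -h
  have hb : Function.Bijective φ := by
    rw [Fintype.bijective_iff_injective_and_card]
    refine ⟨hφ, ?_⟩
    rw [hL, Fintype.card_prod, sq]
  obtain ⟨⟨u, w⟩, h⟩ := hb.2 y
  exact ⟨u, w, h.symm⟩

open Classical in
theorem card_Z_le_sum (h2 : (2 : k) ≠ 0) (hL : Fintype.card L = Fintype.card k ^ 2) (a : k) :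
    ((Finset.univ.filter (fun x : L => x ∉ Set.range (algebraMap k L) ∧
      x ^ 3 + algebraMap k L a * x ∈ Set.range (algebraMap k L))).card : ℤ) ≤
      ∑ u : k, (1 - quadraticChar k (-3 * u ^ 2 + -4 * a)) := by
  set Z := Finset.univ.filter (fun x : L => x ∉ Set.range (algebraMap k L) ∧
      x ^ 3 + algebraMap k L a * x ∈ Set.range (algebraMap k L)) with hZ
  have hinj := (algebraMap k L).injective
  have h2L : (2 : L) ≠ 0 := two_ne_zero_ext h2
  have key : ∀ x ∈ Z, ∃ u : k, (2 * x - algebraMap k L u) ^ 2 =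
      algebraMap k L (-3 * u ^ 2 + -4 * a) := by
    intro x hx
    rw [hZ, Finset.mem_filter] at hx
    obtain ⟨-, hx1, hx2⟩ := hx
    obtain ⟨y, hy⟩ := hx2
    obtain ⟨u, w, huw⟩ := exists_lin hL hx1 (x ^ 2)
    have h3 : algebraMap k L (u ^ 2 - w + a) * x = algebraMap k L (y + u * w) := by
      simp only [map_add, map_sub, map_mul, map_pow]
      rw [hy]
      linear_combination (-x - algebraMap k L u) * huw
    have h4 : u ^ 2 - w + a = 0 := by
      by_contra h5
      apply hx1
      have h6 : algebraMap k L (u ^ 2 - w + a) ≠ 0 := by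
        rw [Ne, map_eq_zero_iff _ hinj]; exact h5
      refine ⟨(y + u * w) / (u ^ 2 - w + a), ?_⟩
      rw [map_div₀, div_eq_iff h6, ← h3, mul_comm]
    have h5 : w = u ^ 2 + a := by linear_combination -h4
    refine ⟨u, ?_⟩
    rw [h5] at huw
    simp only [map_add, map_mul, map_pow, map_neg, map_ofNat] at huw ⊢
    linear_combination 4 * huw
  choose! g hg using key
  have h3 : (Z.card : ℤ) = ∑ u : k, ((Z.filter (fun x => g x = u)).card : ℤ) := by
    rw [Finset.card_eq_sum_card_fiberwise (f := g) (t := Finset.univ) (fun _ _ => Finset.mem_univ _)]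
    push_cast
    rfl
  rw [h3]
  refine Finset.sum_le_sum (fun u _ => ?_)
  by_cases hsq : quadraticChar k (-3 * u ^ 2 + -4 * a) = -1
  · rw [hsq]
    -- at most two roots
    rcases Finset.eq_empty_or_nonempty (Z.filter (fun x => g x = u)) with h0 | ⟨x₀, hx₀⟩
    · rw [h0]; simp
    · rw [Finset.mem_filter] at hx₀
      have h5 : Z.filter (fun x => g x = u) ⊆ {x₀, algebraMap k L u - x₀} := by
        intro x hx
        rw [Finset.mem_filter] at hx
        have e1 := hg x hx.1
        have e2 := hg x₀ hx₀.1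
        rw [hx.2] at e1
        rw [hx₀.2] at e2
        have e3 : (2 : L) * 2 * ((x - x₀) * (x - (algebraMap k L u - x₀))) = 0 := by
          linear_combination e1 - e2
        rcases mul_eq_zero.1 e3 with e4 | e4
        · exact absurd e4 (mul_ne_zero h2L h2L)
        · rw [Finset.mem_insert, Finset.mem_singleton]
          rcases mul_eq_zero.1 e4 with e5 | e5
          · left; exact sub_eq_zero.1 e5
          · right; exact sub_eq_zero.1 e5
      have h6 : (Z.filter (fun x => g x = u)).card ≤ 2 :=
        le_trans (Finset.card_le_card h5) Finset.card_le_two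
      have h7 : ((Z.filter (fun x => g x = u)).card : ℤ) ≤ 2 := by exact_mod_cast h6
      linarith
  · have h0 : Z.filter (fun x => g x = u) = ∅ := by
      rw [Finset.filter_eq_empty_iff]
      intro x hx hxu
      have e1 := hg x hx
      rw [hxu] at e1
      rw [quadraticChar_neg_one_iff_not_isSquare, not_not] at hsq
      obtain ⟨e, he⟩ := hsq
      rw [hZ, Finset.mem_filter] at hx
      obtain ⟨-, hx1, -⟩ := hx
      apply hx1
      rw [he, map_mul] at e1
      have e2 : (2 * x - algebraMap k L u - algebraMap k L e) *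
          (2 * x - algebraMap k L u + algebraMap k L e) = 0 := by
        linear_combination e1
      rcases mul_eq_zero.1 e2 with e3 | e3
      · refine ⟨(u + e) / 2, ?_⟩
        rw [map_div₀, map_add, map_ofNat, div_eq_iff h2L]
        linear_combination -e3
      · refine ⟨(u - e) / 2, ?_⟩
        rw [map_div₀, map_sub, map_ofNat, div_eq_iff h2L]
        linear_combination -e3
    rw [h0]
    have h1 : quadraticChar k (-3 * u ^ 2 + -4 * a) ≤ 1 := by
      by_cases hz : (-3 * u ^ 2 + -4 * a) = 0
      · rw [hz, quadraticChar_zero]; norm_num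
      · rcases quadraticChar_dichotomy hz with h | h
        · rw [h]
        · rw [h]; norm_num
    simp only [Finset.card_empty, Nat.cast_zero]
    linarith

open Classical in
theorem card_Z_le (h2 : (2 : k) ≠ 0) (hL : Fintype.card L = Fintype.card k ^ 2) (a : k) :
    (Finset.univ.filter (fun x : L => x ∉ Set.range (algebraMap k L) ∧
      x ^ 3 + algebraMap k L a * x ∈ Set.range (algebraMap k L))).card ≤ 2 * Fintype.card k := by
  have h := card_Z_le_sum h2 hL a
  have h1 : ∑ u : k, (1 - quadraticChar k (-3 * u ^ 2 + -4 * a)) ≤ ∑ _u : k, (2 : ℤ) := by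
    refine Finset.sum_le_sum (fun u _ => ?_)
    have h3 : -1 ≤ quadraticChar k (-3 * u ^ 2 + -4 * a) := by
      by_cases hz : (-3 * u ^ 2 + -4 * a) = 0
      · rw [hz, quadraticChar_zero]; norm_num
      · rcases quadraticChar_dichotomy hz with h | h
        · rw [h]; norm_num
        · rw [h]
    linarith
  rw [Finset.sum_const, Finset.card_univ, nsmul_eq_mul] at h1
  have h4 := le_trans h h1
  have h5 : ((Finset.univ.filter (fun x : L => x ∉ Set.range (algebraMap k L) ∧
      x ^ 3 + algebraMap k L a * x ∈ Set.range (algebraMap k L))).card : ℤ) ≤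
      ((2 * Fintype.card k : ℕ) : ℤ) := by
    push_cast
    linarith
  exact_mod_cast h5

open Classical in
theorem card_Z_le_of_ne (h2 : (2 : k) ≠ 0) (h3 : (3 : k) ≠ 0)
    (hL : Fintype.card L = Fintype.card k ^ 2) {a : k} (ha : a ≠ 0) :
    (Finset.univ.filter (fun x : L => x ∉ Set.range (algebraMap k L) ∧
      x ^ 3 + algebraMap k L a * x ∈ Set.range (algebraMap k L))).card ≤ Fintype.card k + 1 := by
  have h := card_Z_le_sum h2 hL a
  have h4 : (-4 : k) * a ≠ 0 := by
    refine mul_ne_zero ?_ ha
    have : (-4 : k) = -(2 * 2) := by norm_num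
    rw [this]
    exact neg_ne_zero.2 (mul_ne_zero h2 h2)
  have h3' : (-3 : k) ≠ 0 := neg_ne_zero.2 h3
  have h1 : ∑ u : k, (1 - quadraticChar k (-3 * u ^ 2 + -4 * a)) =
      Fintype.card k + quadraticChar k (-3 : k) := by
    rw [Finset.sum_sub_distrib, sum_quadraticChar_conic h2 h3' h4]
    simp
  rw [h1] at h
  have h6 : quadraticChar k (-3 : k) ≤ 1 := by
    rcases quadraticChar_dichotomy h3' with h | h
    · rw [h]
    · rw [h]; norm_num
  have h5 : ((Finset.univ.filter (fun x : L => x ∉ Set.range (algebraMap k L) ∧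
      x ^ 3 + algebraMap k L a * x ∈ Set.range (algebraMap k L))).card : ℤ) ≤
      ((Fintype.card k + 1 : ℕ) : ℤ) := by
    push_cast
    linarith
  exact_mod_cast h5

end Pool.Agent.Helper31.AR
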