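import Pool.Agent.Helper31.AR.Defs

/-!
# Definitions for the part `e = 0` (no sorry)

`Aint` is the sum over `z` of degree `< Z` (it depends only on the leading coefficients of `v`), `Cs` a complete
cubic sum modulo `s`, `Ysum` the sum over the part of `c` coprime to `s`.
-/

set_option autoImplicit false

open Polynomial

namespace Pool.Agent.Helper31.AR

variable {F : Type} [Field F] [Fintype F]

/-- The sum of `ψ (h z ^ 3)` modulo `v` over `z` of degree `< Z`. -/
noncomputable def Aint (ψ : AddChar F ℂ) (Z : ℕ) (v h : F[X]) : ℂ :=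
  ∑ z ∈ PN F Z, ψ (rho v (h * z ^ 3))

/-- The sum of `ψ (- c t ^ 3 / v)` modulo `s` over the residues `t` modulo `s`. -/
noncomputable def Cs (ψ : AddChar F ℂ) (v c s : F[X]) : ℂ :=
  ∑ t ∈ PN F s.natDegree, ψ (-(rho s (c * t ^ 3 * minv s v)))

open Classical in
/-- The sum over the squarefree `c` of degree `γ` coprime to `s`. -/
noncomputable def Ysum (ψ : AddChar F ℂ) (Z γ : ℕ) (s c2 v : F[X]) : ℂ :=
  if IsCoprime v s then
    ∑ c ∈ (MN F γ).filter (fun c => Squarefree c ∧ IsCoprime c s),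
      (J (c * c2) v : ℂ) * Aint ψ Z v (c * c2 * s ^ 2) * Cs ψ v (c * c2) s
  else 0

open Classical in
/-- The pairs `(t, t')` of residues modulo `s` with `s ∣ c (t ^ 3 - t' ^ 3)`. -/
noncomputable def cubePairs (σ : ℕ) (c s : F[X]) : Finset (F[X] × F[X]) :=
  (PN F σ ×ˢ PN F σ).filter (fun p => s ∣ c * (p.1 ^ 3 - p.2 ^ 3))

end Pool.Agent.Helper31.AR
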