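import Pool.Agent.Helper31.AR.Defs

/-!
# Definitions for the part `e ≠ 0` (no sorry)

* `vset`: the monic `v` of degree `6 n + 1 + a`, coprime to `h` and `h'`, with `k ∈ kset .. v h e`, `k' ∈ kset .. v h' e'`.
* `cntR R`: those which moreover satisfy `d η η' ∣ v ^ 2 R - (k ^ 3 η' ^ 2 - k' ^ 3 η ^ 2)` (`h = d η`, `h' = d η'`).
* `cnt`: those for which this holds for some `R` of degree `< 2 D + a - 2 j - 6 n - 3`.
* `gdeg`: the degree of the gcd. `Sq e`: the sum of `q ^ (deg g)` over the monic `g` with `g ^ 2 ∣ e`.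
-/

set_option autoImplicit false

open Polynomial

namespace Pool.Agent.Helper31.AR

variable {F : Type} [Field F] [Fintype F]

open Classical in
/-- The `v` for which `k`, `k'` occur in the sets of `(h, e)`, `(h', e')`. -/
noncomputable def vset (n a D : ℕ) (h k e h' k' e' : F[X]) : Finset F[X] :=
  (MN F (6 * n + 1 + a)).filter (fun v => IsCoprime v h ∧ IsCoprime v h' ∧
    k ∈ kset n a D v h e ∧ k' ∈ kset n a D v h' e')

open Classical in
/-- The number of `v` with the residue condition for `R`. -/
noncomputable def cntR (n a D : ℕ) (d η η' k e k' e' R : F[X]) : ℕ :=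
  ((vset n a D (d * η) k e (d * η') k' e').filter
    (fun v => d * η * η' ∣ v ^ 2 * R - (k ^ 3 * η' ^ 2 - k' ^ 3 * η ^ 2))).card

open Classical in
/-- The number of `v` with the residue condition for some `R` of small degree. -/
noncomputable def cnt (n a D j : ℕ) (d η η' k e k' e' : F[X]) : ℕ :=
  ((vset n a D (d * η) k e (d * η') k' e').filter
    (fun v => ∃ R ∈ PN F (2 * D + a - 2 * j - 6 * n - 3),
      d * η * η' ∣ v ^ 2 * R - (k ^ 3 * η' ^ 2 - k' ^ 3 * η ^ 2))).card

/-- The degree of the greatest common divisor. -/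
noncomputable def gdeg (f g : F[X]) : ℕ := by
  classical
  exact (EuclideanDomain.gcd f g).natDegree

open Classical in
/-- The sum of `q ^ (deg g)` over the monic `g` with `g ^ 2 ∣ e`. -/
noncomputable def Sq (e : F[X]) : ℕ :=
  ∑ g ∈ (dv e).filter (fun g => g ^ 2 ∣ e), Fintype.card F ^ g.natDegree

end Pool.Agent.Helper31.AR
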