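import Mathlib

/-!
# Project AR (MP_8ac872_ag): the average analytic rank of elliptic curves over `F_q(t)`: definitions

`F` is a finite field with `q` elements, `ψ` an additive character of `F`.

* `rho M f` is the coefficient of `X ^ (deg M - 1)` of the remainder of `f` modulo `M` (the residue
  at infinity of `f / M`).
* `minv M v` is an inverse of `v` modulo `M`.
* `PN F N` is the finset of the polynomials of degree `< N`, `MN F m` the finset of the monic
  polynomials of degree `m`.
* `J h v` is the quadratic character of `F` at the resultant of `h` and `v`.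
* `dv f` is the finset of the monic divisors of `f ≠ 0`, `dmax F N` bounds their number for
  `deg f ≤ N`.
* `chi L` is the quadratic character of a finite field `L`, `cub L a b` the sum of `chi L (x ^ 3 + a x + b)`
  over `x`, `TT L n A B` the sum of `cub L (A t) (B t)` over `t` plus the fibre at infinity.
* `XS`, `X0`, `X1` are the exponential sums of the proof.
-/

set_option autoImplicit false

open Polynomial

namespace Pool.Agent.Helper31.AR

section basics

variable {F : Type} [Field F]

/-- The coefficient of `X ^ (deg M - 1)` of the remainder of `f` modulo `M`. -/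
noncomputable def rho (M f : F[X]) : F := (f %ₘ M).coeff (M.natDegree - 1)

open Classical in
/-- An inverse of `v` modulo `M` (zero if `v` is not coprime to `M`). -/
noncomputable def minv (M v : F[X]) : F[X] := if h : IsCoprime v M then Classical.choose h else 0

end basics

section fin

variable (F : Type) [Field F] [Fintype F]

open Classical in
/-- The finset of the polynomials of degree less than `N`. -/
noncomputable def PN (N : ℕ) : Finset F[X] :=
  Finset.univ.image (fun c : Fin N → F => ∑ i, C (c i) * X ^ (i : ℕ))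

open Classical in
/-- The finset of the monic polynomials of degree `m`. -/
noncomputable def MN (m : ℕ) : Finset F[X] := (PN F m).image (fun f => X ^ m + f)

end fin

section more

variable {F : Type} [Field F] [Fintype F]

open Classical in
/-- The quadratic character of `F` at the resultant of `h` and `v`. -/
noncomputable def J (h v : F[X]) : ℤ := quadraticChar F (resultant h v)

open Classical in
/-- The finset of the monic divisors of `f ≠ 0`. -/
noncomputable def dv (f : F[X]) : Finset F[X] :=
  ((Finset.range (f.natDegree + 1)).biUnion (fun i => MN F i)).filter (fun g => g ∣ f)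

variable (F) in
open Classical in
/-- The maximal number of monic divisors of a nonzero polynomial of degree at most `N`. -/
noncomputable def dmax (N : ℕ) : ℕ :=
  (PN F (N + 1)).sup (fun f => if f = 0 then 1 else (dv f).card)

end more

section fields

variable (L : Type) [Field L] [Fintype L]

open Classical in
/-- The quadratic character of the finite field `L`. -/
noncomputable def chi (z : L) : ℤ := quadraticChar L z

/-- The sum of the quadratic character over the values of `x ^ 3 + a x + b`. -/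
noncomputable def cub (a b : L) : ℤ := ∑ x : L, chi L (x ^ 3 + a * x + b)

/-- The sum of `cub L (A t) (B t)` over `t` in `L`, plus the term of the fibre at infinity. -/
noncomputable def TT {F : Type} [Field F] [Algebra F L] (n : ℕ) (A B : F[X]) : ℤ :=
  (∑ t : L, cub L (aeval t A) (aeval t B)) +
    cub L (algebraMap F L (A.coeff (4 * n))) (algebraMap F L (B.coeff (6 * n)))

end fields

section sums

variable {F : Type} [Field F] [Fintype F]

/-- The cubic sum of `ψ (k ^ 3 / h ^ 2)` modulo `v` over `k` of degree `< K`. -/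
noncomputable def inn (ψ : AddChar F ℂ) (K : ℕ) (v h : F[X]) : ℂ :=
  ∑ k ∈ PN F K, ψ (rho v (k ^ 3 * minv v h ^ 2))

/-- The sum of `J h v` times the cubic sum over the monic `h` of degree `D`. -/
noncomputable def XS (ψ : AddChar F ℂ) (K D : ℕ) (v : F[X]) : ℂ :=
  ∑ h ∈ MN F D, (J h v : ℂ) * inn ψ K v h

/-- The phase `ψ (k ^ 3 / h ^ 2)` modulo `v`, written with the modulus `h ^ 2` by reciprocity. -/
noncomputable def Phi (ψ : AddChar F ℂ) (v h k : F[X]) : ℂ :=
  ψ (rho (h ^ 2 * v) (k ^ 3) - rho (h ^ 2) (k ^ 3 * minv (h ^ 2) v))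

open Classical in
/-- The `k` of degree `< 2 n + a` with `h ∣ k ^ 2 - v e` and `deg (k ^ 2 - v e) < 4 n + a + D`. -/
noncomputable def kset (n a D : ℕ) (v h e : F[X]) : Finset F[X] :=
  (PN F (2 * n + a)).filter (fun k => h ∣ k ^ 2 - v * e ∧
    (k ^ 2 - v * e).degree < ((4 * n + a + D : ℕ) : WithBot ℕ))

/-- The part `e = 0` of `XS`. -/
noncomputable def X0 (ψ : AddChar F ℂ) (n a D : ℕ) (v : F[X]) : ℂ :=
  ∑ h ∈ MN F D, (J h v : ℂ) * ∑ k ∈ kset n a D v h 0, Phi ψ v h k

open Classical in
/-- The part `e ≠ 0` of `XS`. -/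
noncomputable def X1 (ψ : AddChar F ℂ) (n a D : ℕ) (v : F[X]) : ℂ :=
  ∑ h ∈ MN F D, (J h v : ℂ) *
    ∑ e ∈ (PN F (a - 2 * n - 2)).erase 0, ∑ k ∈ kset n a D v h e, Phi ψ v h k

end sums

/-! ## Membership and cardinality -/

section mem

variable {F : Type} [Field F] [Fintype F]

theorem mem_PN (N : ℕ) (f : F[X]) : f ∈ PN F N ↔ f.degree < (N : WithBot ℕ) := by
  classical
  unfold PN
  rw [Finset.mem_image]
  constructor
  · rintro ⟨c, -, rfl⟩
    exact Polynomial.degree_sum_fin_lt c
  · intro h
    refine ⟨fun i => f.coeff i, Finset.mem_univ _, ?_⟩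
    ext j
    simp only [finset_sum_coeff, coeff_C_mul, coeff_X_pow]
    by_cases hj : j < N
    · rw [Finset.sum_eq_single ⟨j, hj⟩]
      · simp
      · intro b _ hb
        rw [if_neg, mul_zero]
        intro h1
        exact hb (Fin.ext h1.symm)
      · intro h1
        exact absurd (Finset.mem_univ _) h1
    · rw [Finset.sum_eq_zero]
      · rw [coeff_eq_zero_of_degree_lt]
        exact lt_of_lt_of_le h (by exact_mod_cast (not_lt.1 hj))
      · intro b _
        rw [if_neg, mul_zero]
        intro h1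
        exact hj (h1 ▸ b.2)

theorem card_PN (N : ℕ) : (PN F N).card = Fintype.card F ^ N := by
  classical
  unfold PN
  rw [Finset.card_image_of_injective]
  · simp
  · intro c d h
    funext i
    have h1 := congrArg (fun f : F[X] => f.coeff i) h
    simp only [finset_sum_coeff, coeff_C_mul, coeff_X_pow] at h1
    rw [Finset.sum_eq_single i, Finset.sum_eq_single i] at h1
    · simpa using h1
    · intro b _ hb
      rw [if_neg, mul_zero]
      intro h2
      exact hb (Fin.ext h2.symm)
    · intro h2
      exact absurd (Finset.mem_univ _) h2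
    · intro b _ hb
      rw [if_neg, mul_zero]
      intro h2
      exact hb (Fin.ext h2.symm)
    · intro h2
      exact absurd (Finset.mem_univ _) h2

theorem mem_MN (m : ℕ) (v : F[X]) : v ∈ MN F m ↔ v.Monic ∧ v.natDegree = m := by
  classical
  unfold MN
  rw [Finset.mem_image]
  constructor
  · rintro ⟨f, hf, rfl⟩
    rw [mem_PN] at hf
    refine ⟨monic_X_pow_add hf, ?_⟩
    exact natDegree_eq_of_degree_eq_some (by rw [degree_add_eq_left_of_degree_lt (by simpa using hf)]; simp)
  · rintro ⟨h1, h2⟩
    refine ⟨v - X ^ m, ?_, by ring⟩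
    rw [mem_PN]
    have h3 : v.degree = (m : WithBot ℕ) := by rw [degree_eq_natDegree h1.ne_zero, h2]
    rw [← h3]
    refine degree_sub_lt ?_ h1.ne_zero ?_
    · rw [h3]; simp
    · rw [h1.leadingCoeff]; simp

theorem card_MN (m : ℕ) : (MN F m).card = Fintype.card F ^ m := by
  classical
  unfold MN
  rw [Finset.card_image_of_injective, card_PN]
  intro f g h
  simpa using h

theorem zero_mem_PN (N : ℕ) : (0 : F[X]) ∈ PN F N := by
  rw [mem_PN]; simp

theorem add_mem_PN {N : ℕ} {f g : F[X]} (hf : f ∈ PN F N) (hg : g ∈ PN F N) : f + g ∈ PN F N := by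
  rw [mem_PN] at *
  exact lt_of_le_of_lt (degree_add_le f g) (max_lt hf hg)

theorem neg_mem_PN {N : ℕ} {f : F[X]} (hf : f ∈ PN F N) : -f ∈ PN F N := by
  rw [mem_PN] at *
  rwa [degree_neg]

theorem sub_mem_PN {N : ℕ} {f g : F[X]} (hf : f ∈ PN F N) (hg : g ∈ PN F N) : f - g ∈ PN F N := by
  rw [sub_eq_add_neg]
  exact add_mem_PN hf (neg_mem_PN hg)

theorem C_mul_mem_PN {N : ℕ} {f : F[X]} (c : F) (hf : f ∈ PN F N) : C c * f ∈ PN F N := by
  rw [mem_PN] at *
  refine lt_of_le_of_lt ?_ hf
  by_cases hc : c = 0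
  · simp [hc]
  · rw [degree_C_mul hc]

theorem PN_mono {M N : ℕ} (h : M ≤ N) {f : F[X]} (hf : f ∈ PN F M) : f ∈ PN F N := by
  rw [mem_PN] at *
  exact lt_of_lt_of_le hf (by exact_mod_cast h)

theorem mem_PN_iff_natDegree {N : ℕ} {f : F[X]} (hN : 0 < N) : f ∈ PN F N ↔ f.natDegree < N := by
  rw [mem_PN]
  by_cases h0 : f = 0
  · subst h0; simp [hN]
  · exact (Polynomial.natDegree_lt_iff_degree_lt h0).symm

theorem mul_mem_PN {a b : ℕ} {f g : F[X]} (hf : f ∈ PN F a) (hg : g ∈ PN F b) :
    f * g ∈ PN F (a + b - 1) := by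
  by_cases h0 : f = 0
  · subst h0; rw [zero_mul]; exact zero_mem_PN _
  by_cases h1 : g = 0
  · subst h1; rw [mul_zero]; exact zero_mem_PN _
  rw [mem_PN] at *
  rw [← Polynomial.natDegree_lt_iff_degree_lt h0] at hf
  rw [← Polynomial.natDegree_lt_iff_degree_lt h1] at hg
  rw [← Polynomial.natDegree_lt_iff_degree_lt (mul_ne_zero h0 h1), natDegree_mul h0 h1]
  omega

theorem sum_PN_add {E : Type*} [AddCommMonoid E] {N : ℕ} {g : F[X]} (hg : g ∈ PN F N)
    (G : F[X] → E) : ∑ f ∈ PN F N, G (f + g) = ∑ f ∈ PN F N, G f := by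
  refine Finset.sum_bij' (fun f _ => f + g) (fun f _ => f - g) ?_ ?_ ?_ ?_ ?_
  · intro f hf; exact add_mem_PN hf hg
  · intro f hf; exact sub_mem_PN hf hg
  · intro f _; ring
  · intro f _; ring
  · intro f _; rfl

theorem monic_of_mem_MN {m : ℕ} {v : F[X]} (hv : v ∈ MN F m) : v.Monic := ((mem_MN m v).1 hv).1

theorem natDegree_of_mem_MN {m : ℕ} {v : F[X]} (hv : v ∈ MN F m) : v.natDegree = m :=
  ((mem_MN m v).1 hv).2

theorem degree_of_mem_MN {m : ℕ} {v : F[X]} (hv : v ∈ MN F m) : v.degree = (m : WithBot ℕ) := by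
  rw [degree_eq_natDegree (monic_of_mem_MN hv).ne_zero, natDegree_of_mem_MN hv]

theorem MN_add {m : ℕ} {v f : F[X]} (hv : v ∈ MN F m) (hf : f ∈ PN F m) : v + f ∈ MN F m := by
  rw [mem_MN]
  rw [mem_PN] at hf
  have h := degree_of_mem_MN hv
  constructor
  · exact (monic_of_mem_MN hv).add_of_left (by rw [h]; exact hf)
  · refine natDegree_eq_of_degree_eq_some ?_
    rw [degree_add_eq_left_of_degree_lt (by rw [h]; exact hf), h]

theorem MN_mul {m n : ℕ} {v w : F[X]} (hv : v ∈ MN F m) (hw : w ∈ MN F n) :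
    v * w ∈ MN F (m + n) := by
  rw [mem_MN] at *
  refine ⟨hv.1.mul hw.1, ?_⟩
  rw [hv.1.natDegree_mul hw.1, hv.2, hw.2]

theorem minv_spec {M v : F[X]} (h : IsCoprime v M) : M ∣ minv M v * v - 1 := by
  unfold minv
  rw [dif_pos h]
  obtain ⟨b, hb⟩ := Classical.choose_spec h
  exact ⟨-b, by linear_combination hb⟩

theorem mem_dv {f : F[X]} (hf : f ≠ 0) (g : F[X]) : g ∈ dv f ↔ g.Monic ∧ g ∣ f := by
  classical
  unfold dv
  rw [Finset.mem_filter, Finset.mem_biUnion]
  constructor
  · rintro ⟨⟨i, -, hi⟩, h⟩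
    exact ⟨monic_of_mem_MN hi, h⟩
  · rintro ⟨h1, h2⟩
    refine ⟨⟨g.natDegree, ?_, (mem_MN _ _).2 ⟨h1, rfl⟩⟩, h2⟩
    rw [Finset.mem_range]
    exact Nat.lt_succ_of_le (natDegree_le_of_dvd h2 hf)

theorem card_dv_le {f : F[X]} (hf : f ≠ 0) {N : ℕ} (hN : f.natDegree ≤ N) :
    (dv f).card ≤ dmax F N := by
  classical
  unfold dmax
  have h : f ∈ PN F (N + 1) := by
    rw [mem_PN_iff_natDegree (Nat.succ_pos N)]
    exact Nat.lt_succ_of_le hN
  refine le_trans ?_ (Finset.le_sup h)
  rw [if_neg hf]

theorem one_le_dmax (N : ℕ) : 1 ≤ dmax F N := by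
  classical
  unfold dmax
  refine le_trans ?_ (Finset.le_sup (zero_mem_PN (N + 1)))
  rw [if_pos rfl]

end mem

end Pool.Agent.Helper31.AR
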