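import Pool.Agent.Helper31.AR.Defs

/-!
# AR-48: sums over a finite field, according to the degree over `F`

`card L = q ^ m`, `finrank F L = m`. For `t ∈ L` put `d(t) = (minpoly F t).natDegree`; it divides `m`
(`minpoly.natDegree_dvd`-like; `IntermediateField.adjoin.finrank`, `finrank_mul_finrank`), `d(t) ≥ 1`. So `d(t) = m`, or `2 d(t) = m`, or `3 d(t) ≤ m`.

* `d(t) = m`: the minimal polynomial `v` is in `MN F m` and irreducible, and every `v` has at most `m` roots in `L`:
  `∑_{t : d(t) = m} G t ≤ ∑_{t : d(t) = m} P (minpoly F t) ≤ m ∑_v P v`.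
* The number of `t` with `d(t) = d` is at most `q ^ d` (for `d ∣ m`: such `t` satisfy `t ^ (q ^ d) = t`, a polynomial of degree `q ^ d`; or: they
  are roots of the polynomials ... any proof). So the part `2 d(t) = m` is `≤ q ^ (m / 2) H`, and the part `3 d(t) ≤ m` is
  `≤ ∑_{1 ≤ d ≤ m / 3} q ^ d S ≤ m q ^ (m / 3) S`.
(`H, S, P ≥ 0` are used to pass to upper bounds.)
-/

set_option autoImplicit false

open Polynomial

namespace Pool.Agent.Helper31.AR

variable {F : Type} [Field F] [Fintype F] {L : Type} [Field L] [Fintype L] [Algebra F L]

private theorem pow_card_eq_self (t : L) :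
    t ^ (Fintype.card F ^ (minpoly F t).natDegree) = t := by
  classical
  have hint : IsIntegral F t := Algebra.IsIntegral.isIntegral t
  haveI : Fintype (IntermediateField.adjoin F {t}) := Fintype.ofFinite _
  have h1 : Fintype.card (IntermediateField.adjoin F {t}) =
      Fintype.card F ^ (minpoly F t).natDegree := by
    rw [Module.card_eq_pow_finrank (K := F), IntermediateField.adjoin.finrank hint]
  have h2 := FiniteField.pow_card (IntermediateField.AdjoinSimple.gen F t)
  rw [h1] at h2
  have h3 := congrArg (fun z : IntermediateField.adjoin F {t} => (z : L)) h2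
  simpa using h3

open Classical in
private theorem card_degree_le {d : ℕ} (hd : 1 ≤ d) :
    (Finset.univ.filter (fun t : L => (minpoly F t).natDegree = d)).card ≤ Fintype.card F ^ d := by
  have hq : 1 < Fintype.card F ^ d :=
    Nat.one_lt_pow (by omega) Fintype.one_lt_card
  have hne : (X ^ (Fintype.card F ^ d) - X : L[X]) ≠ 0 :=
    FiniteField.X_pow_card_sub_X_ne_zero L hq
  have hdeg : (X ^ (Fintype.card F ^ d) - X : L[X]).natDegree = Fintype.card F ^ d :=
    FiniteField.X_pow_card_sub_X_natDegree_eq L hq
  calc (Finset.univ.filter (fun t : L => (minpoly F t).natDegree = d)).card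
      ≤ (X ^ (Fintype.card F ^ d) - X : L[X]).roots.toFinset.card := by
        apply Finset.card_le_card
        intro t ht
        have ht' : (minpoly F t).natDegree = d := by simpa using ht
        rw [Multiset.mem_toFinset, mem_roots hne, IsRoot.def, eval_sub, eval_pow, eval_X]
        have h1 := pow_card_eq_self (F := F) t
        rw [ht'] at h1
        rw [h1, sub_self]
    _ ≤ Multiset.card (X ^ (Fintype.card F ^ d) - X : L[X]).roots := Multiset.toFinset_card_le _
    _ ≤ (X ^ (Fintype.card F ^ d) - X : L[X]).natDegree := card_roots' _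
    _ = Fintype.card F ^ d := hdeg

open Classical in
private theorem card_small_le (m : ℕ) :
    (Finset.univ.filter (fun t : L => 3 * (minpoly F t).natDegree ≤ m)).card ≤
      m * Fintype.card F ^ (m / 3) := by
  calc (Finset.univ.filter (fun t : L => 3 * (minpoly F t).natDegree ≤ m)).card
      ≤ ((Finset.Icc 1 (m / 3)).biUnion
          (fun d => Finset.univ.filter (fun t : L => (minpoly F t).natDegree = d))).card := by
        apply Finset.card_le_card
        intro t ht
        have ht' : 3 * (minpoly F t).natDegree ≤ m := by simpa using ht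
        have hpos : 0 < (minpoly F t).natDegree :=
          minpoly.natDegree_pos (Algebra.IsIntegral.isIntegral t)
        rw [Finset.mem_biUnion]
        refine ⟨(minpoly F t).natDegree, ?_, by simp⟩
        rw [Finset.mem_Icc]
        omega
    _ ≤ ∑ d ∈ Finset.Icc 1 (m / 3),
          (Finset.univ.filter (fun t : L => (minpoly F t).natDegree = d)).card :=
        Finset.card_biUnion_le
    _ ≤ ∑ _d ∈ Finset.Icc 1 (m / 3), Fintype.card F ^ (m / 3) := by
        apply Finset.sum_le_sum
        intro d hd
        rw [Finset.mem_Icc] at hd
        exact (card_degree_le hd.1).trans (Nat.pow_le_pow_right Fintype.card_pos hd.2)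
    _ = (m / 3) * Fintype.card F ^ (m / 3) := by
        rw [Finset.sum_const, Nat.card_Icc, smul_eq_mul, Nat.add_sub_cancel]
    _ ≤ m * Fintype.card F ^ (m / 3) := Nat.mul_le_mul_right _ (Nat.div_le_self _ _)

open Classical in
theorem sum_by_degree {m : ℕ} (hL : Fintype.card L = Fintype.card F ^ m) (hm : Even m) (hm2 : 2 ≤ m)
    (G : L → ℝ) (P : F[X] → ℝ) (H S : ℝ)
    (hP : ∀ t : L, (minpoly F t).natDegree = m → G t ≤ P (minpoly F t)) (hP0 : ∀ v, 0 ≤ P v)
    (hH : ∀ t : L, 2 * (minpoly F t).natDegree = m → G t ≤ H) (hH0 : 0 ≤ H)
    (hS : ∀ t : L, 3 * (minpoly F t).natDegree ≤ m → G t ≤ S) (hS0 : 0 ≤ S) :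
    ∑ t : L, G t ≤ (m : ℝ) * ∑ v ∈ (MN F m).filter (fun v => Irreducible v), P v +
      (Fintype.card F : ℝ) ^ (m / 2) * H + (m : ℝ) * (Fintype.card F : ℝ) ^ (m / 3) * S := by
  have hfin : Module.finrank F L = m := by
    have h1 := Module.card_eq_pow_finrank (K := F) (V := L)
    rw [hL] at h1
    exact (Nat.pow_right_injective (Fintype.one_lt_card (α := F)) h1).symm
  have hpt : ∀ t : L, G t ≤ (if (minpoly F t).natDegree = m then P (minpoly F t) else 0) +
      (if 2 * (minpoly F t).natDegree = m then H else 0) +
      (if 3 * (minpoly F t).natDegree ≤ m then S else 0) := by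
    intro t
    have hdvd : (minpoly F t).natDegree ∣ m := by
      rw [← hfin]
      exact minpoly.degree_dvd (Algebra.IsIntegral.isIntegral t)
    have n1 : 0 ≤ (if (minpoly F t).natDegree = m then P (minpoly F t) else 0) := by
      split_ifs
      · exact hP0 _
      · exact le_rfl
    have n2 : 0 ≤ (if 2 * (minpoly F t).natDegree = m then H else 0) := by
      split_ifs
      · exact hH0
      · exact le_rfl
    have n3 : 0 ≤ (if 3 * (minpoly F t).natDegree ≤ m then S else 0) := by
      split_ifs
      · exact hS0
      · exact le_rfl
    by_cases c1 : (minpoly F t).natDegree = m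
    · have := hP t c1
      rw [if_pos c1] at n1 ⊢
      linarith
    · by_cases c2 : 2 * (minpoly F t).natDegree = m
      · have := hH t c2
        rw [if_pos c2] at n2 ⊢
        linarith
      · have c3 : 3 * (minpoly F t).natDegree ≤ m := by
          obtain ⟨k, hk⟩ := hdvd
          have hk0 : k ≠ 0 := by
            rintro rfl
            omega
          have hk1 : k ≠ 1 := by
            rintro rfl
            apply c1
            omega
          have hk2 : k ≠ 2 := by
            rintro rfl
            apply c2
            omega
          have hk3 : 3 ≤ k := by omega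
          calc 3 * (minpoly F t).natDegree = (minpoly F t).natDegree * 3 := mul_comm _ _
            _ ≤ (minpoly F t).natDegree * k := Nat.mul_le_mul_left _ hk3
            _ = m := hk.symm
        have := hS t c3
        rw [if_pos c3] at n3 ⊢
        linarith
  have h1 : ∑ t : L, (if (minpoly F t).natDegree = m then P (minpoly F t) else 0) ≤
      (m : ℝ) * ∑ v ∈ (MN F m).filter (fun v => Irreducible v), P v := by
    rw [← Finset.sum_filter]
    have hmaps : ∀ t ∈ Finset.univ.filter (fun t : L => (minpoly F t).natDegree = m),
        minpoly F t ∈ (MN F m).filter (fun v => Irreducible v) := by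
      intro t ht
      have ht' : (minpoly F t).natDegree = m := by simpa using ht
      have hint : IsIntegral F t := Algebra.IsIntegral.isIntegral t
      rw [Finset.mem_filter, mem_MN]
      exact ⟨⟨minpoly.monic hint, ht'⟩, minpoly.irreducible hint⟩
    rw [← Finset.sum_fiberwise_of_maps_to hmaps, Finset.mul_sum]
    apply Finset.sum_le_sum
    intro v hv
    rw [Finset.mem_filter, mem_MN] at hv
    have hle : ((Finset.univ.filter (fun t : L => (minpoly F t).natDegree = m)).filter
        (fun t => minpoly F t = v)).card ≤ m := by
      have hne : v.map (algebraMap F L) ≠ 0 :=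
        (Polynomial.map_ne_zero_iff (algebraMap F L).injective).2 hv.1.1.ne_zero
      calc ((Finset.univ.filter (fun t : L => (minpoly F t).natDegree = m)).filter
          (fun t => minpoly F t = v)).card
          ≤ (v.map (algebraMap F L)).roots.toFinset.card := by
            apply Finset.card_le_card
            intro t ht
            have ht' : minpoly F t = v := (Finset.mem_filter.1 ht).2
            rw [Multiset.mem_toFinset, mem_roots hne, IsRoot.def, eval_map_algebraMap, ← ht',
              minpoly.aeval]
        _ ≤ Multiset.card (v.map (algebraMap F L)).roots := Multiset.toFinset_card_le _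
        _ ≤ (v.map (algebraMap F L)).natDegree := card_roots' _
        _ = m := by rw [natDegree_map, hv.1.2]
    rw [Finset.sum_congr rfl (g := fun _ => P v)
      (fun t ht => by rw [(Finset.mem_filter.1 ht).2]), Finset.sum_const, nsmul_eq_mul]
    apply mul_le_mul_of_nonneg_right _ (hP0 v)
    exact_mod_cast hle
  have h2 : ∑ t : L, (if 2 * (minpoly F t).natDegree = m then H else 0) ≤
      (Fintype.card F : ℝ) ^ (m / 2) * H := by
    rw [← Finset.sum_filter, Finset.sum_const, nsmul_eq_mul]
    apply mul_le_mul_of_nonneg_right _ hH0
    have h3 : (Finset.univ.filter (fun t : L => 2 * (minpoly F t).natDegree = m)).card ≤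
        (Finset.univ.filter (fun t : L => (minpoly F t).natDegree = m / 2)).card := by
      apply Finset.card_le_card
      intro t ht
      have ht' : 2 * (minpoly F t).natDegree = m := by simpa using ht
      rw [Finset.mem_filter]
      exact ⟨Finset.mem_univ _, by omega⟩
    have h4 := h3.trans (card_degree_le (F := F) (L := L) (d := m / 2) (by omega))
    exact_mod_cast h4
  have h3 : ∑ t : L, (if 3 * (minpoly F t).natDegree ≤ m then S else 0) ≤
      (m : ℝ) * (Fintype.card F : ℝ) ^ (m / 3) * S := by
    rw [← Finset.sum_filter, Finset.sum_const, nsmul_eq_mul]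
    apply mul_le_mul_of_nonneg_right _ hS0
    have h4 := card_small_le (F := F) (L := L) m
    exact_mod_cast h4
  calc ∑ t : L, G t ≤ ∑ t : L, ((if (minpoly F t).natDegree = m then P (minpoly F t) else 0) +
      (if 2 * (minpoly F t).natDegree = m then H else 0) +
      (if 3 * (minpoly F t).natDegree ≤ m then S else 0)) := Finset.sum_le_sum fun t _ => hpt t
    _ = ∑ t : L, (if (minpoly F t).natDegree = m then P (minpoly F t) else 0) +
      ∑ t : L, (if 2 * (minpoly F t).natDegree = m then H else 0) +
      ∑ t : L, (if 3 * (minpoly F t).natDegree ≤ m then S else 0) := by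
        rw [Finset.sum_add_distrib, Finset.sum_add_distrib]
    _ ≤ _ := by linarith

end Pool.Agent.Helper31.AR
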