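import Pool.Agent.Helper31.AR.D1Defs
import Pool.Agent.Helper31.AR.Residue

/-!
# AR-40: four counting lemmas with greatest common divisors

* `card_mul_residue_le`: let `g = gcd (R, η)` (not zero), `η = g η₁`, `R = g R₁`, `R₁`, `η₁` coprime. Two elements `k`, `k'` of the set
  satisfy `η ∣ (k - k') R`, so `η₁ ∣ (k - k') R₁`, `η₁ ∣ k - k'`. By `card_class_le` (with the monic associate of `η₁`, of degree
  `deg η - deg g`) the number is `≤ q ^ (N - deg η + deg g)`.
* `card_two_residues_le`: put `h = d η`, `h' = d η'`, `g = gcd (e, h)`, `g' = gcd (e', h')`. Two elements `v`, `v'` satisfy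
  `h ∣ (v - v') e`, so `h / g ∣ v - v'`, and `h' / g' ∣ v - v'`. Let `M` be the monic lcm of `h / g` and `h' / g'`; then `M ∣ v - v'` and
  both `h` and `h'` divide `M g g'`, so `lcm (h, h') = d η η'` (`η`, `η'` coprime) divides `M g g'`:
  `deg M ≥ deg (d η η') - deg g - deg g'`. `v - v'` has degree `< m`. `card_class_le` gives `≤ q ^ (m - deg M)` and
  `m - deg M ≤ deg g + deg g' + m - deg (d η η')`. (To see `d η η' ∣ x` from `d η ∣ x`, `d η' ∣ x`: `x = d x'`, `η ∣ x'`, `η' ∣ x'`.)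
* `sum_gdeg_le`: `q ^ gdeg e h ≤ ∑_{g ∈ dv h, g ∣ e} q ^ (deg g)` (the monic gcd is one of these `g`). Exchange: for `g ∈ dv h` the
  number of `e ∈ (PN F E).erase 0` with `g ∣ e` is `0` if `deg g ≥ E` and `≤ q ^ (E - deg g)` otherwise (`card_PN_residue_le`). So the
  sum is `≤ ∑_{g ∈ dv h, deg g < E} q ^ (deg g) q ^ (E - deg g) ≤ (dv h).card q ^ E`.
* `sum_gdeg_MN_le`: the same with `g ∈ dv R`, `g ∣ η`, `η ∈ MN F i`: none if `deg g > i`, and `≤ q ^ (i - deg g)` otherwise
  (`card_MN_residue_le`).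
-/

set_option autoImplicit false
set_option linter.unusedVariables false
set_option linter.unusedSectionVars false
open Polynomial

namespace Pool.Agent.Helper31.AR

variable {F : Type} [Field F] [Fintype F]

private theorem gdeg_spec (f h : F[X]) (hh : h ≠ 0) :
    ∃ g : F[X], g.Monic ∧ g.natDegree = gdeg f h ∧ g ∣ f ∧ g ∣ h ∧ ∃ a b, a * f + b * h = g := by
  classical
  have hg0 : EuclideanDomain.gcd f h ≠ 0 := by
    intro h0
    exact hh (EuclideanDomain.gcd_eq_zero_iff.mp h0).2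
  have hc0 : (EuclideanDomain.gcd f h).leadingCoeff⁻¹ ≠ 0 := inv_ne_zero (leadingCoeff_ne_zero.mpr hg0)
  refine ⟨EuclideanDomain.gcd f h * C (EuclideanDomain.gcd f h).leadingCoeff⁻¹,
    monic_mul_leadingCoeff_inv hg0, ?_, ?_, ?_, ?_⟩
  · rw [natDegree_mul_C hc0]
    unfold gdeg
    congr
  · have h1 : IsUnit (C (EuclideanDomain.gcd f h).leadingCoeff⁻¹ : F[X]) := isUnit_C.mpr (isUnit_iff_ne_zero.mpr hc0)
    exact (h1.mul_right_dvd).mpr (EuclideanDomain.gcd_dvd_left f h)
  · have h1 : IsUnit (C (EuclideanDomain.gcd f h).leadingCoeff⁻¹ : F[X]) := isUnit_C.mpr (isUnit_iff_ne_zero.mpr hc0)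
    exact (h1.mul_right_dvd).mpr (EuclideanDomain.gcd_dvd_right f h)
  · refine ⟨EuclideanDomain.gcdA f h * C (EuclideanDomain.gcd f h).leadingCoeff⁻¹,
      EuclideanDomain.gcdB f h * C (EuclideanDomain.gcd f h).leadingCoeff⁻¹, ?_⟩
    have h1 := EuclideanDomain.gcd_eq_gcd_ab f h
    linear_combination (-(C (EuclideanDomain.gcd f h).leadingCoeff⁻¹)) * h1

/-- The monic gcd and the coprime cofactors. -/
private theorem gdeg_split (f : F[X]) {h : F[X]} (hh : h.Monic) :
    ∃ g f1 h1 : F[X], g.Monic ∧ h1.Monic ∧ g.natDegree = gdeg f h ∧ f = g * f1 ∧ h = g * h1 ∧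
      IsCoprime h1 f1 := by
  obtain ⟨g, hg, hdeg, ⟨f1, hf1⟩, ⟨h1, hh1⟩, a, b, hab⟩ := gdeg_spec f h hh.ne_zero
  refine ⟨g, f1, h1, hg, ?_, hdeg, hf1, hh1, ?_⟩
  · exact hg.of_mul_monic_left (hh1 ▸ hh)
  · refine ⟨b, a, ?_⟩
    have h2 : g * (b * h1 + a * f1) = g * 1 := by
      rw [mul_one]
      linear_combination hab - a * hf1 - b * hh1
    exact mul_left_cancel₀ hg.ne_zero h2


private theorem qpos : 0 < Fintype.card F := Fintype.card_pos

open Classical in
theorem card_mul_residue_le {η R c : F[X]} (hη : η.Monic) (hR : R ≠ 0) {N : ℕ}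
    (hN : η.natDegree ≤ N) :
    ((PN F N).filter (fun k => η ∣ k * R - c)).card ≤
      Fintype.card F ^ (gdeg R η + N - η.natDegree) := by
  obtain ⟨g, R1, η1, hg, hη1, hdeg, hR1, hηe, hcop⟩ := gdeg_split R hη
  refine le_trans (card_class_le hη1 N _ ?_ ?_) (Nat.pow_le_pow_right qpos ?_)
  · intro k hk k' hk'
    rw [Finset.mem_filter] at hk hk'
    have h1 : η ∣ (k - k') * R := by
      have h2 : (k - k') * R = (k * R - c) - (k' * R - c) := by ring
      rw [h2]
      exact dvd_sub hk.2 hk'.2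
    have h3 : g * η1 ∣ g * ((k - k') * R1) := by
      rw [← hηe]
      have h4 : g * ((k - k') * R1) = (k - k') * R := by rw [hR1]; ring
      rw [h4]
      exact h1
    exact hcop.dvd_of_dvd_mul_right ((mul_dvd_mul_iff_left hg.ne_zero).mp h3)
  · intro k hk k' hk'
    rw [Finset.mem_filter] at hk hk'
    exact sub_mem_PN hk.1 hk'.1
  · have h1 : η.natDegree = g.natDegree + η1.natDegree := by
      rw [hηe, hg.natDegree_mul hη1]
    omega

private theorem sub_mem_PN_of_MN {m : ℕ} {v v' : F[X]} (hv : v ∈ MN F m) (hv' : v' ∈ MN F m) :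
    v - v' ∈ PN F m := by
  classical
  unfold MN at hv hv'
  rw [Finset.mem_image] at hv hv'
  obtain ⟨f, hf, rfl⟩ := hv
  obtain ⟨f', hf', rfl⟩ := hv'
  have h1 : X ^ m + f - (X ^ m + f') = f - f' := by ring
  rw [h1]
  exact sub_mem_PN hf hf'

open Classical in
theorem card_two_residues_le {d η η' : F[X]} (hd : d.Monic) (hη : η.Monic) (hη' : η'.Monic)
    (hcop : IsCoprime η η') {e e' : F[X]} (he : e ≠ 0) (he' : e' ≠ 0) (k k' : F[X]) {m : ℕ}
    (hm : (d * η * η').natDegree ≤ m) :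
    ((MN F m).filter (fun v => d * η ∣ k ^ 2 - v * e ∧ d * η' ∣ k' ^ 2 - v * e')).card ≤
      Fintype.card F ^ (gdeg e (d * η) + gdeg e' (d * η') + m - (d * η * η').natDegree) := by
  obtain ⟨g, e1, h1, hg, hh1, hdeg, he1, hhe, hc⟩ := gdeg_split e (hd.mul hη)
  obtain ⟨g', e1', h1', hg', hh1', hdeg', he1', hhe', hc'⟩ := gdeg_split e' (hd.mul hη')
  obtain ⟨c, u, u', hcm, hu', hcdeg, hue, hue', hcu⟩ := gdeg_split h1 hh1'
  have hu : u.Monic := hcm.of_mul_monic_left (hue ▸ hh1)
  -- divisibility by the lcm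
  have hlcm : ∀ x : F[X], h1 ∣ x → h1' ∣ x → c * u * u' ∣ x := by
    intro x hx hx'
    obtain ⟨z, hz⟩ := hx
    rw [hz, hue]
    refine mul_dvd_mul_left _ ?_
    rw [hz, hue, hue', mul_assoc] at hx'
    have h2 := (mul_dvd_mul_iff_left hcm.ne_zero).mp hx'
    exact hcu.dvd_of_dvd_mul_left h2
  have hM : (c * u * u').Monic := (hcm.mul hu).mul hu'
  refine le_trans (card_class_le hM m _ ?_ ?_) (Nat.pow_le_pow_right qpos ?_)
  · intro v hv v' hv'
    rw [Finset.mem_filter] at hv hv'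
    apply hlcm
    · have h2 : g * h1 ∣ g * ((v - v') * e1) := by
        rw [← hhe]
        have h3 : g * ((v - v') * e1) = (k ^ 2 - v' * e) - (k ^ 2 - v * e) := by rw [he1]; ring
        rw [h3]
        exact dvd_sub hv'.2.1 hv.2.1
      exact hc.dvd_of_dvd_mul_right ((mul_dvd_mul_iff_left hg.ne_zero).mp h2)
    · have h2 : g' * h1' ∣ g' * ((v - v') * e1') := by
        rw [← hhe']
        have h3 : g' * ((v - v') * e1') = (k' ^ 2 - v' * e') - (k' ^ 2 - v * e') := by rw [he1']; ring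
        rw [h3]
        exact dvd_sub hv'.2.2 hv.2.2
      exact hc'.dvd_of_dvd_mul_right ((mul_dvd_mul_iff_left hg'.ne_zero).mp h2)
  · intro v hv v' hv'
    rw [Finset.mem_filter] at hv hv'
    exact sub_mem_PN_of_MN hv.1 hv'.1
  · have hdv1 : d * η ∣ c * u * u' * g * g' := by
      rw [hhe, hue]
      exact ⟨u' * g', by ring⟩
    have hdv2 : d * η' ∣ c * u * u' * g * g' := by
      rw [hhe', hue']
      exact ⟨u * g, by ring⟩
    have hdv : d * η * η' ∣ c * u * u' * g * g' := by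
      obtain ⟨z, hz⟩ := hdv1
      rw [hz]
      refine mul_dvd_mul_left _ ?_
      rw [hz, mul_assoc] at hdv2
      have h2 := (mul_dvd_mul_iff_left hd.ne_zero).mp hdv2
      exact hcop.symm.dvd_of_dvd_mul_left h2
    have hne : c * u * u' * g * g' ≠ 0 := ((hM.mul hg).mul hg').ne_zero
    have h2 := natDegree_le_of_dvd hdv hne
    have h3 : (c * u * u' * g * g').natDegree = (c * u * u').natDegree + g.natDegree + g'.natDegree := by
      rw [(hM.mul hg).natDegree_mul hg', hM.natDegree_mul hg]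
    omega

open Classical in
/-- Exchange of the summations. -/
private theorem sum_exch (S : Finset F[X]) (D : Finset F[X]) (w : F[X] → ℕ) (B : ℝ)
    (hw : ∀ e ∈ S, ∃ g ∈ D, g ∣ e ∧ g.natDegree = w e)
    (hB : ∀ g ∈ D, (Fintype.card F : ℝ) ^ g.natDegree * ((S.filter (fun e => g ∣ e)).card : ℝ) ≤ B) :
    ∑ e ∈ S, (Fintype.card F : ℝ) ^ w e ≤ (D.card : ℝ) * B := by
  have h1 : ∀ e ∈ S, (Fintype.card F : ℝ) ^ w e ≤
      ∑ g ∈ D, if g ∣ e then (Fintype.card F : ℝ) ^ g.natDegree else 0 := by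
    intro e he
    obtain ⟨g, hg, hge, hgw⟩ := hw e he
    rw [← hgw]
    have h2 := Finset.single_le_sum (f := fun g => if g ∣ e then (Fintype.card F : ℝ) ^ g.natDegree else 0)
      (fun x _ => by split_ifs <;> positivity) hg
    simpa [hge] using h2
  calc ∑ e ∈ S, (Fintype.card F : ℝ) ^ w e
      ≤ ∑ e ∈ S, ∑ g ∈ D, if g ∣ e then (Fintype.card F : ℝ) ^ g.natDegree else 0 := Finset.sum_le_sum h1
    _ = ∑ g ∈ D, ∑ e ∈ S, if g ∣ e then (Fintype.card F : ℝ) ^ g.natDegree else 0 := Finset.sum_comm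
    _ ≤ ∑ _g ∈ D, B := by
        refine Finset.sum_le_sum fun g hg => ?_
        rw [← Finset.sum_filter, Finset.sum_const, nsmul_eq_mul, mul_comm]
        exact hB g hg
    _ = (D.card : ℝ) * B := by rw [Finset.sum_const, nsmul_eq_mul]

open Classical in
theorem sum_gdeg_le {h : F[X]} (hh : h.Monic) {N E : ℕ} (hN : h.natDegree ≤ N) :
    ∑ e ∈ (PN F E).erase 0, (Fintype.card F : ℝ) ^ gdeg e h ≤
      (dmax F N : ℝ) * (Fintype.card F : ℝ) ^ E := by
  have hq : (0 : ℝ) < Fintype.card F := by exact_mod_cast qpos (F := F)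
  refine le_trans (sum_exch _ (dv h) _ ((Fintype.card F : ℝ) ^ E) ?_ ?_) ?_
  · intro e _
    obtain ⟨g, hg, hdeg, hge, hgh, -⟩ := gdeg_spec e h hh.ne_zero
    exact ⟨g, (mem_dv hh.ne_zero g).2 ⟨hg, hgh⟩, hge, hdeg⟩
  · intro g hg
    rw [mem_dv hh.ne_zero] at hg
    by_cases hE : g.natDegree < E
    · have h1 : (((PN F E).erase 0).filter (fun e => g ∣ e)).card ≤ Fintype.card F ^ (E - g.natDegree) := by
        refine le_trans (Finset.card_le_card ?_) (card_PN_residue_le hg.1 E 0)
        intro e he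
        rw [Finset.mem_filter, Finset.mem_erase] at he
        rw [Finset.mem_filter]
        exact ⟨he.1.2, by simpa using he.2⟩
      have h2 : ((((PN F E).erase 0).filter (fun e => g ∣ e)).card : ℝ) ≤
          (Fintype.card F : ℝ) ^ (E - g.natDegree) := by exact_mod_cast h1
      calc _ ≤ (Fintype.card F : ℝ) ^ g.natDegree * (Fintype.card F : ℝ) ^ (E - g.natDegree) :=
            mul_le_mul_of_nonneg_left h2 (by positivity)
        _ = (Fintype.card F : ℝ) ^ E := by rw [← pow_add]; congr 1; omega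
    · have h1 : ((PN F E).erase 0).filter (fun e => g ∣ e) = ∅ := by
        rw [Finset.filter_eq_empty_iff]
        intro e he hge
        rw [Finset.mem_erase] at he
        have h2 := natDegree_le_of_dvd hge he.1
        have h3 := he.2
        rw [mem_PN, ← natDegree_lt_iff_degree_lt he.1] at h3
        omega
      rw [h1]
      simp only [Finset.card_empty, Nat.cast_zero, mul_zero]
      positivity
  · have h1 : ((dv h).card : ℝ) ≤ dmax F N := by exact_mod_cast card_dv_le hh.ne_zero hN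
    exact mul_le_mul_of_nonneg_right h1 (by positivity)

theorem sum_gdeg_MN_le {R : F[X]} (hR : R ≠ 0) {N i : ℕ} (hN : R.natDegree ≤ N) :
    ∑ η ∈ MN F i, (Fintype.card F : ℝ) ^ gdeg R η ≤
      (dmax F N : ℝ) * (Fintype.card F : ℝ) ^ i := by
  classical
  have hq : (0 : ℝ) < Fintype.card F := by exact_mod_cast qpos (F := F)
  refine le_trans (sum_exch _ (dv R) _ ((Fintype.card F : ℝ) ^ i) ?_ ?_) ?_
  · intro η hη
    obtain ⟨g, hg, hdeg, hge, hgh, -⟩ := gdeg_spec R η (monic_of_mem_MN hη).ne_zero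
    exact ⟨g, (mem_dv hR g).2 ⟨hg, hge⟩, hgh, hdeg⟩
  · intro g hg
    rw [mem_dv hR] at hg
    by_cases hE : g.natDegree ≤ i
    · have h1 : ((MN F i).filter (fun e => g ∣ e)).card ≤ Fintype.card F ^ (i - g.natDegree) := by
        refine le_trans (Finset.card_le_card ?_) (card_MN_residue_le hg.1 i 0)
        intro e he
        rw [Finset.mem_filter] at he
        rw [Finset.mem_filter]
        exact ⟨he.1, by simpa using he.2⟩
      have h2 : (((MN F i).filter (fun e => g ∣ e)).card : ℝ) ≤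
          (Fintype.card F : ℝ) ^ (i - g.natDegree) := by exact_mod_cast h1
      calc _ ≤ (Fintype.card F : ℝ) ^ g.natDegree * (Fintype.card F : ℝ) ^ (i - g.natDegree) :=
            mul_le_mul_of_nonneg_left h2 (by positivity)
        _ = (Fintype.card F : ℝ) ^ i := by rw [← pow_add]; congr 1; omega
    · have h1 : (MN F i).filter (fun e => g ∣ e) = ∅ := by
        rw [Finset.filter_eq_empty_iff]
        intro e he hge
        have h2 := natDegree_le_of_dvd hge (monic_of_mem_MN he).ne_zero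
        rw [natDegree_of_mem_MN he] at h2
        exact hE h2
      rw [h1]
      simp only [Finset.card_empty, Nat.cast_zero, mul_zero]
      positivity
  · have h1 : ((dv R).card : ℝ) ≤ dmax F N := by exact_mod_cast card_dv_le hR hN
    exact mul_le_mul_of_nonneg_right h1 (by positivity)

end Pool.Agent.Helper31.AR
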