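import Pool.Agent.Helper31.AR.Defs

/-!
# AR-12: the set `kset` for `e = 0`

`k ∈ kset n a D v (c s ^ 2) 0` means: `k ∈ PN F (2 n + a)`, `c s ^ 2 ∣ k ^ 2` and `deg (k ^ 2) < 4 n + a + D`.

* `c s ^ 2 ∣ k ^ 2` with `c` squarefree iff `c s ∣ k`: `s ^ 2 ∣ k ^ 2` gives `s ∣ k` (`pow_dvd_pow_iff`, valid in a
  UFD / GCD monoid), `k = s k₁`, `c ∣ k₁ ^ 2`, `c` squarefree gives `c ∣ k₁` (`Squarefree.dvd_of_pow_dvd` or
  `UniqueFactorizationMonoid.dvd_of_dvd_pow`-like; search `Squarefree.dvd_pow_iff_dvd`). The converse is clear.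
* With `k = c s t`: `deg (k ^ 2) = 2 γ + 2 σ + 2 deg t < 4 n + a + D = 4 n + a + γ + 2 σ` iff
  `γ + 2 deg t < 4 n + a` iff `t ∈ PN F ((4 n + a - γ + 1) / 2)` (`t = 0` is fine on both sides; note
  `γ ≤ D < a`).
* Then `k ∈ PN F (2 n + a)` is automatic: `2 deg k = 2 γ + 2 σ + 2 deg t ≤ γ + 2 σ + 4 n + a - 1 = D + 4 n + a - 1 ≤
  4 n + 2 a - 2`.
-/

set_option autoImplicit false

open Polynomial

namespace Pool.Agent.Helper31.AR

variable {F : Type} [Field F] [Fintype F]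

theorem mem_kset_zero {n a D γ σ : ℕ} (hD : D < a) (hγ : γ + 2 * σ = D) {v c s : F[X]}
    (hc : c ∈ MN F γ) (hsq : Squarefree c) (hs : s ∈ MN F σ) (k : F[X]) :
    k ∈ kset n a D v (c * s ^ 2) 0 ↔ ∃ t ∈ PN F ((4 * n + a - γ + 1) / 2), k = c * s * t := by
  classical
  have hcm := monic_of_mem_MN hc
  have hsm := monic_of_mem_MN hs
  have hcd := natDegree_of_mem_MN hc
  have hsd := natDegree_of_mem_MN hs
  have hdeg : ∀ t : F[X], t ≠ 0 → (c * s * t).natDegree = γ + σ + t.natDegree := by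
    intro t ht
    rw [natDegree_mul (mul_ne_zero hcm.ne_zero hsm.ne_zero) ht,
      natDegree_mul hcm.ne_zero hsm.ne_zero, hcd, hsd]
  have hdeg2 : ∀ t : F[X], t ≠ 0 → ((c * s * t) ^ 2).natDegree = 2 * (γ + σ + t.natDegree) := by
    intro t ht
    rw [natDegree_pow, hdeg t ht]
  unfold kset
  rw [Finset.mem_filter, mul_zero, sub_zero]
  constructor
  · rintro ⟨h1, h2, h3⟩
    have h4 : s ∣ k := by
      have h5 : s ^ 2 ∣ k ^ 2 := (Dvd.intro_left c rfl).trans h2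
      exact (UniqueFactorizationMonoid.pow_dvd_pow_iff_dvd two_ne_zero).1 h5
    obtain ⟨k1, rfl⟩ := h4
    have h5 : c ∣ k1 ^ 2 := by
      rw [mul_pow, mul_comm c] at h2
      exact (mul_dvd_mul_iff_left (pow_ne_zero 2 hsm.ne_zero)).1 h2
    have h6 : c ∣ k1 := (hsq.dvd_pow_iff_dvd two_ne_zero).1 h5
    obtain ⟨t, rfl⟩ := h6
    have h7 : s * (c * t) = c * s * t := by ring
    refine ⟨t, ?_, h7⟩
    by_cases ht : t = 0
    · rw [ht]
      exact zero_mem_PN _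
    · rw [h7, degree_eq_natDegree (pow_ne_zero 2 (mul_ne_zero (mul_ne_zero hcm.ne_zero
        hsm.ne_zero) ht)), hdeg2 t ht] at h3
      have h8 : 2 * (γ + σ + t.natDegree) < 4 * n + a + D := by exact_mod_cast h3
      rw [mem_PN, ← natDegree_lt_iff_degree_lt ht]
      omega
  · rintro ⟨t, ht, rfl⟩
    by_cases ht0 : t = 0
    · rw [ht0, mul_zero]
      refine ⟨zero_mem_PN _, ?_, ?_⟩
      · rw [zero_pow two_ne_zero]
        exact dvd_zero _
      · rw [zero_pow two_ne_zero, degree_zero]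
        exact WithBot.bot_lt_coe _
    · rw [mem_PN, ← natDegree_lt_iff_degree_lt ht0] at ht
      refine ⟨?_, ?_, ?_⟩
      · rw [mem_PN, ← natDegree_lt_iff_degree_lt (mul_ne_zero (mul_ne_zero hcm.ne_zero
          hsm.ne_zero) ht0), hdeg t ht0]
        omega
      · exact ⟨c * t ^ 2, by ring⟩
      · rw [degree_eq_natDegree (pow_ne_zero 2 (mul_ne_zero (mul_ne_zero hcm.ne_zero
          hsm.ne_zero) ht0)), hdeg2 t ht0]
        have h8 : 2 * (γ + σ + t.natDegree) < 4 * n + a + D := by omega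
        exact_mod_cast h8

end Pool.Agent.Helper31.AR
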