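import Pool.Agent.Helper31.AR.Defs

/-!
# AR-50: the Fejer kernel in the unit disc

`fejer_one`: `∑_{0 < m < M} (1 - m / M) = (M - 1) / 2`.

`fejer_nonneg`: let `z_j = w ^ j` in the case `|w| = 1`; in general write `w = ρ ζ` with `0 ≤ ρ ≤ 1`, `|ζ| = 1` (`w = 0` trivial) and `z_j = ζ ^ j`. Then
`M (1 + 2 ∑_{m} (1 - m / M) Re (w ^ m)) = ∑_{|m| < M} (M - |m|) ρ ^ |m| ζ ^ m = ∑_{i, j < M} ρ ^ |i - j| z_i conj (z_j) =: Q_M`.
Claim `Q_M = |S_M| ^ 2 + (1 - ρ ^ 2) ∑_{k < M} |S_k| ^ 2 ≥ 0`, where `S_0 = 0`, `S_{k + 1} = ρ S_k + z_k`. Induction: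
`Q_{k + 1} - Q_k = |z_k| ^ 2 + 2 Re (conj (z_k) ρ S_k)` (`∑_{i < k} ρ ^ (k - i) z_i = ρ S_k`) and
`|S_{k + 1}| ^ 2 = ρ ^ 2 |S_k| ^ 2 + 2 Re (ρ S_k conj z_k) + |z_k| ^ 2`.

Simplest way to organise it: by induction on `M` prove
`M + 2 ∑_{0 < m < M} (M - m) Re (w ^ m) = |S_M| ^ 2 + (1 - ρ ^ 2) ∑_{k < M} |S_k| ^ 2` using
`(M + 1) + 2 ∑_{0 < m < M + 1} (M + 1 - m) Re (w ^ m) - (M + 2 ∑_{0 < m < M} (M - m) Re (w ^ m)) = 1 + 2 ∑_{1 ≤ m ≤ M} Re (w ^ m)` and
`conj (z_M) ρ S_M = ∑_{1 ≤ m ≤ M} conj (w) ^ m` or `w ^ m` up to conjugation.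
-/

set_option autoImplicit false

open Polynomial

namespace Pool.Agent.Helper31.AR

private lemma sum_range_eq (M : ℕ) (hM : 1 ≤ M) (g : ℕ → ℝ) :
    ∑ m ∈ Finset.range M, g m = g 0 + ∑ m ∈ Finset.Ico 1 M, g m := by
  rw [Finset.range_eq_Ico, Finset.sum_eq_sum_Ico_succ_bot (by omega)]

theorem fejer_one (M : ℕ) (hM : 1 ≤ M) :
    1 + 2 * ∑ m ∈ Finset.Ico 1 M, (1 - (m : ℝ) / M) = M := by
  have hM0 : (M : ℝ) ≠ 0 := by
    have : M ≠ 0 := by omega
    exact_mod_cast this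
  have h1 := sum_range_eq M hM (fun m => 1 - (m : ℝ) / M)
  have h2 : ∀ n : ℕ, ∑ m ∈ Finset.range n, (m : ℝ) = (n : ℝ) * (n - 1) / 2 := by
    intro n
    induction n with
    | zero => simp
    | succ n ih => rw [Finset.sum_range_succ, ih]; push_cast; ring
  have h3 : ∑ m ∈ Finset.range M, (1 - (m : ℝ) / M) = M - (M - 1) / 2 := by
    rw [Finset.sum_sub_distrib, ← Finset.sum_div, h2]
    simp only [Finset.sum_const, Finset.card_range, nsmul_eq_mul, mul_one]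
    field_simp
  rw [h3] at h1
  simp only [Nat.cast_zero, zero_div, sub_zero] at h1
  linarith

private lemma fejer_identity (w : ℂ) (M : ℕ) :
    2 * ∑ m ∈ Finset.range M, ((M : ℝ) - m) * (w ^ m).re - M =
      Complex.normSq (∑ i ∈ Finset.range M, w ^ i) +
        (1 - Complex.normSq w) * ∑ k ∈ Finset.range M,
          Complex.normSq (∑ i ∈ Finset.range k, w ^ i) := by
  induction M with
  | zero => simp
  | succ M ih =>
    have h1 : ∑ m ∈ Finset.range (M + 1), (((M + 1 : ℕ) : ℝ) - m) * (w ^ m).re =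
        ∑ m ∈ Finset.range M, ((M : ℝ) - m) * (w ^ m).re +
          (∑ i ∈ Finset.range (M + 1), w ^ i).re := by
      rw [Finset.sum_range_succ, Finset.sum_range_succ (fun i => w ^ i), Complex.add_re,
        Complex.re_sum, ← add_assoc, ← Finset.sum_add_distrib]
      push_cast
      congr 1
      · refine Finset.sum_congr rfl (fun m _ => ?_)
        ring
      · ring
    have h2 : ∑ i ∈ Finset.range (M + 1), w ^ i = w * (∑ i ∈ Finset.range M, w ^ i) + 1 := by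
      rw [Finset.sum_range_succ', pow_zero, Finset.mul_sum]
      congr 1
      refine Finset.sum_congr rfl (fun i _ => ?_)
      rw [pow_succ']
    rw [h1, Finset.sum_range_succ (fun k => Complex.normSq (∑ i ∈ Finset.range k, w ^ i))]
    rw [h2]
    set T := ∑ i ∈ Finset.range M, w ^ i with hT
    have h3 : Complex.normSq (w * T + 1) = Complex.normSq w * Complex.normSq T +
        2 * (w * T).re + 1 := by
      rw [Complex.normSq_add, Complex.normSq_mul]
      simp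
      ring
    rw [h3]
    simp only [Complex.add_re, Complex.one_re]
    push_cast
    linear_combination ih

theorem fejer_nonneg (M : ℕ) (hM : 1 ≤ M) (w : ℂ) (hw : ‖w‖ ≤ 1) :
    0 ≤ 1 + 2 * ∑ m ∈ Finset.Ico 1 M, (1 - (m : ℝ) / M) * (w ^ m).re := by
  have hM0 : (0 : ℝ) < M := by
    have : 0 < M := by omega
    exact_mod_cast this
  have h1 := sum_range_eq M hM (fun m => ((M : ℝ) - m) * (w ^ m).re)
  have h2 := fejer_identity w M
  have h3 : 0 ≤ 2 * ∑ m ∈ Finset.range M, ((M : ℝ) - m) * (w ^ m).re - M := by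
    rw [h2]
    have h4 : Complex.normSq w ≤ 1 := by
      rw [Complex.normSq_eq_norm_sq]
      nlinarith [norm_nonneg w]
    have h5 : 0 ≤ ∑ k ∈ Finset.range M, Complex.normSq (∑ i ∈ Finset.range k, w ^ i) :=
      Finset.sum_nonneg (fun k _ => Complex.normSq_nonneg _)
    have h6 := Complex.normSq_nonneg (∑ i ∈ Finset.range M, w ^ i)
    have h7 := mul_nonneg (sub_nonneg.2 h4) h5
    linarith
  rw [h1] at h3
  simp only [Nat.cast_zero, sub_zero, pow_zero, Complex.one_re, mul_one] at h3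
  have h4 : (M : ℝ) * (1 + 2 * ∑ m ∈ Finset.Ico 1 M, (1 - (m : ℝ) / M) * (w ^ m).re) =
      2 * ((M : ℝ) + ∑ m ∈ Finset.Ico 1 M, ((M : ℝ) - m) * (w ^ m).re) - M := by
    have h5 : (M : ℝ) * ∑ m ∈ Finset.Ico 1 M, (1 - (m : ℝ) / M) * (w ^ m).re =
        ∑ m ∈ Finset.Ico 1 M, ((M : ℝ) - m) * (w ^ m).re := by
      rw [Finset.mul_sum]
      refine Finset.sum_congr rfl (fun m _ => ?_)
      field_simp
    rw [← h5]
    ring
  rw [← h4] at h3
  exact nonneg_of_mul_nonneg_right h3 hM0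

end Pool.Agent.Helper31.AR
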