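import Pool.Agent.Helper31.AR.FrobDefs

/-!
# AR-55: almost all pairs are minimal with nonzero discriminant

`q ≥ 5` (`2 ≠ 0`, `3 ≠ 0`). Let `n ≥ 2`, `N = q ^ (10 n + 2)`.

* Pairs with `4 A ^ 3 + 27 B ^ 2 = 0`: for every `A` at most two `B` (`27 ≠ 0`, `F[X]` is a domain): at most `2 q ^ (4 n + 1) ≤ 10 ^ (-6) N`.
* Pairs with a nonunit `d` (take it monic of degree `i ≥ 1`; if `d = 0` then `A = B = 0`) with `d ^ 4 ∣ A`, `d ^ 6 ∣ B`: the pair `(0, 0)`, and otherwise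
  `i ≤ n` (`d ^ 4 ∣ A ≠ 0` gives `4 i ≤ 4 n`, or `6 i ≤ 6 n`). For fixed `d` there are at most `q ^ (4 n + 1 - 4 i)` multiples of `d ^ 4` in `PN F (4 n + 1)` and
  `q ^ (6 n + 1 - 6 i)` multiples of `d ^ 6` in `PN F (6 n + 1)`; summing over the `q ^ i` monic `d`: `≤ 1 + ∑_{i ≥ 1} N q ^ (- 9 i) ≤ 1 + 2 N q ^ (-9)`.
* `deg A ≤ 4 n - 4`, `deg B ≤ 6 n - 6`: `q ^ (4 n - 3) q ^ (6 n - 5) = N q ^ (-10)`.
The sum is at most `10 ^ (-5) N`.
-/

set_option autoImplicit false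

open Polynomial

namespace Pool.Agent.Helper31.AR

section

variable {F : Type} [Field F] [Fintype F]

private theorem five_le_card (h2 : (2 : F) ≠ 0) (h3 : (3 : F) ≠ 0) : 5 ≤ Fintype.card F := by
  have h0 : ((Fintype.card F : ℕ) : F) = 0 := Nat.cast_card_eq_zero F
  have h1 : 1 < Fintype.card F := Fintype.one_lt_card
  by_contra h
  have h4 : Fintype.card F = 2 ∨ Fintype.card F = 3 ∨ Fintype.card F = 4 := by omega
  rcases h4 with h4 | h4 | h4
  · rw [h4] at h0; exact h2 (by exact_mod_cast h0)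
  · rw [h4] at h0; exact h3 (by exact_mod_cast h0)
  · rw [h4] at h0
    have h5 : (2 : F) * 2 = 0 := by
      have : ((4 : ℕ) : F) = 2 * 2 := by norm_num
      rw [← this]; exact h0
    rcases mul_eq_zero.1 h5 with h6 | h6 <;> exact h2 h6

open Classical in
private theorem card_disc_le (h3 : (3 : F) ≠ 0) (n : ℕ) :
    ((PN F (4 * n + 1) ×ˢ PN F (6 * n + 1)).filter
      (fun p => 4 * p.1 ^ 3 + 27 * p.2 ^ 2 = 0)).card ≤ 2 * Fintype.card F ^ (4 * n + 1) := by
  set S := (PN F (4 * n + 1) ×ˢ PN F (6 * n + 1)).filter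
      (fun p => 4 * p.1 ^ 3 + 27 * p.2 ^ 2 = 0) with hS
  have h27 : (27 : F[X]) ≠ 0 := by
    have h : (27 : F[X]) = C (27 : F) := (map_ofNat C 27).symm
    rw [h, Ne, C_eq_zero]
    have h' : (27 : F) = 3 * (3 * 3) := by norm_num
    rw [h']
    exact mul_ne_zero h3 (mul_ne_zero h3 h3)
  have hmap : ∀ p ∈ S, p.1 ∈ PN F (4 * n + 1) := by
    intro p hp
    rw [hS, Finset.mem_filter, Finset.mem_product] at hp
    exact hp.1.1
  have hfib : ∀ A ∈ PN F (4 * n + 1), (S.filter (fun p => p.1 = A)).card ≤ 2 := by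
    intro A _
    by_cases hne : (S.filter (fun p => p.1 = A)).Nonempty
    · obtain ⟨p0, hp0⟩ := hne
      have hsub : S.filter (fun p => p.1 = A) ⊆ {(A, p0.2), (A, -p0.2)} := by
        intro p hp
        rw [Finset.mem_filter] at hp hp0
        rw [hS, Finset.mem_filter] at hp hp0
        obtain ⟨⟨_, h1⟩, hA⟩ := hp
        obtain ⟨⟨_, h1'⟩, hA'⟩ := hp0
        rw [hA] at h1
        rw [hA'] at h1'
        have h5 : (27 : F[X]) * (p.2 ^ 2 - p0.2 ^ 2) = 0 := by linear_combination h1 - h1'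
        have h6 : p.2 ^ 2 - p0.2 ^ 2 = 0 := (mul_eq_zero.1 h5).resolve_left h27
        have h7 : (p.2 - p0.2) * (p.2 + p0.2) = 0 := by linear_combination h6
        rw [Finset.mem_insert, Finset.mem_singleton]
        rcases mul_eq_zero.1 h7 with h8 | h8
        · left; ext1
          · exact hA
          · exact sub_eq_zero.1 h8
        · right; ext1
          · exact hA
          · exact eq_neg_of_add_eq_zero_left h8
      exact (Finset.card_le_card hsub).trans Finset.card_le_two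
    · rw [Finset.not_nonempty_iff_eq_empty] at hne
      rw [hne]; simp
  have h := Finset.card_le_mul_card_image_of_maps_to hmap 2 hfib
  rw [card_PN] at h
  exact h

open Classical in
private theorem card_mult_le (n : ℕ) :
    ((PN F (4 * n + 1) ×ˢ PN F (6 * n + 1)).filter
      (fun p => ¬ (p.1 = 0 ∧ p.2 = 0) ∧ ∃ d : F[X], ¬ IsUnit d ∧ d ^ 4 ∣ p.1 ∧ d ^ 6 ∣ p.2)).card ≤
      ∑ i ∈ Finset.Icc 1 n, Fintype.card F ^ i *
        (Fintype.card F ^ (4 * n + 1 - 4 * i) * Fintype.card F ^ (6 * n + 1 - 6 * i)) := by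
  have hsub : (PN F (4 * n + 1) ×ˢ PN F (6 * n + 1)).filter
      (fun p => ¬ (p.1 = 0 ∧ p.2 = 0) ∧ ∃ d : F[X], ¬ IsUnit d ∧ d ^ 4 ∣ p.1 ∧ d ^ 6 ∣ p.2) ⊆
      (Finset.Icc 1 n).biUnion (fun i => (MN F i).biUnion (fun d =>
        (PN F (4 * n + 1 - 4 * i) ×ˢ PN F (6 * n + 1 - 6 * i)).image
          (fun x => (d ^ 4 * x.1, d ^ 6 * x.2)))) := by
    rintro ⟨A, B⟩ hp
    rw [Finset.mem_filter, Finset.mem_product] at hp
    obtain ⟨⟨hA, hB⟩, h0, d, hdu, hd4, hd6⟩ := hp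
    simp only at hA hB h0 hd4 hd6
    have hd0 : d ≠ 0 := by
      rintro rfl
      apply h0
      constructor
      · simpa using hd4
      · simpa using hd6
    -- make it monic
    set e := normalize d with he
    have hea : Associated d e := (normalize_associated d).symm
    have hem : e.Monic := Polynomial.monic_normalize hd0
    have he4 : e ^ 4 ∣ A := ((hea.pow_pow).dvd_iff_dvd_left).1 hd4
    have he6 : e ^ 6 ∣ B := ((hea.pow_pow).dvd_iff_dvd_left).1 hd6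
    have hi1 : 1 ≤ e.natDegree := by
      by_contra hlt
      have h1 : e.natDegree = 0 := by omega
      have h2 : e = 1 := hem.natDegree_eq_zero.1 h1
      rw [h2] at hea
      exact hdu (associated_one_iff_isUnit.1 hea)
    rw [mem_PN_iff_natDegree (by omega)] at hA hB
    obtain ⟨a, ha⟩ := he4
    obtain ⟨b, hb⟩ := he6
    have hdA : a ≠ 0 → 4 * e.natDegree + a.natDegree < 4 * n + 1 := by
      intro ha0
      have h1 : A.natDegree = 4 * e.natDegree + a.natDegree := by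
        rw [ha, (hem.pow 4).natDegree_mul' ha0, hem.natDegree_pow]
      omega
    have hdB : b ≠ 0 → 6 * e.natDegree + b.natDegree < 6 * n + 1 := by
      intro hb0
      have h1 : B.natDegree = 6 * e.natDegree + b.natDegree := by
        rw [hb, (hem.pow 6).natDegree_mul' hb0, hem.natDegree_pow]
      omega
    have hin : e.natDegree ≤ n := by
      by_contra hgt
      have ha0 : a = 0 := by
        by_contra ha0
        have := hdA ha0
        omega
      have hb0 : b = 0 := by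
        by_contra hb0
        have := hdB hb0
        omega
      apply h0
      rw [ha, hb, ha0, hb0]
      simp
    rw [Finset.mem_biUnion]
    refine ⟨e.natDegree, Finset.mem_Icc.2 ⟨hi1, hin⟩, ?_⟩
    rw [Finset.mem_biUnion]
    refine ⟨e, (mem_MN _ _).2 ⟨hem, rfl⟩, ?_⟩
    rw [Finset.mem_image]
    refine ⟨(a, b), ?_, ?_⟩
    · rw [Finset.mem_product]
      constructor
      · simp only
        rw [mem_PN_iff_natDegree (by omega)]
        by_cases ha0 : a = 0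
        · rw [ha0, natDegree_zero]; omega
        · have := hdA ha0; omega
      · simp only
        rw [mem_PN_iff_natDegree (by omega)]
        by_cases hb0 : b = 0
        · rw [hb0, natDegree_zero]; omega
        · have := hdB hb0; omega
    · simp only
      rw [← ha, ← hb]
  refine (Finset.card_le_card hsub).trans ?_
  refine Finset.card_biUnion_le.trans ?_
  apply Finset.sum_le_sum
  intro i _
  refine Finset.card_biUnion_le.trans ?_
  have h1 : ∀ d ∈ MN F i, ((PN F (4 * n + 1 - 4 * i) ×ˢ PN F (6 * n + 1 - 6 * i)).image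
          (fun x : F[X] × F[X] => (d ^ 4 * x.1, d ^ 6 * x.2))).card ≤
      Fintype.card F ^ (4 * n + 1 - 4 * i) * Fintype.card F ^ (6 * n + 1 - 6 * i) := by
    intro d _
    refine Finset.card_image_le.trans ?_
    rw [Finset.card_product, card_PN, card_PN]
  refine (Finset.sum_le_sum h1).trans ?_
  rw [Finset.sum_const, card_MN, smul_eq_mul]

open Classical in
private theorem card_low_le {n : ℕ} (hn : 2 ≤ n) :
    ((PN F (4 * n + 1) ×ˢ PN F (6 * n + 1)).filter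
      (fun p => p.1.natDegree + 4 ≤ 4 * n ∧ p.2.natDegree + 6 ≤ 6 * n)).card ≤
      Fintype.card F ^ (10 * n - 8) := by
  have hsub : (PN F (4 * n + 1) ×ˢ PN F (6 * n + 1)).filter
      (fun p => p.1.natDegree + 4 ≤ 4 * n ∧ p.2.natDegree + 6 ≤ 6 * n) ⊆
      PN F (4 * n - 3) ×ˢ PN F (6 * n - 5) := by
    rintro ⟨A, B⟩ hp
    rw [Finset.mem_filter] at hp
    obtain ⟨_, h1, h2⟩ := hp
    simp only at h1 h2
    rw [Finset.mem_product]
    simp only
    rw [mem_PN_iff_natDegree (by omega), mem_PN_iff_natDegree (by omega)]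
    omega
  refine (Finset.card_le_card hsub).trans ?_
  rw [Finset.card_product, card_PN, card_PN, ← pow_add]
  apply le_of_eq
  congr 1
  omega

end

open Classical in
theorem card_not_min_le {F : Type} [Field F] [Fintype F] (h2 : (2 : F) ≠ 0) (h3 : (3 : F) ≠ 0)
    {n : ℕ} (hn : 2 ≤ n) :
    (((PN F (4 * n + 1) ×ˢ PN F (6 * n + 1)).filter
      (fun p => ¬ (Min n p.1 p.2 ∧ 4 * p.1 ^ 3 + 27 * p.2 ^ 2 ≠ 0))).card : ℝ) ≤
      (1 / 100000) * (Fintype.card F : ℝ) ^ (10 * n + 2) := by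
  set q := Fintype.card F with hq
  have hq5 : 5 ≤ q := five_le_card h2 h3
  have hsub : (PN F (4 * n + 1) ×ˢ PN F (6 * n + 1)).filter
      (fun p => ¬ (Min n p.1 p.2 ∧ 4 * p.1 ^ 3 + 27 * p.2 ^ 2 ≠ 0)) ⊆
      ((PN F (4 * n + 1) ×ˢ PN F (6 * n + 1)).filter
        (fun p => 4 * p.1 ^ 3 + 27 * p.2 ^ 2 = 0) ∪
      (PN F (4 * n + 1) ×ˢ PN F (6 * n + 1)).filter
        (fun p => ¬ (p.1 = 0 ∧ p.2 = 0) ∧ ∃ d : F[X], ¬ IsUnit d ∧ d ^ 4 ∣ p.1 ∧ d ^ 6 ∣ p.2)) ∪
      (PN F (4 * n + 1) ×ˢ PN F (6 * n + 1)).filter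
        (fun p => p.1.natDegree + 4 ≤ 4 * n ∧ p.2.natDegree + 6 ≤ 6 * n) := by
    intro p hp
    rw [Finset.mem_filter] at hp
    obtain ⟨hp1, hp2⟩ := hp
    rw [Finset.mem_union, Finset.mem_union, Finset.mem_filter, Finset.mem_filter,
      Finset.mem_filter]
    by_cases hd : 4 * p.1 ^ 3 + 27 * p.2 ^ 2 = 0
    · exact Or.inl (Or.inl ⟨hp1, hd⟩)
    · have hm : ¬ Min n p.1 p.2 := fun h => hp2 ⟨h, hd⟩
      unfold Min at hm
      rw [not_and_or, not_not] at hm
      rcases hm with hm | hm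
      · push Not at hm
        obtain ⟨d, hd1, hd2, hd3⟩ := hm
        refine Or.inl (Or.inr ⟨hp1, ?_, d, hd1, hd2, hd3⟩)
        rintro ⟨h1, h2⟩
        apply hd
        rw [h1, h2]; ring
      · exact Or.inr ⟨hp1, hm⟩
  have hcard := (Finset.card_le_card hsub).trans (Finset.card_union_le _ _)
  have hcard2 := hcard.trans (Nat.add_le_add_right (Finset.card_union_le _ _) _)
  have hc1 := card_disc_le (F := F) h3 n
  have hc2 := card_mult_le (F := F) n
  have hc3 := card_low_le (F := F) hn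
  rw [← hq] at hc1 hc2 hc3
  have hqR : (5 : ℝ) ≤ (q : ℝ) := by exact_mod_cast hq5
  have hqpos : (0 : ℝ) < (q : ℝ) := by linarith
  have hN : (0 : ℝ) < (q : ℝ) ^ (10 * n + 2) := by positivity
  have b1 : ((2 * q ^ (4 * n + 1) : ℕ) : ℝ) ≤ (1 / 1000000) * (q : ℝ) ^ (10 * n + 2) := by
    push_cast
    have e1 : (q : ℝ) ^ (10 * n + 2) = (q : ℝ) ^ (4 * n + 1) * (q : ℝ) ^ (6 * n + 1) := by
      rw [← pow_add]; congr 1; ring
    have e2 : (5 : ℝ) ^ 13 ≤ (q : ℝ) ^ (6 * n + 1) := by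
      calc (5 : ℝ) ^ 13 ≤ (q : ℝ) ^ 13 := by gcongr
        _ ≤ (q : ℝ) ^ (6 * n + 1) := pow_le_pow_right₀ (by linarith) (by omega)
    rw [e1]
    have e3 : (0 : ℝ) < (q : ℝ) ^ (4 * n + 1) := by positivity
    nlinarith [mul_le_mul_of_nonneg_left e2 e3.le]
  have b2 : ((∑ i ∈ Finset.Icc 1 n, q ^ i *
      (q ^ (4 * n + 1 - 4 * i) * q ^ (6 * n + 1 - 6 * i)) : ℕ) : ℝ) ≤
      (2 / 1000000) * (q : ℝ) ^ (10 * n + 2) := by
    push_cast
    have e1 : ∀ i ∈ Finset.Icc 1 n, (q : ℝ) ^ i *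
        ((q : ℝ) ^ (4 * n + 1 - 4 * i) * (q : ℝ) ^ (6 * n + 1 - 6 * i)) =
        (q : ℝ) ^ (10 * n + 2) * ((1 / (q : ℝ) ^ 9) ^ i) := by
      intro i hi
      rw [Finset.mem_Icc] at hi
      rw [← pow_add, ← pow_add, div_pow, one_pow, ← pow_mul, mul_one_div,
        eq_div_iff (by positivity), ← pow_add]
      congr 1
      omega
    rw [Finset.sum_congr rfl e1, ← Finset.mul_sum]
    have e2 : 1 / (q : ℝ) ^ 9 ≤ 1 / 1000000 := by
      apply one_div_le_one_div_of_le (by norm_num)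
      calc (1000000 : ℝ) ≤ (5 : ℝ) ^ 9 := by norm_num
        _ ≤ (q : ℝ) ^ 9 := by gcongr
    have e3 : ∑ i ∈ Finset.Icc 1 n, (1 / (q : ℝ) ^ 9) ^ i ≤
        ∑ i ∈ Finset.Icc 1 n, (1 / 1000000 : ℝ) ^ i := by
      apply Finset.sum_le_sum
      intro i _
      gcongr
    have e4 : ∀ k : ℕ, ∑ i ∈ Finset.Icc 1 k, (1 / 1000000 : ℝ) ^ i ≤
        2 / 1000000 - 2 * (1 / 1000000 : ℝ) ^ (k + 1) := by
      intro k
      induction k with
      | zero => norm_num
      | succ k ih =>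
        rw [Finset.sum_Icc_succ_top (by omega)]
        have e5 : (0 : ℝ) < (1 / 1000000 : ℝ) ^ (k + 1) := by positivity
        have e7 : (1 / 1000000 : ℝ) ^ (k + 1 + 1) =
            (1 / 1000000 : ℝ) ^ (k + 1) * (1 / 1000000) := pow_succ _ _
        rw [e7]
        linarith
    have e8 := e4 n
    have e9 : (0 : ℝ) < (1 / 1000000 : ℝ) ^ (n + 1) := by positivity
    rw [mul_comm (2 / 1000000 : ℝ)]
    apply mul_le_mul_of_nonneg_left _ hN.le
    linarith
  have b3 : ((q ^ (10 * n - 8) : ℕ) : ℝ) ≤ (1 / 1000000) * (q : ℝ) ^ (10 * n + 2) := by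
    push_cast
    have e1 : (q : ℝ) ^ (10 * n + 2) = (q : ℝ) ^ (10 * n - 8) * (q : ℝ) ^ 10 := by
      rw [← pow_add]; congr 1; omega
    have e2 : (5 : ℝ) ^ 10 ≤ (q : ℝ) ^ 10 := by gcongr
    rw [e1]
    have e3 : (0 : ℝ) < (q : ℝ) ^ (10 * n - 8) := by positivity
    nlinarith [mul_le_mul_of_nonneg_left e2 e3.le]
  have hfin := hcard2.trans (Nat.add_le_add (Nat.add_le_add hc1 hc2) hc3)
  have hfinR : (((PN F (4 * n + 1) ×ˢ PN F (6 * n + 1)).filter
      (fun p => ¬ (Min n p.1 p.2 ∧ 4 * p.1 ^ 3 + 27 * p.2 ^ 2 ≠ 0))).card : ℝ) ≤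
      ((2 * q ^ (4 * n + 1) : ℕ) : ℝ) + ((∑ i ∈ Finset.Icc 1 n, q ^ i *
      (q ^ (4 * n + 1 - 4 * i) * q ^ (6 * n + 1 - 6 * i)) : ℕ) : ℝ) +
      ((q ^ (10 * n - 8) : ℕ) : ℝ) := by
    rw [← Nat.cast_add, ← Nat.cast_add]
    exact_mod_cast hfin
  refine hfinR.trans ?_
  linarith

end Pool.Agent.Helper31.AR
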