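import Pool.Agent.Helper31.AR.AvgRankE
import Pool.Agent.Helper31.AR.MinCount

/-!
# AR-60: the final theorem with the constant `11 / 6`

First part: `avg_rank_eps` with `δ`. Second part: as in AR-56 (`Final.lean`), with `avg_rank_eps` for `δ = 10 ^ (-5)`: the pairs in
`PN F (4 n + 1) × PN F (6 n + 1)` with `Min` and nonzero discriminant number at least `N (1 - 1 / 100000)`; those with `ord ≥ 2` at most
`(11 / 12 + 10 ^ (-5) / 2) N`; so at least `N (1 / 12 - 0.000015) ≥ 0.0833 N` have `ord ≤ 1` (`1 / 12 = 0.083333...`).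
Take `n₀` the maximum for `δ` and for `10 ^ (-5)` (and `2`).
-/

set_option autoImplicit false

open Polynomial

namespace Pool.Agent.Helper31.AR

private theorem not_const_of_minE {F : Type} [Field F] [Fintype F] {n : ℕ} (hn : 2 ≤ n)
    {A B : F[X]} (h : Min n A B) : ¬ Const A B := by
  rintro ⟨a, b, d, hA, hB⟩
  obtain ⟨h1, h2⟩ := h
  by_cases hd : IsUnit d
  · apply h2
    have hd0 : d.natDegree = 0 := natDegree_eq_zero_of_isUnit hd
    have hA0 : A.natDegree = 0 := by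
      have h3 : A.natDegree ≤ (C a).natDegree + (d ^ 4).natDegree := by
        rw [hA]; exact natDegree_mul_le
      rw [natDegree_C, natDegree_pow, hd0] at h3
      omega
    have hB0 : B.natDegree = 0 := by
      have h3 : B.natDegree ≤ (C b).natDegree + (d ^ 6).natDegree := by
        rw [hB]; exact natDegree_mul_le
      rw [natDegree_C, natDegree_pow, hd0] at h3
      omega
    omega
  · exact h1 d hd ⟨hA ▸ Dvd.intro_left _ rfl, hB ▸ Dvd.intro_left _ rfl⟩

open Classical in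
theorem final_theorem_eps (F : Type) [Field F] [Fintype F] (h2 : (2 : F) ≠ 0) (h3 : (3 : F) ≠ 0)
    (δ : ℝ) (hδ : 0 < δ) :
    ∃ n₀ : ℕ, ∀ n : ℕ, n₀ ≤ n → ∀ Q : F[X] → F[X] → ℤ[X],
      (∀ p ∈ adm F n, IsFrob n p.1 p.2 (Q p.1 p.2)) →
      (∑ p ∈ adm F n, ((ord F (Q p.1 p.2) : ℕ) : ℝ) ≤
          (11 / 6 + δ) * (Fintype.card F : ℝ) ^ (10 * n + 2)) ∧
        0.0833 * (Fintype.card F : ℝ) ^ (10 * n + 2) ≤
          (((adm F n).filter (fun p => Min n p.1 p.2 ∧ 4 * p.1 ^ 3 + 27 * p.2 ^ 2 ≠ 0 ∧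
            ord F (Q p.1 p.2) ≤ 1)).card : ℝ) := by
  obtain ⟨n₁, hn₁⟩ := avg_rank_eps F h2 h3 δ hδ
  obtain ⟨n₀, hn₀⟩ := avg_rank_eps F h2 h3 (1 / 100000) (by norm_num)
  refine ⟨max (max n₀ 2) n₁, fun n hn Q hQ => ?_⟩
  have hn1 : n₀ ≤ n := le_trans (le_trans (le_max_left _ _) (le_max_left _ _)) hn
  have hn2 : 2 ≤ n := le_trans (le_trans (le_max_right _ _) (le_max_left _ _)) hn
  have hn3 : n₁ ≤ n := le_trans (le_max_right _ _) hn
  have havg := hn₀ n hn1 Q hQ
  have hmin := card_not_min_le (F := F) h2 h3 hn2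
  refine ⟨hn₁ n hn3 Q hQ, ?_⟩
  have hqpos : (0 : ℝ) < (Fintype.card F : ℝ) := by
    have : 0 < Fintype.card F := Fintype.card_pos
    exact_mod_cast this
  have hN : (0 : ℝ) < (Fintype.card F : ℝ) ^ (10 * n + 2) := by positivity
  set N : ℝ := (Fintype.card F : ℝ) ^ (10 * n + 2) with hNdef
  set S := PN F (4 * n + 1) ×ˢ PN F (6 * n + 1) with hS
  set T := (adm F n).filter (fun p => Min n p.1 p.2 ∧ 4 * p.1 ^ 3 + 27 * p.2 ^ 2 ≠ 0 ∧
            ord F (Q p.1 p.2) ≤ 1) with hT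
  set U := (adm F n).filter (fun p => 2 ≤ ord F (Q p.1 p.2)) with hU
  set G := S.filter (fun p => Min n p.1 p.2 ∧ 4 * p.1 ^ 3 + 27 * p.2 ^ 2 ≠ 0) with hG
  set G' := S.filter (fun p => ¬ (Min n p.1 p.2 ∧ 4 * p.1 ^ 3 + 27 * p.2 ^ 2 ≠ 0)) with hG'
  have hcardS : (S.card : ℝ) = N := by
    rw [hS, Finset.card_product, card_PN, card_PN, hNdef]
    push_cast
    rw [← pow_add]
    congr 1
    ring
  have hGG : G.card + G'.card = S.card := by
    rw [hG, hG']
    exact Finset.card_filter_add_card_filter_not _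
  have hsub : G ⊆ T ∪ U := by
    intro p hp
    rw [hG, Finset.mem_filter] at hp
    obtain ⟨hp1, hp2, hp3⟩ := hp
    have hadm : p ∈ adm F n := by
      unfold adm
      rw [Finset.mem_filter]
      exact ⟨hp1, not_const_of_minE hn2 hp2⟩
    rw [Finset.mem_union, hT, hU, Finset.mem_filter, Finset.mem_filter]
    by_cases h : ord F (Q p.1 p.2) ≤ 1
    · exact Or.inl ⟨hadm, hp2, hp3, h⟩
    · exact Or.inr ⟨hadm, by omega⟩
  have hcardG : G.card ≤ T.card + U.card :=
    (Finset.card_le_card hsub).trans (Finset.card_union_le _ _)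
  have hU2 : 2 * (U.card : ℝ) ≤ ∑ p ∈ adm F n, ((ord F (Q p.1 p.2) : ℕ) : ℝ) := by
    calc 2 * (U.card : ℝ) = ∑ _p ∈ U, (2 : ℝ) := by
          rw [Finset.sum_const, nsmul_eq_mul]; ring
      _ ≤ ∑ p ∈ U, ((ord F (Q p.1 p.2) : ℕ) : ℝ) := by
          apply Finset.sum_le_sum
          intro p hp
          rw [hU, Finset.mem_filter] at hp
          exact_mod_cast hp.2
      _ ≤ ∑ p ∈ adm F n, ((ord F (Q p.1 p.2) : ℕ) : ℝ) := by
          apply Finset.sum_le_sum_of_subset_of_nonneg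
          · exact Finset.filter_subset _ _
          · intro p _ _
            exact Nat.cast_nonneg _
  have e1 : (G.card : ℝ) + (G'.card : ℝ) = N := by
    rw [← hcardS]
    exact_mod_cast hGG
  have e2 : (G.card : ℝ) ≤ (T.card : ℝ) + (U.card : ℝ) := by exact_mod_cast hcardG
  have e3 : (G'.card : ℝ) ≤ 1 / 100000 * N := hmin
  linarith

end Pool.Agent.Helper31.AR
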