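import Pool.Agent.Helper31.AR.Defs

/-!
# AR-22: Hasse derivatives of `f ^ c s` (Stepanov's method, step 1)

* `exists_hasse_pow`: induction on `c`. `c = 0`: `f ^ 0 = 1`, `hasseDeriv i 1 = 0` for `i ≥ 1` (`u = 0`), `u = 1` for `i = 0`.
  Step: `hasseDeriv i (f ^ c * f) = ∑_{j ≤ i} hasseDeriv j f * hasseDeriv (i - j) (f ^ c)` (`hasseDeriv_mul`), and
  `hasseDeriv j f = 0` for `j > 3` (`natDegree f ≤ 3`). Multiply by `f ^ i`: the term `j = 0` is
  `f * (f ^ i hasseDeriv i (f ^ c)) = f ^ (c + 1) u_i`; for `j ≥ 1` it is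
  `hasseDeriv j f * f ^ j * (f ^ (i - j) hasseDeriv (i - j) (f ^ c)) = f ^ (c + 1) * (hasseDeriv j f * f ^ (j - 1) * u_{i-j})`.
  So `u_i^{(c+1)} = u_i + ∑_{1 ≤ j ≤ min (i, 3)} hasseDeriv j f * f ^ (j - 1) * u_{i - j}`, with degrees
  `(3 - j) + 3 (j - 1) + 2 (i - j) = 2 i` (`natDegree (hasseDeriv j f) ≤ 3 - j`).
* `exists_D`: choose `u_i` from the first lemma and put
  `D s = ∑_{i ≤ k} u_i * f ^ (k - i) * hasseDeriv (k - i) s`, linear in `s`;
  `f ^ k * hasseDeriv k (f ^ c * s) = ∑_i (f ^ i hasseDeriv i (f ^ c)) (f ^ (k - i) hasseDeriv (k - i) s) = f ^ c * D s`.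
  Degrees: `2 i + 3 (k - i) + (deg s - (k - i)) ≤ deg s + 2 k` (if `k - i > deg s` the term is `0`).
-/

set_option autoImplicit false

open Polynomial

namespace Pool.Agent.Helper31.AR

variable {L : Type} [Field L] [Fintype L]

omit [Fintype L] in
theorem hc_w_degree (f : L[X]) (hf : f.natDegree ≤ 3) (j : ℕ) :
    (if j = 0 then (1 : L[X]) else hasseDeriv j f * f ^ (j - 1)).natDegree ≤ 2 * j := by
  split_ifs with h
  · simp
  · by_cases h3 : f.natDegree < j
    · rw [hasseDeriv_eq_zero_of_lt_natDegree _ _ h3]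
      simp
    · have h4 := natDegree_hasseDeriv_le f j
      have h5 : (f ^ (j - 1)).natDegree ≤ (j - 1) * 3 := natDegree_pow_le_of_le _ hf
      have h6 := natDegree_mul_le (p := hasseDeriv j f) (q := f ^ (j - 1))
      omega

theorem exists_hasse_pow (f : L[X]) (hf : f.natDegree ≤ 3) (c i : ℕ) :
    ∃ u : L[X], u.natDegree ≤ 2 * i ∧ f ^ i * hasseDeriv i (f ^ c) = f ^ c * u := by
  induction c generalizing i with
  | zero =>
    rcases Nat.eq_zero_or_pos i with h | h
    · subst h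
      exact ⟨1, by simp, by simp⟩
    · refine ⟨0, by simp, ?_⟩
      have h1 : (1 : L[X]) = C 1 := by simp
      rw [pow_zero, h1, hasseDeriv_C i 1 h]
      simp
  | succ c ih =>
    choose u hu1 hu2 using ih
    refine ⟨∑ p ∈ Finset.HasAntidiagonal.antidiagonal i, (if p.1 = 0 then (1 : L[X]) else hasseDeriv p.1 f * f ^ (p.1 - 1)) * u p.2,
      ?_, ?_⟩
    · apply natDegree_sum_le_of_forall_le
      rintro ⟨j, m⟩ hp
      rw [Finset.HasAntidiagonal.mem_antidiagonal] at hp
      simp only at hp ⊢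
      have h1 := hc_w_degree f hf j
      have h2 := hu1 m
      have h3 := natDegree_mul_le (p := (if j = 0 then (1 : L[X]) else hasseDeriv j f * f ^ (j - 1))) (q := u m)
      omega
    · rw [pow_succ' f c, hasseDeriv_mul, Finset.mul_sum, Finset.mul_sum]
      apply Finset.sum_congr rfl
      rintro ⟨j, m⟩ hp
      rw [Finset.HasAntidiagonal.mem_antidiagonal] at hp
      simp only at hp ⊢
      rw [← hp, pow_add]
      have h1 : f ^ j * hasseDeriv j f = f * (if j = 0 then (1 : L[X]) else hasseDeriv j f * f ^ (j - 1)) := by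
        split_ifs with h
        · subst h
          simp
        · obtain ⟨j', rfl⟩ : ∃ j', j = j' + 1 := ⟨j - 1, by omega⟩
          rw [Nat.add_sub_cancel, pow_succ]
          ring
      calc f ^ j * f ^ m * (hasseDeriv j f * hasseDeriv m (f ^ c))
          = (f ^ j * hasseDeriv j f) * (f ^ m * hasseDeriv m (f ^ c)) := by ring
        _ = _ := by
          rw [h1, hu2 m]
          ring

theorem exists_D (f : L[X]) (hf : f.natDegree ≤ 3) (c k : ℕ) :
    ∃ D : L[X] →ₗ[L] L[X], (∀ s : L[X], (D s).natDegree ≤ s.natDegree + 2 * k) ∧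
      ∀ s : L[X], f ^ k * hasseDeriv k (f ^ c * s) = f ^ c * D s := by
  choose u hu1 hu2 using fun i => exists_hasse_pow f hf c i
  have hD : ∀ s : L[X], (∑ p ∈ Finset.HasAntidiagonal.antidiagonal k,
      (LinearMap.mulLeft L (u p.1 * f ^ p.2)).comp (hasseDeriv p.2) : L[X] →ₗ[L] L[X]) s =
      ∑ p ∈ Finset.HasAntidiagonal.antidiagonal k, u p.1 * f ^ p.2 * hasseDeriv p.2 s := by
    intro s
    simp [LinearMap.sum_apply, mul_assoc]
  refine ⟨∑ p ∈ Finset.HasAntidiagonal.antidiagonal k, (LinearMap.mulLeft L (u p.1 * f ^ p.2)).comp (hasseDeriv p.2), ?_, ?_⟩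
  · intro s
    rw [hD]
    apply natDegree_sum_le_of_forall_le
    rintro ⟨i, m⟩ hp
    rw [Finset.HasAntidiagonal.mem_antidiagonal] at hp
    simp only at hp ⊢
    by_cases h3 : s.natDegree < m
    · rw [hasseDeriv_eq_zero_of_lt_natDegree _ _ h3]
      simp
    · have h1 := hu1 i
      have h4 := natDegree_hasseDeriv_le s m
      have h5 : (f ^ m).natDegree ≤ m * 3 := natDegree_pow_le_of_le _ hf
      have h6 := natDegree_mul_le (p := u i) (q := f ^ m)
      have h7 := natDegree_mul_le (p := u i * f ^ m) (q := hasseDeriv m s)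
      omega
  · intro s
    rw [hD, hasseDeriv_mul, Finset.mul_sum, Finset.mul_sum]
    apply Finset.sum_congr rfl
    rintro ⟨i, m⟩ hp
    rw [Finset.HasAntidiagonal.mem_antidiagonal] at hp
    simp only at hp ⊢
    rw [← hp, pow_add]
    calc f ^ i * f ^ m * (hasseDeriv i (f ^ c) * hasseDeriv m s)
        = (f ^ i * hasseDeriv i (f ^ c)) * (f ^ m * hasseDeriv m s) := by ring
      _ = _ := by
        rw [hu2 i]
        ring

end Pool.Agent.Helper31.AR
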