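import Pool.Agent.Helper31.AR.Defs

/-!
# AR-05: basic properties of the symbol `J h v = quadraticChar F (resultant h v)`, `h` monic

Mathlib file `Mathlib/RingTheory/Polynomial/Resultant/Basic.lean`: `resultant_mul_left`,
`resultant_mul_right`, `resultant_add_mul_right`, `resultant_add_right_deg`, `resultant_eq_zero_iff`,
`isUnit_resultant_iff_isCoprime`, `resultant_comm`.

The default arguments of `resultant h v` are the `natDegree`s. For `h` monic
`resultant h v h.natDegree n = resultant h v h.natDegree v.natDegree` for all `n ≥ v.natDegree`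
(`resultant_add_right_deg`: a factor `leadingCoeff ^ k = 1`; check the sign in the statement). Hence
`resultant h (v + h * p) = resultant h v` (take `n` large and use `resultant_add_mul_right`), which gives
`J_congr`; `J_mul_right` from `resultant_mul_right` (if `v = 0` or `w = 0` treat separately, or use large
formal degrees); `J_mul_left` from `resultant_mul_left` and `natDegree_mul` of monic polynomials.
`quadraticChar` is multiplicative with values in `{-1, 0, 1}`, and `0` only at `0`.
-/

set_option autoImplicit false

open Polynomial

namespace Pool.Agent.Helper31.AR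

variable {F : Type} [Field F] [Fintype F]

omit [Fintype F] in
/-- for `h` monic the formal degree of the right argument does not matter -/
private lemma res_deg {h : F[X]} (hh : h.Monic) (v : F[X]) {n : ℕ} (hn : v.natDegree ≤ n) :
    resultant h v h.natDegree n = resultant h v := by
  obtain ⟨k, rfl⟩ := Nat.exists_eq_add_of_le hn
  rw [resultant_add_right_deg _ _ _ _ _ le_rfl, coeff_natDegree, hh.leadingCoeff, one_pow, one_mul]

theorem J_one_left (v : F[X]) : J 1 v = 1 := by
  classical
  unfold J
  rw [resultant_one_left, natDegree_one]
  simp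

theorem J_mul_left {h g : F[X]} (hh : h.Monic) (hg : g.Monic) (v : F[X]) :
    J (h * g) v = J h v * J g v := by
  classical
  unfold J
  rw [← map_mul]
  congr 1
  have h1 := resultant_mul_left h g v v.natDegree le_rfl
  rw [← h1, hh.natDegree_mul hg]

theorem J_mul_right {h : F[X]} (hh : h.Monic) (v w : F[X]) : J h (v * w) = J h v * J h w := by
  classical
  unfold J
  rw [← map_mul]
  congr 1
  have h1 := resultant_mul_right h v w h.natDegree le_rfl
  rw [← h1, res_deg hh (v * w) natDegree_mul_le]

theorem J_congr {h : F[X]} (hh : h.Monic) {v w : F[X]} (hd : h ∣ v - w) : J h v = J h w := by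
  classical
  obtain ⟨p, hp⟩ := hd
  have hv : v = w + h * p := by rw [← hp]; ring
  unfold J
  congr 1
  have hn1 : w.natDegree ≤ max (max v.natDegree w.natDegree) (p.natDegree + h.natDegree) :=
    le_trans (le_max_right _ _) (le_max_left _ _)
  have hn2 : v.natDegree ≤ max (max v.natDegree w.natDegree) (p.natDegree + h.natDegree) :=
    le_trans (le_max_left _ _) (le_max_left _ _)
  have hn3 : p.natDegree + h.natDegree ≤
    max (max v.natDegree w.natDegree) (p.natDegree + h.natDegree) := le_max_right _ _
  rw [← res_deg hh w hn1, ← res_deg hh v hn2]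
  conv_lhs => rw [hv]
  rw [← hv]
  have h2 := resultant_add_mul_right h w p h.natDegree
    (max (max v.natDegree w.natDegree) (p.natDegree + h.natDegree)) hn3 le_rfl
  rw [← hv] at h2
  exact h2

theorem J_eq_zero_iff {h : F[X]} (hh : h.Monic) (v : F[X]) : J h v = 0 ↔ ¬ IsCoprime h v := by
  classical
  unfold J
  rw [quadraticChar_eq_zero_iff, resultant_eq_zero_iff]
  constructor
  · exact fun h1 => h1.2
  · exact fun h1 => ⟨Or.inl hh.ne_zero, h1⟩

theorem J_mul_self {h : F[X]} (hh : h.Monic) {v : F[X]} (hc : IsCoprime h v) : J h v * J h v = 1 := by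
  classical
  have h1 : resultant h v ≠ 0 := by
    intro h0
    rw [resultant_eq_zero_iff] at h0
    exact h0.2 hc
  unfold J
  rw [← pow_two]
  exact quadraticChar_sq_one h1

theorem norm_J_le (h v : F[X]) : ‖((J h v : ℤ) : ℂ)‖ ≤ 1 := by
  classical
  unfold J
  by_cases h0 : resultant h v = 0
  · rw [h0]
    simp
  · rcases quadraticChar_dichotomy h0 with h1 | h1 <;> rw [h1] <;> simp

end Pool.Agent.Helper31.AR
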