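import Pool.Agent.Helper31.AR.JChi

/-!
# AR-07: nonresidues

Proof. `L = AdjoinRoot π` is a finite field with `q ^ deg π` elements and `t = root π`. It has odd
characteristic, so there is `z` in `L` with `quadraticChar L z = -1` (`quadraticChar_exists_neg_one`), and
`z = aeval t u` for some `u` (`AdjoinRoot.mk_surjective`). `J π u = quadraticChar F (resultant π u) =
chi L (aeval t u) = -1` by `chi_aeval`. (The `Fintype` instance on `AdjoinRoot π`: `Fintype.ofFinite`; the
cardinality from `AdjoinRoot.powerBasis`, `Module.card_eq_pow_finrank`.)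
-/

set_option autoImplicit false

open Polynomial

namespace Pool.Agent.Helper31.AR

variable {F : Type} [Field F] [Fintype F]

theorem exists_J_eq_neg_one (h2 : (2 : F) ≠ 0) {p : F[X]} (hp : p.Monic) (hirr : Irreducible p) :
    ∃ u : F[X], J p u = -1 := by
  classical
  have : Fact (Irreducible p) := ⟨hirr⟩
  let pb := AdjoinRoot.powerBasis (f := p) hirr.ne_zero
  have : Module.Finite F (AdjoinRoot p) := pb.finite
  have : Finite (AdjoinRoot p) := Module.finite_of_finite F
  let _ : Fintype (AdjoinRoot p) := Fintype.ofFinite _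
  have hcard : Fintype.card (AdjoinRoot p) = Fintype.card F ^ p.natDegree := by
    rw [Module.card_eq_pow_finrank (K := F), pb.finrank]
    rfl
  have hchar : ringChar (AdjoinRoot p) ≠ 2 := by
    intro h
    apply h2
    have h3 : ((2 : ℕ) : AdjoinRoot p) = 0 := by
      rw [← h]; exact ringChar.Nat.cast_ringChar
    have h4 : algebraMap F (AdjoinRoot p) (2 : F) = 0 := by
      rw [map_ofNat]
      exact_mod_cast h3
    exact (map_eq_zero _).1 h4
  obtain ⟨z, hz⟩ := quadraticChar_exists_neg_one hchar
  obtain ⟨u, hu⟩ := AdjoinRoot.mk_surjective z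
  refine ⟨u, ?_⟩
  have h5 := chi_aeval h2 (t := AdjoinRoot.root p) hp hirr
    (by rw [AdjoinRoot.aeval_eq, AdjoinRoot.mk_self]) hcard u
  rw [AdjoinRoot.aeval_eq, hu] at h5
  unfold chi at h5
  unfold J
  rw [← h5]
  convert hz

end Pool.Agent.Helper31.AR
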