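import Pool.Agent.Helper31.AR.ConicCount

/-!
# AR-29: the average over `b ∈ k` of `cub L a b`

Exchange the sums: `∑_b cub L a b = ∑_{x ∈ L} ∑_{b ∈ k} chi L ((x ^ 3 + a x) + b)`. Put `z = x ^ 3 + a x`.
* If `z ∈ k` (`sum_chi_base`) the inner sum is `|k| - 1`, otherwise (`sum_chi_add`) it is `-1`.
* `x ∈ k` implies `z ∈ k`: `|k|` such `x`. Among the `|k| ^ 2 - |k|` elements `x ∉ k` let `Z` be the number with `z ∈ k`.
Total: `|k| (|k| - 1) + Z (|k| - 1) - (|k| ^ 2 - |k| - Z) = |k| Z`. Then use `card_Z_le`, `card_Z_le_of_ne`.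
-/

set_option autoImplicit false

open Polynomial

namespace Pool.Agent.Helper31.AR

variable {k : Type} [Field k] [Fintype k] {L : Type} [Field L] [Fintype L] [Algebra k L]

open Classical in
theorem sum_cub_eq (h2 : (2 : k) ≠ 0) (hL : Fintype.card L = Fintype.card k ^ 2) (a : k) :
    ∑ b : k, cub L (algebraMap k L a) (algebraMap k L b) =
      (Fintype.card k : ℤ) *
        ((Finset.univ.filter (fun x : L => x ∉ Set.range (algebraMap k L) ∧
          x ^ 3 + algebraMap k L a * x ∈ Set.range (algebraMap k L))).card : ℤ) := by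
  have hinj := (algebraMap k L).injective
  set Z := Finset.univ.filter (fun x : L => x ∉ Set.range (algebraMap k L) ∧
      x ^ 3 + algebraMap k L a * x ∈ Set.range (algebraMap k L)) with hZ
  set S : Finset L := Finset.univ.image (algebraMap k L) with hS
  have hScard : S.card = Fintype.card k := by
    rw [hS, Finset.card_image_of_injective _ hinj, Finset.card_univ]
  have hmemS : ∀ x : L, x ∈ S ↔ x ∈ Set.range (algebraMap k L) := by
    intro x
    rw [hS, Finset.mem_image]
    constructor
    · rintro ⟨y, -, hy⟩; exact ⟨y, hy⟩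
    · rintro ⟨y, hy⟩; exact ⟨y, Finset.mem_univ _, hy⟩
  have h1 : ∑ b : k, cub L (algebraMap k L a) (algebraMap k L b) =
      ∑ x : L, ∑ b : k, chi L ((x ^ 3 + algebraMap k L a * x) + algebraMap k L b) := by
    unfold cub
    rw [Finset.sum_comm]
  have h3 : ∀ x : L, ∑ b : k, chi L ((x ^ 3 + algebraMap k L a * x) + algebraMap k L b) =
      (if x ∈ S ∪ Z then (Fintype.card k : ℤ) else 0) - 1 := by
    intro x
    by_cases hx : x ^ 3 + algebraMap k L a * x ∈ Set.range (algebraMap k L)
    · have h4 : x ∈ S ∪ Z := by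
        rw [Finset.mem_union, hmemS, hZ, Finset.mem_filter]
        by_cases hx1 : x ∈ Set.range (algebraMap k L)
        · left; exact hx1
        · right; exact ⟨Finset.mem_univ _, hx1, hx⟩
      rw [if_pos h4]
      obtain ⟨y, hy⟩ := hx
      rw [← hy]
      exact sum_chi_base h2 hL y
    · have h4 : x ∉ S ∪ Z := by
        rw [Finset.mem_union, hmemS, hZ, Finset.mem_filter]
        rintro (h5 | h5)
        · apply hx
          obtain ⟨y, hy⟩ := h5
          exact ⟨y ^ 3 + a * y, by simp only [map_add, map_mul, map_pow]; rw [hy]⟩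
        · exact hx h5.2.2
      rw [if_neg h4, sum_chi_add h2 hL hx]
      norm_num
  rw [h1, Finset.sum_congr rfl (fun x _ => h3 x), Finset.sum_sub_distrib, ← Finset.sum_filter]
  have h5 : Finset.univ.filter (fun x => x ∈ S ∪ Z) = S ∪ Z := by
    ext x; simp
  have hdisj : Disjoint S Z := by
    rw [Finset.disjoint_left]
    intro x hx hx'
    rw [hZ, Finset.mem_filter] at hx'
    exact hx'.2.1 ((hmemS x).1 hx)
  rw [h5, Finset.sum_const, Finset.sum_const, Finset.card_union_of_disjoint hdisj, hScard,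
    Finset.card_univ, hL]
  simp only [nsmul_eq_mul]
  push_cast
  ring

theorem sum_cub_le (h2 : (2 : k) ≠ 0) (hL : Fintype.card L = Fintype.card k ^ 2) (a : k) :
    ∑ b : k, cub L (algebraMap k L a) (algebraMap k L b) ≤
      (Fintype.card k : ℤ) * (2 * Fintype.card k) := by
  classical
  rw [sum_cub_eq h2 hL]
  refine mul_le_mul_of_nonneg_left ?_ (by positivity)
  exact_mod_cast card_Z_le h2 hL a

theorem sum_cub_le_of_ne (h2 : (2 : k) ≠ 0) (h3 : (3 : k) ≠ 0)
    (hL : Fintype.card L = Fintype.card k ^ 2) {a : k} (ha : a ≠ 0) :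
    ∑ b : k, cub L (algebraMap k L a) (algebraMap k L b) ≤
      (Fintype.card k : ℤ) * (Fintype.card k + 1) := by
  classical
  rw [sum_cub_eq h2 hL]
  refine mul_le_mul_of_nonneg_left ?_ (by positivity)
  exact_mod_cast card_Z_le_of_ne h2 h3 hL ha

end Pool.Agent.Helper31.AR
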