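import Pool.Agent.Helper31.AR.Defs

/-!
# AR-27: the quadratic character of a quadratic extension

`L / k` with `card L = (card k) ^ 2`, odd characteristic.

* `chi_base`: for `0 ≠ c ∈ k` the image in `L` is a square: `c ^ ((|k| ^ 2 - 1) / 2) = (c ^ (|k| - 1)) ^ ((|k| + 1) / 2) = 1`
  (Euler's criterion). So `chi L c = 1`.
* `sum_chi_base`: for `z = algebraMap c₀`: `∑_b chi L (c₀ + b) = ∑_b chi L b = |k| - 1`.
* `sum_chi_add`: for `z ∉ k`: every `w ∈ L ∖ k` is uniquely `w = c (z + b)`, `c ∈ k ∖ 0`, `b ∈ k` (`{1, z}` is a basis of `L` over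
  `k`: `finrank k L = 2` from the cardinalities; or: the map `(c, b) ↦ c (z + b)` from `k^× × k` to `L ∖ k` is injective
  and both sides have `|k| (|k| - 1)` elements). `chi L (c (z + b)) = chi L (z + b)`. So
  `∑_{w ∉ k} chi L w = (|k| - 1) ∑_b chi L (z + b)`. And `∑_{w ∈ L} chi L w = 0` (`quadraticChar_sum_zero`),
  `∑_{w ∈ k} chi L w = |k| - 1`. So `(|k| - 1) ∑_b chi L (z + b) = - (|k| - 1)`, and `|k| > 1`.
-/

set_option autoImplicit false

open Polynomial

namespace Pool.Agent.Helper31.AR

variable {k : Type} [Field k] [Fintype k] {L : Type} [Field L] [Fintype L] [Algebra k L]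

theorem two_ne_zero_ext (h2 : (2 : k) ≠ 0) : (2 : L) ≠ 0 := by
  have h : algebraMap k L 2 ≠ 0 := by
    rw [Ne, map_eq_zero_iff _ (algebraMap k L).injective]
    exact h2
  rwa [map_ofNat] at h

theorem chi_base (h2 : (2 : k) ≠ 0) (hL : Fintype.card L = Fintype.card k ^ 2) {c : k} (hc : c ≠ 0) :
    chi L (algebraMap k L c) = 1 := by
  classical
  have h2L : (2 : L) ≠ 0 := two_ne_zero_ext h2
  have hchar : ringChar L ≠ 2 := by
    intro h
    apply h2L
    have := ringChar.Nat.cast_ringChar (R := L)
    rw [h] at this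
    exact_mod_cast this
  have hchark : ringChar k ≠ 2 := by
    intro h
    apply h2
    have := ringChar.Nat.cast_ringChar (R := k)
    rw [h] at this
    exact_mod_cast this
  have hc' : algebraMap k L c ≠ 0 := by
    rw [Ne, map_eq_zero_iff _ (algebraMap k L).injective]
    exact hc
  unfold chi
  rw [quadraticChar_one_iff_isSquare hc', FiniteField.isSquare_iff hchar hc', hL]
  have hodd : Fintype.card k % 2 = 1 := FiniteField.odd_card_of_char_ne_two hchark
  obtain ⟨m, hm⟩ : ∃ m, Fintype.card k = 2 * m + 1 := ⟨Fintype.card k / 2, by omega⟩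
  have h1 : Fintype.card k ^ 2 / 2 = (Fintype.card k - 1) * (m + 1) := by
    rw [hm]
    have : (2 * m + 1) ^ 2 = 2 * ((2 * m + 1 - 1) * (m + 1)) + 1 := by
      rw [Nat.add_sub_cancel]; ring
    rw [this]
    omega
  rw [h1, pow_mul, ← map_pow, FiniteField.pow_card_sub_one_eq_one c hc]
  simp

theorem chi_mul (a b : L) : chi L (a * b) = chi L a * chi L b := by
  classical
  unfold chi
  exact map_mul _ _ _

theorem sum_chi_base_zero (h2 : (2 : k) ≠ 0) (hL : Fintype.card L = Fintype.card k ^ 2) :
    ∑ b : k, chi L (algebraMap k L b) = (Fintype.card k : ℤ) - 1 := by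
  classical
  rw [← Finset.add_sum_erase Finset.univ _ (Finset.mem_univ (0 : k))]
  rw [Finset.sum_congr rfl (fun b hb => chi_base h2 hL (Finset.ne_of_mem_erase hb))]
  simp only [map_zero, Finset.sum_const, nsmul_eq_mul, mul_one]
  rw [Finset.card_erase_of_mem (Finset.mem_univ _), Finset.card_univ]
  have h0 : chi L (0 : L) = 0 := by unfold chi; simp
  rw [h0, Nat.cast_sub Fintype.card_pos]
  simp

theorem sum_chi_base (h2 : (2 : k) ≠ 0) (hL : Fintype.card L = Fintype.card k ^ 2) (c : k) :
    ∑ b : k, chi L (algebraMap k L c + algebraMap k L b) = (Fintype.card k : ℤ) - 1 := by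
  rw [← sum_chi_base_zero h2 hL]
  simp only [← map_add]
  exact Fintype.sum_equiv (Equiv.addLeft c) _ _ (fun b => rfl)

theorem sum_chi_add (h2 : (2 : k) ≠ 0) (hL : Fintype.card L = Fintype.card k ^ 2) {z : L}
    (hz : z ∉ Set.range (algebraMap k L)) :
    ∑ b : k, chi L (z + algebraMap k L b) = -1 := by
  classical
  have h2L : (2 : L) ≠ 0 := two_ne_zero_ext h2
  have hchar : ringChar L ≠ 2 := by
    intro h
    apply h2L
    have := ringChar.Nat.cast_ringChar (R := L)
    rw [h] at this
    exact_mod_cast this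
  have hinj := (algebraMap k L).injective
  -- the set of elements outside `k`
  set S : Finset L := Finset.univ.image (algebraMap k L) with hS
  have hScard : S.card = Fintype.card k := by
    rw [hS, Finset.card_image_of_injective _ hinj, Finset.card_univ]
  set T : Finset (k × k) := (Finset.univ.erase (0 : k)) ×ˢ Finset.univ with hT
  set φ : k × k → L := fun p => algebraMap k L p.1 * (z + algebraMap k L p.2) with hφ
  have hTcard : T.card = (Fintype.card k - 1) * Fintype.card k := by
    rw [hT, Finset.card_product, Finset.card_erase_of_mem (Finset.mem_univ _), Finset.card_univ]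
  have hφinj : Set.InjOn φ (T : Set (k × k)) := by
    rintro ⟨c, b⟩ hcb ⟨c', b'⟩ hcb' h
    rw [Finset.mem_coe, hT, Finset.mem_product] at hcb hcb'
    have hc : c ≠ 0 := Finset.ne_of_mem_erase hcb.1
    have hc' : c' ≠ 0 := Finset.ne_of_mem_erase hcb'.1
    simp only [hφ] at h
    by_cases h1 : c = c'
    · subst h1
      have hc0 : algebraMap k L c ≠ 0 := by
        rw [Ne, map_eq_zero_iff _ hinj]; exact hc
      have h3 := mul_left_cancel₀ hc0 h
      have h4 := hinj (add_left_cancel h3)
      rw [h4]
    · exfalso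
      apply hz
      have h3 : algebraMap k L (c - c') ≠ 0 := by
        rw [Ne, map_eq_zero_iff _ hinj]; exact sub_ne_zero.2 h1
      refine ⟨(c' * b' - c * b) / (c - c'), ?_⟩
      rw [map_div₀, div_eq_iff h3]
      simp only [map_sub, map_mul]
      linear_combination -h
  have himg : T.image φ = Finset.univ \ S := by
    apply Finset.eq_of_subset_of_card_le
    · intro w hw
      rw [Finset.mem_image] at hw
      obtain ⟨⟨c, b⟩, hcb, rfl⟩ := hw
      rw [hT, Finset.mem_product] at hcb
      have hc : c ≠ 0 := Finset.ne_of_mem_erase hcb.1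
      have hc0 : algebraMap k L c ≠ 0 := by
        rw [Ne, map_eq_zero_iff _ hinj]; exact hc
      rw [Finset.mem_sdiff]
      refine ⟨Finset.mem_univ _, ?_⟩
      intro h
      rw [hS, Finset.mem_image] at h
      obtain ⟨d, -, hd⟩ := h
      apply hz
      refine ⟨d / c - b, ?_⟩
      simp only [hφ] at hd
      rw [map_sub, map_div₀, hd]
      field_simp
      ring
    · rw [Finset.card_image_of_injOn hφinj, hTcard, Finset.card_sdiff_of_subset (Finset.subset_univ _),
        Finset.card_univ, hL, hScard]
      apply le_of_eq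
      rw [Nat.sub_mul, one_mul, sq]
  have hsum : ∑ w ∈ Finset.univ \ S, chi L w =
      ((Fintype.card k : ℤ) - 1) * ∑ b : k, chi L (z + algebraMap k L b) := by
    rw [← himg, Finset.sum_image hφinj, hT, Finset.sum_product]
    have h5 : ∀ c ∈ Finset.univ.erase (0 : k), ∑ b : k, chi L (φ (c, b)) =
        ∑ b : k, chi L (z + algebraMap k L b) := by
      intro c hc
      refine Finset.sum_congr rfl (fun b _ => ?_)
      simp only [hφ]
      rw [chi_mul, chi_base h2 hL (Finset.ne_of_mem_erase hc), one_mul]
    rw [Finset.sum_congr rfl h5, Finset.sum_const, Finset.card_erase_of_mem (Finset.mem_univ _),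
      Finset.card_univ, nsmul_eq_mul, Nat.cast_sub Fintype.card_pos]
    simp
  have hsumS : ∑ w ∈ S, chi L w = (Fintype.card k : ℤ) - 1 := by
    rw [hS, Finset.sum_image (fun a _ b _ h => hinj h)]
    exact sum_chi_base_zero h2 hL
  have hall : ∑ w : L, chi L w = 0 := by
    unfold chi
    exact quadraticChar_sum_zero hchar
  have hsplit := Finset.sum_sdiff (Finset.subset_univ S) (f := fun w => chi L w)
  rw [hall, hsum, hsumS] at hsplit
  have hk1 : (1 : ℤ) < Fintype.card k := by
    exact_mod_cast Fintype.one_lt_card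
  have h6 : ((Fintype.card k : ℤ) - 1) * (∑ b : k, chi L (z + algebraMap k L b) + 1) = 0 := by
    linear_combination hsplit
  rcases mul_eq_zero.1 h6 with h7 | h7
  · exfalso; omega
  · linarith

end Pool.Agent.Helper31.AR
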