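import Pool.Agent.Helper31.AR.D1Defs
import Pool.Agent.Helper31.AR.Residue

/-!
# AR-42: square roots modulo `h`

`card_sq_class_le`. If `S` is empty trivial; fix `k₀ ∈ S`. For `k ∈ S`: `h ∣ (k - k₀)(k + k₀)`. Let `h₁ ∈ dv h` be the monic gcd of `h` and
`k - k₀` and `h = h₁ h₂` (`h₂` monic). Then `h₂ ∣ (k + k₀) ((k - k₀) / h₁)` and `h₂`, `(k - k₀) / h₁` are coprime, so `h₂ ∣ k + k₀`. So `S` is the
union over `h₁ ∈ dv h` of `S_{h₁} = {k ∈ S : h₁ ∣ k - k₀, h₂ ∣ k + k₀}` (`h₂ = h / h₁`). Let `g` be the monic gcd of `h₁`, `h₂` and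
`M = h / g` (the monic lcm, degree `deg h - deg g`). Any two elements of `S_{h₁}` are congruent modulo `h₁` and `h₂`, so modulo `M`, and by
`card_class_le` `|S_{h₁}| ≤ q ^ (N - deg h + deg g)`. If `S_{h₁}` is not empty: `g ∣ k - k₀` and `g ∣ k + k₀`, so `g ∣ 2 k₀`, `g ∣ k₀` (`2 ≠ 0`),
`g ^ 2 ∣ k₀ ^ 2` and `g ^ 2 ∣ h₁ h₂ = h ∣ k₀ ^ 2 - v e`, so `g ^ 2 ∣ v e`, and `g` is coprime to `v` (divides `h`), so `g ^ 2 ∣ e`: `q ^ (deg g) ≤ Sq e`.

`card_ball_le`. Fix `k₀ ∈ S`. For `k ∈ S`: `(k - k₀) + (k + k₀) = 2 k` has degree `b` (or `k = 0`, `b = 0`), so one of `k - k₀`, `k + k₀` has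
degree `≥ b` (if `b = 0` and this one is zero, then `k = ∓ k₀`, fine), and since the product is in `PN F W` the other one is in `PN F (W - b)`.
So `S = S₋ ∪ S₊` with `S₋ = {k ∈ S : k - k₀ ∈ PN F (W - b)}`, `S₊ = {k ∈ S : k + k₀ ∈ PN F (W - b)}`; in each of them the differences are in
`PN F (W - b)`. Apply `card_sq_class_le` with `N = W - b ≥ deg h`. (Care with degenerate cases: if one factor is `0` it belongs to every
`PN F _`; if both are nonzero, `deg (k - k₀) + deg (k + k₀) < W`.)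
-/

set_option autoImplicit false

open Polynomial

namespace Pool.Agent.Helper31.AR

variable {F : Type} [Field F] [Fintype F]

omit [Fintype F] in
private theorem sq_gcd {x : F[X]} (hx : x ≠ 0) (y : F[X]) :
    ∃ g a b : F[X], g.Monic ∧ x = g * a ∧ y = g * b ∧ IsCoprime a b := by
  classical
  set g0 := EuclideanDomain.gcd x y with hg0
  have hg : g0 ≠ 0 := fun h => hx (EuclideanDomain.gcd_eq_zero_iff.1 h).1
  obtain ⟨a0, ha0⟩ := EuclideanDomain.gcd_dvd_left x y
  obtain ⟨b0, hb0⟩ := EuclideanDomain.gcd_dvd_right x y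
  rw [← hg0] at ha0 hb0
  have hc : g0.leadingCoeff ≠ 0 := leadingCoeff_ne_zero.2 hg
  have hcc : C g0.leadingCoeff⁻¹ * C g0.leadingCoeff = (1 : F[X]) := by
    rw [← C_mul, inv_mul_cancel₀ hc, C_1]
  have hbez := EuclideanDomain.gcd_eq_gcd_ab x y
  rw [← hg0] at hbez
  have h1 : a0 * EuclideanDomain.gcdA x y + b0 * EuclideanDomain.gcdB x y = 1 := by
    apply mul_left_cancel₀ hg
    rw [mul_one]
    calc g0 * (a0 * EuclideanDomain.gcdA x y + b0 * EuclideanDomain.gcdB x y)
        = (g0 * a0) * EuclideanDomain.gcdA x y + (g0 * b0) * EuclideanDomain.gcdB x y := by ring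
      _ = g0 := by rw [← ha0, ← hb0, ← hbez]
  refine ⟨C g0.leadingCoeff⁻¹ * g0, C g0.leadingCoeff * a0, C g0.leadingCoeff * b0, ?_, ?_, ?_,
    ⟨C g0.leadingCoeff⁻¹ * EuclideanDomain.gcdA x y,
      C g0.leadingCoeff⁻¹ * EuclideanDomain.gcdB x y, ?_⟩⟩
  · rw [mul_comm]
    exact monic_mul_leadingCoeff_inv hg
  · calc x = (C g0.leadingCoeff⁻¹ * C g0.leadingCoeff) * (g0 * a0) := by rw [hcc, one_mul, ← ha0]
      _ = _ := by ring
  · calc y = (C g0.leadingCoeff⁻¹ * C g0.leadingCoeff) * (g0 * b0) := by rw [hcc, one_mul, ← hb0]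
      _ = _ := by ring
  · calc _ = (C g0.leadingCoeff⁻¹ * C g0.leadingCoeff) *
          (a0 * EuclideanDomain.gcdA x y + b0 * EuclideanDomain.gcdB x y) := by ring
      _ = 1 := by rw [hcc, h1, one_mul]

open Classical in
theorem card_sq_class_le (h2 : (2 : F) ≠ 0) {h v e : F[X]} (hh : h.Monic) (hc : IsCoprime v h)
    (he : e ≠ 0) {N : ℕ} (hN : h.natDegree ≤ N) (S : Finset F[X])
    (hS : ∀ k ∈ S, h ∣ k ^ 2 - v * e) (hd : ∀ k ∈ S, ∀ k' ∈ S, k - k' ∈ PN F N) :
    S.card ≤ (dv h).card * Sq e * Fintype.card F ^ (N - h.natDegree) := by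
  have hh2' : (2 : F) ≠ 0 := h2
  rcases S.eq_empty_or_nonempty with hemp | ⟨k0, hk0⟩
  · rw [hemp, Finset.card_empty]
    exact Nat.zero_le _
  have hh0 : h ≠ 0 := hh.ne_zero
  let T : F[X] → Finset F[X] := fun h1 =>
    S.filter (fun k => h1 ∣ k - k0 ∧ (h /ₘ h1) ∣ k + k0)
  have hquot : ∀ {h1 h2 : F[X]}, h1.Monic → h = h1 * h2 → h /ₘ h1 = h2 := by
    intro h1 h2 hm hq
    rw [hq, mul_divByMonic_cancel_left _ hm]
  have hcover : S ⊆ (dv h).biUnion T := by
    intro k hk
    obtain ⟨g, a, b, hg, hx, hy, hab⟩ := sq_gcd hh0 (k - k0)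
    rw [Finset.mem_biUnion]
    refine ⟨g, (mem_dv hh0 g).2 ⟨hg, ⟨a, hx⟩⟩, ?_⟩
    rw [Finset.mem_filter, hquot hg hx]
    refine ⟨hk, ⟨b, hy⟩, ?_⟩
    have h1 : h ∣ (k - k0) * (k + k0) := by
      have h2 : (k - k0) * (k + k0) = (k ^ 2 - v * e) - (k0 ^ 2 - v * e) := by ring
      rw [h2]
      exact dvd_sub (hS k hk) (hS k0 hk0)
    rw [hy, hx] at h1
    have h3 : a ∣ b * (k + k0) := by
      have h4 : g * a ∣ g * (b * (k + k0)) := by
        rw [← mul_assoc]
        exact h1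
      exact (mul_dvd_mul_iff_left hg.ne_zero).1 h4
    exact hab.dvd_of_dvd_mul_left h3
  have hone : ∀ h1 ∈ dv h, (T h1).card ≤ Sq e * Fintype.card F ^ (N - h.natDegree) := by
    intro h1 hh1
    obtain ⟨hm1, h2, hh2⟩ := (mem_dv hh0 h1).1 hh1
    have hm2 : h2.Monic := by
      have h3 := hh
      rw [hh2] at h3
      exact hm1.of_mul_monic_left h3
    rcases (T h1).eq_empty_or_nonempty with hemp | ⟨k1, hk1⟩
    · rw [hemp, Finset.card_empty]
      exact Nat.zero_le _
    obtain ⟨g, a, b, hg, hx, hy, hab⟩ := sq_gcd hm1.ne_zero h2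
    have hma : a.Monic := by
      rw [hx] at hm1
      exact hg.of_mul_monic_left hm1
    have hmb : b.Monic := by
      rw [hy] at hm2
      exact hg.of_mul_monic_left hm2
    have hM : (g * a * b).Monic := (hg.mul hma).mul hmb
    have hdegs : (g * a * b).natDegree + g.natDegree = h.natDegree := by
      rw [hh2, hx, hy, (hg.mul hma).natDegree_mul hmb, hg.natDegree_mul hma,
        (hg.mul hma).natDegree_mul (hg.mul hmb), hg.natDegree_mul hma, hg.natDegree_mul hmb]
      ring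
    have hmem : ∀ k ∈ T h1, k ∈ S ∧ h1 ∣ k - k0 ∧ h2 ∣ k + k0 := by
      intro k hk
      have h3 := Finset.mem_filter.1 hk
      rw [hquot hm1 hh2] at h3
      exact h3
    have hcard : (T h1).card ≤ Fintype.card F ^ (N - (g * a * b).natDegree) := by
      refine card_class_le hM N (T h1) ?_ ?_
      · intro k hk k' hk'
        obtain ⟨-, h3, h4⟩ := hmem k hk
        obtain ⟨-, h5, h6⟩ := hmem k' hk'
        have h7 : g * a ∣ k - k' := by
          rw [← hx]
          have h8 : k - k' = (k - k0) - (k' - k0) := by ring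
          rw [h8]
          exact dvd_sub h3 h5
        have h8 : g * b ∣ k - k' := by
          rw [← hy]
          have h9 : k - k' = (k + k0) - (k' + k0) := by ring
          rw [h9]
          exact dvd_sub h4 h6
        obtain ⟨z1, hz1⟩ := h7
        obtain ⟨z2, hz2⟩ := h8
        have h9 : b ∣ a * z1 := by
          refine ⟨z2, ?_⟩
          apply mul_left_cancel₀ hg.ne_zero
          rw [← mul_assoc, ← mul_assoc, ← hz1, ← hz2]
        obtain ⟨z3, hz3⟩ := hab.symm.dvd_of_dvd_mul_left h9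
        exact ⟨z3, by rw [hz1, hz3]; ring⟩
      · intro k hk k' hk'
        exact hd k (hmem k hk).1 k' (hmem k' hk').1
    have hge : g ∈ (dv e).filter (fun g => g ^ 2 ∣ e) := by
      obtain ⟨h3, h4, h5⟩ := hmem k1 hk1
      have h6 : g ∣ k1 - k0 := (Dvd.intro a hx.symm).trans h4
      have h7 : g ∣ k1 + k0 := (Dvd.intro b hy.symm).trans h5
      have h8 : g ∣ C (2 : F) * k0 := by
        have h9 : C (2 : F) * k0 = (k1 + k0) - (k1 - k0) := by
          rw [C_ofNat]
          ring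
        rw [h9]
        exact dvd_sub h7 h6
      have h9 : g ∣ k0 := by
        obtain ⟨y, hy1⟩ := h8
        refine ⟨C (2 : F)⁻¹ * y, ?_⟩
        calc k0 = (C (2 : F)⁻¹ * C (2 : F)) * k0 := by
              rw [← C_mul, inv_mul_cancel₀ hh2', C_1, one_mul]
          _ = C (2 : F)⁻¹ * (C (2 : F) * k0) := by ring
          _ = g * (C (2 : F)⁻¹ * y) := by rw [hy1]; ring
      have h10 : g ^ 2 ∣ k0 ^ 2 := pow_dvd_pow_of_dvd h9 2
      have h11 : g ^ 2 ∣ h := ⟨a * b, by rw [hh2, hx, hy]; ring⟩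
      have h12 : g ^ 2 ∣ v * e := by
        have h13 : v * e = k0 ^ 2 - (k0 ^ 2 - v * e) := by ring
        rw [h13]
        exact dvd_sub h10 (h11.trans (hS k0 hk0))
      have h13 : IsCoprime (g ^ 2) v := (hc.of_isCoprime_of_dvd_right h11).symm
      have h14 : g ^ 2 ∣ e := h13.dvd_of_dvd_mul_left h12
      rw [Finset.mem_filter, mem_dv he]
      exact ⟨⟨hg, (dvd_pow_self g two_ne_zero).trans h14⟩, h14⟩
    have hSq : Fintype.card F ^ g.natDegree ≤ Sq e := by
      unfold Sq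
      exact Finset.single_le_sum (f := fun g : F[X] => Fintype.card F ^ g.natDegree)
        (fun _ _ => Nat.zero_le _) hge
    refine hcard.trans ?_
    have hexp : N - (g * a * b).natDegree = g.natDegree + (N - h.natDegree) := by omega
    rw [hexp, pow_add]
    exact Nat.mul_le_mul_right _ hSq
  calc S.card ≤ ((dv h).biUnion T).card := Finset.card_le_card hcover
    _ ≤ ∑ h1 ∈ dv h, (T h1).card := Finset.card_biUnion_le
    _ ≤ ∑ h1 ∈ dv h, Sq e * Fintype.card F ^ (N - h.natDegree) := Finset.sum_le_sum hone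
    _ = (dv h).card * Sq e * Fintype.card F ^ (N - h.natDegree) := by
        rw [Finset.sum_const, smul_eq_mul, mul_assoc]

open Classical in
theorem card_ball_le (h2 : (2 : F) ≠ 0) {h v e : F[X]} (hh : h.Monic) (hc : IsCoprime v h)
    (he : e ≠ 0) {b W : ℕ} (hb : b + h.natDegree ≤ W) (S : Finset F[X])
    (hS : ∀ k ∈ S, h ∣ k ^ 2 - v * e) (hdeg : ∀ k ∈ S, k.natDegree = b)
    (hball : ∀ k ∈ S, ∀ k' ∈ S, (k - k') * (k + k') ∈ PN F W) :
    S.card ≤ 2 * (dv h).card * Sq e * Fintype.card F ^ (W - b - h.natDegree) := by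
  rcases S.eq_empty_or_nonempty with hemp | ⟨k0, hk0⟩
  · rw [hemp, Finset.card_empty]
    exact Nat.zero_le _
  set A := S.filter (fun k => k - k0 ∈ PN F (W - b)) with hA
  set B := S.filter (fun k => k + k0 ∈ PN F (W - b)) with hB
  have hcover : S ⊆ A ∪ B := by
    intro k hk
    rw [Finset.mem_union, hA, hB, Finset.mem_filter, Finset.mem_filter]
    by_contra hcon
    push Not at hcon
    have h3 := hcon.1 hk
    have h4 := hcon.2 hk
    have h5 : k - k0 ≠ 0 := fun h => h3 (h ▸ zero_mem_PN _)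
    have h6 : k + k0 ≠ 0 := fun h => h4 (h ▸ zero_mem_PN _)
    rw [mem_PN, ← natDegree_lt_iff_degree_lt h5] at h3
    rw [mem_PN, ← natDegree_lt_iff_degree_lt h6] at h4
    have h7 := hball k hk k0 hk0
    rw [mem_PN, ← natDegree_lt_iff_degree_lt (mul_ne_zero h5 h6), natDegree_mul h5 h6] at h7
    have h8 : ((k - k0) + (k + k0)).natDegree = b := by
      have h9 : (k - k0) + (k + k0) = C (2 : F) * k := by
        rw [C_ofNat]
        ring
      rw [h9, natDegree_C_mul h2, hdeg k hk]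
    have h9 := natDegree_add_le (k - k0) (k + k0)
    rw [h8, le_max_iff] at h9
    omega
  have hcA : A.card ≤ (dv h).card * Sq e * Fintype.card F ^ (W - b - h.natDegree) := by
    refine card_sq_class_le h2 hh hc he (by omega) A
      (fun k hk => hS k (Finset.mem_filter.1 hk).1) ?_
    intro k hk k' hk'
    have h3 : k - k' = (k - k0) - (k' - k0) := by ring
    rw [h3]
    exact sub_mem_PN (Finset.mem_filter.1 hk).2 (Finset.mem_filter.1 hk').2
  have hcB : B.card ≤ (dv h).card * Sq e * Fintype.card F ^ (W - b - h.natDegree) := by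
    refine card_sq_class_le h2 hh hc he (by omega) B
      (fun k hk => hS k (Finset.mem_filter.1 hk).1) ?_
    intro k hk k' hk'
    have h3 : k - k' = (k + k0) - (k' + k0) := by ring
    rw [h3]
    exact sub_mem_PN (Finset.mem_filter.1 hk).2 (Finset.mem_filter.1 hk').2
  calc S.card ≤ (A ∪ B).card := Finset.card_le_card hcover
    _ ≤ A.card + B.card := Finset.card_union_le _ _
    _ ≤ _ := Nat.add_le_add hcA hcB
    _ = 2 * (dv h).card * Sq e * Fintype.card F ^ (W - b - h.natDegree) := by ring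

end Pool.Agent.Helper31.AR
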