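import Pool.Agent.Helper31.AR.Defs

/-!
# AR-11: every monic polynomial is uniquely `c s ^ 2` with `c` squarefree, `c`, `s` monic

Existence: strong induction on the degree (if `h` is not squarefree there is a monic nonunit `g` with
`g ^ 2 ∣ h`), or `s` a monic polynomial of maximal degree with `s ^ 2 ∣ h`. Uniqueness: if
`c s ^ 2 = c' s' ^ 2` let `g = gcd (s, s')` monic, `s = g x`, `s' = g y`, `x`, `y` coprime: `c x ^ 2 = c' y ^ 2`,
so `x ^ 2 ∣ c'`, so `x` is a unit, monic, `x = 1`, same for `y`; so `s = s'` and `c = c'`.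
(Or by multiplicities of irreducible factors.) The sum identity: `Finset.sum_sigma'` and `Finset.sum_bij'`,
or `Finset.sum_comp`/`sum_fiberwise`. Degrees: `deg (c s ^ 2) = D - 2 σ + 2 σ = D` for `σ ≤ D / 2`.
-/

set_option autoImplicit false

open Polynomial

namespace Pool.Agent.Helper31.AR

variable {F : Type} [Field F] [Fintype F]

omit [Fintype F] in
private lemma sq_dvd_of_sqfree {c s s' : F[X]} (hc : Squarefree c) (hs : s ≠ 0)
    (h : s' ^ 2 ∣ c * s ^ 2) : s' ∣ s := by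
  classical
  set g := EuclideanDomain.gcd s s' with hg
  obtain ⟨x, hx⟩ : g ∣ s := EuclideanDomain.gcd_dvd_left s s'
  obtain ⟨y, hy⟩ : g ∣ s' := EuclideanDomain.gcd_dvd_right s s'
  have hg0 : g ≠ 0 := by
    intro h0
    rw [h0, zero_mul] at hx
    exact hs hx
  have hcop : IsCoprime y x := by
    have h1 := EuclideanDomain.gcd_eq_gcd_ab s s'
    rw [← hg] at h1
    refine ⟨EuclideanDomain.gcdB s s', EuclideanDomain.gcdA s s', ?_⟩
    apply mul_left_cancel₀ hg0
    calc g * (EuclideanDomain.gcdB s s' * y + EuclideanDomain.gcdA s s' * x)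
        = (g * x) * EuclideanDomain.gcdA s s' + (g * y) * EuclideanDomain.gcdB s s' := by ring
      _ = s * EuclideanDomain.gcdA s s' + s' * EuclideanDomain.gcdB s s' := by rw [← hx, ← hy]
      _ = g * 1 := by rw [mul_one, ← h1]
  have h2 : y ^ 2 ∣ c * x ^ 2 := by
    rw [hx, hy, mul_pow, mul_pow, mul_left_comm] at h
    exact (mul_dvd_mul_iff_left (pow_ne_zero 2 hg0)).1 h
  have h3 : y ^ 2 ∣ c := (hcop.pow (m := 2) (n := 2)).dvd_of_dvd_mul_right h2
  rw [sq] at h3
  have h4 : IsUnit y := hc y h3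
  rw [hy]
  exact (h4.mul_right_dvd).2 ⟨x, hx⟩

omit [Fintype F] in
private lemma sqfree_unique {c c' s s' : F[X]} (hc : Squarefree c) (hc' : Squarefree c')
    (hs : s.Monic) (hs' : s'.Monic) (h : c * s ^ 2 = c' * s' ^ 2) : s = s' ∧ c = c' := by
  have h1 : s' ∣ s := sq_dvd_of_sqfree hc hs.ne_zero (by rw [h]; exact Dvd.intro_left _ rfl)
  have h2 : s ∣ s' := sq_dvd_of_sqfree hc' hs'.ne_zero (by rw [← h]; exact Dvd.intro_left _ rfl)
  have h3 : s = s' := eq_of_monic_of_associated hs hs' (associated_of_dvd_dvd h2 h1)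
  refine ⟨h3, ?_⟩
  rw [h3] at h
  exact mul_right_cancel₀ (pow_ne_zero 2 hs'.ne_zero) h

omit [Fintype F] in
private lemma sqfree_exists (N : ℕ) : ∀ h : F[X], h.Monic → h.natDegree = N →
    ∃ c s : F[X], c.Monic ∧ s.Monic ∧ Squarefree c ∧ h = c * s ^ 2 := by
  induction N using Nat.strong_induction_on with
  | _ N ih =>
    intro h hh hN
    by_cases hsq : Squarefree h
    · exact ⟨h, 1, hh, monic_one, hsq, by rw [one_pow, mul_one]⟩
    · unfold Squarefree at hsq
      push Not at hsq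
      obtain ⟨g, hg, hgu⟩ := hsq
      have hg0 : g ≠ 0 := by
        rintro rfl
        rw [zero_mul, zero_dvd_iff] at hg
        exact hh.ne_zero hg
      set g' := g * C g.leadingCoeff⁻¹ with hg'
      have hlc : g.leadingCoeff ≠ 0 := leadingCoeff_ne_zero.2 hg0
      have hgm : g'.Monic := monic_mul_leadingCoeff_inv hg0
      have hd : g' * g' ∣ h := by
        obtain ⟨k, hk⟩ := hg
        refine ⟨k * C (g.leadingCoeff * g.leadingCoeff), ?_⟩
        have h1 : C g.leadingCoeff⁻¹ * C g.leadingCoeff = 1 := by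
          rw [← C_mul, inv_mul_cancel₀ hlc, C_1]
        rw [hk, hg', C_mul]
        linear_combination (-(g * g * k) * (C g.leadingCoeff⁻¹ * C g.leadingCoeff + 1)) * h1
      obtain ⟨k, hk⟩ := hd
      have hkm : k.Monic := by
        have h1 := hh
        rw [hk] at h1
        exact (hgm.mul hgm).of_mul_monic_left h1
      have hgd : 0 < g'.natDegree := by
        rw [Nat.pos_iff_ne_zero]
        intro h0
        apply hgu
        have h1 := hgm.natDegree_eq_zero.1 h0
        have h2 : IsUnit g' := by rw [h1]; exact isUnit_one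
        rw [hg'] at h2
        exact isUnit_of_mul_isUnit_left h2
      have hdeg : k.natDegree < N := by
        rw [← hN, hk, (hgm.mul hgm).natDegree_mul hkm, hgm.natDegree_mul hgm]
        omega
      obtain ⟨c, s, hc, hs, hsqc, hcs⟩ := ih k.natDegree hdeg k hkm rfl
      refine ⟨c, g' * s, hc, hgm.mul hs, hsqc, ?_⟩
      rw [hk, hcs]
      ring

open Classical in
theorem sum_MN_sqfree {E : Type*} [AddCommMonoid E] (D : ℕ) (G : F[X] → E) :
    ∑ h ∈ MN F D, G h = ∑ σ ∈ Finset.range (D / 2 + 1), ∑ s ∈ MN F σ,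
      ∑ c ∈ (MN F (D - 2 * σ)).filter (fun c => Squarefree c), G (c * s ^ 2) := by
  have h1 : ∀ σ ∈ Finset.range (D / 2 + 1), ∑ s ∈ MN F σ,
      ∑ c ∈ (MN F (D - 2 * σ)).filter (fun c => Squarefree c), G (c * s ^ 2) =
      ∑ x ∈ MN F σ ×ˢ (MN F (D - 2 * σ)).filter (fun c => Squarefree c), G (x.2 * x.1 ^ 2) := by
    intro σ _
    rw [Finset.sum_product]
  rw [Finset.sum_congr rfl h1, Finset.sum_sigma']
  symm
  refine Finset.sum_bij (fun x _ => x.2.2 * x.2.1 ^ 2) ?_ ?_ ?_ ?_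
  · rintro ⟨σ, s, c⟩ hx
    rw [Finset.mem_sigma, Finset.mem_product, Finset.mem_filter, Finset.mem_range] at hx
    change σ < D / 2 + 1 ∧ s ∈ MN F σ ∧ c ∈ MN F (D - 2 * σ) ∧ Squarefree c at hx
    change c * s ^ 2 ∈ MN F D
    obtain ⟨hσ, hs, hc, _⟩ := hx
    have h2 := MN_mul hc (MN_mul hs hs)
    rw [← sq] at h2
    have h3 : D - 2 * σ + (σ + σ) = D := by omega
    rw [h3] at h2
    exact h2
  · rintro ⟨σ, s, c⟩ hx ⟨σ', s', c'⟩ hx' h
    rw [Finset.mem_sigma, Finset.mem_product, Finset.mem_filter, Finset.mem_range] at hx hx'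
    change σ < D / 2 + 1 ∧ s ∈ MN F σ ∧ c ∈ MN F (D - 2 * σ) ∧ Squarefree c at hx
    change σ' < D / 2 + 1 ∧ s' ∈ MN F σ' ∧ c' ∈ MN F (D - 2 * σ') ∧ Squarefree c' at hx'
    change c * s ^ 2 = c' * s' ^ 2 at h
    obtain ⟨_, hs, _, hc⟩ := hx
    obtain ⟨_, hs', _, hc'⟩ := hx'
    obtain ⟨h2, h3⟩ := sqfree_unique hc hc' (monic_of_mem_MN hs) (monic_of_mem_MN hs') h
    have h4 : σ = σ' := by
      have h5 : s.natDegree = σ := natDegree_of_mem_MN hs
      have h6 : s'.natDegree = σ' := natDegree_of_mem_MN hs'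
      rw [← h5, ← h6, h2]
    subst h4 h2 h3
    rfl
  · intro h hh
    rw [mem_MN] at hh
    obtain ⟨c, s, hc, hs, hsq, hcs⟩ := sqfree_exists D h hh.1 hh.2
    have hd : c.natDegree + 2 * s.natDegree = D := by
      rw [← hh.2, hcs, hc.natDegree_mul (hs.pow 2), hs.natDegree_pow]
    refine ⟨⟨s.natDegree, s, c⟩, ?_, hcs.symm⟩
    rw [Finset.mem_sigma, Finset.mem_product, Finset.mem_filter, Finset.mem_range]
    change s.natDegree < D / 2 + 1 ∧ s ∈ MN F s.natDegree ∧
      c ∈ MN F (D - 2 * s.natDegree) ∧ Squarefree c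
    refine ⟨by omega, (mem_MN _ _).2 ⟨hs, rfl⟩, (mem_MN _ _).2 ⟨hc, by omega⟩, hsq⟩
  · intro x _
    rfl

end Pool.Agent.Helper31.AR
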