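import Pool.Agent.Helper31.AR.StepExist

/-!
# AR-25: Stepanov's bound for a monic cubic with `f(0) ≠ 0`

`Q = card L ≥ 30` odd. Put `r = ⌊√Q⌋ / 2` (`r ≥ 2`), `l = 2 r`, `J = r + 2`, `d = (Q - 3) / 2` (so `2 d + 3 = Q`,
`2 d + 1 < Q`). `exists_aux` needs `l (J + d + l) < 2 J d`, i.e. `2 r (3 r + 2 + d) < 2 (r + 2) d`, i.e.
`3 r ^ 2 + 2 r < 2 d = Q - 3`: `4 r ^ 2 ≤ Q`, so `3 r ^ 2 ≤ 3 Q / 4` and `2 r ≤ √Q`; `Q / 4 > √Q + 3` for `Q ≥ 50`; for
`30 ≤ Q < 50` one has `⌊√Q⌋ ∈ {5, 6, 7}`, `r ≤ 3` and `3 r ^ 2 + 2 r = 16` for `r = 2` (`Q < 36`: fine), `33` for `r = 3`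
(`Q ≥ 37`: `33 < Q - 3` for `Q ≥ 37`: `37 - 3 = 34`; `Q` odd so `Q ≠ 36`). Let `S` be the set of `x` with `f(x) ^ c = ε`;
the `(X - x) ^ l`, `x ∈ S`, are pairwise coprime, so their product divides `R ≠ 0` and
`l |S| ≤ natDegree R ≤ d + 3 c + (J - 1) Q - 1 ≤ (J + 1) Q = (r + 3) Q` (`c = (Q - 1) / 2`). So
`|S| ≤ Q / 2 + 3 Q / (2 r)`, and `r ≥ √Q / 4` (`2 r ≥ ⌊√Q⌋ - 1 ≥ √Q - 2 ≥ √Q / 2` for `Q ≥ 16`), so
`|S| ≤ Q / 2 + 6 √Q`.
-/

set_option autoImplicit false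

open Polynomial

namespace Pool.Agent.Helper31.AR

variable {L : Type} [Field L] [Fintype L]

open Classical in
theorem step_count (hodd : Odd (Fintype.card L)) (hQ : 30 ≤ Fintype.card L) {f : L[X]}
    (hf : f.Monic) (hf3 : f.natDegree = 3) (hf0 : f.coeff 0 ≠ 0) (ε : L) (hε : ε ^ 2 = 1) :
    (((Finset.univ.filter (fun x : L => (f.eval x) ^ ((Fintype.card L - 1) / 2) = ε)).card : ℕ) : ℝ) ≤
      (Fintype.card L : ℝ) / 2 + 6 * Real.sqrt (Fintype.card L) := by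
  obtain ⟨m, hm⟩ := hodd
  have ht1 := Nat.sqrt_le (Fintype.card L)
  have ht2 := Nat.lt_succ_sqrt (Fintype.card L)
  set Q := Fintype.card L with hQd
  set t := Nat.sqrt Q with ht
  obtain ⟨r, hr⟩ : ∃ r, r = t / 2 := ⟨_, rfl⟩
  have hr1 : 2 * r ≤ t := by omega
  have hr2 : t ≤ 2 * r + 1 := by omega
  have ht5 : 5 ≤ t := by
    by_contra h
    have h1 : t ≤ 4 := by omega
    have h2 : Nat.succ t * Nat.succ t ≤ 5 * 5 := Nat.mul_le_mul (by omega) (by omega)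
    omega
  have hr3 : 2 ≤ r := by omega
  have h4r : 4 * (r * r) ≤ Q := by
    have h1 : (2 * r) * (2 * r) ≤ t * t := Nat.mul_le_mul hr1 hr1
    nlinarith
  have hkey : 3 * (r * r) + 2 * r + 3 < Q := by
    rcases Nat.lt_or_ge r 4 with h | h
    · have h1 : r = 2 ∨ r = 3 := by omega
      rcases h1 with h1 | h1
      · subst h1
        omega
      · subst h1
        omega
    · nlinarith
  have hd1 : 2 * ((Q - 3) / 2) + 3 = Q := by omega
  have hJ : (2 * r) * ((r + 2) + (Q - 3) / 2 + 2 * r) < 2 * (r + 2) * ((Q - 3) / 2) := by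
    set d := (Q - 3) / 2 with hd
    nlinarith
  have hl : 2 * r ≤ Q := by
    have : t ≤ t * t := Nat.le_mul_self t
    omega
  obtain ⟨R, hR0, hR1, hR2⟩ := exists_aux ⟨m, hm⟩ hf hf3 hf0 (d := (Q - 3) / 2) (J := r + 2) (l := 2 * r)
    (by omega) hl hJ ε hε
  set S := Finset.univ.filter (fun x : L => (f.eval x) ^ ((Q - 1) / 2) = ε) with hS
  have hdvd : ∏ x ∈ S, (X - C x) ^ (2 * r) ∣ R := by
    apply Finset.prod_dvd_of_coprime
    · intro x _ y _ hxy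
      exact IsCoprime.pow (pairwise_coprime_X_sub_C Function.injective_id hxy)
    · intro x hx
      rw [hS, Finset.mem_filter] at hx
      exact hR2 x hx.2
  have hdeg := natDegree_le_of_dvd hdvd hR0
  rw [natDegree_prod_of_monic _ _ (fun x _ => (monic_X_sub_C x).pow _)] at hdeg
  simp only [natDegree_pow, natDegree_X_sub_C, mul_one, Finset.sum_const, smul_eq_mul] at hdeg
  -- natural number bound
  have hnat : S.card * (2 * r) ≤ (r + 3) * Q := by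
    have h1 : R.natDegree ≤ (Q - 3) / 2 + 3 * ((Q - 1) / 2) + (r + 2 - 1) * Q := by
      have := hR1
      rw [← hQd] at this
      omega
    have h2 : (Q - 3) / 2 + 3 * ((Q - 1) / 2) ≤ 2 * Q := by omega
    have h3 : (r + 2 - 1) * Q + 2 * Q = (r + 3) * Q := by
      have : r + 2 - 1 = r + 1 := by omega
      rw [this]
      ring
    omega
  have hsq : Real.sqrt (Q : ℝ) ≤ 4 * r := by
    rw [Real.sqrt_le_left (by positivity)]
    have h1 : Q ≤ (4 * r) * (4 * r) := by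
      have h2 : Nat.succ t * Nat.succ t ≤ (4 * r) * (4 * r) := Nat.mul_le_mul (by omega) (by omega)
      omega
    have h2 : (Q : ℝ) ≤ ((4 * r) * (4 * r) : ℕ) := by exact_mod_cast h1
    push_cast at h2
    nlinarith
  have hreal : (S.card : ℝ) * (2 * r) ≤ (r + 3) * Q := by exact_mod_cast hnat
  have hrpos : (0 : ℝ) < 2 * r := by
    have : (2 : ℝ) ≤ r := by exact_mod_cast hr3
    linarith
  have hsq0 : 0 ≤ Real.sqrt (Q : ℝ) := Real.sqrt_nonneg _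
  have hsqq : Real.sqrt (Q : ℝ) * Real.sqrt (Q : ℝ) = Q := Real.mul_self_sqrt (Nat.cast_nonneg _)
  have hfin : (S.card : ℝ) * (2 * r) ≤ ((Q : ℝ) / 2 + 6 * Real.sqrt (Q : ℝ)) * (2 * r) := by
    have h1 : Real.sqrt (Q : ℝ) * Real.sqrt (Q : ℝ) ≤ Real.sqrt (Q : ℝ) * (4 * r) :=
      mul_le_mul_of_nonneg_left hsq hsq0
    nlinarith
  exact le_of_mul_le_mul_right hfin hrpos

end Pool.Agent.Helper31.AR
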