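import Pool.Agent.Helper31.AR.Defs

/-!
# AR-23: nonvanishing of the auxiliary polynomial (Stepanov's method, step 2)

`Q = card L` (odd, `Q ≥ 5`), `c = (Q - 1) / 2`, `f` a monic cubic with `f(0) ≠ 0`, `deg r_j, deg s_j < d`, `2 d + 1 < Q`.

Claim: if `∑_{j < J} (r_j + s_j f ^ c) X ^ (j Q) = 0` then all `r_j = s_j = 0` (`j < J`). Induction (strong) on `j`: assume
`r_i = s_i = 0` for `i < j`. Then `X ^ (j Q)` divides the sum; dividing by it, `r_j + s_j f ^ c + X ^ Q (...) = 0`, so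
`X ^ Q ∣ r_j + s_j f ^ c`. Hence `X ^ Q ∣ (r_j + s_j f ^ c) (r_j - s_j f ^ c) f = r_j ^ 2 f - s_j ^ 2 f ^ Q` (`2 c + 1 = Q`).
Now `f ^ Q = expand Q f` (`FiniteField.expand_card`), so `X ^ Q ∣ f ^ Q - C (f.coeff 0)`. So
`X ^ Q ∣ r_j ^ 2 f - C b s_j ^ 2`, `b = f.coeff 0`. The degree of this polynomial is at most
`max (2 (d - 1) + 3) (2 (d - 1)) = 2 d + 1 < Q`, so `r_j ^ 2 f = C b s_j ^ 2`. If `r_j ≠ 0` the degree of the left side
`2 deg r_j + 3` is odd and the degree of the right side is even (`s_j ≠ 0`, `b ≠ 0`), a contradiction. So `r_j = 0` and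
`C b s_j ^ 2 = 0`, `s_j = 0`.
-/

set_option autoImplicit false

open Polynomial

namespace Pool.Agent.Helper31.AR

variable {L : Type} [Field L] [Fintype L]

theorem sn_step (hodd : Odd (Fintype.card L)) {f : L[X]} (hf : f.Monic)
    (hf3 : f.natDegree = 3) (hf0 : f.coeff 0 ≠ 0) {d : ℕ} (hd : 2 * d + 1 < Fintype.card L)
    {r s : L[X]} (hr : r.degree < (d : WithBot ℕ)) (hs : s.degree < (d : WithBot ℕ))
    (h : X ^ (Fintype.card L) ∣ r + s * f ^ ((Fintype.card L - 1) / 2)) : r = 0 ∧ s = 0 := by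
  set Q := Fintype.card L with hQ
  set c := (Q - 1) / 2 with hc
  have hcQ : 2 * c + 1 = Q := by
    obtain ⟨m, hm⟩ := hodd
    omega
  have hfQ : f ^ Q = expand L Q f := (FiniteField.expand_card f).symm
  -- X ^ Q divides f ^ Q - C b
  have h1 : X ^ Q ∣ f ^ Q - C (f.coeff 0) := by
    have h2 : (X : L[X]) ∣ f - C (f.coeff 0) := by
      rw [X_dvd_iff]
      simp
    have h3 := map_dvd (expand L Q) h2
    rw [map_sub, expand_C, expand_X, ← hfQ] at h3
    exact h3
  have h2 : X ^ Q ∣ r ^ 2 * f - s ^ 2 * f ^ Q := by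
    have h3 : r ^ 2 * f - s ^ 2 * f ^ Q = (r + s * f ^ c) * ((r - s * f ^ c) * f) := by
      rw [← hcQ]
      ring
    rw [h3]
    exact Dvd.dvd.mul_right h _
  have h3 : X ^ Q ∣ r ^ 2 * f - C (f.coeff 0) * s ^ 2 := by
    have h4 : r ^ 2 * f - C (f.coeff 0) * s ^ 2 = (r ^ 2 * f - s ^ 2 * f ^ Q) + s ^ 2 * (f ^ Q - C (f.coeff 0)) := by ring
    rw [h4]
    exact dvd_add h2 (Dvd.dvd.mul_left h1 _)
  have hrd : r = 0 ∨ r.natDegree < d := by
    by_cases h : r = 0
    · exact Or.inl h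
    · exact Or.inr ((natDegree_lt_iff_degree_lt h).2 hr)
  have hsd : s = 0 ∨ s.natDegree < d := by
    by_cases h : s = 0
    · exact Or.inl h
    · exact Or.inr ((natDegree_lt_iff_degree_lt h).2 hs)
  have h4 : r ^ 2 * f - C (f.coeff 0) * s ^ 2 = 0 := by
    refine eq_zero_of_dvd_of_natDegree_lt h3 ?_
    rw [natDegree_X_pow]
    have h5 : (r ^ 2 * f).natDegree ≤ 2 * d + 1 := by
      rcases hrd with h | h
      · rw [h]
        simp
      · have h6 := natDegree_mul_le (p := r ^ 2) (q := f)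
        rw [natDegree_pow, hf3] at h6
        omega
    have h6 : (C (f.coeff 0) * s ^ 2).natDegree ≤ 2 * d + 1 := by
      rcases hsd with h | h
      · rw [h]
        simp
      · have h7 := natDegree_C_mul_le (f.coeff 0) (s ^ 2)
        rw [natDegree_pow] at h7
        omega
    have h7 := natDegree_sub_le_of_le h5 h6
    simp only [max_self] at h7
    omega
  have h5 : r ^ 2 * f = C (f.coeff 0) * s ^ 2 := sub_eq_zero.1 h4
  have hr0 : r = 0 := by
    by_contra hr0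
    have h6 : (r ^ 2 * f).natDegree = 2 * r.natDegree + 3 := by
      rw [natDegree_mul (pow_ne_zero 2 hr0) hf.ne_zero, natDegree_pow, hf3]
    rw [h5, natDegree_C_mul hf0, natDegree_pow] at h6
    omega
  refine ⟨hr0, ?_⟩
  rw [hr0, zero_pow two_ne_zero, zero_mul] at h5
  rcases mul_eq_zero.1 h5.symm with h | h
  · rw [C_eq_zero] at h
    exact absurd h hf0
  · exact pow_eq_zero_iff two_ne_zero |>.1 h

theorem step_nonvanish (hodd : Odd (Fintype.card L)) {f : L[X]} (hf : f.Monic)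
    (hf3 : f.natDegree = 3) (hf0 : f.coeff 0 ≠ 0) {d J : ℕ} (hd : 2 * d + 1 < Fintype.card L)
    (r s : ℕ → L[X]) (hr : ∀ j, (r j).degree < (d : WithBot ℕ))
    (hs : ∀ j, (s j).degree < (d : WithBot ℕ))
    (h : ∑ j ∈ Finset.range J, (r j + s j * f ^ ((Fintype.card L - 1) / 2)) *
      X ^ (j * Fintype.card L) = 0) :
    ∀ j < J, r j = 0 ∧ s j = 0 := by
  intro j
  induction j using Nat.strong_induction_on with
  | _ j ih =>
  intro hj
  refine sn_step hodd hf hf3 hf0 hd (hr j) (hs j) ?_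
  set Q := Fintype.card L with hQ
  have h1 : ∑ i ∈ Finset.range J, (r i + s i * f ^ ((Q - 1) / 2)) * X ^ (i * Q) =
      (r j + s j * f ^ ((Q - 1) / 2)) * X ^ (j * Q) +
      ∑ i ∈ (Finset.range J).erase j, (r i + s i * f ^ ((Q - 1) / 2)) * X ^ (i * Q) := by
    exact (Finset.add_sum_erase (Finset.range J) (fun i => (r i + s i * f ^ ((Q - 1) / 2)) * X ^ (i * Q))
      (Finset.mem_range.2 hj)).symm
  have h2 : X ^ ((j + 1) * Q) ∣ ∑ i ∈ (Finset.range J).erase j, (r i + s i * f ^ ((Q - 1) / 2)) * X ^ (i * Q) := by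
    apply Finset.dvd_sum
    intro i hi
    rw [Finset.mem_erase, Finset.mem_range] at hi
    rcases lt_or_gt_of_ne hi.1 with hij | hij
    · obtain ⟨h3, h4⟩ := ih i hij hi.2
      rw [h3, h4]
      simp
    · refine Dvd.dvd.mul_left (pow_dvd_pow X ?_) _
      exact Nat.mul_le_mul_right _ hij
  rw [h1] at h
  have h3 : X ^ ((j + 1) * Q) ∣ (r j + s j * f ^ ((Q - 1) / 2)) * X ^ (j * Q) := by
    rw [eq_neg_of_add_eq_zero_left h]
    exact (dvd_neg).2 h2
  have h4 : (X : L[X]) ^ ((j + 1) * Q) = X ^ Q * X ^ (j * Q) := by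
    rw [← pow_add]
    congr 1
    ring
  rw [h4] at h3
  exact (mul_dvd_mul_iff_right (pow_ne_zero _ X_ne_zero)).1 h3

end Pool.Agent.Helper31.AR
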