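import Pool.Agent.Helper31.AR.HasseCubic
import Pool.Agent.Helper31.AR.StepNonvanish

/-!
# AR-24: existence of the auxiliary polynomial (Stepanov's method, step 3)

`Q = card L`, `c = (Q - 1) / 2`, `ε ∈ L` with `ε ^ 2 = 1` (only `ε` a constant is used).

Let `V = (Fin J → degreeLT L d) × (Fin J → degreeLT L d)`, of dimension `2 J d`. For `k < l` let `D_k` be the linear map
of `exists_D f c k`, and
`G_k (r, s) = ∑_{j < J} X ^ j * (f ^ k * hasseDeriv k r_j + C ε * D_k s_j)`. Its degree is `< J + d + 2 k`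
(`j ≤ J - 1`, `3 k + (d - 1) - k`, `(d - 1) + 2 k`), so `G_k : V → degreeLT L (J + d + 2 k)`. The total dimension of the
targets, `k < l`, is `l (J + d) + l (l - 1) < 2 J d`, so there is a nonzero `(r, s)` with `G_k (r, s) = 0` for all `k < l`
(`LinearMap.exists_ne_zero_of_finrank_lt`-like: a linear map to a space of smaller dimension has a kernel,
`LinearMap.ker_ne_bot_of_finrank_lt`). Put `R = ∑_{j < J} (r_j + s_j f ^ c) X ^ (j Q)`.

* `R ≠ 0` by `step_nonvanish`.
* For `k < l ≤ Q`: `hasseDeriv k (g X ^ (j Q)) = (hasseDeriv k g) X ^ (j Q)`: by `hasseDeriv_mul` and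
  `hasseDeriv i (X ^ (j Q)) = 0` for `0 < i < Q` (`hasseDeriv_monomial`: the binomial coefficient `C (j Q, i)` vanishes in `L`: it is
  the coefficient of `Y ^ i` in `(1 + Y) ^ (j Q) = (1 + Y ^ Q) ^ j` over `L`; `add_pow_card`-type identity
  `FiniteField`/`add_pow_char_pow`, `Q` is a power of the characteristic).
* At `x` with `(f x) ^ c = ε`: multiply `hasseDeriv k R` by `f ^ k` and evaluate at `x`; `x ^ (j Q) = x ^ j`
  (`FiniteField.pow_card`): `f(x) ^ k (hasseDeriv k R)(x) = ∑_j x ^ j (f ^ k hasseDeriv k r_j + f ^ c D_k s_j)(x) = G_k(x) = 0`, and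
  `f(x) ≠ 0` since `f(x) ^ c = ε ≠ 0` and `c ≥ 1`. So all Hasse derivatives of order `< l` of `R` vanish at `x`, so
  `(X - C x) ^ l ∣ R` (`Polynomial.taylor_coeff`, `X ^ l ∣ taylor x R` iff ..., `X_sub_C_pow_dvd_iff`).
* `deg R ≤ (d - 1) + 3 c + (J - 1) Q`, so `natDegree R + 1 ≤ d + 3 c + (J - 1) Q` (`d, J ≥ 1` because of `hJ`).
-/

set_option autoImplicit false

open Polynomial

namespace Pool.Agent.Helper31.AR

variable {L : Type} [Field L] [Fintype L]

theorem se_hasse_X_pow_card (j : ℕ) : ∀ i : ℕ, 0 < i → i < Fintype.card L →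
    hasseDeriv i (X ^ (j * Fintype.card L) : L[X]) = 0 := by
  have base : ∀ i : ℕ, 0 < i → i < Fintype.card L → hasseDeriv i (X ^ (Fintype.card L) : L[X]) = 0 := by
    intro i hi hiQ
    obtain ⟨p, hp⟩ := CharP.exists L
    obtain ⟨n, hpp, hn⟩ := FiniteField.card L p
    rw [← monomial_one_right_eq_X_pow, hasseDeriv_monomial]
    have h : ((Fintype.card L).choose i : L) = 0 := by
      rw [hn]
      rw [CharP.cast_eq_zero_iff L p]
      refine Nat.Prime.dvd_choose_pow hpp (by omega) ?_
      rw [← hn]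
      omega
    rw [h, zero_mul, monomial_zero_right]
  induction j with
  | zero =>
    intro i hi _
    rw [zero_mul, pow_zero]
    have h : (1 : L[X]) = C 1 := by simp
    rw [h]
    exact hasseDeriv_C i 1 hi
  | succ j ih =>
    intro i hi hiQ
    rw [Nat.succ_mul, pow_add, hasseDeriv_mul]
    apply Finset.sum_eq_zero
    rintro ⟨a, b⟩ hab
    rw [Finset.HasAntidiagonal.mem_antidiagonal] at hab
    simp only at hab ⊢
    rcases Nat.eq_zero_or_pos a with ha | ha
    · rw [base b (by omega) (by omega), mul_zero]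
    · rw [ih a ha (by omega), zero_mul]

theorem se_hasse_mul (g : L[X]) (j k : ℕ) (hk : k < Fintype.card L) :
    hasseDeriv k (g * X ^ (j * Fintype.card L)) = hasseDeriv k g * X ^ (j * Fintype.card L) := by
  rw [hasseDeriv_mul]
  rw [Finset.sum_eq_single (k, 0)]
  · simp
  · rintro ⟨a, b⟩ hab hne
    rw [Finset.HasAntidiagonal.mem_antidiagonal] at hab
    simp only at hab ⊢
    rcases Nat.eq_zero_or_pos b with hb | hb
    · exfalso
      apply hne
      subst hb
      simp at hab
      rw [hab]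
    · rw [se_hasse_X_pow_card j b hb (by omega), mul_zero]
  · intro h
    simp at h

/-- The map `G_k`. -/
noncomputable def seG (f : L[X]) (ε : L) (D : ℕ → (L[X] →ₗ[L] L[X])) (d J k : ℕ) :
    ((Fin J → degreeLT L d) × (Fin J → degreeLT L d)) →ₗ[L] L[X] where
  toFun v := ∑ j : Fin J, X ^ (j : ℕ) * (f ^ k * hasseDeriv k (v.1 j : L[X]) + C ε * D k (v.2 j : L[X]))
  map_add' v w := by
    rw [← Finset.sum_add_distrib]
    apply Finset.sum_congr rfl
    intro j _
    simp only [Prod.fst_add, Prod.snd_add, Pi.add_apply, Submodule.coe_add, map_add]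
    ring
  map_smul' a v := by
    simp only [RingHom.id_apply]
    rw [Finset.smul_sum]
    apply Finset.sum_congr rfl
    intro j _
    simp only [Prod.smul_fst, Prod.smul_snd, Pi.smul_apply, Submodule.coe_smul, map_smul]
    simp only [smul_eq_C_mul]
    ring

omit [Fintype L] in
theorem se_natDegree_lt {d : ℕ} (hd : 0 < d) {r : L[X]} (hr : r ∈ degreeLT L d) : r.natDegree < d := by
  rw [mem_degreeLT] at hr
  by_cases h : r = 0
  · rw [h]
    simpa using hd
  · exact (natDegree_lt_iff_degree_lt h).2 hr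

theorem se_G_mem (f : L[X]) (hf3 : f.natDegree ≤ 3) (ε : L) (D : ℕ → (L[X] →ₗ[L] L[X]))
    (hD : ∀ k s, (D k s).natDegree ≤ s.natDegree + 2 * k) {d J : ℕ} (hd : 0 < d) (k : ℕ)
    (v : (Fin J → degreeLT L d) × (Fin J → degreeLT L d)) :
    seG f ε D d J k v ∈ degreeLT L (J + d + 2 * k) := by
  rw [mem_degreeLT]
  have hJ : 0 < J ∨ J = 0 := by omega
  rcases hJ with hJ | hJ
  swap
  · subst hJ
    simp [seG]
    exact WithBot.bot_lt_coe _
  have h : (seG f ε D d J k v).natDegree ≤ (J - 1) + (d - 1) + 2 * k := by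
    change (∑ j : Fin J, X ^ (j : ℕ) * (f ^ k * hasseDeriv k (v.1 j : L[X]) + C ε * D k (v.2 j : L[X]))).natDegree ≤ _
    apply natDegree_sum_le_of_forall_le
    intro j _
    have hj := j.2
    have h1 : (X ^ (j : ℕ) : L[X]).natDegree ≤ J - 1 := by
      rw [natDegree_X_pow]
      omega
    have h2 : (f ^ k * hasseDeriv k (v.1 j : L[X])).natDegree ≤ (d - 1) + 2 * k := by
      by_cases hk : (v.1 j : L[X]).natDegree < k
      · rw [hasseDeriv_eq_zero_of_lt_natDegree _ _ hk]
        simp
      · have h3 : (f ^ k).natDegree ≤ k * 3 := natDegree_pow_le_of_le k hf3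
        have h4 := natDegree_hasseDeriv_le (v.1 j : L[X]) k
        have h5 := se_natDegree_lt hd (v.1 j).2
        have h6 := natDegree_mul_le (p := f ^ k) (q := hasseDeriv k (v.1 j : L[X]))
        omega
    have h3 : (C ε * D k (v.2 j : L[X])).natDegree ≤ (d - 1) + 2 * k := by
      have h4 := natDegree_C_mul_le ε (D k (v.2 j : L[X]))
      have h5 := hD k (v.2 j : L[X])
      have h6 := se_natDegree_lt hd (v.2 j).2
      omega
    have h4 := natDegree_add_le_of_le h2 h3
    have h5 := natDegree_mul_le (p := (X ^ (j : ℕ) : L[X]))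
      (q := f ^ k * hasseDeriv k (v.1 j : L[X]) + C ε * D k (v.2 j : L[X]))
    simp only [max_self] at h4
    omega
  refine lt_of_le_of_lt degree_le_natDegree ?_
  have : (seG f ε D d J k v).natDegree < J + d + 2 * k := by omega
  exact_mod_cast this

omit [Fintype L] in
theorem se_finrank (n : ℕ) : Module.finrank L (degreeLT L n) = n := by
  rw [LinearEquiv.finrank_eq (degreeLTEquiv L n)]
  simp

theorem se_kernel (f : L[X]) (hf3 : f.natDegree ≤ 3) (ε : L) (D : ℕ → (L[X] →ₗ[L] L[X]))
    (hD : ∀ k s, (D k s).natDegree ≤ s.natDegree + 2 * k) {d J l : ℕ} (hd : 0 < d)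
    (hJ : l * (J + d + l) < 2 * J * d) :
    ∃ v : (Fin J → degreeLT L d) × (Fin J → degreeLT L d), v ≠ 0 ∧ ∀ k < l, seG f ε D d J k v = 0 := by
  have hfd : ∀ n : ℕ, Module.Finite L (degreeLT L n) := fun n => Module.Finite.equiv (degreeLTEquiv L n).symm
  set Φ : ((Fin J → degreeLT L d) × (Fin J → degreeLT L d)) →ₗ[L]
      (∀ k : Fin l, degreeLT L (J + d + 2 * (k : ℕ))) :=
    LinearMap.pi fun k => LinearMap.codRestrict _ (seG f ε D d J k) (fun v => se_G_mem f hf3 ε D hD hd k v) with hΦ
  have h1 : Module.finrank L (∀ k : Fin l, degreeLT L (J + d + 2 * (k : ℕ))) <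
      Module.finrank L ((Fin J → degreeLT L d) × (Fin J → degreeLT L d)) := by
    rw [Module.finrank_pi_fintype, Module.finrank_prod, Module.finrank_pi_fintype]
    simp only [se_finrank]
    rw [Fin.sum_univ_eq_sum_range (fun k => J + d + 2 * k) l, Finset.sum_add_distrib, ← Finset.mul_sum]
    have h2 := Finset.sum_range_id_mul_two l
    simp only [Finset.sum_const, Finset.card_range, Finset.card_univ, Fintype.card_fin, smul_eq_mul]
    have h3 : l * (l - 1) ≤ l * l := Nat.mul_le_mul_left l (by omega)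
    nlinarith
  have h2 := LinearMap.ker_ne_bot_of_finrank_lt (f := Φ) h1
  obtain ⟨v, hv, hv0⟩ := Submodule.exists_mem_ne_zero_of_ne_bot h2
  refine ⟨v, hv0, fun k hk => ?_⟩
  rw [LinearMap.mem_ker] at hv
  have h3 := congrFun hv ⟨k, hk⟩
  have h4 := congrArg Subtype.val h3
  simpa [hΦ] using h4

theorem exists_aux (hodd : Odd (Fintype.card L)) {f : L[X]} (hf : f.Monic)
    (hf3 : f.natDegree = 3) (hf0 : f.coeff 0 ≠ 0) {d J l : ℕ} (hd : 2 * d + 1 < Fintype.card L)
    (hl : l ≤ Fintype.card L) (hJ : l * (J + d + l) < 2 * J * d) (ε : L) (hε : ε ^ 2 = 1) :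
    ∃ R : L[X], R ≠ 0 ∧
      R.natDegree + 1 ≤ d + 3 * ((Fintype.card L - 1) / 2) + (J - 1) * Fintype.card L ∧
      ∀ x : L, (f.eval x) ^ ((Fintype.card L - 1) / 2) = ε → (X - C x) ^ l ∣ R := by
  classical
  have hd0 : 0 < d := by
    rcases Nat.eq_zero_or_pos d with h | h
    · subst h; simp at hJ
    · exact h
  have hJ0 : 0 < J := by
    rcases Nat.eq_zero_or_pos J with h | h
    · subst h; simp at hJ
    · exact h
  set c := (Fintype.card L - 1) / 2 with hc
  have hcard : 1 < Fintype.card L := Fintype.one_lt_card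
  have hc0 : c ≠ 0 := by
    obtain ⟨m, hm⟩ := hodd
    omega
  have hε0 : ε ≠ 0 := by
    intro h
    rw [h] at hε
    simp at hε
  choose D hD1 hD2 using fun k => exists_D f hf3.le c k
  obtain ⟨v, hv0, hv⟩ := se_kernel f hf3.le ε D hD1 (l := l) hd0 hJ
  set r : ℕ → L[X] := fun j => if h : j < J then (v.1 ⟨j, h⟩ : L[X]) else 0 with hr
  set s : ℕ → L[X] := fun j => if h : j < J then (v.2 ⟨j, h⟩ : L[X]) else 0 with hs
  have hrd : ∀ j, r j ∈ degreeLT L d := by
    intro j
    simp only [hr]
    split_ifs with h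
    · exact (v.1 ⟨j, h⟩).2
    · exact Submodule.zero_mem _
  have hsd : ∀ j, s j ∈ degreeLT L d := by
    intro j
    simp only [hs]
    split_ifs with h
    · exact (v.2 ⟨j, h⟩).2
    · exact Submodule.zero_mem _
  have hG : ∀ k < l, ∑ j ∈ Finset.range J, X ^ j * (f ^ k * hasseDeriv k (r j) + C ε * D k (s j)) = 0 := by
    intro k hk
    rw [← hv k hk, ← Fin.sum_univ_eq_sum_range (fun j => X ^ j * (f ^ k * hasseDeriv k (r j) + C ε * D k (s j))) J]
    apply Finset.sum_congr rfl
    intro j _
    simp only [hr, hs, j.2, dif_pos]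
  refine ⟨∑ j ∈ Finset.range J, (r j + s j * f ^ c) * X ^ (j * Fintype.card L), ?_, ?_, ?_⟩
  · intro h0
    have h1 := step_nonvanish hodd hf hf3 hf0 hd r s (fun j => mem_degreeLT.1 (hrd j))
      (fun j => mem_degreeLT.1 (hsd j)) h0
    apply hv0
    ext j
    · have h2 := (h1 j j.2).1
      simp only [hr, j.2, dif_pos] at h2
      simp [h2]
    · have h2 := (h1 j j.2).2
      simp only [hs, j.2, dif_pos] at h2
      simp [h2]
  · have h : (∑ j ∈ Finset.range J, (r j + s j * f ^ c) * X ^ (j * Fintype.card L)).natDegree ≤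
        (d - 1) + 3 * c + (J - 1) * Fintype.card L := by
      apply natDegree_sum_le_of_forall_le
      intro j hj
      rw [Finset.mem_range] at hj
      have h1 := se_natDegree_lt hd0 (hrd j)
      have h2 := se_natDegree_lt hd0 (hsd j)
      have h3 : (f ^ c).natDegree ≤ c * 3 := natDegree_pow_le_of_le c hf3.le
      have h4 := natDegree_mul_le (p := s j) (q := f ^ c)
      have h5 : (r j + s j * f ^ c).natDegree ≤ (d - 1) + 3 * c := by
        have h6 := natDegree_add_le (r j) (s j * f ^ c)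
        have h7 : max (r j).natDegree (s j * f ^ c).natDegree ≤ (d - 1) + 3 * c := max_le (by omega) (by omega)
        omega
      have h6 := natDegree_mul_le (p := r j + s j * f ^ c) (q := (X ^ (j * Fintype.card L) : L[X]))
      rw [natDegree_X_pow] at h6
      have h7 : j * Fintype.card L ≤ (J - 1) * Fintype.card L := Nat.mul_le_mul_right _ (by omega)
      omega
    omega
  · intro x hx
    have hfx : f.eval x ≠ 0 := by
      intro h
      rw [h, zero_pow hc0] at hx
      exact hε0 hx.symm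
    rw [X_sub_C_pow_dvd_iff, ← taylor_apply, X_pow_dvd_iff]
    intro k hk
    rw [taylor_coeff]
    have hkQ : k < Fintype.card L := by omega
    have h1 : f ^ k * hasseDeriv k (∑ j ∈ Finset.range J, (r j + s j * f ^ c) * X ^ (j * Fintype.card L)) =
        ∑ j ∈ Finset.range J, (f ^ k * hasseDeriv k (r j) + f ^ c * D k (s j)) * X ^ (j * Fintype.card L) := by
      rw [map_sum, Finset.mul_sum]
      apply Finset.sum_congr rfl
      intro j _
      rw [se_hasse_mul _ _ _ hkQ, map_add, mul_comm (s j), ← hD2 k (s j)]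
      ring
    have h2 := congrArg (eval x) h1
    have h3 := congrArg (eval x) (hG k hk)
    rw [eval_mul, eval_pow, eval_finsetSum] at h2
    rw [eval_finsetSum, eval_zero] at h3
    have h4 : ∑ j ∈ Finset.range J, eval x ((f ^ k * hasseDeriv k (r j) + f ^ c * D k (s j)) * X ^ (j * Fintype.card L)) =
        ∑ j ∈ Finset.range J, eval x (X ^ j * (f ^ k * hasseDeriv k (r j) + C ε * D k (s j))) := by
      apply Finset.sum_congr rfl
      intro j _
      simp only [eval_mul, eval_add, eval_pow, eval_X, eval_C]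
      rw [pow_mul, FiniteField.pow_card, hx]
      ring
    rw [h4, h3] at h2
    rcases mul_eq_zero.1 h2 with h | h
    · exact absurd h (pow_ne_zero _ hfx)
    · exact h

end Pool.Agent.Helper31.AR
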