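import Pool.Agent.Helper31.AR.RhoSum

/-!
# AR-09: the translation identity

Write `m = 6 n + 1 + a = deg v`, `w = minv v h` (`v ∣ w h - 1`, since `v` is irreducible and `deg h = D < deg v`,
`h ≠ 0`, so `IsCoprime h v`). For `y ∈ PN F (2 n + 1)` the map `k ↦ k + h y` is a bijection of `PN F (2 n + a)`
(`deg (h y) ≤ D + 2 n < 2 n + a`: `h y ∈ PN F (2 n + a)` by `mul_mem_PN`, `sum_PN_add`). Modulo `v`

`(k + h y) ^ 3 w ^ 2 ≡ k ^ 3 w ^ 2 + (3 k ^ 2 w) y + 3 k y ^ 2 + h y ^ 3`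

(use `h w ≡ 1`). `rho v (3 k y ^ 2) = 0`: its degree is `≤ (2 n + a - 1) + 4 n = 6 n + a - 1 < m - 1 = 6 n + a`.
`rho v (h y ^ 3) = 0`: its degree is `≤ D + 6 n < 6 n + a`. Hence, with `f k = ψ (rho v (k ^ 3 w ^ 2))`,
`q ^ (2 n + 1) * inn = ∑_y ∑_k f (k + h y) = ∑_k f k ∑_y ψ (rho v ((3 k ^ 2 w) y))` and by `sum_psi_rho` the inner sum
is `q ^ (2 n + 1)` if `(3 k ^ 2 w) %ₘ v ∈ PN F (m - (2 n + 1)) = PN F (4 n + a)` and `0` otherwise. As `3 ≠ 0` in `F`,
`(3 k ^ 2 w) %ₘ v ∈ PN F (4 n + a)` iff `(k ^ 2 w) %ₘ v ∈ PN F (4 n + a)` (`C_mul_mem_PN`).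
-/

set_option autoImplicit false

open Polynomial

namespace Pool.Agent.Helper31.AR

variable {F : Type} [Field F] [Fintype F]

open Classical in
theorem inn_translation (ψ : AddChar F ℂ) (hψ : ψ ≠ 1) (h3 : (3 : F) ≠ 0) {n a D : ℕ} (hD : D < a)
    {v h : F[X]} (hv : v ∈ MN F (6 * n + 1 + a)) (hirr : Irreducible v) (hh : h ∈ MN F D) :
    inn ψ (2 * n + a) v h =
      ∑ k ∈ (PN F (2 * n + a)).filter (fun k => (k ^ 2 * minv v h) %ₘ v ∈ PN F (4 * n + a)),
        ψ (rho v (k ^ 3 * minv v h ^ 2)) := by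
  have hvm := monic_of_mem_MN hv
  have hvd := natDegree_of_mem_MN hv
  have hhm := monic_of_mem_MN hh
  have hhd := natDegree_of_mem_MN hh
  have hcop : IsCoprime h v := by
    refine (hirr.coprime_iff_not_dvd.2 ?_).symm
    intro hdvd
    have := natDegree_le_of_dvd hdvd hhm.ne_zero
    omega
  have hw := minv_spec hcop
  set w := minv v h with hwdef
  have hhP : h ∈ PN F (D + 1) := by
    rw [mem_PN_iff_natDegree (Nat.succ_pos D)]
    omega
  -- the translation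
  have hshift : ∀ y ∈ PN F (2 * n + 1), ∑ k ∈ PN F (2 * n + a), ψ (rho v ((k + h * y) ^ 3 * w ^ 2)) =
      inn ψ (2 * n + a) v h := by
    intro y hy
    have h1 : h * y ∈ PN F (2 * n + a) := PN_mono (by omega) (mul_mem_PN hhP hy)
    exact sum_PN_add h1 (fun k => ψ (rho v (k ^ 3 * w ^ 2)))
  have hexp : ∀ y ∈ PN F (2 * n + 1), ∀ k ∈ PN F (2 * n + a),
      rho v ((k + h * y) ^ 3 * w ^ 2) =
        rho v (k ^ 3 * w ^ 2) + rho v ((C 3 * (k ^ 2 * w)) * y) := by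
    intro y hy k hk
    have hy2 : y * y ∈ PN F (4 * n + 1) := PN_mono (by omega) (mul_mem_PN hy hy)
    have hy3 : y * y * y ∈ PN F (6 * n + 1) := PN_mono (by omega) (mul_mem_PN hy2 hy)
    have e1 : rho v (C 3 * (k * (y * y))) = 0 := by
      apply rho_eq_zero hvm
      have : C 3 * (k * (y * y)) ∈ PN F (6 * n + a) :=
        C_mul_mem_PN _ (PN_mono (by omega) (mul_mem_PN hk hy2))
      rw [mem_PN] at this
      rw [hvd, show 6 * n + 1 + a - 1 = 6 * n + a by omega]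
      exact this
    have e2 : rho v (h * (y * y * y)) = 0 := by
      apply rho_eq_zero hvm
      have : h * (y * y * y) ∈ PN F (6 * n + a) := PN_mono (by omega) (mul_mem_PN hhP hy3)
      rw [mem_PN] at this
      rw [hvd, show 6 * n + 1 + a - 1 = 6 * n + a by omega]
      exact this
    have e3 : rho v ((k + h * y) ^ 3 * w ^ 2) =
        rho v (k ^ 3 * w ^ 2 + (C 3 * (k ^ 2 * w)) * y + C 3 * (k * (y * y)) + h * (y * y * y)) := by
      apply rho_congr hvm
      obtain ⟨t, ht⟩ := hw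
      have hC : (C (3 : F) : F[X]) = 3 := map_ofNat C 3
      refine ⟨t * (3 * k ^ 2 * w * y + 3 * k * y ^ 2 * (w * h + 1) + h * y ^ 3 * (w * h + 1)), ?_⟩
      rw [hC]
      linear_combination (3 * k ^ 2 * w * y + 3 * k * y ^ 2 * (w * h + 1) +
        h * y ^ 3 * (w * h + 1)) * ht
    rw [e3, rho_add, rho_add, rho_add, e1, e2, add_zero, add_zero]
  -- the inner sum
  have hinner : ∀ k ∈ PN F (2 * n + a),
      ∑ y ∈ PN F (2 * n + 1), ψ (rho v ((C 3 * (k ^ 2 * w)) * y)) =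
        if (k ^ 2 * w) %ₘ v ∈ PN F (4 * n + a) then ((Fintype.card F : ℂ)) ^ (2 * n + 1) else 0 := by
    intro k _
    rw [sum_psi_rho ψ hψ hvm]
    have e1 : (C 3 * (k ^ 2 * w)) %ₘ v = C 3 * ((k ^ 2 * w) %ₘ v) := by
      rw [← smul_eq_C_mul, smul_modByMonic, smul_eq_C_mul]
    have e2 : v.natDegree - (2 * n + 1) = 4 * n + a := by rw [hvd]; omega
    have e3 : C 3 * ((k ^ 2 * w) %ₘ v) ∈ PN F (4 * n + a) ↔ (k ^ 2 * w) %ₘ v ∈ PN F (4 * n + a) := by
      constructor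
      · intro h0
        have h1 := C_mul_mem_PN (3 : F)⁻¹ h0
        rwa [← mul_assoc, ← C_mul, inv_mul_cancel₀ h3, C_1, one_mul] at h1
      · exact fun h0 => C_mul_mem_PN _ h0
    rw [e1, e2]
    by_cases h0 : (k ^ 2 * w) %ₘ v ∈ PN F (4 * n + a)
    · rw [if_pos (e3.2 h0), if_pos h0]
    · rw [if_neg (fun h1 => h0 (e3.1 h1)), if_neg h0]
  -- double counting
  have hq : ((Fintype.card F : ℂ)) ^ (2 * n + 1) ≠ 0 := by
    apply pow_ne_zero
    exact_mod_cast Fintype.card_ne_zero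
  have hmain : ((Fintype.card F : ℂ)) ^ (2 * n + 1) * inn ψ (2 * n + a) v h =
      ((Fintype.card F : ℂ)) ^ (2 * n + 1) *
        ∑ k ∈ (PN F (2 * n + a)).filter (fun k => (k ^ 2 * w) %ₘ v ∈ PN F (4 * n + a)),
          ψ (rho v (k ^ 3 * w ^ 2)) := by
    calc ((Fintype.card F : ℂ)) ^ (2 * n + 1) * inn ψ (2 * n + a) v h
        = ∑ y ∈ PN F (2 * n + 1), inn ψ (2 * n + a) v h := by
          rw [Finset.sum_const, card_PN, nsmul_eq_mul]
          push_cast
          rfl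
      _ = ∑ y ∈ PN F (2 * n + 1), ∑ k ∈ PN F (2 * n + a),
            ψ (rho v ((k + h * y) ^ 3 * w ^ 2)) :=
          Finset.sum_congr rfl fun y hy => (hshift y hy).symm
      _ = ∑ y ∈ PN F (2 * n + 1), ∑ k ∈ PN F (2 * n + a),
            ψ (rho v (k ^ 3 * w ^ 2)) * ψ (rho v ((C 3 * (k ^ 2 * w)) * y)) := by
          refine Finset.sum_congr rfl fun y hy => Finset.sum_congr rfl fun k hk => ?_
          rw [hexp y hy k hk, AddChar.map_add_eq_mul]
      _ = ∑ k ∈ PN F (2 * n + a), ψ (rho v (k ^ 3 * w ^ 2)) *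
            ∑ y ∈ PN F (2 * n + 1), ψ (rho v ((C 3 * (k ^ 2 * w)) * y)) := by
          rw [Finset.sum_comm]
          exact Finset.sum_congr rfl fun k _ => (Finset.mul_sum _ _ _).symm
      _ = ∑ k ∈ PN F (2 * n + a), (if (k ^ 2 * w) %ₘ v ∈ PN F (4 * n + a) then
            ((Fintype.card F : ℂ)) ^ (2 * n + 1) * ψ (rho v (k ^ 3 * w ^ 2)) else 0) := by
          refine Finset.sum_congr rfl fun k hk => ?_
          rw [hinner k hk]
          split_ifs
          · ring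
          · ring
      _ = _ := by
          rw [← Finset.sum_filter, Finset.mul_sum]
  exact mul_left_cancel₀ hq hmain

end Pool.Agent.Helper31.AR
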