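import Pool.Agent.Helper31.AR.SqfreeDec
import Pool.Agent.Helper31.AR.Factor
import Pool.Agent.Helper31.AR.JBasic

/-!
# AR-14: the formula for `X0`

Combine `sum_MN_sqfree` (with `G h = J h v * ∑ ...`) and `sum_kset_zero`: for `v` irreducible of degree
`6 n + 1 + a > D`, `c` and `s` (of smaller degree, nonzero) are coprime to `v`. And
`J (c s ^ 2) v = J c v * (J s v) ^ 2 = J c v` (`J_mul_left`, `J_mul_self`; `IsCoprime s v`).
-/

set_option autoImplicit false

open Polynomial

namespace Pool.Agent.Helper31.AR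

variable {F : Type} [Field F] [Fintype F]

open Classical in
theorem X0_eq (ψ : AddChar F ℂ) {n a D : ℕ} (hD : D < a) {v : F[X]}
    (hv : v ∈ MN F (6 * n + 1 + a)) (hirr : Irreducible v) :
    X0 ψ n a D v = ∑ σ ∈ Finset.range (D / 2 + 1), ∑ s ∈ MN F σ,
      ∑ c ∈ (MN F (D - 2 * σ)).filter (fun c => Squarefree c),
        (J c v : ℂ) * Aint ψ ((4 * n + a - D + 1) / 2) v (c * s ^ 2) * Cs ψ v c s := by
  unfold X0
  rw [sum_MN_sqfree D (fun h => (J h v : ℂ) * ∑ k ∈ kset n a D v h 0, Phi ψ v h k)]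
  have hcop : ∀ w : F[X], w.Monic → w.natDegree ≤ D → IsCoprime w v := by
    intro w hw hwD
    refine IsCoprime.symm (hirr.coprime_iff_not_dvd.2 ?_)
    intro hd
    have h1 := natDegree_le_of_dvd hd hw.ne_zero
    rw [natDegree_of_mem_MN hv] at h1
    omega
  refine Finset.sum_congr rfl fun σ hσ => Finset.sum_congr rfl fun s hs =>
    Finset.sum_congr rfl fun c hc => ?_
  rw [Finset.mem_range] at hσ
  rw [Finset.mem_filter] at hc
  obtain ⟨hc, hsq⟩ := hc
  have hs1 := monic_of_mem_MN hs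
  have hs2 := natDegree_of_mem_MN hs
  have hc1 := monic_of_mem_MN hc
  have hc2 := natDegree_of_mem_MN hc
  have hcs : IsCoprime s v := hcop s hs1 (by omega)
  have hcc : IsCoprime c v := hcop c hc1 (by omega)
  have h1 := sum_kset_zero ψ hD (γ := D - 2 * σ) (σ := σ) (by omega) hv hc hsq hs hcc hcs
  have h2 : J (c * s ^ 2) v = J c v := by
    rw [J_mul_left hc1 (hs1.pow 2), pow_two, J_mul_left hs1 hs1, J_mul_self hs1 hcs, mul_one]
  change (J (c * s ^ 2) v : ℂ) * (∑ k ∈ kset n a D v (c * s ^ 2) 0, Phi ψ v (c * s ^ 2) k) = _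
  rw [h1, h2, mul_assoc]

end Pool.Agent.Helper31.AR
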